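import Pool.Agent.MP_c3c849_pr.Defs

/-!
# MP_c3c849_pr: automorphisms of the canopy tree (module S2 of T2)
-/

namespace Pool.Agent.MP_c3c849_pr

namespace S2

/-- The parent map of the canopy tree. -/
def par (b : ℕ) (z : ℕ × ℕ) : ℕ × ℕ := (z.1 + 1, z.2 / b)

theorem adj_iff (b : ℕ) (z w : ℕ × ℕ) :
    (Canopy b).Adj z w ↔ w = par b z ∨ z = par b w := by
  simp only [Canopy, par, Prod.ext_iff]

theorem adj_map {b : ℕ} (φ : (ℕ × ℕ) ≃ (ℕ × ℕ)) (h : ∀ z, φ (par b z) = par b (φ z))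
    (z w : ℕ × ℕ) : (Canopy b).Adj (φ z) (φ w) ↔ (Canopy b).Adj z w := by
  rw [adj_iff, adj_iff, ← h, ← h, φ.apply_eq_iff_eq, φ.apply_eq_iff_eq]

/-- Swap the subtrees of `(j, 0)` and `(j, c)`. -/
def sw (b j c : ℕ) (z : ℕ × ℕ) : ℕ × ℕ :=
  if z.1 ≤ j then
    (z.1, Equiv.swap 0 c (z.2 / b ^ (j - z.1)) * b ^ (j - z.1) + z.2 % b ^ (j - z.1))
  else z

theorem sw_fst (b j c : ℕ) (z : ℕ × ℕ) : (sw b j c z).1 = z.1 := by
  unfold sw; split_ifs <;> rfl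

theorem sw_sw {b : ℕ} (hb : 2 ≤ b) (j c : ℕ) (z : ℕ × ℕ) : sw b j c (sw b j c z) = z := by
  by_cases h : z.1 ≤ j
  · have hB : 0 < b ^ (j - z.1) := Nat.pow_pos (by omega)
    have e1 : sw b j c z =
      (z.1, Equiv.swap 0 c (z.2 / b ^ (j - z.1)) * b ^ (j - z.1) + z.2 % b ^ (j - z.1)) := by
      simp [sw, h]
    rw [e1]
    simp only [sw, h, if_true]
    have e2 : (Equiv.swap 0 c (z.2 / b ^ (j - z.1)) * b ^ (j - z.1) + z.2 % b ^ (j - z.1)) /
        b ^ (j - z.1) = Equiv.swap 0 c (z.2 / b ^ (j - z.1)) := by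
      rw [add_comm, Nat.add_mul_div_right _ _ hB, Nat.div_eq_of_lt (Nat.mod_lt _ hB), zero_add]
    have e3 : (Equiv.swap 0 c (z.2 / b ^ (j - z.1)) * b ^ (j - z.1) + z.2 % b ^ (j - z.1)) %
        b ^ (j - z.1) = z.2 % b ^ (j - z.1) := by
      rw [add_comm, Nat.add_mul_mod_self_right, Nat.mod_mod]
    rw [e2, e3, Equiv.swap_apply_self, mul_comm, Nat.div_add_mod]
  · simp [sw, h]

theorem swap_div {b c : ℕ} (hc : c < b) (q : ℕ) : Equiv.swap 0 c q / b = q / b := by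
  rcases eq_or_ne q 0 with rfl | h0
  · rw [Equiv.swap_apply_left, Nat.div_eq_of_lt hc, Nat.zero_div]
  rcases eq_or_ne q c with rfl | h1
  · rw [Equiv.swap_apply_right, Nat.div_eq_of_lt hc, Nat.zero_div]
  rw [Equiv.swap_apply_of_ne_of_ne h0 h1]

theorem sw_par {b : ℕ} (hb : 2 ≤ b) {j c : ℕ} (hc : c < b) (z : ℕ × ℕ) :
    sw b j c (par b z) = par b (sw b j c z) := by
  obtain ⟨i, y⟩ := z
  rcases lt_trichotomy i j with h | h | h
  · obtain ⟨k, rfl⟩ : ∃ k, j = i + k + 1 := ⟨j - i - 1, by omega⟩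
    have e1 : i + k + 1 - i = k + 1 := by omega
    have e2 : i + k + 1 - (i + 1) = k := by omega
    have h1 : i ≤ i + k + 1 := by omega
    have h2 : i + 1 ≤ i + k + 1 := by omega
    simp only [sw, par, h1, h2, if_true, e1, e2]
    refine Prod.ext rfl ?_
    show Equiv.swap 0 c (y / b / b ^ k) * b ^ k + y / b % b ^ k =
      (Equiv.swap 0 c (y / b ^ (k + 1)) * b ^ (k + 1) + y % b ^ (k + 1)) / b
    have hb0 : 0 < b := by omega
    have e3 : y / b / b ^ k = y / b ^ (k + 1) := by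
      rw [Nat.div_div_eq_div_mul, pow_succ, mul_comm]
    have e4 : y % b ^ (k + 1) / b = y / b % b ^ k := by
      rw [pow_succ, mul_comm, Nat.mod_mul_right_div_self]
    rw [e3, ← e4]
    generalize Equiv.swap 0 c (y / b ^ (k + 1)) = q
    generalize y % b ^ (k + 1) = r
    rw [pow_succ, ← mul_assoc, add_comm (q * b ^ k * b) r, Nat.add_mul_div_right _ _ hb0,
      add_comm]
  · subst h
    have h2 : ¬ (i + 1 ≤ i) := by omega
    simp only [sw, par, le_refl, if_true, h2, if_false, Nat.sub_self, pow_zero, Nat.div_one,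
      mul_one, Nat.mod_one, add_zero]
    rw [swap_div hc]
  · have h1 : ¬ (i ≤ j) := by omega
    have h2 : ¬ (i + 1 ≤ j) := by omega
    simp [sw, par, h1, h2]

/-- The swap as a permutation. -/
def swE {b : ℕ} (hb : 2 ≤ b) (j c : ℕ) : (ℕ × ℕ) ≃ (ℕ × ℕ) :=
  Function.Involutive.toPerm (sw b j c) (sw_sw hb j c)

theorem exists_aut {b : ℕ} (hb : 2 ≤ b) (x : ℕ) : ∀ j, ∃ φ : (ℕ × ℕ) ≃ (ℕ × ℕ),
    (∀ z, φ (par b z) = par b (φ z)) ∧ (∀ z, (φ z).1 = z.1) ∧ φ (j, x) = (j, 0) := by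
  induction x using Nat.strong_induction_on with
  | _ x ih =>
    intro j
    rcases Nat.eq_zero_or_pos x with rfl | hx
    · exact ⟨Equiv.refl _, fun _ => rfl, fun _ => rfl, rfl⟩
    obtain ⟨ψ, h1, h2, h3⟩ := ih (x / b) (Nat.div_lt_self hx (by omega)) (j + 1)
    have h4 : par b (ψ (j, x)) = (j + 1, 0) := by
      rw [← h1]; exact h3
    have h5 : (ψ (j, x)).1 = j := h2 _
    have h6 : (ψ (j, x)).2 / b = 0 := (Prod.ext_iff.mp h4).2
    have h7 : (ψ (j, x)).2 < b := by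
      rcases Nat.div_eq_zero_iff.mp h6 with h | h
      · omega
      · exact h
    refine ⟨ψ.trans (swE hb j (ψ (j, x)).2), fun z => ?_, fun z => ?_, ?_⟩
    · show sw b j _ (ψ (par b z)) = par b (sw b j _ (ψ z))
      rw [h1, sw_par hb h7]
    · show (sw b j _ (ψ z)).1 = z.1
      rw [sw_fst, h2]
    · show sw b j _ (ψ (j, x)) = (j, 0)
      have h8 : ψ (j, x) = (j, (ψ (j, x)).2) := Prod.ext h5 rfl
      generalize (ψ (j, x)).2 = c at *
      rw [h8]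
      simp [sw, Nat.mod_one]

end S2

/-- S2: every vertex can be moved to the first vertex of its level. -/
theorem exists_canopy_aut (b : ℕ) (hb : 2 ≤ b) (j x : ℕ) : ∃ φ : (ℕ × ℕ) ≃ (ℕ × ℕ),
    (∀ z w, (Canopy b).Adj (φ z) (φ w) ↔ (Canopy b).Adj z w) ∧ (∀ z, (φ z).1 = z.1) ∧
    φ (j, x) = (j, 0) := by
  obtain ⟨φ, h1, h2, h3⟩ := S2.exists_aut hb x j
  exact ⟨φ, S2.adj_map φ h1, h2, h3⟩

end Pool.Agent.MP_c3c849_pr
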