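import Pool.Agent.MP_c3c849_pr.Defs2

/-!
# MP_c3c849_pr, module T1b: measurability of connection events
-/

open MeasureTheory ProbabilityTheory
open scoped ENNReal

namespace Pool.Agent.MP_c3c849_pr

theorem T1b.measurableSet_walk {V Ω : Type*} [Countable V] [MeasurableSpace Ω]
    {Γ : Ω → SimpleGraph V} (h : ∀ x y, MeasurableSet {ω | (Γ ω).Adj x y}) (n : ℕ) :
    ∀ x y : V, MeasurableSet {ω | ∃ w : (Γ ω).Walk x y, w.length = n} := by
  induction n with
  | zero =>
    intro x y
    by_cases hxy : x = y
    · subst hxy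
      have : {ω | ∃ w : (Γ ω).Walk x x, w.length = 0} = Set.univ := by
        ext ω
        simp only [Set.mem_setOf_eq, Set.mem_univ, iff_true]
        exact ⟨SimpleGraph.Walk.nil, rfl⟩
      rw [this]
      exact MeasurableSet.univ
    · have : {ω | ∃ w : (Γ ω).Walk x y, w.length = 0} = ∅ := by
        ext ω
        simp only [Set.mem_setOf_eq, Set.mem_empty_iff_false, iff_false, not_exists]
        intro w hw
        exact hxy (SimpleGraph.Walk.eq_of_length_eq_zero hw)
      rw [this]
      exact MeasurableSet.empty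
  | succ n ih =>
    intro x y
    have : {ω | ∃ w : (Γ ω).Walk x y, w.length = n + 1} =
        ⋃ z, {ω | (Γ ω).Adj x z} ∩ {ω | ∃ w : (Γ ω).Walk z y, w.length = n} := by
      ext ω
      simp only [Set.mem_setOf_eq, Set.mem_iUnion, Set.mem_inter_iff]
      constructor
      · rintro ⟨w, hw⟩
        cases w with
        | nil => simp at hw
        | cons hadj w' =>
          refine ⟨_, hadj, w', ?_⟩
          simpa using hw
      · rintro ⟨z, hadj, w', hw'⟩
        exact ⟨SimpleGraph.Walk.cons hadj w', by simp [hw']⟩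
    rw [this]
    exact MeasurableSet.iUnion fun z => (h x z).inter (ih z y)

theorem measurableSet_reachable {V Ω : Type*} [Countable V] [MeasurableSpace Ω]
    {Γ : Ω → SimpleGraph V} (h : ∀ x y, MeasurableSet {ω | (Γ ω).Adj x y}) (x y : V) :
    MeasurableSet {ω | (Γ ω).Reachable x y} := by
  have : {ω | (Γ ω).Reachable x y} = ⋃ n : ℕ, {ω | ∃ w : (Γ ω).Walk x y, w.length = n} := by
    ext ω
    simp only [Set.mem_setOf_eq, Set.mem_iUnion]
    constructor
    · rintro ⟨w⟩
      exact ⟨_, w, rfl⟩
    · rintro ⟨n, w, _⟩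
      exact ⟨w⟩
  rw [this]
  exact MeasurableSet.iUnion fun n => T1b.measurableSet_walk h n x y

theorem measurableSet_infinite {V Ω : Type*} [Countable V] [MeasurableSpace Ω]
    {Γ : Ω → SimpleGraph V} (h : ∀ x y, MeasurableSet {ω | (Γ ω).Adj x y}) (x : V) :
    MeasurableSet {ω | {y | (Γ ω).Reachable x y}.Infinite} := by
  have : {ω | {y | (Γ ω).Reachable x y}.Infinite} =
      ⋂ F : Finset V, ⋃ y : V, ⋃ _ : y ∉ F, {ω | (Γ ω).Reachable x y} := by
    ext ω
    simp only [Set.mem_setOf_eq, Set.mem_iInter, Set.mem_iUnion]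
    constructor
    · intro hinf F
      obtain ⟨y, hy, hyF⟩ := hinf.exists_notMem_finset F
      exact ⟨y, hyF, hy⟩
    · intro hF hfin
      obtain ⟨y, hyF, hy⟩ := hF hfin.toFinset
      exact hyF (by simpa using hy)
  rw [this]
  exact MeasurableSet.iInter fun F => MeasurableSet.iUnion fun y => MeasurableSet.iUnion fun _ =>
    measurableSet_reachable h x y

end Pool.Agent.MP_c3c849_pr
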