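import Pool.Agent.MP_c3c849_pr.Defs2

/-!
# MP_c3c849_pr, module T2/S1: the combinatorial trifurcation lemma
-/

namespace Pool.Agent.MP_c3c849_pr

/-- `L` is a trifurcation set of `Γ`: three vertices outside `L`, adjacent to `L`, with infinite
clusters outside `L`, pairwise not connected outside `L`. -/
def Trif {V : Type*} (Γ : SimpleGraph V) (L : Set V) : Prop :=
  ∃ a : Fin 3 → V, (∀ i, a i ∉ L ∧ (∃ z ∈ L, Γ.Adj z (a i)) ∧
    {y | (cut Γ Lᶜ).Reachable (a i) y}.Infinite) ∧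
    ∀ i j, i ≠ j → ¬ (cut Γ Lᶜ).Reachable (a i) (a j)

namespace T2S1

theorem cut_mono {V : Type*} (Γ : SimpleGraph V) {A B : Set V} (h : A ⊆ B) :
    cut Γ A ≤ cut Γ B := by
  intro x y hxy
  exact ⟨hxy.1, h hxy.2.1, h hxy.2.2⟩

theorem cut_le {V : Type*} (Γ : SimpleGraph V) (A : Set V) : cut Γ A ≤ Γ := by
  intro x y hxy
  exact hxy.1

/-- Along a path leaving `S` there is an edge leaving `S`. -/
theorem exists_exit {V : Type*} (G : SimpleGraph V) (S : Set V) {x y : V}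
    (h : G.Reachable x y) (hx : x ∈ S) (hy : y ∉ S) :
    ∃ u v, G.Adj u v ∧ u ∈ S ∧ v ∉ S ∧ G.Reachable x u := by
  obtain ⟨w⟩ := h
  induction w with
  | nil => exact absurd hx hy
  | @cons a b c hab w ih =>
    by_cases hb : b ∈ S
    · obtain ⟨u, v, h1, h2, h3, h4⟩ := ih hb hy
      exact ⟨u, v, h1, h2, h3, (SimpleGraph.Adj.reachable hab).trans h4⟩
    · exact ⟨a, b, hab, hx, hb, SimpleGraph.Reachable.refl _⟩

/-- A path all of whose vertices lie in `B` is a path of `cut Γ B`. -/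
theorem cut_of_forall {V : Type*} (Γ : SimpleGraph V) {A B : Set V} {x y : V}
    (h : (cut Γ A).Reachable x y) (hB : ∀ u, (cut Γ A).Reachable x u → u ∈ B) :
    (cut Γ B).Reachable x y := by
  obtain ⟨w⟩ := h
  induction w with
  | nil => exact SimpleGraph.Reachable.refl _
  | @cons a b c hab w ih =>
    have h1 : a ∈ B := hB a (SimpleGraph.Reachable.refl _)
    have h2 : b ∈ B := hB b hab.reachable
    have h3 : (cut Γ B).Adj a b := ⟨hab.1, h1, h2⟩
    exact h3.reachable.trans (ih (fun u hu => hB u (hab.reachable.trans hu)))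

/-- A vertex of the component of `L` outside `L` and `L'` is connected to `L'` avoiding `L` or
to `L` avoiding `L'`. -/
theorem split {V : Type*} (Γ : SimpleGraph V) {L L' : Set V} (hd : Disjoint L L') {v z : V}
    (h : Γ.Reachable v z) (hz : z ∈ L) (hv : v ∉ L) (hv' : v ∉ L') :
    (∃ w ∈ L', (cut Γ Lᶜ).Reachable v w) ∨ (∃ w ∈ L, (cut Γ L'ᶜ).Reachable v w) := by
  obtain ⟨w⟩ := h
  induction w with
  | nil => exact absurd hz hv
  | @cons a b c hab w ih =>
    by_cases hb' : b ∈ L'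
    · left
      refine ⟨b, hb', ?_⟩
      have : (cut Γ Lᶜ).Adj a b := ⟨hab, hv, fun hb => Set.disjoint_left.1 hd hb hb'⟩
      exact this.reachable
    · by_cases hb : b ∈ L
      · right
        refine ⟨b, hb, ?_⟩
        have : (cut Γ L'ᶜ).Adj a b := ⟨hab, hv', hb'⟩
        exact this.reachable
      · rcases ih hz hb hb' with ⟨w, hw, h1⟩ | ⟨w, hw, h1⟩
        · left
          have : (cut Γ Lᶜ).Adj a b := ⟨hab, hv, hb⟩
          exact ⟨w, hw, this.reachable.trans h1⟩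
        · right
          have : (cut Γ L'ᶜ).Adj a b := ⟨hab, hv', hb'⟩
          exact ⟨w, hw, this.reachable.trans h1⟩

/-- The test function attached to a trifurcation set and a marked vertex `r`. -/
structure Fn {V : Type*} (Γ : SimpleGraph V) (Y : Finset V) (L : Set V) (r : V) (f : V → ℝ) :
    Prop where
  sum : ∑ v ∈ Y, f v = 0
  const : ∀ v w, (cut Γ Lᶜ).Reachable v w → f v = f w
  ne : ∃ v ∈ Y, f v ≠ 0
  r : f r = 0
  supp : ∀ v, f v ≠ 0 → ∃ z ∈ L, ∃ a, a ∉ L ∧ Γ.Adj z a ∧ (cut Γ Lᶜ).Reachable a v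

theorem branch_meets {V : Type*} (Γ : SimpleGraph V) (S : Set V) (hS : S.Finite)
    (Y : Finset V) (hY : ∀ x ∈ S, ∀ y, y ∉ S → Γ.Adj x y → x ∈ Y) (L : Set V) (hL : L ⊆ S)
    (hLY : ∀ x ∈ L, x ∉ Y) {z a : V} (hz : z ∈ L) (hza : Γ.Adj z a)
    (hinf : {y | (cut Γ Lᶜ).Reachable a y}.Infinite) :
    ∃ y ∈ Y, (cut Γ Lᶜ).Reachable a y := by
  obtain ⟨y, hy, hyS⟩ := hinf.exists_notMem_finite hS
  have haS : a ∈ S := by
    by_contra h
    exact hLY z hz (hY z (hL hz) a h hza)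
  obtain ⟨u, v, h1, h2, h3, h4⟩ := exists_exit _ S hy haS hyS
  exact ⟨u, hY u h2 v h3 h1.1, h4⟩

theorem exists_fn {V : Type*} (Γ : SimpleGraph V) (S : Set V) (hS : S.Finite)
    (Y : Finset V) (hY : ∀ x ∈ S, ∀ y, y ∉ S → Γ.Adj x y → x ∈ Y) (L : Set V) (hL : L ⊆ S)
    (hLY : ∀ x ∈ L, x ∉ Y) (htri : Trif Γ L) (r : V) : ∃ f : V → ℝ, Fn Γ Y L r f := by
  classical
  obtain ⟨a, ha, hne⟩ := htri
  -- two branches avoiding `r`
  obtain ⟨i, j, hij, hi, hj⟩ : ∃ i j : Fin 3, i ≠ j ∧ ¬ (cut Γ Lᶜ).Reachable (a i) r ∧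
      ¬ (cut Γ Lᶜ).Reachable (a j) r := by
    have key : ∀ i j : Fin 3, i ≠ j → (cut Γ Lᶜ).Reachable (a i) r →
        ¬ (cut Γ Lᶜ).Reachable (a j) r := by
      intro i j hij h1 h2
      exact hne i j hij (h1.trans h2.symm)
    by_cases h0 : (cut Γ Lᶜ).Reachable (a 0) r
    · exact ⟨1, 2, by decide, key 0 1 (by decide) h0, key 0 2 (by decide) h0⟩
    · by_cases h1 : (cut Γ Lᶜ).Reachable (a 1) r
      · exact ⟨0, 2, by decide, h0, key 1 2 (by decide) h1⟩
      · exact ⟨0, 1, by decide, h0, h1⟩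
  -- the two branches as sets
  set P : Fin 3 → Finset V := fun k => Y.filter (fun v => (cut Γ Lᶜ).Reachable (a k) v) with hP
  have hPne : ∀ k, (P k).Nonempty := by
    intro k
    obtain ⟨h1, ⟨z, hz, hza⟩, h3⟩ := ha k
    obtain ⟨y, hy, hr⟩ := branch_meets Γ S hS Y hY L hL hLY hz hza h3
    exact ⟨y, Finset.mem_filter.2 ⟨hy, hr⟩⟩
  have hcard : ∀ k, (0 : ℝ) < (P k).card := by
    intro k
    exact_mod_cast Finset.card_pos.2 (hPne k)
  have hsum : ∀ k, ∑ v ∈ Y, (if (cut Γ Lᶜ).Reachable (a k) v then ((P k).card : ℝ)⁻¹ else 0) =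
      1 := by
    intro k
    rw [← Finset.sum_filter, Finset.sum_const, nsmul_eq_mul]
    exact mul_inv_cancel₀ (hcard k).ne'
  refine ⟨fun v => (if (cut Γ Lᶜ).Reachable (a i) v then ((P i).card : ℝ)⁻¹ else 0) -
    (if (cut Γ Lᶜ).Reachable (a j) v then ((P j).card : ℝ)⁻¹ else 0), ?_, ?_, ?_, ?_, ?_⟩
  · rw [Finset.sum_sub_distrib, hsum, hsum, sub_self]
  · intro v w hvw
    have h1 : ∀ k, (cut Γ Lᶜ).Reachable (a k) v ↔ (cut Γ Lᶜ).Reachable (a k) w := fun k =>
      ⟨fun h => h.trans hvw, fun h => h.trans hvw.symm⟩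
    simp only [h1]
  · obtain ⟨v, hv⟩ := hPne i
    obtain ⟨hvY, hv1⟩ := Finset.mem_filter.1 hv
    refine ⟨v, hvY, ?_⟩
    have hv2 : ¬ (cut Γ Lᶜ).Reachable (a j) v := fun h => hne i j hij (hv1.trans h.symm)
    simp only [hv1, hv2, if_true, if_false, sub_zero]
    exact inv_ne_zero (hcard i).ne'
  · simp only [hi, hj, if_false, sub_self]
  · intro v hv
    have : ∃ k, (cut Γ Lᶜ).Reachable (a k) v := by
      by_contra hcon
      push Not at hcon
      apply hv
      simp only [hcon, if_false, sub_self]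
    obtain ⟨k, hk⟩ := this
    obtain ⟨h1, ⟨z, hz, hza⟩, h3⟩ := ha k
    exact ⟨z, hz, a k, h1, hza, hk⟩

/-- The asymmetric half of the orthogonality. -/
theorem ortho_aux {V : Type*} (Γ : SimpleGraph V) (Y : Finset V) {L L' : Set V}
    (hd : Disjoint L L') (hc : ∀ x ∈ L, ∀ y ∈ L, (cut Γ L).Reachable x y)
    (hc' : ∀ x ∈ L', ∀ y ∈ L', (cut Γ L').Reachable x y) {r : V} {f f' : V → ℝ}
    (hf : Fn Γ Y L r f) (hf' : Fn Γ Y L' r f')
    (hr : ∃ w ∈ L, (cut Γ L'ᶜ).Reachable r w) : ∑ v ∈ Y, f v * f' v = 0 := by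
  obtain ⟨w, hw, hrw⟩ := hr
  have hLL' : L ⊆ L'ᶜ := fun x hx hx' => Set.disjoint_left.1 hd hx hx'
  have hL'L : L' ⊆ Lᶜ := fun x hx hx' => Set.disjoint_left.1 hd hx' hx
  -- all points of the support of `f'` are connected to all points of `L'` outside `L`
  have key : ∀ v, f' v ≠ 0 → ∀ z' ∈ L', (cut Γ Lᶜ).Reachable z' v := by
    intro v hv z' hz'
    obtain ⟨z, hz, a, haL, hza, hav⟩ := hf'.supp v hv
    have hav0 : f' a ≠ 0 := by
      rw [hf'.const a v hav]; exact hv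
    have hB : ∀ u, (cut Γ L'ᶜ).Reachable a u → u ∈ Lᶜ := by
      intro u hu huL
      have h1 : (cut Γ L'ᶜ).Reachable u w := (hc u huL w hw).mono (cut_mono Γ hLL')
      have h2 : f' a = f' r := hf'.const a r ((hu.trans h1).trans hrw.symm)
      rw [hf'.r] at h2
      exact hav0 h2
    have h3 : (cut Γ Lᶜ).Reachable a v := cut_of_forall Γ hav hB
    have h4 : (cut Γ Lᶜ).Adj z a := ⟨hza, hL'L hz, hB a (SimpleGraph.Reachable.refl _)⟩
    have h5 : (cut Γ Lᶜ).Reachable z' z := (hc' z' hz' z hz).mono (cut_mono Γ hL'L)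
    exact (h5.trans h4.reachable).trans h3
  obtain ⟨v0, -, hv0⟩ := hf'.ne
  obtain ⟨z, hz, -⟩ := hf'.supp v0 hv0
  have h1 : ∀ v ∈ Y, f v * f' v = f z * f' v := by
    intro v _
    by_cases hv : f' v = 0
    · rw [hv, mul_zero, mul_zero]
    · rw [hf.const z v (key v hv z hz)]
  rw [Finset.sum_congr rfl h1, ← Finset.mul_sum, hf'.sum, mul_zero]

theorem ortho {V : Type*} (Γ : SimpleGraph V) (Y : Finset V) {L L' : Set V}
    (hd : Disjoint L L') (hc : ∀ x ∈ L, ∀ y ∈ L, (cut Γ L).Reachable x y)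
    (hc' : ∀ x ∈ L', ∀ y ∈ L', (cut Γ L').Reachable x y) {r : V} (hr : r ∉ L) (hr' : r ∉ L')
    {f f' : V → ℝ} (hf : Fn Γ Y L r f) (hf' : Fn Γ Y L' r f') {z : V} (hz : z ∈ L)
    (hrz : Γ.Reachable r z) : ∑ v ∈ Y, f v * f' v = 0 := by
  rcases split Γ hd hrz hz hr hr' with h | h
  · have := ortho_aux Γ Y hd.symm hc' hc hf' hf h
    simpa only [mul_comm] using this
  · exact ortho_aux Γ Y hd hc hc' hf hf' h

end T2S1

open T2S1 in
/-- S1: the number of disjoint connected trifurcation sets inside `S` is at most the size of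
the inner boundary of `S`. -/
theorem trif_card_le {V : Type*} (Γ : SimpleGraph V) (S : Set V) (hS : S.Finite)
    (Y : Finset V) (hY : ∀ x ∈ S, ∀ y, y ∉ S → Γ.Adj x y → x ∈ Y)
    {ι : Type*} (I : Finset ι) (L : ι → Set V) (hL : ∀ i ∈ I, L i ⊆ S)
    (hLY : ∀ i ∈ I, ∀ x ∈ L i, x ∉ Y) (hdisj : (I : Set ι).PairwiseDisjoint L)
    (hconn : ∀ i ∈ I, ∀ x ∈ L i, ∀ y ∈ L i, (cut Γ (L i)).Reachable x y)
    (htri : ∀ i ∈ I, Trif Γ (L i)) : I.card ≤ Y.card := by
  classical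
  -- a point of `Y` in the component of each `L i`
  have hz : ∀ i ∈ I, ∃ z ∈ L i, ∃ y ∈ Y, Γ.Reachable z y := by
    intro i hi
    obtain ⟨a, ha, -⟩ := htri i hi
    obtain ⟨-, ⟨z, hz, hza⟩, hinf⟩ := ha 0
    obtain ⟨y, hy, hay⟩ := branch_meets Γ S hS Y hY (L i) (hL i hi) (hLY i hi) hz hza hinf
    exact ⟨z, hz, y, hy, hza.reachable.trans (hay.mono (cut_le Γ _))⟩
  rcases I.eq_empty_or_nonempty with rfl | ⟨i₀, hi₀⟩
  · simp
  have : Nonempty V := ⟨(hz i₀ hi₀).choose⟩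
  choose! z hzL y hyY hzy using hz
  -- the marked vertex of each component
  have hr : ∀ c : Γ.ConnectedComponent, ∃ r : V, (∃ v ∈ Y, Γ.connectedComponentMk v = c) →
      r ∈ Y ∧ Γ.connectedComponentMk r = c := by
    intro c
    by_cases h : ∃ v ∈ Y, Γ.connectedComponentMk v = c
    · obtain ⟨v, hv, hvc⟩ := h
      exact ⟨v, fun _ => ⟨hv, hvc⟩⟩
    · exact ⟨c.nonempty_supp.some, fun h' => absurd h' h⟩
  choose r hr using hr
  set ρ : ι → V := fun i => r (Γ.connectedComponentMk (z i)) with hρ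
  have hρY : ∀ i ∈ I, ρ i ∈ Y ∧ Γ.Reachable (ρ i) (z i) := by
    intro i hi
    have h1 := hr (Γ.connectedComponentMk (z i)) ⟨y i, hyY i hi,
      (SimpleGraph.ConnectedComponent.eq.2 (hzy i hi).symm)⟩
    exact ⟨h1.1, SimpleGraph.ConnectedComponent.eq.1 h1.2⟩
  have hf : ∀ i ∈ I, ∃ f : V → ℝ, Fn Γ Y (L i) (ρ i) f := fun i hi =>
    exists_fn Γ S hS Y hY (L i) (hL i hi) (hLY i hi) (htri i hi) (ρ i)
  choose! f hf using hf
  -- orthogonality
  have hortho : ∀ i ∈ I, ∀ k ∈ I, i ≠ k → ∑ v ∈ Y, f i v * f k v = 0 := by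
    intro i hi k hk hik
    by_cases hc : Γ.connectedComponentMk (z i) = Γ.connectedComponentMk (z k)
    · have hρe : ρ i = ρ k := by simp only [hρ, hc]
      have hfk := hf k hk
      rw [← hρe] at hfk
      exact ortho Γ Y (hdisj hi hk hik) (hconn i hi) (hconn k hk)
        (fun h => hLY i hi _ h (hρY i hi).1) (fun h => hLY k hk _ h (hρY i hi).1) (hf i hi) hfk
        (hzL i hi) (hρY i hi).2
    · apply Finset.sum_eq_zero
      intro v _
      by_contra hne
      have h1 : f i v ≠ 0 := left_ne_zero_of_mul hne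
      have h2 : f k v ≠ 0 := right_ne_zero_of_mul hne
      have h3 : ∀ j ∈ I, f j v ≠ 0 → Γ.Reachable (z j) v := by
        intro j hj hjv
        obtain ⟨z', hz', a, -, hza, hav⟩ := (hf j hj).supp v hjv
        exact (((hconn j hj _ (hzL j hj) _ hz').mono (cut_le Γ _)).trans hza.reachable).trans
          (hav.mono (cut_le Γ _))
      exact hc (SimpleGraph.ConnectedComponent.eq.2 ((h3 i hi h1).trans (h3 k hk h2).symm))
  -- linear algebra
  let F : I → EuclideanSpace ℝ Y := fun i => WithLp.toLp 2 (fun v => f i v)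
  have hli : LinearIndependent ℝ F := by
    apply linearIndependent_of_ne_zero_of_inner_eq_zero
    · intro i h0
      obtain ⟨v, hv, hne⟩ := (hf i i.2).ne
      apply hne
      have := congrArg (fun g : EuclideanSpace ℝ Y => g ⟨v, hv⟩) h0
      simpa [F] using this
    · intro i k hik
      have h1 : (i : ι) ≠ k := fun h => hik (Subtype.ext h)
      have h2 := hortho i i.2 k k.2 h1
      rw [PiLp.inner_apply]
      simp only [F]
      rw [← Finset.sum_coe_sort] at h2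
      simpa [mul_comm] using h2
  have hcard := hli.fintype_card_le_finrank
  simpa using hcard

end Pool.Agent.MP_c3c849_pr
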