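import Pool.Agent.MP_c3c849_pr.Defs2

/-!
# MP_c3c849_pr, module T1c: the zero-one law for vertical shifts
-/

open MeasureTheory ProbabilityTheory
open scoped ENNReal

namespace Pool.Agent.MP_c3c849_pr

namespace T1c

theorem map_comp {E : Type*} (p : unitInterval) {φ : E → E} (hφ : Function.Injective φ) :
    (bern E p).map (fun ω e => ω (φ e)) = bern E p := by
  unfold bern
  exact Measure.map_infinitePi_infinitePi_of_inj (P := fun _ : E => ber p) hφ

theorem measure_preimage {E : Type*} (p : unitInterval) {φ : E → E} (hφ : Function.Injective φ)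
    {A : Set (E → Bool)} (hA : MeasurableSet A) :
    bern E p {ω | (fun e => ω (φ e)) ∈ A} = bern E p A := by
  conv_rhs => rw [← map_comp p hφ, Measure.map_apply (by fun_prop) hA]
  rfl

theorem cylinder_indep {E : Type*} (p : unitInterval) (S T : Finset E) (hST : Disjoint S T)
    (C : Set (S → Bool)) (D : Set (T → Bool)) :
    bern E p ({ω | (fun i : S => ω i) ∈ C} ∩ {ω | (fun i : T => ω i) ∈ D}) =
      bern E p {ω | (fun i : S => ω i) ∈ C} * bern E p {ω | (fun i : T => ω i) ∈ D} := by
  have h1 : iIndepFun (fun (i : E) (ω : E → Bool) => ω i) (bern E p) :=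
    iIndepFun_infinitePi (P := fun _ : E => ber p) (X := fun _ x => x) (fun _ => measurable_id)
  have h2 := h1.indepFun_finset S T hST (fun i => measurable_pi_apply i)
  exact h2.measure_inter_preimage_eq_mul C D (Set.toFinite _).measurableSet
    (Set.toFinite _).measurableSet

/-- The sum of the two heights. -/
def hgt {U : Type*} : Sym2 (U × ℤ) → ℤ :=
  Sym2.lift ⟨fun a b => a.2 + b.2, fun _ _ => add_comm _ _⟩

theorem hgt_shift {U : Type*} (e : Sym2 (U × ℤ)) : hgt (Sym2.map shiftZ e) = hgt e + 2 := by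
  induction e using Sym2.ind with
  | _ a b =>
    simp only [Sym2.map_mk, hgt, Sym2.lift_mk, shiftZ]
    ring

theorem hgt_iter {U : Type*} (n : ℕ) (e : Sym2 (U × ℤ)) :
    hgt ((Sym2.map shiftZ)^[n] e) = hgt e + 2 * n := by
  induction n generalizing e with
  | zero => simp
  | succ n ih =>
    rw [Function.iterate_succ_apply, ih, hgt_shift]
    push_cast
    ring

theorem shiftZ_injective {U : Type*} : Function.Injective (shiftZ : U × ℤ → U × ℤ) := by
  rintro ⟨u, s⟩ ⟨v, t⟩ h
  simp only [shiftZ, Prod.mk.injEq] at h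
  ext
  · exact h.1
  · simpa using h.2

theorem exists_disjoint {U : Type*} [DecidableEq (Sym2 (U × ℤ))] (s : Finset (Sym2 (U × ℤ))) :
    ∃ n : ℕ, Disjoint s (s.image ((Sym2.map shiftZ)^[n])) := by
  obtain ⟨B, hB⟩ : ∃ B : ℕ, ∀ e ∈ s, (hgt e).natAbs ≤ B := ⟨s.sup fun e => (hgt e).natAbs,
    fun e he => Finset.le_sup (f := fun e => (hgt e).natAbs) he⟩
  refine ⟨B + 1, ?_⟩
  rw [Finset.disjoint_left]
  intro e he he'
  obtain ⟨e', he's, rfl⟩ := Finset.mem_image.1 he'
  have h1 := hB _ he
  have h2 := hB _ he's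
  rw [hgt_iter] at h1
  push_cast at h1
  omega

theorem inv_iter {U : Type*} {A : Set (Cfg (U × ℤ))}
    (hinv : ∀ ω : Cfg (U × ℤ), (fun e => ω (Sym2.map shiftZ e)) ∈ A ↔ ω ∈ A) (n : ℕ)
    (ω : Cfg (U × ℤ)) : (fun e => ω ((Sym2.map shiftZ)^[n] e)) ∈ A ↔ ω ∈ A := by
  induction n generalizing ω with
  | zero => simp
  | succ n ih =>
    have := ih ω
    rw [← this]
    have h2 := hinv (fun e => ω ((Sym2.map shiftZ)^[n] e))
    rw [← h2]
    simp only [Function.iterate_succ_apply]

theorem real_sub_le {Ω : Type*} [MeasurableSpace Ω] (μ : Measure Ω) [IsFiniteMeasure μ]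
    (X Y : Set Ω) : |μ.real X - μ.real Y| ≤ μ.real (symmDiff X Y) := by
  have h1 : μ.real X ≤ μ.real Y + μ.real (symmDiff X Y) := by
    refine le_trans (measureReal_mono ?_) (measureReal_union_le Y (symmDiff X Y))
    intro x hx
    by_cases hy : x ∈ Y
    · exact Or.inl hy
    · exact Or.inr (Or.inl ⟨hx, hy⟩)
  have h2 : μ.real Y ≤ μ.real X + μ.real (symmDiff X Y) := by
    refine le_trans (measureReal_mono ?_) (measureReal_union_le X (symmDiff X Y))
    intro x hx
    by_cases hy : x ∈ X
    · exact Or.inl hy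
    · exact Or.inr (Or.inr ⟨hx, hy⟩)
  rw [abs_le]
  constructor <;> linarith

end T1c

theorem zero_one_shift {U : Type*} [Countable U] (p : unitInterval) {A : Set (Cfg (U × ℤ))}
    (hA : MeasurableSet A)
    (hinv : ∀ ω : Cfg (U × ℤ), (fun e => ω (Sym2.map shiftZ e)) ∈ A ↔ ω ∈ A) :
    perc (U × ℤ) p A = 0 ∨ perc (U × ℤ) p A = 1 := by
  classical
  set μ := perc (U × ℤ) p with hμ
  have key : ∀ ε : ℝ, 0 < ε → |μ.real A - μ.real A * μ.real A| ≤ 4 * ε := by
    intro ε hε
    obtain ⟨C, hC, hCA⟩ := exists_measure_symmDiff_lt_of_generateFrom_isSetRing (μ := μ)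
      (C := measurableCylinders (fun _ : Sym2 (U × ℤ) => Bool))
      ⟨empty_mem_measurableCylinders _, fun _ _ hs ht => union_mem_measurableCylinders hs ht,
        fun _ _ hs ht => sdiff_mem_measurableCylinders hs ht⟩
      ⟨{Set.univ}, by simp, by
        simpa using univ_mem_measurableCylinders (fun _ : Sym2 (U × ℤ) => Bool), by simp⟩
      generateFrom_measurableCylinders.symm hA (ENNReal.ofReal_pos.2 hε)
    obtain ⟨s, S, hS, rfl⟩ := (mem_measurableCylinders C).1 hC
    set Cy : Set (Cfg (U × ℤ)) := cylinder (α := fun _ : Sym2 (U × ℤ) => Bool) s S with hCy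
    have hCm : MeasurableSet Cy := MeasurableSet.cylinder (α := fun _ : Sym2 (U × ℤ) => Bool) s hS
    obtain ⟨n, hn⟩ := T1c.exists_disjoint s
    set φ : Sym2 (U × ℤ) → Sym2 (U × ℤ) := (Sym2.map shiftZ)^[n] with hφ
    have hinj : Function.Injective φ :=
      (Sym2.map.injective T1c.shiftZ_injective).iterate n
    set D : Set (Cfg (U × ℤ)) := {ω | (fun e => ω (φ e)) ∈ Cy} with hD
    have hDC : μ.real D = μ.real Cy := by
      rw [measureReal_def, measureReal_def, hμ, hD, T1c.measure_preimage p hinj hCm]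
    have hCD : μ.real (Cy ∩ D) = μ.real Cy * μ.real D := by
      have h := T1c.cylinder_indep p s (s.image φ) hn S
        {g | (fun i : s => g ⟨φ i, Finset.mem_image_of_mem φ i.2⟩) ∈ S}
      rw [measureReal_def, measureReal_def, measureReal_def, ← ENNReal.toReal_mul]
      exact congrArg ENNReal.toReal h
    have hd1 : μ.real (symmDiff Cy A) ≤ ε := by
      rw [measureReal_def]
      exact ENNReal.toReal_le_of_le_ofReal hε.le hCA.le
    have hd2 : μ.real (symmDiff D A) ≤ ε := by
      have : symmDiff D A = {ω | (fun e => ω (φ e)) ∈ symmDiff Cy A} := by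
        ext ω
        have := T1c.inv_iter hinv n ω
        simp only [Set.mem_symmDiff, hD, Set.mem_setOf_eq]
        rw [← hφ] at this
        rw [this]
      rw [this, measureReal_def, hμ, T1c.measure_preimage p hinj (hCm.symmDiff hA)]
      exact hd1
    have hd3 : μ.real (symmDiff (Cy ∩ D) A) ≤ 2 * ε := by
      refine le_trans (measureReal_mono ?_ ) (le_trans (measureReal_union_le
        (symmDiff Cy A) (symmDiff D A)) (by linarith))
      intro ω hω
      rcases hω with ⟨⟨h1, h2⟩, h3⟩ | ⟨h1, h2⟩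
      · exact Or.inl (Or.inl ⟨h1, h3⟩)
      · by_cases h3 : ω ∈ Cy
        · exact Or.inr (Or.inr ⟨h1, fun h4 => h2 ⟨h3, h4⟩⟩)
        · exact Or.inl (Or.inr ⟨h1, h3⟩)
    have e1 := T1c.real_sub_le μ Cy A
    have e3 := T1c.real_sub_le μ (Cy ∩ D) A
    rw [hCD, hDC] at e3
    have ha0 : 0 ≤ μ.real A := measureReal_nonneg
    have ha1 : μ.real A ≤ 1 := measureReal_le_one
    have hc0 : 0 ≤ μ.real Cy := measureReal_nonneg
    have hc1 : μ.real Cy ≤ 1 := measureReal_le_one
    have e4 : |μ.real Cy - μ.real A| ≤ ε := e1.trans hd1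
    have e5 : |μ.real Cy * μ.real Cy - μ.real A| ≤ 2 * ε := e3.trans hd3
    rw [abs_le] at e4 e5 ⊢
    constructor <;> nlinarith
  have h0 : μ.real A = μ.real A * μ.real A := by
    by_contra hne
    have hpos : 0 < |μ.real A - μ.real A * μ.real A| := abs_pos.2 (sub_ne_zero.2 hne)
    have := key (|μ.real A - μ.real A * μ.real A| / 8) (by positivity)
    linarith
  have h1 : μ.real A = 0 ∨ μ.real A = 1 := by
    have : μ.real A * (μ.real A - 1) = 0 := by linarith
    rcases mul_eq_zero.1 this with h | h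
    · exact Or.inl h
    · exact Or.inr (by linarith)
  rcases h1 with h | h
  · left
    rw [measureReal_def, ENNReal.toReal_eq_zero_iff] at h
    rcases h with h | h
    · exact h
    · exact absurd h (measure_ne_top _ _)
  · right
    rw [measureReal_def] at h
    rw [← ENNReal.toReal_eq_one_iff]
    exact h

end Pool.Agent.MP_c3c849_pr
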