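import Pool.Agent.MP_c3c849_pr.Toolkit
import Pool.Agent.MP_c3c849_pr.Measurable
import Pool.Agent.MP_c3c849_pr.ZeroOne
import Pool.Agent.MP_c3c849_pr.Trifurcation
import Pool.Agent.MP_c3c849_pr.Autom

open MeasureTheory ProbabilityTheory
open scoped ENNReal

namespace Pool.Agent.MP_c3c849_pr
namespace T2

variable {V : Type*}

/-- all `G`-edges inside `L` are open -/
def AllOpen (G : SimpleGraph V) (ω : Cfg V) (L : Set V) : Prop :=
  ∀ x ∈ L, ∀ y ∈ L, G.Adj x y → ω s(x, y) = true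

/-- the event that all edges inside `L` are open and `L` is a trifurcation set -/
def TriEv (G : SimpleGraph V) (L : Set V) : Set (Cfg V) :=
  {ω | AllOpen G ω L ∧ Trif (opn G ω) L}

/-! ### Measurability -/

theorem meas_open (e : Sym2 V) : MeasurableSet {ω : Cfg V | ω e = true} :=
  measurableSet_eq_fun (measurable_pi_apply e) measurable_const

theorem meas_opn (G : SimpleGraph V) (x y : V) :
    MeasurableSet {ω : Cfg V | (opn G ω).Adj x y} := by
  by_cases h : G.Adj x y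
  · have : {ω : Cfg V | (opn G ω).Adj x y} = {ω | ω s(x, y) = true} := by
      ext ω; simp [opn, h]
    rw [this]; exact meas_open _
  · have : {ω : Cfg V | (opn G ω).Adj x y} = ∅ := by
      ext ω; simp [opn, h]
    rw [this]; exact MeasurableSet.empty

theorem meas_cut (G : SimpleGraph V) (R : Set V) (x y : V) :
    MeasurableSet {ω : Cfg V | (cut (opn G ω) R).Adj x y} := by
  by_cases h : x ∈ R ∧ y ∈ R
  · have : {ω : Cfg V | (cut (opn G ω) R).Adj x y} = {ω | (opn G ω).Adj x y} := by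
      ext ω; simp [cut, h]
    rw [this]; exact meas_opn G x y
  · have : {ω : Cfg V | (cut (opn G ω) R).Adj x y} = ∅ := by
      ext ω; simp only [cut, Set.mem_ofPred_eq, Set.mem_empty_iff_false, iff_false]
      intro h'; exact h ⟨h'.2.1, h'.2.2⟩
    rw [this]; exact MeasurableSet.empty

theorem meas_infCl [Countable V] (G : SimpleGraph V) (x : V) :
    MeasurableSet {ω : Cfg V | InfCl G ω x} :=
  measurableSet_infinite (Γ := fun ω : Cfg V => opn G ω) (meas_opn G) x

theorem meas_triEv [Countable V] (G : SimpleGraph V) (L : Set V) :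
    MeasurableSet (TriEv G L) := by
  have h1 : MeasurableSet {ω : Cfg V | AllOpen G ω L} := by
    have : {ω : Cfg V | AllOpen G ω L} =
        ⋂ (x : V) (y : V) (_ : x ∈ L) (_ : y ∈ L) (_ : G.Adj x y), {ω | ω s(x, y) = true} := by
      ext ω
      simp only [AllOpen, Set.mem_ofPred_eq, Set.mem_iInter]
      exact ⟨fun h x y hx hy ha => h x hx y hy ha, fun h x hx y hy ha => h x y hx hy ha⟩
    rw [this]
    exact MeasurableSet.iInter fun x => MeasurableSet.iInter fun y =>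
      MeasurableSet.iInter fun _ => MeasurableSet.iInter fun _ => MeasurableSet.iInter fun _ =>
        meas_open _
  have h2 : MeasurableSet {ω : Cfg V | Trif (opn G ω) L} := by
    have : {ω : Cfg V | Trif (opn G ω) L} =
        ⋃ a : Fin 3 → V, ((⋂ i : Fin 3, ({ω : Cfg V | a i ∉ L} ∩
          ((⋃ z ∈ L, {ω : Cfg V | (opn G ω).Adj z (a i)}) ∩
          {ω : Cfg V | {y | (cut (opn G ω) Lᶜ).Reachable (a i) y}.Infinite}))) ∩
          (⋂ i : Fin 3, ⋂ j : Fin 3, ⋂ (_ : i ≠ j),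
            {ω : Cfg V | (cut (opn G ω) Lᶜ).Reachable (a i) (a j)}ᶜ)) := by
      ext ω
      simp only [Trif, Set.mem_ofPred_eq, Set.mem_iUnion, Set.mem_inter_iff, Set.mem_iInter,
        Set.mem_compl_iff, exists_prop]
    rw [this]
    refine MeasurableSet.iUnion fun a => MeasurableSet.inter ?_ ?_
    · refine MeasurableSet.iInter fun i => MeasurableSet.inter (MeasurableSet.const _)
        (MeasurableSet.inter ?_ ?_)
      · exact MeasurableSet.iUnion fun z => MeasurableSet.iUnion fun _ => meas_opn G _ _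
      · exact measurableSet_infinite (Γ := fun ω : Cfg V => cut (opn G ω) Lᶜ) (meas_cut G Lᶜ) _
    · exact MeasurableSet.iInter fun i => MeasurableSet.iInter fun j =>
        MeasurableSet.iInter fun _ => (measurableSet_reachable
          (Γ := fun ω : Cfg V => cut (opn G ω) Lᶜ) (meas_cut G Lᶜ) _ _).compl
  exact h1.inter h2

/-! ### Automorphisms -/

/-- the action of a vertex map on configurations -/
def act (φ : V → V) (ω : Cfg V) : Cfg V := fun e => ω (Sym2.map φ e)

theorem map_act (p : unitInterval) (φ : V ≃ V) :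
    (perc V p).map (act φ) = perc V p :=
  bern_reindex p (Sym2.map φ) (Sym2.map.injective φ.injective)

theorem measurable_act (φ : V → V) : Measurable (act φ) :=
  measurable_pi_lambda _ fun _ => measurable_pi_apply _

theorem opn_act {G : SimpleGraph V} {φ : V ≃ V} (hφ : ∀ x y, G.Adj (φ x) (φ y) ↔ G.Adj x y)
    (ω : Cfg V) (x y : V) : (opn G (act φ ω)).Adj x y ↔ (opn G ω).Adj (φ x) (φ y) := by
  simp [opn, act, hφ]

theorem reach_iso {W : Type*} {Γ : SimpleGraph V} {Γ' : SimpleGraph W} {φ : V ≃ W}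
    (h : ∀ x y, Γ'.Adj (φ x) (φ y) ↔ Γ.Adj x y) (x y : V) :
    Γ'.Reachable (φ x) (φ y) ↔ Γ.Reachable x y := by
  let e : Γ ≃g Γ' := ⟨φ, fun {a b} => h a b⟩
  exact e.reachable_iff

theorem inf_iso {W : Type*} {Γ : SimpleGraph V} {Γ' : SimpleGraph W} {φ : V ≃ W}
    (h : ∀ x y, Γ'.Adj (φ x) (φ y) ↔ Γ.Adj x y) (x : V) :
    {y | Γ'.Reachable (φ x) y}.Infinite ↔ {y | Γ.Reachable x y}.Infinite := by
  have : {y | Γ'.Reachable (φ x) y} = φ '' {y | Γ.Reachable x y} := by
    ext y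
    constructor
    · intro hy
      refine ⟨φ.symm y, ?_, by simp⟩
      have := (reach_iso h x (φ.symm y)).1 (by simpa using hy)
      exact this
    · rintro ⟨z, hz, rfl⟩
      exact (reach_iso h x z).2 hz
  rw [this, Set.infinite_image_iff φ.injective.injOn]

theorem trif_iso {Γ Γ' : SimpleGraph V} {φ : V ≃ V}
    (h : ∀ x y, Γ'.Adj (φ x) (φ y) ↔ Γ.Adj x y) {L L' : Set V} (hL : ∀ x, φ x ∈ L' ↔ x ∈ L)
    (ht : Trif Γ L) : Trif Γ' L' := by
  obtain ⟨a, ha, hab⟩ := ht
  have hc : ∀ x y, (cut Γ' L'ᶜ).Adj (φ x) (φ y) ↔ (cut Γ Lᶜ).Adj x y := by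
    intro x y
    simp [cut, h, hL]
  refine ⟨fun i => φ (a i), fun i => ⟨?_, ?_, ?_⟩, ?_⟩
  · rw [hL]; exact (ha i).1
  · obtain ⟨z, hz, hza⟩ := (ha i).2.1
    exact ⟨φ z, (hL z).2 hz, (h _ _).2 hza⟩
  · exact (inf_iso hc (a i)).2 (ha i).2.2
  · intro i j hij hr
    exact hab i j hij ((reach_iso hc _ _).1 hr)

theorem act_symm (φ : V ≃ V) (ω : Cfg V) : act φ.symm (act φ ω) = ω := by
  funext e
  simp only [act, Sym2.map_map]
  have : (φ : V → V) ∘ (φ.symm : V → V) = id := by ext; simp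
  rw [this, Sym2.map_id]; rfl

theorem triEv_act_aux {G : SimpleGraph V} {φ : V ≃ V}
    (hφ : ∀ x y, G.Adj (φ x) (φ y) ↔ G.Adj x y) {L L' : Set V} (hL : ∀ x, φ x ∈ L' ↔ x ∈ L)
    {ω : Cfg V} (h : act φ ω ∈ TriEv G L) : ω ∈ TriEv G L' := by
  obtain ⟨h1, h2⟩ := h
  refine ⟨?_, trif_iso (φ := φ) (fun x y => (opn_act hφ ω x y).symm) hL h2⟩
  intro x hx y hy hxy
  have h3 := h1 (φ.symm x) ((hL _).1 (by simpa using hx)) (φ.symm y)
    ((hL _).1 (by simpa using hy)) ((hφ _ _).1 (by simpa using hxy))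
  simpa [act] using h3

theorem triEv_act {G : SimpleGraph V} {φ : V ≃ V}
    (hφ : ∀ x y, G.Adj (φ x) (φ y) ↔ G.Adj x y) {L L' : Set V} (hL : ∀ x, φ x ∈ L' ↔ x ∈ L)
    {ω : Cfg V} : act φ ω ∈ TriEv G L ↔ ω ∈ TriEv G L' := by
  refine ⟨triEv_act_aux hφ hL, fun h => ?_⟩
  have h' : act φ.symm (act φ ω) ∈ TriEv G L' := by rwa [act_symm]
  refine triEv_act_aux (φ := φ.symm) (L := L') ?_ ?_ h'
  · intro x y
    rw [← hφ (φ.symm x) (φ.symm y)]; simp
  · intro x
    rw [← hL (φ.symm x)]; simp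

theorem perc_triEv_eq [Countable V] (p : unitInterval) {G : SimpleGraph V} {φ : V ≃ V}
    (hφ : ∀ x y, G.Adj (φ x) (φ y) ↔ G.Adj x y) {L L' : Set V} (hL : ∀ x, φ x ∈ L' ↔ x ∈ L) :
    perc V p (TriEv G L') = perc V p (TriEv G L) := by
  conv_rhs => rw [← map_act p φ]
  rw [Measure.map_apply (measurable_act φ) (meas_triEv G L)]
  congr 1
  ext ω
  exact (triEv_act hφ hL).symm

/-! ### Branches -/

theorem branch {Γ : SimpleGraph V} {L : Set V} (hL : L.Finite)
    (hN : {u | ∃ z ∈ L, Γ.Adj z u}.Finite) {x : V} (hx : x ∈ L)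
    (hinf : {y | Γ.Reachable x y}.Infinite) :
    ∃ u, u ∉ L ∧ (∃ z ∈ L, Γ.Adj z u) ∧ Γ.Reachable x u ∧
      {y | (cut Γ Lᶜ).Reachable u y}.Infinite := by
  by_contra hcon
  push Not at hcon
  apply hinf
  have hsub : {y | Γ.Reachable x y} ⊆ L ∪
      ⋃ u ∈ {u | u ∉ L ∧ (∃ z ∈ L, Γ.Adj z u) ∧ Γ.Reachable x u},
        {y | (cut Γ Lᶜ).Reachable u y} := by
    intro y hy
    by_cases hyL : y ∈ L
    · exact Or.inl hyL
    right
    have key : ∀ {y z : V} (w : Γ.Walk y z), z ∈ L → y ∉ L → Γ.Reachable x z →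
        ∃ u, (u ∉ L ∧ (∃ z ∈ L, Γ.Adj z u) ∧ Γ.Reachable x u) ∧
          (cut Γ Lᶜ).Reachable u y := by
      intro y z w
      induction w with
      | nil => intro h1 h2; exact absurd h1 h2
      | @cons y y' z hadj w ih =>
        intro hz hy hxz
        by_cases hy' : y' ∈ L
        · refine ⟨y, ⟨hy, ⟨y', hy', hadj.symm⟩, ?_⟩, SimpleGraph.Reachable.refl _⟩
          exact hxz.trans ((SimpleGraph.Walk.cons hadj w).reachable.symm)
        · obtain ⟨u, hu, hr⟩ := ih hz hy' hxz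
          refine ⟨u, hu, hr.trans ?_⟩
          exact SimpleGraph.Adj.reachable (⟨hadj.symm, hy', hy⟩ : (cut Γ Lᶜ).Adj y' y)
    obtain ⟨w⟩ := (SimpleGraph.Reachable.symm hy : Γ.Reachable y x)
    obtain ⟨u, hu, hr⟩ := key w hx hyL (SimpleGraph.Reachable.refl _)
    simp only [Set.mem_iUnion]
    exact ⟨u, hu, hr⟩
  refine Set.Finite.subset (hL.union (Set.Finite.biUnion ?_ ?_)) hsub
  · exact hN.subset fun u hu => hu.2.1
  · intro u hu
    exact hcon u hu.1 hu.2.1 hu.2.2

/-- The pairs inside a finite set. -/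
noncomputable def pairs (L : Finset V) : Finset (Sym2 V) := by
  classical exact (L ×ˢ L).image (fun q => s(q.1, q.2))

theorem mem_pairs {L : Finset V} {x y : V} : s(x, y) ∈ pairs L ↔ x ∈ L ∧ y ∈ L := by
  classical
  simp only [pairs, Finset.mem_image, Finset.mem_product, Prod.exists]
  constructor
  · rintro ⟨a, b, ⟨ha, hb⟩, h⟩
    rw [Sym2.eq_iff] at h
    rcases h with ⟨rfl, rfl⟩ | ⟨rfl, rfl⟩
    · exact ⟨ha, hb⟩
    · exact ⟨hb, ha⟩
  · rintro ⟨hx, hy⟩
    exact ⟨x, y, ⟨hx, hy⟩, rfl⟩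

section
variable [DecidableEq (Sym2 V)]

theorem force_pairs_eq {G : SimpleGraph V} (L : Finset V) (ω : Cfg V) :
    cut (opn G (force (pairs L) ω)) (L : Set V)ᶜ = cut (opn G ω) (L : Set V)ᶜ := by
  ext x y
  simp only [cut, opn, force]
  constructor
  · rintro ⟨⟨h1, h2⟩, h3, h4⟩
    rw [if_neg (fun h => h3 (mem_pairs.1 h).1)] at h2
    exact ⟨⟨h1, h2⟩, h3, h4⟩
  · rintro ⟨⟨h1, h2⟩, h3, h4⟩
    refine ⟨⟨h1, ?_⟩, h3, h4⟩
    rw [if_neg (fun h => h3 (mem_pairs.1 h).1)]
    exact h2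

theorem le_force {G : SimpleGraph V} (F : Finset (Sym2 V)) (ω : Cfg V) :
    opn G ω ≤ opn G (force F ω) := by
  intro x y h
  refine ⟨h.1, ?_⟩
  simp only [force]
  split_ifs
  · rfl
  · exact h.2

theorem allOpen_force {G : SimpleGraph V} (L : Finset V) (ω : Cfg V) :
    AllOpen G (force (pairs L) ω) (L : Set V) := by
  intro x hx y hy _
  simp only [force]
  rw [if_pos (mem_pairs.2 ⟨hx, hy⟩)]

theorem force_triEv {G : SimpleGraph V} (hG : ∀ x, (G.neighborSet x).Finite) (L : Finset V)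
    (ω : Cfg V) (a : Fin 3 → V) (ha : ∀ i, a i ∈ L ∧ InfCl G ω (a i))
    (hab : ∀ i j, i ≠ j → ¬ (opn G ω).Reachable (a i) (a j)) :
    force (pairs L) ω ∈ TriEv G (L : Set V) := by
  refine ⟨allOpen_force L ω, ?_⟩
  have hN : {u | ∃ z ∈ (L : Set V), (opn G ω).Adj z u}.Finite := by
    have : {u | ∃ z ∈ (L : Set V), (opn G ω).Adj z u} ⊆ ⋃ z ∈ (L : Set V), G.neighborSet z := by
      rintro u ⟨z, hz, hzu⟩
      simp only [Set.mem_iUnion]
      exact ⟨z, hz, hzu.1⟩
    exact (Set.Finite.biUnion L.finite_toSet fun z _ => hG z).subset this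
  choose u hu1 hu2 hu3 hu4 using fun i => branch L.finite_toSet hN (ha i).1 (ha i).2
  refine ⟨u, fun i => ⟨hu1 i, ?_, ?_⟩, ?_⟩
  · obtain ⟨z, hz, hzu⟩ := hu2 i
    exact ⟨z, hz, le_force _ ω hzu⟩
  · rw [force_pairs_eq]; exact hu4 i
  · intro i j hij hr
    rw [force_pairs_eq] at hr
    apply hab i j hij
    have hle : cut (opn G ω) (L : Set V)ᶜ ≤ opn G ω := fun _ _ h => h.1
    exact ((hu3 i).trans (hr.mono hle)).trans (hu3 j).symm

/-- at least two infinite clusters -/
def TwoEv (G : SimpleGraph V) : Set (Cfg V) :=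
  {ω | ∃ x y, InfCl G ω x ∧ InfCl G ω y ∧ ¬ (opn G ω).Reachable x y}

/-- at least three infinite clusters -/
def ThreeEv (G : SimpleGraph V) : Set (Cfg V) :=
  {ω | ∃ a : Fin 3 → V, (∀ i, InfCl G ω (a i)) ∧
    ∀ i j, i ≠ j → ¬ (opn G ω).Reachable (a i) (a j)}

theorem force_two {G : SimpleGraph V} (L : Finset V)
    (hLc : ∀ x ∈ L, ∀ y ∈ L, (cut G (L : Set V)).Reachable x y) (ω : Cfg V)
    {x y : V} (hx : x ∈ L) (hy : y ∈ L) (hix : InfCl G ω x) (hiy : InfCl G ω y)
    (hxy : ¬ (opn G ω).Reachable x y) (h3 : ω ∉ ThreeEv G) :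
    force (pairs L) ω ∉ TwoEv G := by
  rintro ⟨x', y', hx', hy', hne⟩
  set ω' := force (pairs L) ω with hω'
  have hLr : ∀ u ∈ L, ∀ v ∈ L, (opn G ω').Reachable u v := by
    intro u hu v hv
    refine (hLc u hu v hv).mono ?_
    intro s t hst
    exact ⟨hst.1, allOpen_force L ω s hst.2.1 t hst.2.2 hst.1⟩
  have hmeet : ∀ z, InfCl G ω' z → ∃ u ∈ L, (opn G ω').Reachable z u := by
    intro z hz
    by_contra hcon
    push Not at hcon
    have key : ∀ {s t : V} (w : (opn G ω').Walk s t), (opn G ω').Reachable z s →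
        (opn G ω).Reachable s t := by
      intro s t w
      induction w with
      | nil => intro _; exact SimpleGraph.Reachable.refl _
      | @cons s s' t hadj w ih =>
        intro hzs
        have hzs' : (opn G ω').Reachable z s' := hzs.trans hadj.reachable
        refine SimpleGraph.Reachable.trans ?_ (ih hzs')
        apply SimpleGraph.Adj.reachable
        refine ⟨hadj.1, ?_⟩
        have h2 := hadj.2
        simp only [hω', force] at h2
        rw [if_neg (fun h => hcon s (mem_pairs.1 h).1 hzs)] at h2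
        exact h2
    have hzω : InfCl G ω z := by
      refine Set.Infinite.mono ?_ hz
      intro t ht
      obtain ⟨w⟩ := (ht : (opn G ω').Reachable z t)
      exact key w (SimpleGraph.Reachable.refl _)
    have hzn : ∀ u ∈ L, ¬ (opn G ω).Reachable z u := fun u hu hr =>
      hcon u hu (hr.mono (le_force _ ω))
    apply h3
    refine ⟨![x, y, z], ?_, ?_⟩
    · intro i
      fin_cases i
      · exact hix
      · exact hiy
      · exact hzω
    · intro i j hij
      fin_cases i <;> fin_cases j <;> first | exact absurd rfl hij | skip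
      · exact hxy
      · exact fun h => hzn x hx h.symm
      · exact fun h => hxy h.symm
      · exact fun h => hzn y hy h.symm
      · exact fun h => hzn x hx h
      · exact fun h => hzn y hy h
  obtain ⟨u, hu, hru⟩ := hmeet x' hx'
  obtain ⟨v, hv, hrv⟩ := hmeet y' hy'
  exact hne ((hru.trans (hLr u hu v hv)).trans hrv.symm)

end

end T2
end Pool.Agent.MP_c3c849_pr
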