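import Pool.Agent.MP_c3c849_pr.BKGraph

open MeasureTheory ProbabilityTheory
open scoped ENNReal

namespace Pool.Agent.MP_c3c849_pr
namespace T2

/-- boxes -/
def Bx (b m x : ℕ) (t : ℤ) : Set Vtx := Reg b m (m, x) (t - m) (t + m)

theorem mem_Bx {b m x : ℕ} {t : ℤ} {k y : ℕ} {h : ℤ} :
    ((k, y), h) ∈ Bx b m x t ↔ k ≤ m ∧ y / b ^ (m - k) = x ∧ t - m ≤ h ∧ h ≤ t + m := by
  constructor
  · rintro ⟨⟨d, hd, h1, h2⟩, h3, h4⟩
    simp only at h1 h2 h3 h4
    have : m - k = d := by omega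
    rw [this]
    exact ⟨by omega, h2, h3, h4⟩
  · rintro ⟨h1, h2, h3, h4⟩
    exact ⟨⟨m - k, by omega, by simp only; omega, h2⟩, h3, h4⟩

theorem Bx_finite {b : ℕ} (hb : 2 ≤ b) (m x : ℕ) (t : ℤ) : (Bx b m x t).Finite := by
  refine Set.Finite.subset (((Finset.range (m + 1)) ×ˢ (Finset.range (b ^ m * (x + 1)))) ×ˢ
    (Finset.Icc (t - m) (t + m))).finite_toSet ?_
  rintro ⟨⟨k, y⟩, h⟩ hz
  obtain ⟨h1, h2, h3, h4⟩ := mem_Bx.1 hz
  simp only [Finset.coe_product, Set.mem_prod, Finset.mem_coe, Finset.mem_range, Finset.mem_Icc]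
  refine ⟨⟨by omega, ?_⟩, h3, h4⟩
  have hpos : 0 < b ^ (m - k) := Nat.pow_pos (by omega)
  have h5 : y < b ^ (m - k) * (x + 1) := by
    rw [← h2]
    have := Nat.lt_mul_div_succ y hpos
    simpa using this
  exact lt_of_lt_of_le h5 (Nat.mul_le_mul_right _ (Nat.pow_le_pow_right (by omega) (by omega)))

theorem adj_up {b : ℕ} (k y : ℕ) (h : ℤ) : (GZ b).Adj ((k, y), h) ((k + 1, y / b), h) := by
  rw [GZ, SimpleGraph.boxProd_adj]
  left
  exact ⟨Or.inl ⟨rfl, rfl⟩, rfl⟩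

theorem adj_vert {b : ℕ} (v : ℕ × ℕ) (h : ℤ) : (GZ b).Adj (v, h) (v, h + 1) := by
  rw [GZ, SimpleGraph.boxProd_adj]
  right
  exact ⟨Or.inl rfl, rfl⟩

theorem Bx_up {b m x : ℕ} {t : ℤ} (d : ℕ) : ∀ {k y : ℕ} {h : ℤ}, m - k = d →
    ((k, y), h) ∈ Bx b m x t →
    (cut (GZ b) (Bx b m x t)).Reachable ((k, y), h) ((m, x), h) := by
  induction d with
  | zero =>
    intro k y h hd hz
    obtain ⟨h1, h2, h3, h4⟩ := mem_Bx.1 hz
    have hk : k = m := by omega
    subst hk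
    simp only [Nat.sub_self, pow_zero, Nat.div_one] at h2
    subst h2
    exact SimpleGraph.Reachable.refl _
  | succ d ih =>
    intro k y h hd hz
    obtain ⟨h1, h2, h3, h4⟩ := mem_Bx.1 hz
    have hz' : ((k + 1, y / b), h) ∈ Bx b m x t := by
      rw [mem_Bx]
      refine ⟨by omega, ?_, h3, h4⟩
      rw [Nat.div_div_eq_div_mul, ← h2]
      congr 1
      have : m - k = (m - (k + 1)) + 1 := by omega
      rw [this, pow_succ]
      ring
    refine SimpleGraph.Reachable.trans (SimpleGraph.Adj.reachable ?_) (ih (by omega) hz')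
    exact ⟨adj_up k y h, hz, hz'⟩

theorem Bx_vert {b m x : ℕ} {t : ℤ} (n : ℕ) (hn : n ≤ 2 * m) :
    (cut (GZ b) (Bx b m x t)).Reachable ((m, x), t - m) ((m, x), t - m + n) := by
  induction n with
  | zero => simp
  | succ n ih =>
    refine (ih (by omega)).trans (SimpleGraph.Adj.reachable ?_)
    refine ⟨?_, ?_, ?_⟩
    · have := adj_vert (b := b) (m, x) (t - m + n)
      push_cast
      rw [← add_assoc]
      exact this
    · rw [mem_Bx]; simp; omega
    · rw [mem_Bx]; simp; omega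

theorem Bx_conn {b m x : ℕ} {t : ℤ} : ∀ z ∈ Bx b m x t, ∀ z' ∈ Bx b m x t,
    (cut (GZ b) (Bx b m x t)).Reachable z z' := by
  have key : ∀ z ∈ Bx b m x t, (cut (GZ b) (Bx b m x t)).Reachable ((m, x), t - m) z := by
    rintro ⟨⟨k, y⟩, h⟩ hz
    obtain ⟨h1, h2, h3, h4⟩ := mem_Bx.1 hz
    have h5 := Bx_vert (b := b) (m := m) (x := x) (t := t) (h - (t - m)).toNat (by omega)
    have h6 : (t - m + ((h - (t - m)).toNat : ℤ)) = h := by omega
    rw [h6] at h5
    exact h5.trans (Bx_up _ rfl hz).symm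
  intro z hz z' hz'
  exact (key z hz).symm.trans (key z' hz')

theorem mem_big {b : ℕ} (hb : 2 ≤ b) {m k y : ℕ} {h : ℤ} (hm : k + y + h.natAbs ≤ m) :
    ((k, y), h) ∈ Bx b m 0 0 := by
  rw [mem_Bx]
  refine ⟨by omega, ?_, by omega, by omega⟩
  apply Nat.div_eq_of_lt
  calc y ≤ m - k := by omega
    _ < b ^ (m - k) := Nat.lt_pow_self (by omega)

theorem nbr_finite {b : ℕ} (hb : 2 ≤ b) (z : Vtx) : ((GZ b).neighborSet z).Finite := by
  obtain ⟨⟨k, y⟩, h⟩ := z
  refine Set.Finite.subset (((Finset.range (k + 2)) ×ˢ (Finset.range (b * (y + 1) + y + 1))) ×ˢ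
    (Finset.Icc (h - 1) (h + 1))).finite_toSet ?_
  rintro ⟨⟨k', y'⟩, h'⟩ hz
  rw [SimpleGraph.mem_neighborSet, GZ, SimpleGraph.boxProd_adj] at hz
  simp only [Finset.coe_product, Set.mem_prod, Finset.mem_coe, Finset.mem_range, Finset.mem_Icc]
  rcases hz with ⟨h1, h2⟩ | ⟨h1, h2⟩
  · simp only at h2
    rcases h1 with ⟨h3, h4⟩ | ⟨h3, h4⟩
    · simp only at h3 h4
      have : y / b ≤ y := Nat.div_le_self y b
      have : 0 ≤ b * (y + 1) := Nat.zero_le _
      refine ⟨⟨by omega, by omega⟩, by omega, by omega⟩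
    · simp only at h3 h4
      have h5 := Nat.lt_mul_div_succ y' (show 0 < b by omega)
      rw [← h4] at h5
      refine ⟨⟨by omega, ?_⟩, by omega, by omega⟩
      omega
  · simp only [Prod.mk.injEq] at h2
    have h1' : h' = h + 1 ∨ h = h' + 1 := h1
    refine ⟨⟨by omega, ?_⟩, by omega, by omega⟩
    have : 0 ≤ b * (y + 1) := Nat.zero_le _
    omega

/-! ### invariance -/

theorem aut_pow {b : ℕ} (ψ : Equiv (ℕ × ℕ) (ℕ × ℕ))
    (h1 : ∀ z w, (Canopy b).Adj (ψ z) (ψ w) ↔ (Canopy b).Adj z w) (h2 : ∀ z, (ψ z).1 = z.1)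
    (d : ℕ) : ∀ k y, (ψ (k + d, y / b ^ d)).2 = (ψ (k, y)).2 / b ^ d := by
  have hstep : ∀ k y, (ψ (k + 1, y / b)).2 = (ψ (k, y)).2 / b := by
    intro k y
    have ha : (Canopy b).Adj (k, y) (k + 1, y / b) := Or.inl ⟨rfl, rfl⟩
    have hb := (h1 _ _).2 ha
    rcases hb with ⟨h3, h4⟩ | ⟨h3, h4⟩
    · exact h4
    · rw [h2, h2] at h3
      simp only at h3
      omega
  induction d with
  | zero => intro k y; simp
  | succ d ih =>
    intro k y
    rw [pow_succ, ← Nat.div_div_eq_div_mul, ← Nat.div_div_eq_div_mul, ← ih, ← hstep]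
    rfl

theorem perc_Bx {b : ℕ} (hb : 2 ≤ b) (p : unitInterval) (m x : ℕ) (t : ℤ) :
    perc Vtx p (TriEv (GZ b) (Bx b m x t)) = perc Vtx p (TriEv (GZ b) (Bx b m 0 0)) := by
  obtain ⟨ψ, h1, h2, h3⟩ := exists_canopy_aut b hb m x
  let φ : Vtx ≃ Vtx := Equiv.prodCongr ψ (Equiv.subRight t)
  have hφ : ∀ z w : Vtx, (GZ b).Adj (φ z) (φ w) ↔ (GZ b).Adj z w := by
    rintro ⟨z, s⟩ ⟨w, s'⟩
    simp only [GZ, SimpleGraph.boxProd_adj, φ, Equiv.prodCongr_apply, Prod.map, h1,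
      Equiv.subRight_apply, EmbeddingLike.apply_eq_iff_eq, sub_left_inj]
    have : ZLine.Adj (s - t) (s' - t) ↔ ZLine.Adj s s' := by
      simp only [ZLine]
      constructor <;> rintro (h | h) <;> [left; right; left; right] <;> linarith
    rw [this]
  symm
  apply perc_triEv_eq p hφ
  rintro ⟨⟨k, y⟩, h⟩
  have h4 : φ ((k, y), h) = ((k, (ψ (k, y)).2), h - t) := by
    simp only [φ, Equiv.prodCongr_apply, Prod.map, Equiv.subRight_apply]
    rw [show ψ (k, y) = (k, (ψ (k, y)).2) from Prod.ext (h2 _) rfl]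
  rw [h4, mem_Bx, mem_Bx]
  refine and_congr_right fun hk => ?_
  have h5 := aut_pow ψ h1 h2 (m - k) k y
  rw [← h5, show k + (m - k) = m by omega]
  have h6 : (ψ (m, y / b ^ (m - k))).2 = 0 ↔ y / b ^ (m - k) = x := by
    constructor
    · intro h7
      have h8 : ψ (m, y / b ^ (m - k)) = ψ (m, x) := by
        rw [h3]; exact Prod.ext (h2 _) h7
      have := ψ.injective h8
      simpa using this
    · intro h7; rw [h7, h3]
  rw [h6]
  refine and_congr_right fun _ => ?_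
  constructor <;> rintro ⟨h7, h8⟩ <;> constructor <;> omega

/-! ### S3 -/

theorem count_bound {b : ℕ} (hb : 2 ≤ b) (p : unitInterval) (m n Q : ℕ) (hmn : m < n) :
    ((b ^ (n - m) * Q : ℕ) : ℝ≥0∞) * perc Vtx p (TriEv (GZ b) (Bx b m 0 0)) ≤
      (((2 * m + 1) * Q + 2 + (n + 1) * b ^ n * 2 : ℕ) : ℝ≥0∞) := by
  classical
  set H : ℕ := (2 * m + 1) * Q + 1 with hH
  set S : Set Vtx := Reg b n (n, 0) 0 H with hS
  set Y : Finset Vtx := ({((n, 0) : ℕ × ℕ)} ×ˢ Finset.Icc (0 : ℤ) H) ∪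
    (((Finset.range (n + 1)) ×ˢ (Finset.range (b ^ n))) ×ˢ ({0, (H : ℤ)} : Finset ℤ)) with hY
  set I : Finset (ℕ × ℕ) := Finset.range (b ^ (n - m)) ×ˢ Finset.range Q with hI
  set L : ℕ × ℕ → Set Vtx := fun i => Bx b m i.1 ((2 * m + 1) * i.2 + m + 1) with hL
  have memS : ∀ {k y : ℕ} {h : ℤ}, ((k, y), h) ∈ S ↔ k ≤ n ∧ y / b ^ (n - k) = 0 ∧ 0 ≤ h ∧ h ≤ H := by
    intro k y h
    constructor
    · rintro ⟨⟨d, hd, h1, h2⟩, h3, h4⟩
      simp only at h1 h2 h3 h4
      have : n - k = d := by omega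
      rw [this]
      exact ⟨by omega, h2, h3, h4⟩
    · rintro ⟨h1, h2, h3, h4⟩
      exact ⟨⟨n - k, by omega, by simp only; omega, h2⟩, h3, h4⟩
  have hdiv : ∀ {y d : ℕ}, y / b ^ d = 0 → y < b ^ d := by
    intro y d h
    rcases Nat.div_eq_zero_iff.1 h with h | h
    · exact absurd h (Nat.pow_pos (by omega)).ne'
    · exact h
  have hSfin : S.Finite := by
    refine Set.Finite.subset (((Finset.range (n + 1)) ×ˢ (Finset.range (b ^ n))) ×ˢ
      (Finset.Icc (0 : ℤ) H)).finite_toSet ?_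
    rintro ⟨⟨k, y⟩, h⟩ hz
    obtain ⟨h1, h2, h3, h4⟩ := memS.1 hz
    simp only [Finset.coe_product, Set.mem_prod, Finset.mem_coe, Finset.mem_range, Finset.mem_Icc]
    exact ⟨⟨by omega, lt_of_lt_of_le (hdiv h2) (Nat.pow_le_pow_right (by omega) (by omega))⟩,
      h3, h4⟩
  have hYcard : Y.card ≤ (2 * m + 1) * Q + 2 + (n + 1) * b ^ n * 2 := by
    refine (Finset.card_union_le _ _).trans ?_
    have e1 : ({((n, 0) : ℕ × ℕ)} ×ˢ Finset.Icc (0 : ℤ) H).card = H + 1 := by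
      rw [Finset.card_product, Finset.card_singleton, Int.card_Icc]
      simp
    have e2 : (((Finset.range (n + 1)) ×ˢ (Finset.range (b ^ n))) ×ˢ
        ({0, (H : ℤ)} : Finset ℤ)).card ≤ (n + 1) * b ^ n * 2 := by
      rw [Finset.card_product, Finset.card_product, Finset.card_range, Finset.card_range]
      exact Nat.mul_le_mul_left _ Finset.card_le_two
    rw [e1]
    omega
  have hYb : ∀ x ∈ S, ∀ y, y ∉ S → (GZ b).Adj x y → x ∈ Y := by
    rintro ⟨⟨k, y⟩, h⟩ hx ⟨⟨k', y'⟩, h'⟩ hy hadj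
    obtain ⟨h1, h2, h3, h4⟩ := memS.1 hx
    rw [memS] at hy
    rw [hY, Finset.mem_union]
    simp only [Finset.mem_product, Finset.mem_singleton, Finset.mem_Icc, Finset.mem_range,
      Finset.mem_insert, Prod.mk.injEq]
    have hylt : y < b ^ n :=
      lt_of_lt_of_le (hdiv h2) (Nat.pow_le_pow_right (by omega) (by omega))
    rw [GZ, SimpleGraph.boxProd_adj] at hadj
    rcases hadj with ⟨hc, hh⟩ | ⟨hz, hc⟩
    · simp only at hh
      subst hh
      rcases hc with ⟨h5, h6⟩ | ⟨h5, h6⟩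
      · simp only at h5 h6
        subst h5
        by_cases hk : k = n
        · subst hk
          left
          simp only [Nat.sub_self, pow_zero, Nat.div_one] at h2
          exact ⟨⟨rfl, h2⟩, h3, h4⟩
        · exfalso
          apply hy
          refine ⟨by omega, ?_, h3, h4⟩
          rw [h6, Nat.div_div_eq_div_mul, ← pow_succ', show n - (k + 1) + 1 = n - k by omega]
          exact h2
      · simp only at h5 h6
        exfalso
        apply hy
        refine ⟨by omega, ?_, h3, h4⟩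
        rw [show n - k' = (n - k) + 1 by omega, pow_succ', ← Nat.div_div_eq_div_mul, ← h6]
        exact h2
    · simp only [Prod.mk.injEq] at hc
      obtain ⟨hc1, hc2⟩ := hc
      subst hc1; subst hc2
      right
      refine ⟨⟨by omega, hylt⟩, ?_⟩
      by_contra hne
      apply hy
      have hz' : h' = h + 1 ∨ h = h' + 1 := hz
      push Not at hne
      exact ⟨h1, h2, by omega, by omega⟩
  have hbox : ∀ i ∈ I, ∀ z ∈ L i, z ∈ S ∧ z ∉ Y := by
    rintro ⟨x, q⟩ hi ⟨⟨k, y⟩, h⟩ hz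
    simp only [hI, Finset.mem_product, Finset.mem_range] at hi
    obtain ⟨h1, h2, h3, h4⟩ := mem_Bx.1 hz
    have hqQ : (2 * m + 1) * (q + 1) ≤ (2 * m + 1) * Q := Nat.mul_le_mul_left _ (by omega)
    have e1 : (((2 * m + 1) * (q + 1) : ℕ) : ℤ) ≤ (((2 * m + 1) * Q : ℕ) : ℤ) := by
      exact_mod_cast hqQ
    have e2 : (H : ℤ) = (((2 * m + 1) * Q : ℕ) : ℤ) + 1 := by rw [hH]; push_cast; ring
    have e3 : (0 : ℤ) ≤ (2 * m + 1) * q := by positivity
    simp only at h3 h4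
    push_cast at e1 e2
    have h5 : (0 : ℤ) < h := by linarith
    have h6 : h < H := by rw [e2]; linarith
    constructor
    · rw [memS]
      refine ⟨by omega, ?_, h5.le, h6.le⟩
      have e4 : n - k = (m - k) + (n - m) := by omega
      rw [e4, pow_add, ← Nat.div_div_eq_div_mul, h2]
      exact Nat.div_eq_of_lt hi.1
    · rw [hY, Finset.mem_union]
      simp only [Finset.mem_product, Finset.mem_singleton, Finset.mem_Icc, Finset.mem_range,
        Finset.mem_insert, Prod.mk.injEq]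
      rintro (⟨⟨h7, _⟩, _⟩ | ⟨_, h7 | h7⟩) <;> omega
  have hdisj : (I : Set (ℕ × ℕ)).PairwiseDisjoint L := by
    rintro ⟨x, q⟩ _ ⟨x', q'⟩ _ hne
    rw [Function.onFun, Set.disjoint_left]
    rintro ⟨⟨k, y⟩, h⟩ hz hz'
    obtain ⟨h1, h2, h3, h4⟩ := mem_Bx.1 hz
    obtain ⟨h1', h2', h3', h4'⟩ := mem_Bx.1 hz'
    simp only at h3 h4 h3' h4'
    apply hne
    have e1 : x = x' := h2.symm.trans h2'
    have e2 : q = q' := by
      rcases lt_trichotomy q q' with hlt | heq | hlt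
      · exfalso
        have : (q : ℤ) + 1 ≤ q' := by exact_mod_cast hlt
        have : (2 * (m : ℤ) + 1) * (q + 1) ≤ (2 * m + 1) * q' :=
          mul_le_mul_of_nonneg_left this (by positivity)
        linarith
      · exact heq
      · exfalso
        have : (q' : ℤ) + 1 ≤ q := by exact_mod_cast hlt
        have : (2 * (m : ℤ) + 1) * (q' + 1) ≤ (2 * m + 1) * q :=
          mul_le_mul_of_nonneg_left this (by positivity)
        linarith
    rw [e1, e2]
  have hpt : ∀ ω : Cfg Vtx, ∑ i ∈ I, (TriEv (GZ b) (L i)).indicator (fun _ => (1 : ℝ≥0∞)) ω ≤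
      (Y.card : ℝ≥0∞) := by
    intro ω
    have h1 : ∑ i ∈ I, (TriEv (GZ b) (L i)).indicator (fun _ => (1 : ℝ≥0∞)) ω =
        ((I.filter fun i => ω ∈ TriEv (GZ b) (L i)).card : ℝ≥0∞) := by
      rw [Finset.card_filter]
      push_cast
      refine Finset.sum_congr rfl fun i _ => ?_
      by_cases h : ω ∈ TriEv (GZ b) (L i) <;> simp [h]
    rw [h1]
    norm_cast
    refine trif_card_le (opn (GZ b) ω) S hSfin Y ?_ _ L ?_ ?_ ?_ ?_ ?_
    · intro x hx y hy hadj
      exact hYb x hx y hy hadj.1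
    · intro i hi z hz
      exact (hbox i (Finset.mem_filter.1 hi).1 z hz).1
    · intro i hi z hz
      exact (hbox i (Finset.mem_filter.1 hi).1 z hz).2
    · exact hdisj.subset (by intro i hi; exact (Finset.mem_filter.1 hi).1)
    · intro i hi x hx y hy
      have hT := (Finset.mem_filter.1 hi).2
      refine (Bx_conn x hx y hy).mono ?_
      intro s t hst
      exact ⟨⟨hst.1, hT.1 s hst.2.1 t hst.2.2 hst.1⟩, hst.2⟩
    · intro i hi
      exact (Finset.mem_filter.1 hi).2.2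
  have hint : ∑ i ∈ I, perc Vtx p (TriEv (GZ b) (L i)) ≤ (Y.card : ℝ≥0∞) := by
    calc ∑ i ∈ I, perc Vtx p (TriEv (GZ b) (L i))
        = ∑ i ∈ I, ∫⁻ ω, (TriEv (GZ b) (L i)).indicator (fun _ => (1 : ℝ≥0∞)) ω ∂(perc Vtx p) := by
          refine Finset.sum_congr rfl fun i _ => ?_
          rw [lintegral_indicator (meas_triEv _ _)]
          simp
      _ = ∫⁻ ω, ∑ i ∈ I, (TriEv (GZ b) (L i)).indicator (fun _ => (1 : ℝ≥0∞)) ω ∂(perc Vtx p) := by
          rw [lintegral_finsetSum]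
          intro i _
          exact measurable_const.indicator (meas_triEv _ _)
      _ ≤ ∫⁻ _, (Y.card : ℝ≥0∞) ∂(perc Vtx p) := lintegral_mono hpt
      _ = (Y.card : ℝ≥0∞) := by simp
  have hsum : ∑ i ∈ I, perc Vtx p (TriEv (GZ b) (L i)) =
      ((b ^ (n - m) * Q : ℕ) : ℝ≥0∞) * perc Vtx p (TriEv (GZ b) (Bx b m 0 0)) := by
    rw [Finset.sum_congr rfl (fun i _ => perc_Bx hb p m i.1 _), Finset.sum_const, hI,
      Finset.card_product, Finset.card_range, Finset.card_range, nsmul_eq_mul]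
  rw [← hsum]
  exact hint.trans (by exact_mod_cast hYcard)

theorem tri_zero {b : ℕ} (hb : 2 ≤ b) (p : unitInterval) (m : ℕ) :
    perc Vtx p (TriEv (GZ b) (Bx b m 0 0)) = 0 := by
  by_contra hne
  set τ := perc Vtx p (TriEv (GZ b) (Bx b m 0 0)) with hτ
  have hfin : τ ≠ ⊤ := measure_ne_top _ _
  have ht : 0 < τ.toReal := ENNReal.toReal_pos hne hfin
  obtain ⟨k, hk⟩ : ∃ k : ℕ, (2 * m + 2 : ℝ) < (2 : ℝ) ^ k * τ.toReal := by
    obtain ⟨k, hk⟩ := pow_unbounded_of_one_lt ((2 * m + 2 : ℝ) / τ.toReal) (one_lt_two)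
    exact ⟨k, by rwa [div_lt_iff₀ ht] at hk⟩
  set n := m + (k + 1) with hn
  set Q := 3 + (n + 1) * b ^ n * 2 with hQ
  have h1 := count_bound hb p m n Q (by omega)
  have h2 := ENNReal.toReal_mono (ENNReal.natCast_ne_top _) h1
  rw [ENNReal.toReal_mul, ENNReal.toReal_natCast, ENNReal.toReal_natCast] at h2
  push_cast at h2
  have e1 : n - m = k + 1 := by omega
  rw [e1, ← hτ] at h2
  have h3 : (2 : ℝ) ^ k ≤ (b : ℝ) ^ (k + 1) := by
    calc (2 : ℝ) ^ k ≤ (2 : ℝ) ^ (k + 1) := pow_le_pow_right₀ (by norm_num) (by omega)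
      _ ≤ (b : ℝ) ^ (k + 1) := pow_le_pow_left₀ (by norm_num) (by exact_mod_cast hb) _
  have h4 : (2 * m + 2 : ℝ) < (b : ℝ) ^ (k + 1) * τ.toReal :=
    hk.trans_le (mul_le_mul_of_nonneg_right h3 ht.le)
  have hQpos : (0 : ℝ) < Q := by rw [hQ]; positivity
  have h5 : (2 * m + 2 : ℝ) * Q < (b : ℝ) ^ (k + 1) * τ.toReal * Q :=
    mul_lt_mul_of_pos_right h4 hQpos
  have h6 : (Q : ℝ) = 3 + (n + 1) * b ^ n * 2 := by rw [hQ]; push_cast; ring
  have h7 : (2 * m + 2 : ℝ) * Q = (2 * m + 1) * Q + Q := by ring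
  rw [h7] at h5
  nlinarith [h2, h5, h6]

end T2

open T2 in
theorem unique_cluster (b : ℕ) (hb : 2 ≤ b) (p : unitInterval) (hp : 0 < (p : ℝ)) :
    ∀ᵐ ω ∂(perc Vtx p), ∀ x y, InfCl (GZ b) ω x → InfCl (GZ b) ω y →
      (opn (GZ b) ω).Reachable x y := by
  classical
  set G := GZ b with hG
  let B : ℕ → Finset Vtx := fun m => (Bx_finite hb m 0 0).toFinset
  have hBcoe : ∀ m, (B m : Set Vtx) = Bx b m 0 0 := fun m => by simp [B]
  have hBmem : ∀ (m : ℕ) (z : Vtx), z.1.1 + z.1.2 + z.2.natAbs ≤ m → z ∈ B m := by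
    rintro m ⟨⟨k, y⟩, h⟩ hz
    rw [← Finset.mem_coe, hBcoe]
    exact mem_big hb hz
  have hppos : ∀ n : ℕ, ENNReal.ofReal (p : ℝ) ^ n ≠ 0 := fun n => by
    apply pow_ne_zero
    simpa using hp
  have hforce : ∀ (m : ℕ) (A : Set (Cfg Vtx)), MeasurableSet A → perc Vtx p A = 0 →
      perc Vtx p {ω | force (pairs (B m)) ω ∈ A} = 0 := by
    intro m A hA h0
    have h1 := force_le p (pairs (B m)) hA
    rw [show bern (Sym2 Vtx) p A = 0 from h0] at h1
    have h2 := le_antisymm h1 bot_le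
    rcases mul_eq_zero.1 h2 with h3 | h3
    · exact absurd h3 (hppos _)
    · exact h3
  -- no three infinite clusters
  have h3 : perc Vtx p (ThreeEv G) = 0 := by
    have hsub : ThreeEv G ⊆ ⋃ m : ℕ, {ω | force (pairs (B m)) ω ∈ TriEv G (Bx b m 0 0)} := by
      rintro ω ⟨a, ha, hab⟩
      let f : Vtx → ℕ := fun z => z.1.1 + z.1.2 + z.2.natAbs
      let m := f (a 0) + f (a 1) + f (a 2)
      have hm : ∀ i, a i ∈ B m := by
        intro i
        apply hBmem
        fin_cases i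
        · show f (a 0) ≤ m; omega
        · show f (a 1) ≤ m; omega
        · show f (a 2) ≤ m; omega
      simp only [Set.mem_iUnion]
      refine ⟨m, ?_⟩
      have := force_triEv (G := G) (nbr_finite hb) (B m) ω a (fun i => ⟨hm i, ha i⟩) hab
      rw [hBcoe] at this
      exact this
    refine measure_mono_null hsub (measure_iUnion_null fun m => ?_)
    exact hforce m _ (meas_triEv _ _) (tri_zero hb p m)
  -- measurability and invariance of the event of two infinite clusters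
  have hmeas : MeasurableSet (TwoEv G) := by
    have : TwoEv G = ⋃ x : Vtx, ⋃ y : Vtx, ({ω | InfCl G ω x} ∩ ({ω | InfCl G ω y} ∩
        {ω : Cfg Vtx | (opn G ω).Reachable x y}ᶜ)) := by
      ext ω
      simp only [TwoEv, Set.mem_ofPred_eq, Set.mem_iUnion, Set.mem_inter_iff, Set.mem_compl_iff]
    rw [this]
    exact MeasurableSet.iUnion fun x => MeasurableSet.iUnion fun y =>
      (meas_infCl G x).inter ((meas_infCl G y).inter
        (measurableSet_reachable (Γ := fun ω : Cfg Vtx => opn G ω) (meas_opn G) x y).compl)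
  let φ : Vtx ≃ Vtx := Equiv.prodCongr (Equiv.refl _) (Equiv.addRight 1)
  have hφs : (φ : Vtx → Vtx) = shiftZ := by
    funext z; rfl
  have hφ : ∀ z w : Vtx, G.Adj (φ z) (φ w) ↔ G.Adj z w := by
    rintro ⟨z, s⟩ ⟨w, s'⟩
    simp only [hG, GZ, SimpleGraph.boxProd_adj, φ, Equiv.prodCongr_apply, Prod.map,
      Equiv.refl_apply, Equiv.coe_addRight, add_left_inj]
    have : ZLine.Adj (s + 1) (s' + 1) ↔ ZLine.Adj s s' := by
      simp only [ZLine]
      constructor <;> rintro (h | h) <;> [left; right; left; right] <;> linarith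
    rw [this]
  have hinv : ∀ ω : Cfg Vtx, (fun e => ω (Sym2.map shiftZ e)) ∈ TwoEv G ↔ ω ∈ TwoEv G := by
    intro ω
    have e1 : (fun e => ω (Sym2.map shiftZ e)) = act φ ω := by
      rw [hφs]; rfl
    rw [e1]
    have hadj : ∀ x y, (opn G ω).Adj (φ x) (φ y) ↔ (opn G (act φ ω)).Adj x y :=
      fun x y => (opn_act hφ ω x y).symm
    constructor
    · rintro ⟨x, y, hx, hy, hxy⟩
      exact ⟨φ x, φ y, (inf_iso hadj x).2 hx, (inf_iso hadj y).2 hy,
        fun h => hxy ((reach_iso hadj x y).1 h)⟩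
    · rintro ⟨x, y, hx, hy, hxy⟩
      refine ⟨φ.symm x, φ.symm y, ?_, ?_, ?_⟩
      · refine (inf_iso hadj (φ.symm x)).1 ?_
        rw [Equiv.apply_symm_apply]; exact hx
      · refine (inf_iso hadj (φ.symm y)).1 ?_
        rw [Equiv.apply_symm_apply]; exact hy
      · intro h
        have := (reach_iso hadj (φ.symm x) (φ.symm y)).2 h
        rw [Equiv.apply_symm_apply, Equiv.apply_symm_apply] at this
        exact hxy this
  have h2 : perc Vtx p (TwoEv G) = 0 := by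
    rcases zero_one_shift p hmeas hinv with h | h
    · exact h
    exfalso
    have hc : perc Vtx p (TwoEv G)ᶜ = 0 := by
      rw [prob_compl_eq_zero_iff hmeas]; exact h
    have hsub : TwoEv G ⊆ ThreeEv G ∪ ⋃ m : ℕ, {ω | force (pairs (B m)) ω ∈ (TwoEv G)ᶜ} := by
      intro ω hω
      by_cases h3' : ω ∈ ThreeEv G
      · exact Or.inl h3'
      right
      obtain ⟨x, y, hx, hy, hxy⟩ := hω
      let f : Vtx → ℕ := fun z => z.1.1 + z.1.2 + z.2.natAbs
      let m := f x + f y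
      simp only [Set.mem_iUnion]
      refine ⟨m, ?_⟩
      refine force_two (G := G) (B m) ?_ ω (x := x) (y := y) ?_ ?_ hx hy hxy h3'
      · intro u hu v hv
        rw [hBcoe]
        exact Bx_conn u (by rw [← hBcoe]; exact hu) v (by rw [← hBcoe]; exact hv)
      · exact hBmem m x (by show f x ≤ m; omega)
      · exact hBmem m y (by show f y ≤ m; omega)
    have h0 : perc Vtx p (TwoEv G) = 0 := by
      refine measure_mono_null hsub (measure_union_null h3 (measure_iUnion_null fun m => ?_))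
      exact hforce m _ hmeas.compl hc
    rw [h0] at h
    exact zero_ne_one h
  rw [ae_iff]
  refine measure_mono_null ?_ h2
  intro ω hω
  simp only [Set.mem_ofPred_eq] at hω
  push Not at hω
  obtain ⟨x, y, hx, hy, hxy⟩ := hω
  exact ⟨x, y, hx, hy, hxy⟩

end Pool.Agent.MP_c3c849_pr
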