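import Pool.Agent.MP_c3c849_pr.Defs2

/-!
# MP_c3c849_pr, module T5: Borel-Cantelli and the coarse structure
-/

open MeasureTheory ProbabilityTheory Filter
open scoped ENNReal

namespace Pool.Agent.MP_c3c849_pr

namespace T5

theorem cut_mono {V : Type*} {Γ : SimpleGraph V} {R R' : Set V} (h : R ⊆ R') {x y : V}
    (hxy : (cut Γ R).Reachable x y) : (cut Γ R').Reachable x y := by
  have hle : cut Γ R ≤ cut Γ R' := fun a c (hab : Γ.Adj a c ∧ a ∈ R ∧ c ∈ R) =>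
    (⟨hab.1, h hab.2.1, h hab.2.2⟩ : Γ.Adj a c ∧ a ∈ R' ∧ c ∈ R')
  exact hxy.mono hle

theorem reg_subset {b D D' : ℕ} {v : ℕ × ℕ} {lo lo' hi hi' : ℤ} (hD : D ≤ D') (hlo : lo' ≤ lo)
    (hhi : hi ≤ hi') : Reg b D v lo hi ⊆ Reg b D' v lo' hi' := by
  rintro z ⟨⟨d, hd, h1, h2⟩, h3, h4⟩
  exact ⟨⟨d, hd.trans hD, h1, h2⟩, hlo.trans h3, h4.trans hhi⟩

theorem reg_child_subset {b D D' : ℕ} {v : ℕ × ℕ} {c : ℕ} {lo lo' hi hi' : ℤ} (hc : c < b)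
    (hv : 1 ≤ v.1) (hD : D + 1 ≤ D') (hlo : lo' ≤ lo) (hhi : hi ≤ hi') :
    Reg b D (child b v c) lo hi ⊆ Reg b D' v lo' hi' := by
  rintro z ⟨⟨d, hd, h1, h2⟩, h3, h4⟩
  refine ⟨⟨d + 1, by omega, ?_, ?_⟩, hlo.trans h3, h4.trans hhi⟩
  · simp only [child] at h1
    omega
  · have h5 : z.1.2 / b ^ d = b * v.2 + c := h2
    rw [pow_succ, ← Nat.div_div_eq_div_mul, h5, Nat.mul_add_div (by omega), Nat.div_eq_of_lt hc,
      add_zero]

/-- Two small sets do not cover an interval. -/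
theorem exists_common {x : ℤ} {N : ℕ} {B₁ B₂ : Set ℤ} (h₁ : B₁.Finite) (h₂ : B₂.Finite)
    (h : B₁.ncard + B₂.ncard < N) : ∃ i ∈ Set.Ico x (x + N), i ∉ B₁ ∧ i ∉ B₂ := by
  by_contra hcon
  push Not at hcon
  have hsub : Set.Ico x (x + N) ⊆ B₁ ∪ B₂ := by
    intro i hi
    by_cases hi1 : i ∈ B₁
    · exact Or.inl hi1
    · exact Or.inr (hcon i hi hi1)
  have h1 := Set.ncard_le_ncard hsub (h₁.union h₂)
  have h2 := Set.ncard_union_le B₁ B₂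
  have h3 : (Set.Ico x (x + N)).ncard = N := by
    rw [← Finset.coe_Ico, Set.ncard_coe_finset, Int.card_Ico]
    simp
  omega

variable {b : ℕ} {p : unitInterval} (R : Renorm b p)

/-- The window `(v, a)` of scale `σ` has few bad indices. -/
def Few (ω : Cfg Vtx) (σ : ℕ) (v : ℕ × ℕ) (a : ℤ) : Prop :=
  10 * (R.Bad ω σ v a).ncard ≤ 2 ^ (σ + 1)

/-- `t` is a seed height belonging to a good index of the window. -/
def Pt (ω : Cfg Vtx) (σ : ℕ) (v : ℕ × ℕ) (a : ℤ) (t : ℤ) : Prop :=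
  ∃ i ∈ Set.Ico a (a + 2 ^ (σ + 1)), i ∉ R.Bad ω σ v a ∧ i * R.W ≤ t ∧ t < (i + 1) * R.W ∧
    R.K ω v t

theorem bad_finite (ω : Cfg Vtx) (σ : ℕ) (v : ℕ × ℕ) (a : ℤ) : (R.Bad ω σ v a).Finite :=
  (Set.finite_Ico _ _).subset (R.bad_sub ω σ v a)

theorem exists_pt_of_index {ω : Cfg Vtx} {σ : ℕ} {v : ℕ × ℕ} {a : ℤ} (hv : R.M + 6 + 7 * σ ≤ v.1)
    {i : ℤ} (hi : i ∈ Set.Ico a (a + 2 ^ (σ + 1))) (hib : i ∉ R.Bad ω σ v a) :
    ∃ t : ℤ, i * R.W ≤ t ∧ t < (i + 1) * R.W ∧ R.K ω v t :=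
  R.pt ω v i (by omega) (R.own ω σ v a hv i hi hib)

theorem exists_pt {ω : Cfg Vtx} {σ : ℕ} {v : ℕ × ℕ} {a : ℤ} (hv : R.M + 6 + 7 * σ ≤ v.1)
    (hf : Few R ω σ v a) : ∃ t : ℤ, Pt R ω σ v a t := by
  have hpos : 0 < 2 ^ (σ + 1) := by positivity
  obtain ⟨i, hi, hib, -⟩ := exists_common (x := a) (N := 2 ^ (σ + 1)) (bad_finite R ω σ v a)
    (bad_finite R ω σ v a) (by unfold Few at hf; omega)
  have hi' : i ∈ Set.Ico a (a + 2 ^ (σ + 1)) := by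
    simpa using hi
  obtain ⟨t, h1, h2, h3⟩ := exists_pt_of_index R hv hi' hib
  exact ⟨t, i, hi', hib, h1, h2, h3⟩

theorem pt_bounds {ω : Cfg Vtx} {σ : ℕ} {v : ℕ × ℕ} {a t : ℤ} (h : Pt R ω σ v a t) :
    a * R.W ≤ t ∧ t < (a + 2 ^ (σ + 1)) * R.W := by
  obtain ⟨i, hi, -, h1, h2, -⟩ := h
  have hW : (0 : ℤ) < R.W := by exact_mod_cast R.hW
  constructor
  · exact (mul_le_mul_of_nonneg_right hi.1 hW.le).trans h1
  · exact h2.trans_le (mul_le_mul_of_nonneg_right (by have := hi.2; omega) hW.le)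

/-- Linking two points of the same window. -/
theorem link_same {ω : Cfg Vtx} {σ : ℕ} {v : ℕ × ℕ} {a : ℤ} (hv : R.M + 6 + 7 * σ ≤ v.1)
    {t t' : ℤ} (h : Pt R ω σ v a t) (h' : Pt R ω σ v a t') :
    (cut (opn (GZ b) ω)
      (Reg b (R.M + 6 + 7 * σ) v (a * R.W - R.M) ((a + 2 ^ (σ + 1)) * R.W + R.M))).Reachable
      (v, t) (v, t') := by
  obtain ⟨i, hi, hib, h1, h2, h3⟩ := h
  obtain ⟨i', hi', hib', h1', h2', h3'⟩ := h'
  exact R.link ω σ v a hv i hi i' hi' hib hib' t t' h1 h2 h1' h2' h3 h3'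

/-- Linking the points of two windows over the same vertex which have a common good index. -/
theorem link_common {ω : Cfg Vtx} {σ σ' : ℕ} {v : ℕ × ℕ} {a a' : ℤ}
    (hv : R.M + 6 + 7 * σ ≤ v.1) (hv' : R.M + 6 + 7 * σ' ≤ v.1) {t t' : ℤ}
    (h : Pt R ω σ v a t) (h' : Pt R ω σ' v a' t') {i : ℤ}
    (hi : i ∈ Set.Ico a (a + 2 ^ (σ + 1))) (hi' : i ∈ Set.Ico a' (a' + 2 ^ (σ' + 1)))
    (hib : i ∉ R.Bad ω σ v a) (hib' : i ∉ R.Bad ω σ' v a') {D : ℕ} {lo hi₀ : ℤ}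
    (hD : R.M + 6 + 7 * σ ≤ D) (hD' : R.M + 6 + 7 * σ' ≤ D)
    (hlo : lo ≤ a * R.W - R.M) (hlo' : lo ≤ a' * R.W - R.M)
    (hhi : (a + 2 ^ (σ + 1)) * R.W + R.M ≤ hi₀) (hhi' : (a' + 2 ^ (σ' + 1)) * R.W + R.M ≤ hi₀) :
    (cut (opn (GZ b) ω) (Reg b D v lo hi₀)).Reachable (v, t) (v, t') := by
  obtain ⟨t₀, h1, h2, h3⟩ := exists_pt_of_index R hv hi hib
  have e1 := link_same R hv h ⟨i, hi, hib, h1, h2, h3⟩
  have e2 := link_same R hv' ⟨i, hi', hib', h1, h2, h3⟩ h'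
  exact (cut_mono (reg_subset hD hlo hhi) e1).trans (cut_mono (reg_subset hD' hlo' hhi') e2)

/-- Linking the points of the same window over a vertex and over one of its children. -/
theorem link_child {ω : Cfg Vtx} {σ : ℕ} {v : ℕ × ℕ} {a : ℤ} {c : ℕ} (hc : c < b)
    (hv : R.M + 6 + 7 * σ ≤ v.1) (hv' : R.M + 6 + 7 * σ ≤ (child b v c).1) {t t' : ℤ}
    (h : Pt R ω σ v a t) (h' : Pt R ω σ (child b v c) a t')
    (hf : Few R ω σ v a) (hf' : Few R ω σ (child b v c) a) {D : ℕ} {lo hi₀ : ℤ}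
    (hD : R.M + 6 + 7 * σ + 1 ≤ D)
    (hlo : lo ≤ a * R.W - R.M) (hhi : (a + 2 ^ (σ + 1)) * R.W + R.M ≤ hi₀) :
    (cut (opn (GZ b) ω) (Reg b D v lo hi₀)).Reachable (v, t) (child b v c, t') := by
  have hpos : 0 < 2 ^ (σ + 1) := by positivity
  have hW : (0 : ℤ) < R.W := by exact_mod_cast R.hW
  obtain ⟨i, hi, hib, hib'⟩ := exists_common (x := a) (N := 2 ^ (σ + 1)) (bad_finite R ω σ v a)
    (bad_finite R ω σ (child b v c) a) (by unfold Few at hf hf'; omega)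
  have hi' : i ∈ Set.Ico a (a + 2 ^ (σ + 1)) := by
    simpa using hi
  have hv1 : 1 ≤ v.1 := by
    have : 0 < (child b v c).1 := by omega
    simp only [child] at this
    omega
  obtain ⟨t₀, h1, h2, h3⟩ := exists_pt_of_index R hv hi' hib
  obtain ⟨t₁, h1', h2', h3'⟩ := exists_pt_of_index R hv' hi' hib'
  have e1 := link_same R hv h ⟨i, hi', hib, h1, h2, h3⟩
  have e2 := link_same R hv' ⟨i, hi', hib', h1', h2', h3'⟩ h'
  have hlt : (i + 1) * (R.W : ℤ) ≤ (i + 2) * R.W :=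
    mul_le_mul_of_nonneg_right (by omega) hW.le
  have e3 := R.conn ω v i (by omega) (R.own ω σ v a hv i hi' hib) v (child b v c) (Or.inl rfl)
    (Or.inr ⟨c, hc, rfl⟩) t₀ t₁ h1 (h2.trans_le hlt) h1' (h2'.trans_le hlt) h3 h3'
  have k1 : a * (R.W : ℤ) ≤ i * R.W := mul_le_mul_of_nonneg_right hi'.1 hW.le
  have k2 : i * (R.W : ℤ) ≤ (a + 2 ^ (σ + 1)) * R.W :=
    mul_le_mul_of_nonneg_right hi'.2.le hW.le
  refine ((cut_mono (reg_subset (by omega) hlo hhi) e1).trans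
    (cut_mono (reg_subset (by omega) (by linarith) (by linarith)) e3)).trans
    (cut_mono (reg_child_subset hc hv1 hD hlo hhi) e2)

/-- The coarse points exist and are linked as soon as all the windows have few bad indices. -/
theorem kstr_of_few {ω : Cfg Vtx} {s₀ s₁ : ℕ}
    (h : ∀ s ≥ s₁, ∀ v a, Dom b (R.M + 13 + 7 * s₀) s v a →
      Few R ω (s + s₀) v (a * 2 ^ (s + s₀))) :
    ∃ κ, KStr b (R.M + 13 + 7 * s₀) (2 ^ s₀ * R.W) (opn (GZ b) ω) s₁ κ := by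
  classical
  have hW : (0 : ℤ) < R.W := by exact_mod_cast R.hW
  have hex : ∀ s ≥ s₁, ∀ v a, Dom b (R.M + 13 + 7 * s₀) s v a →
      ∃ t : ℤ, Pt R ω (s + s₀) v (a * 2 ^ (s + s₀)) t := fun s hs v a hd =>
    exists_pt R (by have := hd.1; omega) (h s hs v a hd)
  let τ : ℕ → ℕ × ℕ → ℕ → ℤ := fun s v a =>
    if he : ∃ t : ℤ, Pt R ω (s + s₀) v (a * 2 ^ (s + s₀)) t then he.choose else 0
  have hτ : ∀ s ≥ s₁, ∀ v a, Dom b (R.M + 13 + 7 * s₀) s v a →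
      Pt R ω (s + s₀) v (a * 2 ^ (s + s₀)) (τ s v a) := by
    intro s hs v a hd
    have he := hex s hs v a hd
    simp only [τ, dif_pos he]
    exact he.choose_spec
  have hpow : ∀ s : ℕ, (2 : ℤ) ^ (s + s₀) = 2 ^ s * 2 ^ s₀ := fun s => pow_add _ _ _
  refine ⟨fun s v a => (v, τ s v a), ⟨?_, ?_, ?_, ?_⟩⟩
  · intro s hs v a hd
    obtain ⟨k1, k2⟩ := pt_bounds R (hτ s hs v a hd)
    refine ⟨τ s v a, rfl, ?_, ?_⟩
    · refine le_trans (le_of_eq ?_) k1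
      push_cast
      rw [hpow]; ring
    · refine lt_of_lt_of_eq k2 ?_
      push_cast
      rw [pow_succ, hpow]; ring
  · intro s hs v a hd hd'
    have hf := h s hs v a hd
    have hf' := h s hs v (a + 1) hd'
    have hpos : 0 < 2 ^ (s + s₀) := by positivity
    have e2 : 2 ^ (s + s₀ + 1) = 2 * 2 ^ (s + s₀) := by rw [pow_succ]; ring
    obtain ⟨i, hi, hib, hib'⟩ := exists_common (x := ((a + 1 : ℕ) : ℤ) * 2 ^ (s + s₀))
      (N := 2 ^ (s + s₀)) (bad_finite R ω (s + s₀) v (a * 2 ^ (s + s₀)))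
      (bad_finite R ω (s + s₀) v (((a + 1 : ℕ) : ℤ) * 2 ^ (s + s₀)))
      (by unfold Few at hf hf'; omega)
    have hX : (0 : ℤ) < 2 ^ (s + s₀) := by positivity
    have hXW : (0 : ℤ) ≤ 2 ^ (s + s₀) * R.W := by positivity
    have e3 : (2 : ℤ) ^ (s + s₀ + 1) = 2 * 2 ^ (s + s₀) := by rw [pow_succ]; ring
    have hd1 := hd.1
    refine link_common R (by omega) (by omega) (hτ s hs v a hd) (hτ s hs v (a + 1) hd')
      (i := i) ?_ ?_ hib hib' ?_ ?_ ?_ ?_ ?_ ?_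
    · rw [e3]
      push_cast at hi
      constructor
      · have := hi.1; linarith
      · have := hi.2; linarith
    · rw [e3]
      push_cast at hi ⊢
      constructor
      · exact hi.1
      · have := hi.2; linarith
    · omega
    · omega
    · push_cast
      have : (a : ℤ) * (2 ^ s * (2 ^ s₀ * R.W)) = a * 2 ^ (s + s₀) * R.W := by
        rw [hpow]; ring
      rw [this]; linarith
    · push_cast
      have : (a : ℤ) * (2 ^ s * (2 ^ s₀ * R.W)) = (a + 1) * 2 ^ (s + s₀) * R.W -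
          2 ^ (s + s₀) * R.W := by
        rw [hpow]; ring
      rw [this]; linarith
    · push_cast
      have : ((a : ℤ) + 4) * (2 ^ s * (2 ^ s₀ * R.W)) =
          (a * 2 ^ (s + s₀) + 2 ^ (s + s₀ + 1)) * R.W + 2 * (2 ^ (s + s₀) * R.W) := by
        rw [e3, hpow]; ring
      rw [this]; linarith
    · push_cast
      have : ((a : ℤ) + 4) * (2 ^ s * (2 ^ s₀ * R.W)) =
          ((a + 1) * 2 ^ (s + s₀) + 2 ^ (s + s₀ + 1)) * R.W + (2 ^ (s + s₀) * R.W) := by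
        rw [e3, hpow]; ring
      rw [this]; linarith
  · intro s hs v a hd c hc hd'
    have hXW : (0 : ℤ) ≤ 2 ^ (s + s₀) * R.W := by positivity
    have e3 : (2 : ℤ) ^ (s + s₀ + 1) = 2 * 2 ^ (s + s₀) := by rw [pow_succ]; ring
    have hd1 := hd.1
    have hd1' := hd'.1
    refine link_child R hc (by omega) (by omega) (hτ s hs v a hd) (hτ s hs _ a hd')
      (h s hs v a hd) (h s hs _ a hd') (by omega) ?_ ?_
    · push_cast
      have : (a : ℤ) * (2 ^ s * (2 ^ s₀ * R.W)) = a * 2 ^ (s + s₀) * R.W := by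
        rw [hpow]; ring
      rw [this]; linarith
    · push_cast
      have : ((a : ℤ) + 4) * (2 ^ s * (2 ^ s₀ * R.W)) =
          (a * 2 ^ (s + s₀) + 2 ^ (s + s₀ + 1)) * R.W + 2 * (2 ^ (s + s₀) * R.W) := by
        rw [e3, hpow]; ring
      rw [this]; linarith
  · intro s hs v a hd hd'
    have hs' : s + 1 ≥ s₁ := by omega
    have hf := h s hs v (2 * a) hd
    have hf' := h (s + 1) hs' v a hd'
    have hpos : 0 < 2 ^ (s + s₀) := by positivity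
    have e2 : 2 ^ (s + s₀ + 1) = 2 * 2 ^ (s + s₀) := by rw [pow_succ]; ring
    have e2' : 2 ^ (s + 1 + s₀ + 1) = 4 * 2 ^ (s + s₀) := by
      rw [show s + 1 + s₀ + 1 = (s + s₀) + 2 by ring, pow_add]; ring
    obtain ⟨i, hi, hib, hib'⟩ := exists_common (x := ((2 * a : ℕ) : ℤ) * 2 ^ (s + s₀))
      (N := 2 ^ (s + s₀ + 1)) (bad_finite R ω (s + s₀) v (((2 * a : ℕ) : ℤ) * 2 ^ (s + s₀)))
      (bad_finite R ω (s + 1 + s₀) v ((a : ℤ) * 2 ^ (s + 1 + s₀)))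
      (by unfold Few at hf hf'; omega)
    have hX : (0 : ℤ) < 2 ^ (s + s₀) := by positivity
    have hXW : (0 : ℤ) ≤ 2 ^ (s + s₀) * R.W := by positivity
    have e3 : (2 : ℤ) ^ (s + s₀ + 1) = 2 * 2 ^ (s + s₀) := by rw [pow_succ]; ring
    have e4 : (2 : ℤ) ^ (s + 1 + s₀) = 2 * 2 ^ (s + s₀) := by
      rw [show s + 1 + s₀ = s + s₀ + 1 by ring, pow_succ]; ring
    have e5 : (2 : ℤ) ^ (s + 1 + s₀ + 1) = 4 * 2 ^ (s + s₀) := by
      rw [show s + 1 + s₀ + 1 = (s + s₀) + 2 by ring, pow_add]; ring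
    have hd1 := hd.1
    have hd1' := hd'.1
    refine link_common R (by omega) (by omega) (hτ s hs v (2 * a) hd) (hτ (s + 1) hs' v a hd')
      (i := i) ?_ ?_ hib hib' ?_ ?_ ?_ ?_ ?_ ?_
    · rw [e3]
      push_cast at hi ⊢
      rw [e3] at hi
      exact hi
    · rw [e4, e5]
      push_cast at hi
      rw [e3] at hi
      constructor
      · have := hi.1; linarith
      · have := hi.2; linarith
    · omega
    · omega
    · push_cast
      have : (2 * (a : ℤ)) * (2 ^ s * (2 ^ s₀ * R.W)) = 2 * a * 2 ^ (s + s₀) * R.W := by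
        rw [hpow]; ring
      rw [this]; linarith
    · rw [e4]
      push_cast
      have : (2 * (a : ℤ)) * (2 ^ s * (2 ^ s₀ * R.W)) = a * (2 * 2 ^ (s + s₀)) * R.W := by
        rw [hpow]; ring
      rw [this]; linarith
    · push_cast
      have : ((2 * (a : ℤ)) + 4) * (2 ^ s * (2 ^ s₀ * R.W)) =
          (2 * a * 2 ^ (s + s₀) + 2 ^ (s + s₀ + 1)) * R.W + 2 * (2 ^ (s + s₀) * R.W) := by
        rw [e3, hpow]; ring
      rw [this]; linarith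
    · rw [e4, e5]
      push_cast
      have : ((2 * (a : ℤ)) + 4) * (2 ^ s * (2 ^ s₀ * R.W)) =
          (a * (2 * 2 ^ (s + s₀)) + 4 * 2 ^ (s + s₀)) * R.W := by
        rw [hpow]; ring
      rw [this]; linarith

/-- The numerical estimate behind the union bound. -/
theorem num_bound {b : ℕ} (hb : 2 ≤ b) {c : ℝ} {s₀ : ℕ}
    (hc : Real.exp (-c * 2 ^ s₀) ≤ 1 / (2 * (b : ℝ) ^ 7)) (s : ℕ) :
    ((4 * 2 ^ s + 1) * (b : ℝ) ^ (4 * 2 ^ s) * (2 * (b : ℝ) ^ (2 * 2 ^ s) + 1)) *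
      Real.exp (-c * 2 ^ (s + s₀)) ≤ 15 * (1 / 2) ^ s := by
  set X : ℕ := 2 ^ s with hX
  have hXr : (2 : ℝ) ^ s = X := by rw [hX]; push_cast; rfl
  have hb1 : (1 : ℝ) ≤ b := by exact_mod_cast (by omega : 1 ≤ b)
  have hb0 : (0 : ℝ) < b := by linarith
  have hX1 : (1 : ℝ) ≤ X := by
    have : 1 ≤ X := Nat.one_le_two_pow
    exact_mod_cast this
  have hXb : (X : ℝ) ≤ (b : ℝ) ^ X := by
    have h1 : X ≤ b ^ X := (Nat.lt_pow_self (by omega)).le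
    exact_mod_cast h1
  have hexp : Real.exp (-c * 2 ^ (s + s₀)) = Real.exp (-c * 2 ^ s₀) ^ X := by
    rw [← Real.exp_nat_mul, pow_add, hXr]
    congr 1; ring
  have h1 : Real.exp (-c * 2 ^ (s + s₀)) ≤ (1 / (2 * (b : ℝ) ^ 7)) ^ X := by
    rw [hexp]
    exact pow_le_pow_left₀ (Real.exp_pos _).le hc X
  have h2 : (4 * (X : ℝ) + 1) ≤ 5 * (b : ℝ) ^ X := by linarith
  have h3 : (2 * (b : ℝ) ^ (2 * X) + 1) ≤ 3 * (b : ℝ) ^ (2 * X) := by
    have : (1 : ℝ) ≤ (b : ℝ) ^ (2 * X) := one_le_pow₀ hb1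
    linarith
  have h4 : (4 * (X : ℝ) + 1) * (b : ℝ) ^ (4 * X) * (2 * (b : ℝ) ^ (2 * X) + 1) ≤
      15 * (b : ℝ) ^ (7 * X) := by
    calc (4 * (X : ℝ) + 1) * (b : ℝ) ^ (4 * X) * (2 * (b : ℝ) ^ (2 * X) + 1)
        ≤ (5 * (b : ℝ) ^ X) * (b : ℝ) ^ (4 * X) * (3 * (b : ℝ) ^ (2 * X)) := by gcongr
      _ = 15 * (b : ℝ) ^ (7 * X) := by
        rw [show 7 * X = X + 4 * X + 2 * X by ring, pow_add, pow_add]; ring
  have h5 : 15 * (b : ℝ) ^ (7 * X) * (1 / (2 * (b : ℝ) ^ 7)) ^ X = 15 * (1 / 2) ^ X := by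
    rw [pow_mul, mul_assoc, ← mul_pow]
    congr 2
    field_simp
  have h6 : ((1 : ℝ) / 2) ^ X ≤ (1 / 2) ^ s :=
    pow_le_pow_of_le_one (by norm_num) (by norm_num) (Nat.lt_two_pow_self).le
  rw [hXr]
  calc ((4 * (X : ℝ) + 1) * (b : ℝ) ^ (4 * X) * (2 * (b : ℝ) ^ (2 * X) + 1)) *
      Real.exp (-c * 2 ^ (s + s₀)) ≤ 15 * (b : ℝ) ^ (7 * X) * (1 / (2 * (b : ℝ) ^ 7)) ^ X := by
        gcongr
    _ = 15 * (1 / 2) ^ X := h5
    _ ≤ 15 * (1 / 2) ^ s := by linarith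

/-- The union bound. -/
theorem prob_bound (hb : 2 ≤ b) {s₀ : ℕ}
    (hc : Real.exp (-R.c * 2 ^ s₀) ≤ 1 / (2 * (b : ℝ) ^ 7)) (s : ℕ) :
    perc Vtx p {ω | ∃ v a, Dom b (R.M + 13 + 7 * s₀) s v a ∧
      ¬ Few R ω (s + s₀) v (a * 2 ^ (s + s₀))} ≤ ENNReal.ofReal (15 * (1 / 2) ^ s) := by
  classical
  let T : Finset ((ℕ × ℕ) × ℕ) :=
    ((Finset.range (4 * 2 ^ s + 1) ×ˢ Finset.range (b ^ (4 * 2 ^ s))) ×ˢ
      Finset.range (2 * b ^ (2 * 2 ^ s) + 1)).filter (fun q => R.M + 6 + 7 * (s + s₀) ≤ q.1.1)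
  let B : (ℕ × ℕ) × ℕ → Set (Cfg Vtx) := fun q =>
    {ω | 2 ^ (s + s₀ + 1) < 10 * (R.Bad ω (s + s₀) q.1 (q.2 * 2 ^ (s + s₀))).ncard}
  have hsub : {ω | ∃ v a, Dom b (R.M + 13 + 7 * s₀) s v a ∧
      ¬ Few R ω (s + s₀) v (a * 2 ^ (s + s₀))} ⊆ ⋃ q ∈ T, B q := by
    rintro ω ⟨v, a, hd, hf⟩
    refine Set.mem_iUnion₂.2 ⟨(v, a), ?_, ?_⟩
    · obtain ⟨h1, h2, h3, h4⟩ := hd
      refine Finset.mem_filter.2 ⟨?_, by simp only; omega⟩
      refine Finset.mem_product.2 ⟨Finset.mem_product.2 ⟨?_, ?_⟩, ?_⟩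
      · exact Finset.mem_range.2 (by simp only; omega)
      · refine Finset.mem_range.2 (h3.trans_le ?_)
        exact Nat.pow_le_pow_right (by omega) (Nat.sub_le _ _)
      · exact Finset.mem_range.2 (by simp only; omega)
    · simp only [Few, not_le] at hf
      exact hf
  have hcard : (T.card : ℝ) ≤
      (4 * 2 ^ s + 1) * (b : ℝ) ^ (4 * 2 ^ s) * (2 * (b : ℝ) ^ (2 * 2 ^ s) + 1) := by
    have h1 : T.card ≤ (4 * 2 ^ s + 1) * b ^ (4 * 2 ^ s) * (2 * b ^ (2 * 2 ^ s) + 1) := by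
      refine (Finset.card_filter_le _ _).trans ?_
      rw [Finset.card_product, Finset.card_product, Finset.card_range, Finset.card_range,
        Finset.card_range]
    exact_mod_cast h1
  calc perc Vtx p {ω | ∃ v a, Dom b (R.M + 13 + 7 * s₀) s v a ∧
      ¬ Few R ω (s + s₀) v (a * 2 ^ (s + s₀))}
      ≤ perc Vtx p (⋃ q ∈ T, B q) := measure_mono hsub
    _ ≤ ∑ q ∈ T, perc Vtx p (B q) := measure_biUnion_finset_le T B
    _ ≤ ∑ q ∈ T, ENNReal.ofReal (Real.exp (-R.c * 2 ^ (s + s₀))) := by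
        refine Finset.sum_le_sum fun q hq => ?_
        exact R.bad_prob (s + s₀) q.1 (q.2 * 2 ^ (s + s₀)) (Finset.mem_filter.1 hq).2
    _ = ENNReal.ofReal (T.card * Real.exp (-R.c * 2 ^ (s + s₀))) := by
        rw [Finset.sum_const, nsmul_eq_mul, ENNReal.ofReal_mul (by positivity)]
        simp
    _ ≤ ENNReal.ofReal (15 * (1 / 2) ^ s) := by
        apply ENNReal.ofReal_le_ofReal
        refine le_trans ?_ (num_bound hb hc s)
        exact mul_le_mul_of_nonneg_right hcard (Real.exp_pos _).le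

end T5

/-- **Module T5.** Borel-Cantelli gives the coarse structure. -/
theorem exists_kstr (b : ℕ) (hb : 2 ≤ b) (p : unitInterval) (R : Renorm b p) :
    ∃ m H : ℕ, 0 < H ∧ ∀ᵐ ω ∂(perc Vtx p), ∃ s₁ κ, KStr b m H (opn (GZ b) ω) s₁ κ := by
  have hb0 : (0 : ℝ) < b := by exact_mod_cast (by omega : 0 < b)
  obtain ⟨s₀, hs₀⟩ : ∃ s₀ : ℕ, Real.exp (-R.c * 2 ^ s₀) ≤ 1 / (2 * (b : ℝ) ^ 7) := by
    have h1 : Tendsto (fun s : ℕ => R.c * (2 : ℝ) ^ s) atTop atTop :=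
      (tendsto_pow_atTop_atTop_of_one_lt (by norm_num : (1 : ℝ) < 2)).const_mul_atTop R.hc
    have h2 : Tendsto (fun s : ℕ => Real.exp (-(R.c * (2 : ℝ) ^ s))) atTop (nhds 0) :=
      Real.tendsto_exp_neg_atTop_nhds_zero.comp h1
    have h3 : (0 : ℝ) < 1 / (2 * (b : ℝ) ^ 7) := by positivity
    obtain ⟨s, hs⟩ := (h2.eventually (gt_mem_nhds h3)).exists
    refine ⟨s, ?_⟩
    rw [neg_mul]; exact hs.le
  refine ⟨R.M + 13 + 7 * s₀, 2 ^ s₀ * R.W, Nat.mul_pos (by positivity) R.hW, ?_⟩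
  have hsum : ∑' s, perc Vtx p {ω | ∃ v a, Dom b (R.M + 13 + 7 * s₀) s v a ∧
      ¬ T5.Few R ω (s + s₀) v (a * 2 ^ (s + s₀))} ≠ ∞ := by
    refine ne_top_of_le_ne_top ?_ (ENNReal.tsum_le_tsum fun s => T5.prob_bound R hb hs₀ s)
    have h1 : Summable fun s : ℕ => 15 * ((1 : ℝ) / 2) ^ s :=
      (summable_geometric_of_lt_one (by norm_num) (by norm_num)).mul_left 15
    rw [← ENNReal.ofReal_tsum_of_nonneg (fun s => by positivity) h1]
    exact ENNReal.ofReal_ne_top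
  filter_upwards [ae_eventually_notMem hsum] with ω hω
  obtain ⟨s₁, hs₁⟩ := eventually_atTop.1 hω
  refine ⟨s₁, ?_⟩
  apply T5.kstr_of_few R
  intro s hs v a hd
  by_contra hf
  exact hs₁ s hs ⟨v, a, hd, hf⟩

end Pool.Agent.MP_c3c849_pr
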