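import Pool.Agent.MP_c3c849_pr.Defs2

/-!
# MP_c3c849_pr, module T7: the capacity criterion for transience
-/

open MeasureTheory ProbabilityTheory
open scoped ENNReal

namespace Pool.Agent.MP_c3c849_pr

namespace T7

open Classical in
/-- The neighbours of `y`, as a finset. -/
noncomputable def nb {V : Type*} (Γ : SimpleGraph V) (hfin : ∀ x, (Γ.neighborSet x).Finite)
    (y : V) : Finset V := (hfin y).toFinset

theorem mem_nb {V : Type*} {Γ : SimpleGraph V} {hfin : ∀ x, (Γ.neighborSet x).Finite}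
    {y z : V} : z ∈ nb Γ hfin y ↔ Γ.Adj y z := by
  simp [nb]

theorem card_nb {V : Type*} {Γ : SimpleGraph V} {hfin : ∀ x, (Γ.neighborSet x).Finite}
    {y : V} : (nb Γ hfin y).card = (Γ.neighborSet y).ncard := by
  rw [nb, Set.ncard_eq_toFinset_card _ (hfin y)]

theorem walkP_succ_eq {V : Type*} (Γ : SimpleGraph V) (hfin : ∀ x, (Γ.neighborSet x).Finite)
    (n : ℕ) (y x : V) :
    walkP Γ (n + 1) y x =
      ∑ z ∈ nb Γ hfin y, ((Γ.neighborSet y).ncard : ℝ≥0∞)⁻¹ * walkP Γ n z x := by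
  rw [walkP, tsum_eq_sum (s := nb Γ hfin y)]
  · refine Finset.sum_congr rfl fun z hz => ?_
    rw [step, if_pos (mem_nb.1 hz)]
  · intro z hz
    rw [step, if_neg (fun h => hz (mem_nb.2 h)), zero_mul]

theorem walkP_ne_top {V : Type*} (Γ : SimpleGraph V) (hfin : ∀ x, (Γ.neighborSet x).Finite)
    (x : V) : ∀ (n : ℕ) (y : V), walkP Γ n y x ≠ ⊤ := by
  intro n
  induction n with
  | zero => intro y; rw [walkP]; split_ifs <;> simp
  | succ n ih =>
    intro y
    rw [walkP_succ_eq Γ hfin]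
    refine (ENNReal.sum_lt_top.2 fun z hz => ?_).ne
    refine ENNReal.mul_lt_top ?_ (ih z).lt_top
    rw [ENNReal.inv_lt_top, ← card_nb (hfin := hfin)]
    exact_mod_cast Finset.card_pos.2 ⟨z, hz⟩

/-- Real valued version of `walkP Γ n y x`. -/
noncomputable def g {V : Type*} (Γ : SimpleGraph V) (x : V) (n : ℕ) (y : V) : ℝ :=
  (walkP Γ n y x).toReal

theorem g_nonneg {V : Type*} (Γ : SimpleGraph V) (x : V) (n : ℕ) (y : V) : 0 ≤ g Γ x n y :=
  ENNReal.toReal_nonneg

theorem g_zero {V : Type*} (Γ : SimpleGraph V) (x y : V) :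
    g Γ x 0 y = open Classical in if y = x then 1 else 0 := by
  rw [g, walkP]; split_ifs <;> simp

theorem deg_mul_g_succ {V : Type*} (Γ : SimpleGraph V) (hfin : ∀ x, (Γ.neighborSet x).Finite)
    (x : V) (n : ℕ) (y : V) :
    ((nb Γ hfin y).card : ℝ) * g Γ x (n + 1) y = ∑ z ∈ nb Γ hfin y, g Γ x n z := by
  rw [g, walkP_succ_eq Γ hfin, ENNReal.toReal_sum]
  · rcases Nat.eq_zero_or_pos (nb Γ hfin y).card with h0 | h0
    · have : nb Γ hfin y = ∅ := Finset.card_eq_zero.1 h0
      rw [this]; simp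
    · rw [Finset.mul_sum]
      refine Finset.sum_congr rfl fun z _ => ?_
      rw [ENNReal.toReal_mul, ENNReal.toReal_inv, ENNReal.toReal_natCast, card_nb, g,
        ← mul_assoc, mul_inv_cancel₀, one_mul]
      rw [card_nb] at h0
      exact_mod_cast h0.ne'
  · intro z hz
    refine (ENNReal.mul_lt_top ?_ (walkP_ne_top Γ hfin x n z).lt_top).ne
    rw [ENNReal.inv_lt_top, ← card_nb (hfin := hfin)]
    exact_mod_cast Finset.card_pos.2 ⟨z, hz⟩

theorem g_support_finite {V : Type*} (Γ : SimpleGraph V) (hfin : ∀ x, (Γ.neighborSet x).Finite)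
    (x : V) : ∀ n : ℕ, (Function.support (g Γ x n)).Finite := by
  intro n
  induction n with
  | zero =>
    refine (Set.finite_singleton x).subset fun y hy => ?_
    rw [Function.mem_support, g_zero] at hy
    by_contra h
    exact hy (if_neg h)
  | succ n ih =>
    refine (ih.biUnion (t := fun z => Γ.neighborSet z) fun z _ => hfin z).subset fun y hy => ?_
    rw [Function.mem_support] at hy
    by_contra h
    simp only [Set.mem_iUnion, not_exists, SimpleGraph.mem_neighborSet] at h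
    apply hy
    rw [g, walkP_succ_eq Γ hfin, Finset.sum_eq_zero, ENNReal.toReal_zero]
    intro z hz
    have hzy : Γ.Adj z y := (mem_nb.1 hz).symm
    have h1 : g Γ x n z = 0 := by
      by_contra h2
      exact h z h2 hzy
    have h2 : walkP Γ n z x = 0 := by
      rw [g, ENNReal.toReal_eq_zero_iff] at h1
      exact h1.resolve_right (walkP_ne_top Γ hfin x n z)
    rw [h2, mul_zero]

/-- Green's formula: the Dirichlet energy of a finitely supported function. -/
theorem energyLE_green {V : Type*} (Γ : SimpleGraph V) (hfin : ∀ x, (Γ.neighborSet x).Finite)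
    (u : V → ℝ) (hu : u.support.Finite) :
    EnergyLE Γ u (2 * ∑ y ∈ hu.toFinset,
      u y * (((nb Γ hfin y).card : ℝ) * u y - ∑ z ∈ nb Γ hfin y, u z)) := by
  classical
  intro F hF
  set S := hu.toFinset with hS
  have hmemS : ∀ y, y ∉ S → u y = 0 := by
    intro y hy
    rw [hS, Set.Finite.mem_toFinset, Function.mem_support, not_not] at hy
    exact hy
  set E₁ : Finset (V × V) := S.biUnion fun y => (nb Γ hfin y).image fun z => (y, z) with hE₁
  have hmemE₁ : ∀ e : V × V, e ∈ E₁ ↔ e.1 ∈ S ∧ Γ.Adj e.1 e.2 := by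
    rintro ⟨a, b⟩
    simp only [hE₁, Finset.mem_biUnion, Finset.mem_image, mem_nb, Prod.mk.injEq]
    constructor
    · rintro ⟨y, hy, z, hz, rfl, rfl⟩; exact ⟨hy, hz⟩
    · rintro ⟨h1, h2⟩; exact ⟨a, h1, b, h2, rfl, rfl⟩
  set E : Finset (V × V) := E₁ ∪ E₁.image Prod.swap with hE
  have hmemE : ∀ e : V × V, e ∈ E ↔ (e.1 ∈ S ∨ e.2 ∈ S) ∧ Γ.Adj e.1 e.2 := by
    rintro ⟨a, b⟩
    simp only [hE, Finset.mem_union, Finset.mem_image, hmemE₁, Prod.exists, Prod.swap_prod_mk,
      Prod.mk.injEq]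
    constructor
    · rintro (⟨h1, h2⟩ | ⟨c, d, ⟨h1, h2⟩, rfl, rfl⟩)
      · exact ⟨Or.inl h1, h2⟩
      · exact ⟨Or.inr h1, h2.symm⟩
    · rintro ⟨h1 | h1, h2⟩
      · exact Or.inl ⟨h1, h2⟩
      · exact Or.inr ⟨b, a, ⟨h1, h2.symm⟩, rfl, rfl⟩
  have h1 : ∑ e ∈ F, (u e.1 - u e.2) ^ 2 ≤ ∑ e ∈ E, (u e.1 - u e.2) ^ 2 := by
    rw [← Finset.sum_filter_add_sum_filter_not F (fun e => e ∈ E)]
    have h2 : ∑ e ∈ F with e ∉ E, (u e.1 - u e.2) ^ 2 = 0 := by
      refine Finset.sum_eq_zero fun e he => ?_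
      rw [Finset.mem_filter, hmemE, not_and_or, not_or] at he
      rcases he.2 with h | h
      · rw [hmemS _ h.1, hmemS _ h.2]; simp
      · exact absurd (hF e he.1) h
    rw [h2, add_zero]
    exact Finset.sum_le_sum_of_subset_of_nonneg
      (fun e he => (Finset.mem_filter.1 he).2) (fun _ _ _ => sq_nonneg _)
  refine h1.trans (le_of_eq ?_)
  have hswap : ∀ f : V × V → ℝ, ∑ e ∈ E, f e.swap = ∑ e ∈ E, f e := by
    intro f
    refine Finset.sum_nbij' Prod.swap Prod.swap ?_ ?_ ?_ ?_ ?_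
    · intro e he
      rw [hmemE] at he ⊢
      exact ⟨he.1.symm, he.2.symm⟩
    · intro e he
      rw [hmemE] at he ⊢
      exact ⟨he.1.symm, he.2.symm⟩
    · intro e _; simp
    · intro e _; simp
    · intro e _; rfl
  have h3 : ∑ e ∈ E, (u e.1 - u e.2) ^ 2 = 2 * ∑ e ∈ E, u e.1 * (u e.1 - u e.2) := by
    have h4 := hswap fun e => u e.1 * (u e.1 - u e.2)
    simp only [Prod.fst_swap, Prod.snd_swap] at h4
    rw [two_mul]
    nth_rewrite 1 [← h4]
    rw [← Finset.sum_add_distrib]
    refine Finset.sum_congr rfl fun e _ => ?_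
    ring
  have h5 : ∑ e ∈ E, u e.1 * (u e.1 - u e.2) = ∑ e ∈ E₁, u e.1 * (u e.1 - u e.2) := by
    symm
    refine Finset.sum_subset Finset.subset_union_left fun e he he' => ?_
    rw [hmemE₁, not_and_or] at he'
    rw [hmemE] at he
    rcases he' with h | h
    · rw [hmemS _ h, zero_mul]
    · exact absurd he.2 h
  rw [h3, h5, hE₁, Finset.sum_biUnion]
  · congr 1
    refine Finset.sum_congr rfl fun y _ => ?_
    rw [Finset.sum_image (fun a _ b _ h => (Prod.mk.inj h).2)]
    simp only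
    rw [← Finset.mul_sum, Finset.sum_sub_distrib, Finset.sum_const, nsmul_eq_mul]
  · intro a _ b _ hab
    simp only [Function.onFun]
    rw [Finset.disjoint_left]
    rintro ⟨c, d⟩ h1 h2
    simp only [Finset.mem_image, Prod.mk.injEq] at h1 h2
    obtain ⟨_, _, rfl, _⟩ := h1
    obtain ⟨_, _, h, _⟩ := h2
    exact hab h.symm

end T7

open T7 in
/-- Capacity criterion: if `u x ^ 2` is bounded by a constant times the Dirichlet energy for all
nonnegative finitely supported `u`, then the walk started at `x` is transient. -/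
theorem transient_of_capacity {V : Type*} (Γ : SimpleGraph V)
    (hfin : ∀ x, (Γ.neighborSet x).Finite) (x : V) (C : ℝ)
    (h : ∀ u : V → ℝ, u.support.Finite → (∀ y, 0 ≤ u y) → ∀ D, EnergyLE Γ u D →
      u x ^ 2 ≤ C * D) : Transient Γ x := by
  classical
  set d : ℝ := ((nb Γ hfin x).card : ℝ) with hd
  -- the Green functions
  set u : ℕ → V → ℝ := fun N y => ∑ n ∈ Finset.range N, g Γ x n y with hu
  have hu0 : ∀ N y, 0 ≤ u N y := fun N y => Finset.sum_nonneg fun n _ => g_nonneg Γ x n y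
  have hsupp : ∀ N, (u N).support.Finite := by
    intro N
    refine ((Finset.range N).finite_toSet.biUnion (t := fun n => Function.support (g Γ x n))
      fun n _ => g_support_finite Γ hfin x n).subset fun y hy => ?_
    rw [Function.mem_support] at hy
    obtain ⟨n, hn, hne⟩ := Finset.exists_ne_zero_of_sum_ne_zero hy
    exact Set.mem_biUnion (Finset.mem_coe.2 hn) hne
  have hlap : ∀ N y, ((nb Γ hfin y).card : ℝ) * u N y - ∑ z ∈ nb Γ hfin y, u N z =
      ((nb Γ hfin y).card : ℝ) * (g Γ x 0 y - g Γ x N y) := by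
    intro N y
    have h1 : ∑ z ∈ nb Γ hfin y, u N z =
        ((nb Γ hfin y).card : ℝ) * ∑ n ∈ Finset.range N, g Γ x (n + 1) y := by
      rw [hu, Finset.sum_comm, Finset.mul_sum]
      exact Finset.sum_congr rfl fun n _ => (deg_mul_g_succ Γ hfin x n y).symm
    rw [h1, ← mul_sub, hu]
    simp only
    rw [← Finset.sum_sub_distrib, Finset.sum_range_sub']
  have hen : ∀ N, EnergyLE Γ (u N) (2 * (d * u N x)) := by
    intro N F hF
    refine (energyLE_green Γ hfin (u N) (hsupp N) F hF).trans ?_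
    refine mul_le_mul_of_nonneg_left ?_ (by norm_num)
    have h1 : ∀ y ∈ (hsupp N).toFinset, u N y * (((nb Γ hfin y).card : ℝ) * u N y -
        ∑ z ∈ nb Γ hfin y, u N z) ≤ if y = x then d * u N x else 0 := by
      intro y _
      rw [hlap, g_zero]
      split_ifs with hyx
      · subst hyx
        have h2 : 0 ≤ d * (u N y * g Γ y N y) :=
          mul_nonneg (Nat.cast_nonneg _) (mul_nonneg (hu0 N y) (g_nonneg Γ y N y))
        nlinarith [h2]
      · have h2 : 0 ≤ ((nb Γ hfin y).card : ℝ) * (u N y * g Γ x N y) :=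
          mul_nonneg (Nat.cast_nonneg _) (mul_nonneg (hu0 N y) (g_nonneg Γ x N y))
        nlinarith [h2]
    refine (Finset.sum_le_sum h1).trans ?_
    rw [Finset.sum_ite_eq']
    split_ifs
    · exact le_rfl
    · exact mul_nonneg (Nat.cast_nonneg _) (hu0 N x)
  have hbd : ∀ N, u N x ≤ max (2 * C * d) 0 := by
    intro N
    have h1 := h (u N) (hsupp N) (hu0 N) _ (hen N)
    rcases (hu0 N x).eq_or_lt with h2 | h2
    · rw [← h2]; exact le_max_right _ _
    · refine le_max_of_le_left ?_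
      have h3 : u N x * u N x ≤ (2 * C * d) * u N x := by nlinarith
      exact le_of_mul_le_mul_right h3 h2
  have hsum : ∀ N, ∑ n ∈ Finset.range N, walkP Γ n x x ≤ ENNReal.ofReal (max (2 * C * d) 0) := by
    intro N
    have h1 : ∑ n ∈ Finset.range N, walkP Γ n x x ≠ ⊤ :=
      (ENNReal.sum_lt_top.2 fun n _ => (walkP_ne_top Γ hfin x n x).lt_top).ne
    rw [← ENNReal.ofReal_toReal h1, ENNReal.toReal_sum fun n _ => walkP_ne_top Γ hfin x n x]
    exact ENNReal.ofReal_le_ofReal (hbd N)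
  unfold Transient
  refine ne_of_lt (lt_of_le_of_lt ?_ (ENNReal.ofReal_lt_top (r := max (2 * C * d) 0)))
  rw [ENNReal.tsum_eq_iSup_nat]
  exact iSup_le hsum

end Pool.Agent.MP_c3c849_pr
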