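import Mathlib

/-!
# MP_c3c849_pr: definitions

Canopy tree times `ℤ`, Bernoulli bond percolation, infinite clusters, simple random walk.
-/

open MeasureTheory ProbabilityTheory
open scoped ENNReal

namespace Pool.Agent.MP_c3c849_pr

/-- The canopy tree `𝒞_(b+1)`.  Vertices are pairs `(n, m)`: `n` is the level, and the `m`-th
vertex of level `n` has the parent `(n + 1, m / b)`; so the children of `(n, m)`, `n ≥ 1`, are the
`b` vertices `(n - 1, b * m + i)`, `i < b`, and the vertices of level `0` are leaves. -/
def Canopy (b : ℕ) : SimpleGraph (ℕ × ℕ) where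
  Adj x y := (y.1 = x.1 + 1 ∧ y.2 = x.2 / b) ∨ (x.1 = y.1 + 1 ∧ x.2 = y.2 / b)
  symm := ⟨fun _ _ h => Or.symm h⟩
  loopless := ⟨fun x h => by rcases h with ⟨h, _⟩ | ⟨h, _⟩ <;> omega⟩

/-- The line graph on `ℤ`. -/
def ZLine : SimpleGraph ℤ where
  Adj s t := t = s + 1 ∨ s = t + 1
  symm := ⟨fun _ _ h => Or.symm h⟩
  loopless := ⟨fun x h => by rcases h with h | h <;> omega⟩

/-- Vertices of (tree) times `ℤ`. -/
abbrev Vtx : Type := (ℕ × ℕ) × ℤ

/-- The Cartesian product of the canopy tree and the line. -/
def GZ (b : ℕ) : SimpleGraph Vtx := SimpleGraph.boxProd (Canopy b) ZLine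

/-- Bernoulli measure on `Bool`: `true` (open) has probability `p`. -/
noncomputable def ber (p : unitInterval) : Measure Bool :=
  ENNReal.ofReal (p : ℝ) • Measure.dirac true + ENNReal.ofReal (1 - (p : ℝ)) • Measure.dirac false

instance (p : unitInterval) : IsProbabilityMeasure (ber p) := by
  constructor
  have h0 : (0 : ℝ) ≤ p := p.2.1
  have h1 : (p : ℝ) ≤ 1 := p.2.2
  simp only [ber, Measure.coe_add, Measure.coe_smul, Pi.add_apply, Pi.smul_apply, measure_univ,
    smul_eq_mul, mul_one]
  rw [← ENNReal.ofReal_add h0 (by linarith)]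
  simp

/-- The product of the Bernoulli measures over an index set `E`. -/
noncomputable def bern (E : Type*) (p : unitInterval) : Measure (E → Bool) :=
  Measure.infinitePi (fun _ : E => ber p)

instance (E : Type*) (p : unitInterval) : IsProbabilityMeasure (bern E p) := by
  unfold bern; infer_instance

/-- Percolation configurations on a vertex set `V`: a state (open = `true`) for every unordered
pair of vertices; only the pairs that are edges of the graph at hand matter. -/
abbrev Cfg (V : Type*) : Type _ := Sym2 V → Bool

/-- Bernoulli bond percolation with parameter `p`: all pairs are open independently with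
probability `p`. -/
noncomputable abbrev perc (V : Type*) (p : unitInterval) : Measure (Cfg V) := bern (Sym2 V) p

/-- The open subgraph of `G` in the configuration `ω`. -/
def opn {V : Type*} (G : SimpleGraph V) (ω : Cfg V) : SimpleGraph V where
  Adj x y := G.Adj x y ∧ ω s(x, y) = true
  symm := ⟨fun x y h => ⟨h.1.symm, by rw [Sym2.eq_swap]; exact h.2⟩⟩
  loopless := ⟨fun x h => G.loopless.irrefl x h.1⟩

/-- The open cluster of `x` (its connected component in the open subgraph) is infinite. -/
def InfCl {V : Type*} (G : SimpleGraph V) (ω : Cfg V) (x : V) : Prop :=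
  {y | (opn G ω).Reachable x y}.Infinite

/-- The critical probability: the infimum of the `p` for which almost surely there is an infinite
open cluster. -/
noncomputable def pc {V : Type*} (G : SimpleGraph V) : ℝ :=
  sInf {q : ℝ | ∃ p : unitInterval, (p : ℝ) = q ∧ ∀ᵐ ω ∂(perc V p), ∃ x, InfCl G ω x}

/-- Transition probability of simple random walk on `Γ`. -/
noncomputable def step {V : Type*} (Γ : SimpleGraph V) (x y : V) : ℝ≥0∞ :=
  open Classical in if Γ.Adj x y then ((Γ.neighborSet x).ncard : ℝ≥0∞)⁻¹ else 0

/-- `n`-step transition probabilities of simple random walk on `Γ`. -/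
noncomputable def walkP {V : Type*} (Γ : SimpleGraph V) : ℕ → V → V → ℝ≥0∞
  | 0, x, y => open Classical in if x = y then 1 else 0
  | n + 1, x, y => ∑' z, step Γ x z * walkP Γ n z y

/-- Simple random walk on `Γ` started at `x` (hence on the component of `x`) is transient: the
expected number of returns to `x` is finite. -/
def Transient {V : Type*} (Γ : SimpleGraph V) (x : V) : Prop :=
  ∑' n, walkP Γ n x x ≠ ⊤

end Pool.Agent.MP_c3c849_pr
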