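import Pool.Agent.MP_c3c849_pr.Defs

/-!
# MP_c3c849_pr: auxiliary definitions shared by the modules
-/

open MeasureTheory ProbabilityTheory
open scoped ENNReal

namespace Pool.Agent.MP_c3c849_pr

/-- The subgraph of `Γ` spanned by a set of vertices (as a graph on all of `V`). -/
def cut {V : Type*} (Γ : SimpleGraph V) (R : Set V) : SimpleGraph V where
  Adj x y := Γ.Adj x y ∧ x ∈ R ∧ y ∈ R
  symm := ⟨fun _ _ h => ⟨h.1.symm, h.2.2, h.2.1⟩⟩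
  loopless := ⟨fun x h => Γ.loopless.irrefl x h.1⟩

/-- The pairs with both endpoints in `R`. -/
def within {V : Type*} (R : Set V) : Set (Sym2 V) := {e | ∀ x ∈ e, x ∈ R}

/-- Force a finite set of edges to be open. -/
def force {E : Type*} [DecidableEq E] (F : Finset E) (ω : E → Bool) : E → Bool :=
  fun e => if e ∈ F then true else ω e

/-- Vertical shift by one. -/
def shiftZ {U : Type*} (z : U × ℤ) : U × ℤ := (z.1, z.2 + 1)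

/-- Descendants of `v` of depth at most `M`. -/
def Desc (b M : ℕ) (v : ℕ × ℕ) : Set (ℕ × ℕ) := {z | ∃ d ≤ M, z.1 + d = v.1 ∧ z.2 / b ^ d = v.2}

/-- The box `Desc b M v × [lo, hi]`. -/
def Reg (b M : ℕ) (v : ℕ × ℕ) (lo hi : ℤ) : Set Vtx := {z | z.1 ∈ Desc b M v ∧ lo ≤ z.2 ∧ z.2 ≤ hi}

/-- The `c`-th child. -/
def child (b : ℕ) (v : ℕ × ℕ) (c : ℕ) : ℕ × ℕ := (v.1 - 1, b * v.2 + c)

/-- Local seeds (output of module T3, input of module T4). -/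
structure Seeds (b : ℕ) (p : unitInterval) (ε : ℝ≥0∞) where
  W : ℕ
  M : ℕ
  K : Cfg Vtx → ℕ × ℕ → ℤ → Prop
  S : Cfg Vtx → ℕ × ℕ → ℤ → Prop
  hW : 0 < W
  hM : 2 * W ≤ M
  prob : ∀ v i, M ≤ v.1 → perc Vtx p {ω | ¬ S ω v i} ≤ ε
  dep : ∀ v (i : ℤ), M ≤ v.1 →
    DependsOn (fun ω => S ω v i) (within (Reg b M v (i * W - M) (i * W + M)))
  pt : ∀ ω v (i : ℤ), M ≤ v.1 → S ω v i → ∃ t : ℤ, i * W ≤ t ∧ t < (i + 1) * W ∧ K ω v t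
  conn : ∀ ω v (i : ℤ), M ≤ v.1 → S ω v i →
    ∀ u u', (u = v ∨ ∃ c < b, u = child b v c) → (u' = v ∨ ∃ c < b, u' = child b v c) →
    ∀ t t' : ℤ, i * W ≤ t → t < (i + 2) * W → i * W ≤ t' → t' < (i + 2) * W →
    K ω u t → K ω u' t' →
    (cut (opn (GZ b) ω) (Reg b M v (i * W - M) (i * W + M))).Reachable (u, t) (u', t')

/-- Output of the renormalisation (module T4). Scale `s` windows are `[a, a + 2 ^ (s + 1))`. -/
structure Renorm (b : ℕ) (p : unitInterval) where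
  W : ℕ
  M : ℕ
  K : Cfg Vtx → ℕ × ℕ → ℤ → Prop
  S : Cfg Vtx → ℕ × ℕ → ℤ → Prop
  hW : 0 < W
  hM : 2 * W ≤ M
  pt : ∀ ω v (i : ℤ), M ≤ v.1 → S ω v i → ∃ t : ℤ, i * W ≤ t ∧ t < (i + 1) * W ∧ K ω v t
  conn : ∀ ω v (i : ℤ), M ≤ v.1 → S ω v i →
    ∀ u u', (u = v ∨ ∃ c < b, u = child b v c) → (u' = v ∨ ∃ c < b, u' = child b v c) →
    ∀ t t' : ℤ, i * W ≤ t → t < (i + 2) * W → i * W ≤ t' → t' < (i + 2) * W →
    K ω u t → K ω u' t' →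
    (cut (opn (GZ b) ω) (Reg b M v (i * W - M) (i * W + M))).Reachable (u, t) (u', t')
  c : ℝ
  hc : 0 < c
  Bad : Cfg Vtx → ℕ → ℕ × ℕ → ℤ → Set ℤ
  bad_sub : ∀ ω s v a, Bad ω s v a ⊆ Set.Ico a (a + 2 ^ (s + 1))
  bad_prob : ∀ s v a, M + 6 + 7 * s ≤ v.1 →
    perc Vtx p {ω | 2 ^ (s + 1) < 10 * (Bad ω s v a).ncard} ≤
      ENNReal.ofReal (Real.exp (-c * 2 ^ s))
  own : ∀ ω s v a, M + 6 + 7 * s ≤ v.1 → ∀ i ∈ Set.Ico a (a + 2 ^ (s + 1)), i ∉ Bad ω s v a →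
    S ω v i
  link : ∀ ω s v (a : ℤ), M + 6 + 7 * s ≤ v.1 →
    ∀ i ∈ Set.Ico a (a + 2 ^ (s + 1)), ∀ i' ∈ Set.Ico a (a + 2 ^ (s + 1)),
    i ∉ Bad ω s v a → i' ∉ Bad ω s v a →
    ∀ t t' : ℤ, i * W ≤ t → t < (i + 1) * W → i' * W ≤ t' → t' < (i' + 1) * W →
    K ω v t → K ω v t' →
    (cut (opn (GZ b) ω)
      (Reg b (M + 6 + 7 * s) v (a * W - M) ((a + 2 ^ (s + 1)) * W + M))).Reachable (v, t) (v, t')

/-- Domain of the coarse points at scale `s` (module T5). -/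
def Dom (b m s : ℕ) (v : ℕ × ℕ) (a : ℕ) : Prop :=
  m + 7 * s ≤ v.1 ∧ v.1 ≤ 4 * 2 ^ s ∧ v.2 < b ^ (4 * 2 ^ s - v.1) ∧ a ≤ 2 * b ^ (2 * 2 ^ s)

/-- Region of the coarse site `(v, a)` at scale `s`. -/
def RegK (b m H s : ℕ) (v : ℕ × ℕ) (a : ℕ) : Set Vtx :=
  Reg b (m + 7 * s) v (a * (2 ^ s * H) - m) ((a + 4) * (2 ^ s * H) + m)

/-- The coarse structure (output of module T5, input of module T6). -/
structure KStr (b m H : ℕ) (Γ : SimpleGraph Vtx) (s₁ : ℕ) (κ : ℕ → ℕ × ℕ → ℕ → Vtx) : Prop where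
  kp : ∀ s ≥ s₁, ∀ v a, Dom b m s v a →
    ∃ t : ℤ, κ s v a = (v, t) ∧ a * (2 ^ s * H) ≤ t ∧ t < (a + 2) * (2 ^ s * H)
  l1 : ∀ s ≥ s₁, ∀ v a, Dom b m s v a → Dom b m s v (a + 1) →
    (cut Γ (RegK b m H s v a)).Reachable (κ s v a) (κ s v (a + 1))
  l2 : ∀ s ≥ s₁, ∀ v a, Dom b m s v a → ∀ c < b, Dom b m s (child b v c) a →
    (cut Γ (RegK b m H s v a)).Reachable (κ s v a) (κ s (child b v c) a)
  l3 : ∀ s ≥ s₁, ∀ v a, Dom b m s v (2 * a) → Dom b m (s + 1) v a →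
    (cut Γ (RegK b m H s v (2 * a))).Reachable (κ s v (2 * a)) (κ (s + 1) v a)

/-- The Dirichlet energy of `u` on `Γ` (oriented edges counted twice) is at most `D`. -/
def EnergyLE {V : Type*} (Γ : SimpleGraph V) (u : V → ℝ) (D : ℝ) : Prop :=
  ∀ F : Finset (V × V), (∀ e ∈ F, Γ.Adj e.1 e.2) → ∑ e ∈ F, (u e.1 - u e.2) ^ 2 ≤ D

end Pool.Agent.MP_c3c849_pr
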