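import Pool.Agent.MP_c3c849_pr.Defs2

/-!
# MP_c3c849_pr: T6, the energy estimate
-/

open MeasureTheory ProbabilityTheory
open scoped ENNReal

namespace Pool.Agent.MP_c3c849_pr

namespace T6

/-! ### Paths -/

/-- Telescoping along a walk. -/
theorem walk_telescope {V : Type*} {Γ : SimpleGraph V} (u : V → ℝ) {x y : V} (p : Γ.Walk x y) :
    (p.darts.map (fun d => u d.fst - u d.snd)).sum = u x - u y := by
  induction p with
  | nil => simp
  | cons h p ih => simp [ih]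

/-- Cauchy-Schwarz for lists. -/
theorem list_sum_sq_le : ∀ l : List ℝ, l.sum ^ 2 ≤ l.length * (l.map (fun a => a ^ 2)).sum
  | [] => by simp
  | a :: l => by
    have ih := list_sum_sq_le l
    set S := (l.map (fun a => a ^ 2)).sum with hS
    have hn : (0:ℝ) ≤ l.length := Nat.cast_nonneg _
    have hS0 : 0 ≤ S := List.sum_nonneg (by
      intro x hx
      obtain ⟨y, _, rfl⟩ := List.mem_map.1 hx
      positivity)
    rw [List.sum_cons, List.map_cons, List.sum_cons, List.length_cons, ← hS]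
    push_cast
    rcases Nat.eq_zero_or_pos l.length with h0 | h0
    · have : l = [] := List.length_eq_zero_iff.1 h0
      subst this
      simp only [List.length_nil, List.sum_nil, Nat.cast_zero, zero_add, add_zero, one_mul]
      linarith
    · have hn1 : (1:ℝ) ≤ l.length := by exact_mod_cast h0
      -- 2 a s <= n a^2 + s^2 / n <= n a^2 + S
      have h1 : 2 * a * l.sum ≤ l.length * a ^ 2 + S := by
        have h2 : 2 * a * l.sum * l.length ≤ (l.length * a ^ 2 + S) * l.length := by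
          nlinarith [sq_nonneg (l.length * a - l.sum)]
        exact le_of_mul_le_mul_right h2 (by linarith)
      nlinarith

/-- Energy bound along a path inside a finite set. -/
theorem path_bound {V : Type*} (Γ : SimpleGraph V) (Q : Set V) (hQ : Q.Finite) {x y : V}
    (hr : (cut Γ Q).Reachable x y) : ∃ F : Finset (V × V),
      (∀ e ∈ F, Γ.Adj e.1 e.2 ∧ e.1 ∈ Q) ∧
      ∀ u : V → ℝ, (u x - u y) ^ 2 ≤ Q.ncard * ∑ e ∈ F, (u e.1 - u e.2) ^ 2 := by
  classical
  obtain ⟨w⟩ := hr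
  set p := w.toPath with hp
  by_cases hxy : x = y
  · subst hxy
    exact ⟨∅, by simp, fun u => by simp⟩
  have hpath : (p : (cut Γ Q).Walk x y).IsPath := p.2
  -- vertices of the path lie in Q
  have hmem : ∀ d ∈ (p : (cut Γ Q).Walk x y).darts, Γ.Adj d.fst d.snd ∧ d.fst ∈ Q ∧ d.snd ∈ Q := by
    intro d _
    exact d.adj
  have hsupp : ∀ z ∈ (p : (cut Γ Q).Walk x y).support, z ∈ Q := by
    intro z hz
    by_cases hzx : z = x
    · subst hzx
      have hnn : ¬ (p : (cut Γ Q).Walk z y).Nil := SimpleGraph.Walk.not_nil_of_ne hxy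
      have := ((p : (cut Γ Q).Walk z y).adj_snd hnn)
      exact this.2.1
    · have : z ∈ (p : (cut Γ Q).Walk x y).support.tail := by
        rw [← SimpleGraph.Walk.cons_tail_support] at hz
        rcases List.mem_cons.1 hz with h | h
        · exact absurd h hzx
        · exact h
      rw [← SimpleGraph.Walk.map_snd_darts] at this
      obtain ⟨d, hd, rfl⟩ := List.mem_map.1 this
      exact (hmem d hd).2.2
  have hlen : (p : (cut Γ Q).Walk x y).darts.length ≤ Q.ncard := by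
    have h1 : (p : (cut Γ Q).Walk x y).support.toFinset.card = (p : (cut Γ Q).Walk x y).support.length :=
      List.toFinset_card_of_nodup hpath.support_nodup
    have h2 : (↑(p : (cut Γ Q).Walk x y).support.toFinset : Set V) ⊆ Q := by
      intro z hz
      exact hsupp z (by simpa using hz)
    have h3 := Set.ncard_le_ncard h2 hQ
    rw [Set.ncard_coe_finset, h1, SimpleGraph.Walk.length_support] at h3
    rw [SimpleGraph.Walk.length_darts]
    omega
  have hnd : ((p : (cut Γ Q).Walk x y).darts.map (fun d => (d.fst, d.snd))).Nodup := by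
    apply List.Nodup.map
    · intro d d' h
      simp only [Prod.mk.injEq] at h
      exact SimpleGraph.Dart.ext _ _ (Prod.ext h.1 h.2)
    · have h1 : ((p : (cut Γ Q).Walk x y).darts.map (·.fst)).Nodup := by
        rw [SimpleGraph.Walk.map_fst_darts]
        exact hpath.support_nodup.sublist (List.dropLast_sublist _)
      exact List.Nodup.of_map _ h1
  refine ⟨((p : (cut Γ Q).Walk x y).darts.map (fun d => (d.fst, d.snd))).toFinset, ?_, ?_⟩
  · intro e he
    rw [List.mem_toFinset] at he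
    obtain ⟨d, hd, rfl⟩ := List.mem_map.1 he
    exact ⟨(hmem d hd).1, (hmem d hd).2.1⟩
  · intro u
    rw [List.sum_toFinset _ hnd, List.map_map, ← walk_telescope u (p : (cut Γ Q).Walk x y)]
    refine (list_sum_sq_le _).trans ?_
    rw [List.length_map, List.map_map]
    have h0 : 0 ≤ (List.map ((fun e : V × V => (u e.1 - u e.2) ^ 2) ∘ fun d : (cut Γ Q).Dart => (d.fst, d.snd))
        (p : (cut Γ Q).Walk x y).darts).sum := List.sum_nonneg (by
      intro a ha
      obtain ⟨d, _, rfl⟩ := List.mem_map.1 ha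
      simp only [Function.comp]
      positivity)
    have h1 : ((p : (cut Γ Q).Walk x y).darts.length : ℝ) ≤ Q.ncard := by exact_mod_cast hlen
    exact mul_le_mul_of_nonneg_right h1 h0

/-- Reachable vertices: the difference of the values is controlled by the energy. -/
theorem reach_bound {V : Type*} (Γ : SimpleGraph V) {x y : V} (hr : Γ.Reachable x y) :
    ∃ C : ℝ, 0 ≤ C ∧ ∀ u : V → ℝ, ∀ D, EnergyLE Γ u D → |u x - u y| ≤ C * Real.sqrt D := by
  obtain ⟨w⟩ := hr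
  refine ⟨w.length, Nat.cast_nonneg _, ?_⟩
  intro u D hE
  induction w with
  | nil => simp
  | @cons a b c h p ih =>
    have h1 : |u a - u b| ≤ Real.sqrt D := by
      rw [← Real.sqrt_sq_eq_abs]
      apply Real.sqrt_le_sqrt
      have := hE {(a, b)} (by simpa using h)
      simpa using this
    rw [SimpleGraph.Walk.length_cons]
    push_cast
    calc |u a - u c| ≤ |u a - u b| + |u b - u c| := abs_sub_le _ _ _
      _ ≤ Real.sqrt D + p.length * Real.sqrt D := add_le_add h1 ih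
      _ = (p.length + 1) * Real.sqrt D := by ring

/-! ### Regions -/

theorem reg_finite_card (b M : ℕ) (v : ℕ × ℕ) (lo hi : ℤ) (n : ℕ) (hn : hi - lo + 1 ≤ n) (hb : 1 ≤ b) :
    (Reg b M v lo hi).Finite ∧ (Reg b M v lo hi).ncard ≤ (M + 1) * b ^ M * n := by
  classical
  set I : Finset ((ℕ × ℕ) × ℤ) := (Finset.range (M + 1) ×ˢ Finset.range (b ^ M)) ×ˢ Finset.Icc lo hi with hI
  set f : (ℕ × ℕ) × ℤ → Vtx := fun q => ((v.1 - q.1.1, b ^ q.1.1 * v.2 + q.1.2), q.2) with hf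
  have hsub : Reg b M v lo hi ⊆ ↑(I.image f) := by
    rintro z ⟨⟨d, hd, h1, h2⟩, h3, h4⟩
    rw [Finset.coe_image]
    refine ⟨((d, z.1.2 % b ^ d), z.2), ?_, ?_⟩
    · simp only [hI, Finset.coe_product, Set.mem_prod, Finset.coe_range, Set.mem_Iio, Finset.coe_Icc, Set.mem_Icc]
      refine ⟨⟨by omega, ?_⟩, h3, h4⟩
      calc z.1.2 % b ^ d < b ^ d := Nat.mod_lt _ (by positivity)
        _ ≤ b ^ M := Nat.pow_le_pow_right hb hd
    · simp only [hf]
      rw [← h2, Nat.div_add_mod]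
      ext
      · simp; omega
      · simp
      · simp
  have hfin : (↑(I.image f) : Set Vtx).Finite := Finset.finite_toSet _
  refine ⟨hfin.subset hsub, ?_⟩
  calc (Reg b M v lo hi).ncard ≤ (↑(I.image f) : Set Vtx).ncard := Set.ncard_le_ncard hsub hfin
    _ = (I.image f).card := Set.ncard_coe_finset _
    _ ≤ I.card := Finset.card_image_le
    _ = (M + 1) * b ^ M * (hi + 1 - lo).toNat := by
      rw [hI, Finset.card_product, Finset.card_product, Finset.card_range, Finset.card_range, Int.card_Icc]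
    _ ≤ (M + 1) * b ^ M * n := by
      apply Nat.mul_le_mul_left
      omega

/-- Bound of the size of the regions of scale `s`. -/
def RS (b m H s : ℕ) : ℕ := (m + 7 * s + 1) * b ^ (m + 7 * s) * (4 * (2 ^ s * H) + 2 * m + 1)

theorem regK_card (b m H s : ℕ) (hb : 1 ≤ b) (v : ℕ × ℕ) (a : ℕ) :
    (RegK b m H s v a).Finite ∧ (RegK b m H s v a).ncard ≤ RS b m H s := by
  apply reg_finite_card
  · push_cast
    linarith
  · exact hb

/-- Every vertex lies in at most `5 + 2 m` of the regions of a given level. -/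
theorem mult_bound (b m H s : ℕ) (hH : 0 < H) {ι : Type*} (I : Finset ι)
    (φ : ι → (ℕ × ℕ) × ℕ) (hφ : Set.InjOn φ I) (k : ℕ) (hk : ∀ i ∈ I, (φ i).1.1 = k) (z : Vtx)
    [DecidablePred fun i => z ∈ RegK b m H s (φ i).1 (φ i).2] :
    (I.filter (fun i => z ∈ RegK b m H s (φ i).1 (φ i).2)).card ≤ 5 + 2 * m := by
  classical
  set h : ℤ := 2 ^ s * H with hh
  have hh1 : 1 ≤ h := by
    have : (0:ℤ) < 2 ^ s * H := by positivity
    omega
  set c : ℤ := (z.2 + m) / h with hc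
  have hcard : (Finset.Icc (c - 4 - 2 * m) c).card = 5 + 2 * m := by
    rw [Int.card_Icc]
    omega
  rw [← hcard]
  apply Finset.card_le_card_of_injOn (fun i => ((φ i).2 : ℤ))
  · intro i hi
    rw [Finset.mem_coe, Finset.mem_filter] at hi
    obtain ⟨hi, ⟨_, h1, h2⟩⟩ := hi
    rw [Finset.mem_coe, Finset.mem_Icc]
    have h1' : ((φ i).2 : ℤ) * h ≤ z.2 + m := by rw [hh]; linarith
    have h2' : z.2 ≤ (((φ i).2 : ℤ) + 4) * h + m := by rw [hh]; linarith
    have h3 : ((φ i).2 : ℤ) ≤ c := by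
      rw [hc]
      exact Int.le_ediv_of_mul_le (by omega) h1'
    refine ⟨?_, h3⟩
    have h4 : c * h ≤ z.2 + m := Int.ediv_mul_le _ (by omega)
    have h5 : (c - ((φ i).2 : ℤ) - 4) * h ≤ 2 * m := by linarith
    by_contra hcon
    push Not at hcon
    have h6 : 2 * (m : ℤ) < c - ((φ i).2 : ℤ) - 4 := by linarith
    have h7 : (0 : ℤ) ≤ 2 * m := by positivity
    nlinarith
  · intro i hi j hj hij
    rw [Finset.mem_coe, Finset.mem_filter] at hi hj
    apply hφ hi.1 hj.1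
    have hij' : (φ i).2 = (φ j).2 := by
      have : ((φ i).2 : ℤ) = ((φ j).2 : ℤ) := hij
      exact_mod_cast this
    obtain ⟨hiI, ⟨⟨d, hd, h1, h2⟩, _⟩⟩ := hi
    obtain ⟨hjI, ⟨⟨d', hd', h1', h2'⟩, _⟩⟩ := hj
    have e1 := hk i hiI
    have e2 := hk j hjI
    have hdd : d = d' := by omega
    subst hdd
    ext
    · rw [e1, e2]
    · rw [← h2, ← h2']
    · exact hij'

/-- (E1), squares. -/
theorem E1_sq {b m H : ℕ} (hb : 1 ≤ b) (hH : 0 < H) {Γ : SimpleGraph Vtx} {s : ℕ} {ι : Type*} (I : Finset ι)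
    (φ : ι → (ℕ × ℕ) × ℕ) (hφ : Set.InjOn φ I) (k : ℕ) (hk : ∀ i ∈ I, (φ i).1.1 = k)
    (X Y : ι → Vtx)
    (hXY : ∀ i ∈ I, (cut Γ (RegK b m H s (φ i).1 (φ i).2)).Reachable (X i) (Y i))
    {u : Vtx → ℝ} {D : ℝ} (hE : EnergyLE Γ u D) :
    ∑ i ∈ I, (u (X i) - u (Y i)) ^ 2 ≤ RS b m H s * (5 + 2 * m) * D := by
  classical
  have hD : 0 ≤ D := by simpa using hE ∅ (by simp)
  have hex : ∀ i, ∃ F : Finset (Vtx × Vtx), i ∈ I →
      (∀ e ∈ F, Γ.Adj e.1 e.2 ∧ e.1 ∈ RegK b m H s (φ i).1 (φ i).2) ∧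
      (u (X i) - u (Y i)) ^ 2 ≤ RS b m H s * ∑ e ∈ F, (u e.1 - u e.2) ^ 2 := by
    intro i
    by_cases hi : i ∈ I
    · obtain ⟨F, hF1, hF2⟩ := path_bound Γ _ (regK_card b m H s hb (φ i).1 (φ i).2).1 (hXY i hi)
      refine ⟨F, fun _ => ⟨hF1, (hF2 u).trans ?_⟩⟩
      apply mul_le_mul_of_nonneg_right
      · exact_mod_cast (regK_card b m H s hb (φ i).1 (φ i).2).2
      · exact Finset.sum_nonneg fun e _ => sq_nonneg _
    · exact ⟨∅, fun h => absurd h hi⟩
  choose F hF using hex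
  set U : Finset (Vtx × Vtx) := I.biUnion F with hU
  have hUE : ∑ e ∈ U, (u e.1 - u e.2) ^ 2 ≤ D := by
    apply hE
    intro e he
    rw [hU, Finset.mem_biUnion] at he
    obtain ⟨i, hi, he⟩ := he
    exact ((hF i hi).1 e he).1
  have h1 : ∑ i ∈ I, ∑ e ∈ F i, (u e.1 - u e.2) ^ 2 ≤ (5 + 2 * m) * ∑ e ∈ U, (u e.1 - u e.2) ^ 2 := by
    calc ∑ i ∈ I, ∑ e ∈ F i, (u e.1 - u e.2) ^ 2
        = ∑ i ∈ I, ∑ e ∈ U, if e ∈ F i then (u e.1 - u e.2) ^ 2 else 0 := by
          apply Finset.sum_congr rfl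
          intro i hi
          rw [← Finset.sum_filter]
          apply Finset.sum_congr _ (fun _ _ => rfl)
          ext e
          rw [Finset.mem_filter]
          exact ⟨fun h => ⟨Finset.mem_biUnion.2 ⟨i, hi, h⟩, h⟩, fun h => h.2⟩
      _ = ∑ e ∈ U, ∑ i ∈ I, if e ∈ F i then (u e.1 - u e.2) ^ 2 else 0 := Finset.sum_comm
      _ ≤ ∑ e ∈ U, (5 + 2 * m) * (u e.1 - u e.2) ^ 2 := by
          apply Finset.sum_le_sum
          intro e _
          rw [← Finset.sum_filter, Finset.sum_const, nsmul_eq_mul]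
          apply mul_le_mul_of_nonneg_right _ (sq_nonneg _)
          have h2 : (I.filter (fun i => e ∈ F i)).card ≤ 5 + 2 * m := by
            refine le_trans (Finset.card_le_card ?_) (mult_bound b m H s hH I φ hφ k hk e.1)
            intro i hi
            rw [Finset.mem_filter] at hi ⊢
            exact ⟨hi.1, ((hF i hi.1).1 e hi.2).2⟩
          exact_mod_cast h2
      _ = (5 + 2 * m) * ∑ e ∈ U, (u e.1 - u e.2) ^ 2 := by rw [Finset.mul_sum]
  calc ∑ i ∈ I, (u (X i) - u (Y i)) ^ 2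
      ≤ ∑ i ∈ I, RS b m H s * ∑ e ∈ F i, (u e.1 - u e.2) ^ 2 :=
        Finset.sum_le_sum fun i hi => (hF i hi).2
    _ = RS b m H s * ∑ i ∈ I, ∑ e ∈ F i, (u e.1 - u e.2) ^ 2 := by rw [Finset.mul_sum]
    _ ≤ RS b m H s * ((5 + 2 * m) * ∑ e ∈ U, (u e.1 - u e.2) ^ 2) :=
        mul_le_mul_of_nonneg_left h1 (Nat.cast_nonneg _)
    _ ≤ RS b m H s * ((5 + 2 * m) * D) := by
        apply mul_le_mul_of_nonneg_left _ (Nat.cast_nonneg _)
        apply mul_le_mul_of_nonneg_left hUE (by positivity)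
    _ = RS b m H s * (5 + 2 * m) * D := by ring

/-- The constant of scale `s`. -/
noncomputable def qq (b m H s : ℕ) (D : ℝ) : ℝ := Real.sqrt (RS b m H s * (5 + 2 * m) * D)

/-- (E1). -/
theorem E1 {b m H : ℕ} (hb : 1 ≤ b) (hH : 0 < H) {Γ : SimpleGraph Vtx} {s : ℕ} {ι : Type*} (I : Finset ι)
    (φ : ι → (ℕ × ℕ) × ℕ) (hφ : Set.InjOn φ I) (k : ℕ) (hk : ∀ i ∈ I, (φ i).1.1 = k)
    (X Y : ι → Vtx)
    (hXY : ∀ i ∈ I, (cut Γ (RegK b m H s (φ i).1 (φ i).2)).Reachable (X i) (Y i))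
    {u : Vtx → ℝ} {D : ℝ} (hE : EnergyLE Γ u D) :
    ∑ i ∈ I, |u (X i) - u (Y i)| ≤ Real.sqrt I.card * qq b m H s D := by
  have h1 := E1_sq hb hH I φ hφ k hk X Y hXY hE
  unfold qq
  rw [← Real.sqrt_mul (Nat.cast_nonneg _)]
  apply Real.le_sqrt_of_sq_le
  have h2 := sq_sum_le_card_mul_sum_sq (s := I) (f := fun i => |u (X i) - u (Y i)|)
  simp only [sq_abs] at h2
  exact h2.trans (mul_le_mul_of_nonneg_left h1 (Nat.cast_nonneg _))

/-! ### Averages -/

/-- Average of the first `N` values. -/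
noncomputable def av (N : ℕ) (f : ℕ → ℝ) : ℝ := (∑ i ∈ Finset.range N, f i) / N

theorem av_sub_le (N : ℕ) (f g : ℕ → ℝ) :
    |av N f - av N g| ≤ (∑ i ∈ Finset.range N, |f i - g i|) / N := by
  unfold av
  rw [← sub_div, ← Finset.sum_sub_distrib, abs_div, Nat.abs_cast]
  exact div_le_div_of_nonneg_right (Finset.abs_sum_le_sum_abs _ _) (Nat.cast_nonneg _)

theorem av_le {N : ℕ} (hN : 0 < N) {f : ℕ → ℝ} {c : ℝ} (h : ∀ i < N, f i ≤ c) : av N f ≤ c := by
  unfold av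
  have hN' : (0:ℝ) < N := by exact_mod_cast hN
  rw [div_le_iff₀ hN']
  calc ∑ i ∈ Finset.range N, f i ≤ ∑ i ∈ Finset.range N, c :=
        Finset.sum_le_sum fun i hi => h i (Finset.mem_range.1 hi)
    _ = c * N := by rw [Finset.sum_const, Finset.card_range, nsmul_eq_mul, mul_comm]

theorem le_av {N : ℕ} (hN : 0 < N) {f : ℕ → ℝ} {c : ℝ} (h : ∀ i < N, c ≤ f i) : c ≤ av N f := by
  unfold av
  have hN' : (0:ℝ) < N := by exact_mod_cast hN
  rw [le_div_iff₀ hN']
  calc c * N = ∑ i ∈ Finset.range N, c := by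
        rw [Finset.sum_const, Finset.card_range, nsmul_eq_mul, mul_comm]
    _ ≤ ∑ i ∈ Finset.range N, f i :=
        Finset.sum_le_sum fun i hi => h i (Finset.mem_range.1 hi)

theorem av_close {N N' : ℕ} (hN : 0 < N) (hN' : 0 < N') {f g : ℕ → ℝ} {w : ℝ}
    (h : ∀ i < N, ∀ j < N', |f i - g j| ≤ w) : |av N f - av N' g| ≤ w := by
  rw [abs_le]
  constructor
  · have h1 : ∀ i < N, av N' g - w ≤ f i := by
      intro i hi
      have : av N' g ≤ f i + w := av_le hN' fun j hj => by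
        have := (abs_le.1 (h i hi j hj)).1
        linarith
      linarith
    have := le_av hN h1
    linarith
  · have h1 : ∀ i < N, f i ≤ av N' g + w := by
      intro i hi
      have : f i - w ≤ av N' g := le_av hN' fun j hj => by
        have := (abs_le.1 (h i hi j hj)).2
        linarith
      linarith
    have := av_le hN h1
    linarith

theorem telescope_le (F : ℕ → ℝ) (c : ℝ) : ∀ L : ℕ, (∀ j < L, |F j - F (j + 1)| ≤ c) →
    |F 0 - F L| ≤ L * c
  | 0, _ => by simp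
  | L + 1, h => by
    have ih := telescope_le F c L (fun j hj => h j (by omega))
    have h1 := h L (by omega)
    push_cast
    calc |F 0 - F (L + 1)| ≤ |F 0 - F L| + |F L - F (L + 1)| := abs_sub_le _ _ _
      _ ≤ L * c + c := add_le_add ih h1
      _ = (L + 1) * c := by ring

theorem range_var (F : ℕ → ℝ) {M a a' : ℕ} (h : a ≤ a') (h' : a' ≤ M) :
    |F a - F a'| ≤ ∑ i ∈ Finset.range M, |F i - F (i + 1)| := by
  obtain ⟨d, rfl⟩ := Nat.exists_eq_add_of_le h
  have h1 : ∀ d : ℕ, |F a - F (a + d)| ≤ ∑ i ∈ Finset.range d, |F (a + i) - F (a + i + 1)| := by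
    intro d
    induction d with
    | zero => simp
    | succ d ih =>
      rw [Finset.sum_range_succ]
      exact (abs_sub_le _ (F (a + d)) _).trans (add_le_add ih (le_of_eq rfl))
  refine (h1 d).trans ?_
  calc ∑ i ∈ Finset.range d, |F (a + i) - F (a + i + 1)|
      = ∑ i ∈ (Finset.range d).image (fun i => a + i), |F i - F (i + 1)| := by
        rw [Finset.sum_image]
        intro x _ y _ hxy
        simpa using hxy
    _ ≤ ∑ i ∈ Finset.range M, |F i - F (i + 1)| := by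
        apply Finset.sum_le_sum_of_subset_of_nonneg
        · intro i hi
          rw [Finset.mem_image] at hi
          obtain ⟨j, hj, rfl⟩ := hi
          rw [Finset.mem_range] at hj ⊢
          omega
        · intro _ _ _
          exact abs_nonneg _

theorem range_var' (F : ℕ → ℝ) {M a a' : ℕ} (h : a ≤ M) (h' : a' ≤ M) :
    |F a - F a'| ≤ ∑ i ∈ Finset.range M, |F i - F (i + 1)| := by
  rcases le_total a a' with h1 | h1
  · exact range_var F h1 h'
  · rw [abs_sub_comm]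
    exact range_var F h1 h

theorem sum_range_blocks (f : ℕ → ℝ) (b : ℕ) : ∀ N : ℕ,
    ∑ y ∈ Finset.range (N * b), f y = ∑ x ∈ Finset.range N, ∑ c ∈ Finset.range b, f (b * x + c)
  | 0 => by simp
  | N + 1 => by
    rw [Nat.succ_mul, Finset.sum_range_add, sum_range_blocks f b N, Finset.sum_range_succ]
    congr 1
    apply Finset.sum_congr rfl
    intro c _
    rw [mul_comm b N]

/-! ### One scale -/

section Scale

variable {b m H : ℕ} {Γ : SimpleGraph Vtx} {s₁ : ℕ} {κ : ℕ → ℕ × ℕ → ℕ → Vtx} {s : ℕ}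
  {u : Vtx → ℝ} {D : ℝ}

/-- Average over the descendants of generation `j` of `(n, 0)`. -/
noncomputable def BB (b : ℕ) (κ : ℕ → ℕ × ℕ → ℕ → Vtx) (s : ℕ) (u : Vtx → ℝ) (j a : ℕ) : ℝ :=
  av (b ^ j) (fun x => u (κ s (4 * 2 ^ s - j, x) a))

theorem dom_of {b m s : ℕ} {v : ℕ × ℕ} {a : ℕ} (h1 : m + 7 * s ≤ v.1) (h2 : v.1 ≤ 4 * 2 ^ s)
    (h3 : v.2 < b ^ (4 * 2 ^ s - v.1)) (h4 : a ≤ 2 * b ^ (2 * 2 ^ s)) : Dom b m s v a :=
  ⟨h1, h2, h3, h4⟩

theorem dom_zero {b m s : ℕ} (hb : 2 ≤ b) {k a : ℕ} (h1 : m + 7 * s ≤ k) (h2 : k ≤ 4 * 2 ^ s)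
    (h4 : a ≤ 2 * b ^ (2 * 2 ^ s)) : Dom b m s (k, 0) a :=
  ⟨h1, h2, by
    have : 0 < b := by omega
    positivity, h4⟩

theorem pow_le_two (hb : 2 ≤ b) : b ^ (2 ^ s) ≤ b ^ (2 * 2 ^ s) :=
  Nat.pow_le_pow_right (by omega) (by omega)

theorem climb_step (hb : 2 ≤ b) (hH : 0 < H) (h : KStr b m H Γ s₁ κ) (hs : s₁ ≤ s)
    (hE : EnergyLE Γ u D) {k : ℕ} (hk : m + 7 * s ≤ k) (hk' : k < 4 * 2 ^ s) :
    |av (b ^ (2 ^ s)) (fun i => u (κ s (k, 0) i)) -
      av (b ^ (2 ^ s)) (fun i => u (κ s (k + 1, 0) i))| ≤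
      qq b m H s D / Real.sqrt ((b ^ (2 ^ s) : ℕ) : ℝ) := by
  set A := b ^ (2 ^ s) with hA
  have hA0 : 0 < A := by positivity
  have hAA := pow_le_two (s := s) hb
  have h1 := E1 (by omega : 1 ≤ b) hH (Finset.range A) (fun i => ((k + 1, 0), i))
    (fun i _ j _ hij => by simpa using hij) (k + 1) (fun _ _ => rfl)
    (fun i => κ s (k, 0) i) (fun i => κ s (k + 1, 0) i) (by
      intro i hi
      rw [Finset.mem_range] at hi
      have hc : child b (k + 1, 0) 0 = (k, 0) := by simp [child]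
      have := h.l2 s hs (k + 1, 0) i (dom_zero hb (by omega) (by omega) (by omega)) 0 (by omega)
        (by
          rw [hc]
          exact dom_zero hb (by omega) (by omega) (by omega))
      rw [hc] at this
      exact this.symm) hE
  refine (av_sub_le _ _ _).trans ?_
  rw [Finset.card_range] at h1
  have hA' : (0:ℝ) < A := by exact_mod_cast hA0
  rw [div_le_div_iff₀ hA' (Real.sqrt_pos.2 hA')]
  calc (∑ i ∈ Finset.range A, |u (κ s (k, 0) i) - u (κ s (k + 1, 0) i)|) * Real.sqrt A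
      ≤ (Real.sqrt A * qq b m H s D) * Real.sqrt A :=
        mul_le_mul_of_nonneg_right h1 (Real.sqrt_nonneg _)
    _ = qq b m H s D * (Real.sqrt A * Real.sqrt A) := by ring
    _ = qq b m H s D * A := by rw [Real.mul_self_sqrt hA'.le]

theorem descend_step (hb : 2 ≤ b) (hH : 0 < H) (h : KStr b m H Γ s₁ κ) (hs : s₁ ≤ s)
    (hE : EnergyLE Γ u D) {N : ℕ} (hN : 0 < N) {g : ℕ → ℕ} (hg : Function.Injective g)
    (hg' : ∀ i < N, g i ≤ 2 * b ^ (2 * 2 ^ s)) {j : ℕ} (hj : m + 7 * s + j < 4 * 2 ^ s) :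
    |av N (fun i => BB b κ s u j (g i)) - av N (fun i => BB b κ s u (j + 1) (g i))| ≤
      qq b m H s D / Real.sqrt N := by
  have hq : 0 ≤ qq b m H s D := Real.sqrt_nonneg _
  have hbj : 0 < b ^ j := by positivity
  have hbj' : (0:ℝ) < ((b ^ j : ℕ) : ℝ) := by exact_mod_cast hbj
  have hN' : (0:ℝ) < N := by exact_mod_cast hN
  have hb' : (0:ℝ) < b := by
    have : 0 < b := by omega
    exact_mod_cast this
  -- the two averages as sums over children
  have e1 : ∀ a, BB b κ s u j a = (∑ x ∈ Finset.range (b ^ j), ∑ c ∈ Finset.range b,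
      u (κ s (4 * 2 ^ s - j, x) a)) / (((b ^ j : ℕ) : ℝ) * b) := by
    intro a
    unfold BB av
    simp only [Finset.sum_const, Finset.card_range, nsmul_eq_mul]
    rw [← Finset.mul_sum]
    field_simp
  have e2 : ∀ a, BB b κ s u (j + 1) a = (∑ x ∈ Finset.range (b ^ j), ∑ c ∈ Finset.range b,
      u (κ s (4 * 2 ^ s - (j + 1), b * x + c) a)) / (((b ^ j : ℕ) : ℝ) * b) := by
    intro a
    unfold BB av
    rw [pow_succ, sum_range_blocks]
    push_cast
    rfl
  -- estimate for one child index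
  have h1 : ∀ c ∈ Finset.range b, ∑ p ∈ Finset.range N ×ˢ Finset.range (b ^ j),
      |u (κ s (4 * 2 ^ s - j, p.2) (g p.1)) - u (κ s (4 * 2 ^ s - (j + 1), b * p.2 + c) (g p.1))| ≤
      Real.sqrt (N * ((b ^ j : ℕ) : ℝ)) * qq b m H s D := by
    intro c hc
    rw [Finset.mem_range] at hc
    have := E1 (by omega : 1 ≤ b) hH (Finset.range N ×ˢ Finset.range (b ^ j))
      (fun p => ((4 * 2 ^ s - j, p.2), g p.1))
      (fun p _ p' _ hpp => by
        simp only [Prod.mk.injEq, true_and] at hpp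
        exact Prod.ext (hg hpp.2) hpp.1) (4 * 2 ^ s - j) (fun _ _ => rfl)
      (fun p => κ s (4 * 2 ^ s - j, p.2) (g p.1))
      (fun p => κ s (4 * 2 ^ s - (j + 1), b * p.2 + c) (g p.1)) (by
        intro p hp
        rw [Finset.mem_product, Finset.mem_range, Finset.mem_range] at hp
        have hch : child b (4 * 2 ^ s - j, p.2) c = (4 * 2 ^ s - (j + 1), b * p.2 + c) := by
          simp [child]
          omega
        have h4 : 4 * 2 ^ s - (4 * 2 ^ s - j) = j := by omega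
        have h5 : 4 * 2 ^ s - (4 * 2 ^ s - (j + 1)) = j + 1 := by omega
        have hlt : b * p.2 + c < b ^ (j + 1) := by
          have h6 : p.2 + 1 ≤ b ^ j := hp.2
          calc b * p.2 + c < b * p.2 + b := by omega
            _ = b * (p.2 + 1) := by ring
            _ ≤ b * b ^ j := Nat.mul_le_mul_left _ h6
            _ = b ^ (j + 1) := by ring
        have := h.l2 s hs (4 * 2 ^ s - j, p.2) (g p.1) (dom_of (by simp; omega) (by simp)
          (by simp only [h4]; exact hp.2) (hg' _ hp.1)) c hc (by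
            rw [hch]
            exact dom_of (by simp; omega) (by simp) (by simp only [h5]; exact hlt) (hg' _ hp.1))
        rw [hch] at this
        exact this) hE
    rw [Finset.card_product, Finset.card_range, Finset.card_range] at this
    push_cast at this ⊢
    exact this
  have h2 : ∑ i ∈ Finset.range N, |BB b κ s u j (g i) - BB b κ s u (j + 1) (g i)| ≤
      (b * (Real.sqrt (N * ((b ^ j : ℕ) : ℝ)) * qq b m H s D)) / (((b ^ j : ℕ) : ℝ) * b) := by
    calc ∑ i ∈ Finset.range N, |BB b κ s u j (g i) - BB b κ s u (j + 1) (g i)|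
        ≤ ∑ i ∈ Finset.range N, (∑ x ∈ Finset.range (b ^ j), ∑ c ∈ Finset.range b,
          |u (κ s (4 * 2 ^ s - j, x) (g i)) - u (κ s (4 * 2 ^ s - (j + 1), b * x + c) (g i))|) /
            (((b ^ j : ℕ) : ℝ) * b) := by
          apply Finset.sum_le_sum
          intro i _
          rw [e1, e2, ← sub_div, abs_div, abs_of_pos (mul_pos hbj' hb')]
          apply div_le_div_of_nonneg_right _ (mul_pos hbj' hb').le
          rw [← Finset.sum_sub_distrib]
          refine (Finset.abs_sum_le_sum_abs _ _).trans (Finset.sum_le_sum fun x _ => ?_)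
          rw [← Finset.sum_sub_distrib]
          exact Finset.abs_sum_le_sum_abs _ _
      _ = (∑ c ∈ Finset.range b, ∑ p ∈ Finset.range N ×ˢ Finset.range (b ^ j),
          |u (κ s (4 * 2 ^ s - j, p.2) (g p.1)) -
            u (κ s (4 * 2 ^ s - (j + 1), b * p.2 + c) (g p.1))|) / (((b ^ j : ℕ) : ℝ) * b) := by
          rw [← Finset.sum_div]
          congr 1
          rw [Finset.sum_comm (s := Finset.range b), Finset.sum_product]
      _ ≤ (∑ c ∈ Finset.range b, Real.sqrt (N * ((b ^ j : ℕ) : ℝ)) * qq b m H s D) /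
            (((b ^ j : ℕ) : ℝ) * b) :=
          div_le_div_of_nonneg_right (Finset.sum_le_sum h1) (mul_pos hbj' hb').le
      _ = _ := by rw [Finset.sum_const, Finset.card_range, nsmul_eq_mul]
  refine (av_sub_le _ _ _).trans ?_
  refine (div_le_div_of_nonneg_right h2 hN'.le).trans ?_
  have hX : (0:ℝ) < N * ((b ^ j : ℕ) : ℝ) := mul_pos hN' hbj'
  have h3 : (b * (Real.sqrt (N * ((b ^ j : ℕ) : ℝ)) * qq b m H s D)) / (((b ^ j : ℕ) : ℝ) * b) / N =
      qq b m H s D / Real.sqrt (N * ((b ^ j : ℕ) : ℝ)) := by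
    have hsq : Real.sqrt (N * ((b ^ j : ℕ) : ℝ)) ≠ 0 := (Real.sqrt_pos.2 hX).ne'
    rw [div_div, div_eq_div_iff (by positivity) hsq]
    have := Real.mul_self_sqrt hX.le
    linear_combination (b * qq b m H s D) * this
  rw [h3]
  apply div_le_div_of_nonneg_left hq (Real.sqrt_pos.2 hN')
  apply Real.sqrt_le_sqrt
  have h4 : (1:ℝ) ≤ ((b ^ j : ℕ) : ℝ) := by exact_mod_cast hbj
  nlinarith

theorem horizontal (hb : 2 ≤ b) (hH : 0 < H) (h : KStr b m H Γ s₁ κ) (hs : s₁ ≤ s)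
    (hE : EnergyLE Γ u D) {L : ℕ} (hL : m + 7 * s + L = 4 * 2 ^ s) {a a' : ℕ}
    (ha : a ≤ 2 * b ^ (2 * 2 ^ s)) (ha' : a' ≤ 2 * b ^ (2 * 2 ^ s)) :
    |BB b κ s u L a - BB b κ s u L a'| ≤
      Real.sqrt ((2 * b ^ (2 * 2 ^ s) : ℕ) / ((b ^ L : ℕ) : ℝ)) * qq b m H s D := by
  set T := 2 * b ^ (2 * 2 ^ s) with hT
  have hbL : 0 < b ^ L := by positivity
  have hbL' : (0:ℝ) < ((b ^ L : ℕ) : ℝ) := by exact_mod_cast hbL
  refine (range_var' (fun a => BB b κ s u L a) ha ha').trans ?_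
  have h1 := E1 (by omega : 1 ≤ b) hH (Finset.range T ×ˢ Finset.range (b ^ L))
      (fun p => ((4 * 2 ^ s - L, p.2), p.1))
      (fun p _ p' _ hpp => by
        simp only [Prod.mk.injEq, true_and] at hpp
        exact Prod.ext hpp.2 hpp.1) (4 * 2 ^ s - L) (fun _ _ => rfl)
      (fun p => κ s (4 * 2 ^ s - L, p.2) p.1)
      (fun p => κ s (4 * 2 ^ s - L, p.2) (p.1 + 1)) (by
        intro p hp
        rw [Finset.mem_product, Finset.mem_range, Finset.mem_range] at hp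
        have h4 : 4 * 2 ^ s - (4 * 2 ^ s - L) = L := by omega
        exact h.l1 s hs _ _ (dom_of (by simp; omega) (by simp)
          (by simp only [h4]; exact hp.2) (by omega)) (dom_of (by simp; omega) (by simp)
          (by simp only [h4]; exact hp.2) (by omega))) hE
  rw [Finset.card_product, Finset.card_range, Finset.card_range] at h1
  calc ∑ i ∈ Finset.range T, |BB b κ s u L i - BB b κ s u L (i + 1)|
      ≤ ∑ i ∈ Finset.range T, (∑ x ∈ Finset.range (b ^ L),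
        |u (κ s (4 * 2 ^ s - L, x) i) - u (κ s (4 * 2 ^ s - L, x) (i + 1))|) / ((b ^ L : ℕ) : ℝ) :=
        Finset.sum_le_sum fun i _ => av_sub_le _ _ _
    _ = (∑ p ∈ Finset.range T ×ˢ Finset.range (b ^ L),
        |u (κ s (4 * 2 ^ s - L, p.2) p.1) - u (κ s (4 * 2 ^ s - L, p.2) (p.1 + 1))|) /
          ((b ^ L : ℕ) : ℝ) := by
        rw [← Finset.sum_div, Finset.sum_product]
    _ ≤ (Real.sqrt ((T * b ^ L : ℕ) : ℝ) * qq b m H s D) / ((b ^ L : ℕ) : ℝ) :=
        div_le_div_of_nonneg_right h1 hbL'.le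
    _ = Real.sqrt ((T : ℕ) / ((b ^ L : ℕ) : ℝ)) * qq b m H s D := by
        have h2 : Real.sqrt ((T * b ^ L : ℕ) : ℝ) =
            Real.sqrt ((T : ℕ) / ((b ^ L : ℕ) : ℝ)) * ((b ^ L : ℕ) : ℝ) := by
          rw [show ((T * b ^ L : ℕ) : ℝ) = ((T : ℕ) / ((b ^ L : ℕ) : ℝ)) * (((b ^ L : ℕ) : ℝ) ^ 2) by
            push_cast
            have : (b : ℝ) ^ L ≠ 0 := by
              have := hbL'.ne'
              push_cast at this
              exact this
            field_simp]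
          rw [Real.sqrt_mul' _ (by positivity), Real.sqrt_sq hbL'.le]
        rw [h2]
        field_simp

theorem cross_step (hb : 2 ≤ b) (hH : 0 < H) (h : KStr b m H Γ s₁ κ) (hs : s₁ ≤ s)
    (hE : EnergyLE Γ u D) (hm : m + 7 * (s + 1) ≤ 4 * 2 ^ s) :
    |av (b ^ (2 * 2 ^ s)) (fun i => u (κ s (4 * 2 ^ s, 0) (2 * i))) -
      av (b ^ (2 * 2 ^ s)) (fun i => u (κ (s + 1) (4 * 2 ^ s, 0) i))| ≤
      qq b m H s D / Real.sqrt ((b ^ (2 * 2 ^ s) : ℕ) : ℝ) := by
  set A := b ^ (2 * 2 ^ s) with hA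
  have hA0 : 0 < A := by positivity
  have h1 := E1 (by omega : 1 ≤ b) hH (Finset.range A) (fun i => ((4 * 2 ^ s, 0), 2 * i))
    (fun i _ j _ hij => by simpa using hij) (4 * 2 ^ s) (fun _ _ => rfl)
    (fun i => κ s (4 * 2 ^ s, 0) (2 * i)) (fun i => κ (s + 1) (4 * 2 ^ s, 0) i) (by
      intro i hi
      rw [Finset.mem_range] at hi
      have h2 : b ^ (2 * 2 ^ s) ≤ b ^ (2 * 2 ^ (s + 1)) :=
        Nat.pow_le_pow_right (by omega) (by rw [pow_succ]; omega)
      exact h.l3 s hs (4 * 2 ^ s, 0) i (dom_zero hb (by omega) le_rfl (by omega))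
        (dom_zero hb hm (by rw [pow_succ]; omega) (by omega))) hE
  refine (av_sub_le _ _ _).trans ?_
  rw [Finset.card_range] at h1
  have hA' : (0:ℝ) < A := by exact_mod_cast hA0
  rw [div_le_div_iff₀ hA' (Real.sqrt_pos.2 hA')]
  calc (∑ i ∈ Finset.range A, |u (κ s (4 * 2 ^ s, 0) (2 * i)) - u (κ (s + 1) (4 * 2 ^ s, 0) i)|) *
        Real.sqrt A
      ≤ (Real.sqrt A * qq b m H s D) * Real.sqrt A :=
        mul_le_mul_of_nonneg_right h1 (Real.sqrt_nonneg _)
    _ = qq b m H s D * (Real.sqrt A * Real.sqrt A) := by ring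
    _ = qq b m H s D * A := by rw [Real.mul_self_sqrt hA'.le]

/-! ### Change of scale -/

/-- The average of scale `s`. -/
noncomputable def mu (b : ℕ) (κ : ℕ → ℕ × ℕ → ℕ → Vtx) (u : Vtx → ℝ) (s : ℕ) : ℝ :=
  av (b ^ (2 ^ s)) (fun i => u (κ s (2 * 2 ^ s, 0) i))

theorem BB_zero (a : ℕ) : BB b κ s u 0 a = u (κ s (4 * 2 ^ s, 0) a) := by
  simp [BB, av]

theorem scale_step (hb : 2 ≤ b) (hH : 0 < H) (h : KStr b m H Γ s₁ κ) (hs : s₁ ≤ s)
    (hE : EnergyLE Γ u D) (hm : m + 7 * s ≤ 2 * 2 ^ s) (hm' : m + 7 * (s + 1) ≤ 4 * 2 ^ s) :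
    |mu b κ u s - mu b κ u (s + 1)| ≤
      (10 * 2 ^ s + 1 + Real.sqrt (2 * (b : ℝ) ^ (m + 7 * s))) *
        (qq b m H s D / Real.sqrt ((b : ℝ) ^ (2 ^ s))) := by
  have hq : 0 ≤ qq b m H s D := Real.sqrt_nonneg _
  have hb1 : 0 < b := by omega
  have hbR : (1:ℝ) ≤ b := by exact_mod_cast hb1
  set A : ℕ := b ^ (2 ^ s) with hA
  set A' : ℕ := b ^ (2 * 2 ^ s) with hA'
  have hA0 : 0 < A := by positivity
  have hA0' : 0 < A' := by positivity
  have hAA : A ≤ A' := pow_le_two (s := s) hb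
  have hAR : (0:ℝ) < A := by exact_mod_cast hA0
  have hAR' : (0:ℝ) < A' := by exact_mod_cast hA0'
  have hsA : (0:ℝ) < Real.sqrt A := Real.sqrt_pos.2 hAR
  have hsAA : Real.sqrt A ≤ Real.sqrt A' := Real.sqrt_le_sqrt (by exact_mod_cast hAA)
  set r : ℝ := qq b m H s D / Real.sqrt A with hr
  have hr0 : 0 ≤ r := div_nonneg hq (Real.sqrt_nonneg _)
  have hr' : qq b m H s D / Real.sqrt A' ≤ r := div_le_div_of_nonneg_left hq hsA hsAA
  have hL : ∃ L, m + 7 * s + L = 4 * 2 ^ s := ⟨4 * 2 ^ s - (m + 7 * s), by omega⟩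
  obtain ⟨L, hL⟩ := hL
  have hLle : (L : ℝ) ≤ 4 * 2 ^ s := by
    have : L ≤ 4 * 2 ^ s := by omega
    exact_mod_cast this
  -- climb
  have s1 : |mu b κ u s - av A (fun i => BB b κ s u 0 i)| ≤ 2 * 2 ^ s * r := by
    have := telescope_le (fun j => av A (fun i => u (κ s (2 * 2 ^ s + j, 0) i))) r (2 * 2 ^ s)
      (fun j hj => climb_step hb hH h hs hE (by omega) (by omega))
    simp only [BB_zero]
    unfold mu
    have e : 2 * 2 ^ s + 2 * 2 ^ s = 4 * 2 ^ s := by ring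
    simp only [e, add_zero] at this
    push_cast at this
    exact this
  -- descend
  have s2 : |av A (fun i => BB b κ s u 0 i) - av A (fun i => BB b κ s u L i)| ≤ 4 * 2 ^ s * r := by
    have := telescope_le (fun j => av A (fun i => BB b κ s u j i)) r L
      (fun j hj => descend_step hb hH h hs hE hA0 (g := fun i => i) (fun _ _ h => h)
        (fun i hi => by omega) (by omega))
    exact this.trans (mul_le_mul_of_nonneg_right hLle hr0)
  -- horizontal
  have s3 : |av A (fun i => BB b κ s u L i) - av A' (fun i => BB b κ s u L (2 * i))| ≤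
      Real.sqrt ((2 * A' : ℕ) / ((b ^ L : ℕ) : ℝ)) * qq b m H s D :=
    av_close hA0 hA0' (fun i hi j hj => horizontal hb hH h hs hE hL (by omega) (by omega))
  -- ascend
  have s4 : |av A' (fun i => BB b κ s u 0 (2 * i)) - av A' (fun i => BB b κ s u L (2 * i))| ≤
      4 * 2 ^ s * r := by
    have := telescope_le (fun j => av A' (fun i => BB b κ s u j (2 * i)))
      (qq b m H s D / Real.sqrt A') L
      (fun j hj => descend_step hb hH h hs hE hA0' (g := fun i => 2 * i)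
        (fun _ _ h => by simpa using h) (fun i hi => by omega) (by omega))
    refine this.trans ?_
    exact mul_le_mul hLle hr' (div_nonneg hq (Real.sqrt_nonneg _)) (by positivity)
  -- cross
  have s5 : |av A' (fun i => BB b κ s u 0 (2 * i)) - mu b κ u (s + 1)| ≤ r := by
    have := cross_step hb hH h hs hE hm'
    simp only [BB_zero]
    unfold mu
    have e1 : 2 * 2 ^ (s + 1) = 4 * 2 ^ s := by ring
    have e2 : (2:ℕ) ^ (s + 1) = 2 * 2 ^ s := by ring
    rw [e1, e2]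
    exact this.trans hr'
  -- the horizontal term
  have s3' : Real.sqrt ((2 * A' : ℕ) / ((b ^ L : ℕ) : ℝ)) * qq b m H s D ≤
      Real.sqrt (2 * (b : ℝ) ^ (m + 7 * s)) * r := by
    have h1 : ((2 * A' : ℕ) : ℝ) / ((b ^ L : ℕ) : ℝ) ≤ 2 * (b : ℝ) ^ (m + 7 * s) / A := by
      have hbL : (0:ℝ) < ((b ^ L : ℕ) : ℝ) := by
        have : 0 < b ^ L := by positivity
        exact_mod_cast this
      rw [div_le_div_iff₀ hbL hAR]
      have h2 : A' * A ≤ b ^ (m + 7 * s) * b ^ L := by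
        calc A' * A ≤ A' * A' := Nat.mul_le_mul_left _ hAA
          _ = b ^ (4 * 2 ^ s) := by rw [hA', ← pow_add]; congr 1; ring
          _ = b ^ (m + 7 * s) * b ^ L := by rw [← pow_add, hL]
      have h3 : (A' : ℝ) * A ≤ (b : ℝ) ^ (m + 7 * s) * ((b ^ L : ℕ) : ℝ) := by exact_mod_cast h2
      push_cast at h3 ⊢
      linarith
    calc Real.sqrt ((2 * A' : ℕ) / ((b ^ L : ℕ) : ℝ)) * qq b m H s D
        ≤ Real.sqrt (2 * (b : ℝ) ^ (m + 7 * s) / A) * qq b m H s D :=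
          mul_le_mul_of_nonneg_right (Real.sqrt_le_sqrt h1) hq
      _ = Real.sqrt (2 * (b : ℝ) ^ (m + 7 * s)) * r := by
          rw [Real.sqrt_div (by positivity), hr]
          ring
  have e : Real.sqrt ((b : ℝ) ^ (2 ^ s)) = Real.sqrt A := by
    rw [hA]
    push_cast
    rfl
  rw [e, ← hr]
  have t1 := abs_le.1 s1
  have t2 := abs_le.1 s2
  have t3 := abs_le.1 (s3.trans s3')
  have t4 := abs_le.1 s4
  have t5 := abs_le.1 s5
  rw [abs_le]
  constructor
  · linarith [t1.1, t2.1, t3.1, t4.2, t5.1]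
  · linarith [t1.2, t2.2, t3.2, t4.1, t5.2]

theorem lin_le_pow : ∀ s : ℕ, 46 * s ≤ 2 ^ s + 414
  | 0 => by norm_num
  | s + 1 => by
    rcases Nat.lt_or_ge s 9 with h | h
    · have : 1 ≤ 2 ^ (s + 1) := Nat.one_le_two_pow
      omega
    · have h1 : ∀ t : ℕ, 9 ≤ t → 46 * t ≤ 2 ^ t := by
        intro t ht
        induction t, ht using Nat.le_induction with
        | base => norm_num
        | succ t ht ih => rw [pow_succ]; omega
      have := h1 (s + 1) (by omega)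
      omega

/-- The errors are summable. -/
theorem error_bound (b m H : ℕ) (hb : 2 ≤ b) : ∃ C : ℝ, 0 ≤ C ∧ ∀ s : ℕ,
    (10 * 2 ^ s + 1 + Real.sqrt (2 * (b : ℝ) ^ (m + 7 * s))) *
      (Real.sqrt (RS b m H s * (5 + 2 * m)) / Real.sqrt ((b : ℝ) ^ (2 ^ s))) ≤
      C * (1 / 2) ^ s := by
  have hb1 : (1:ℝ) ≤ b := by
    have : 1 ≤ b := by omega
    exact_mod_cast this
  have hb2 : (2:ℝ) ≤ b := by exact_mod_cast hb
  have hb0 : (0:ℝ) < b := by linarith
  set c1 : ℝ := 4 * H + 2 * m + 1 with hc1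
  set c2 : ℝ := 5 + 2 * m with hc2
  have hc1' : 1 ≤ c1 := by
    have h1 : (0:ℝ) ≤ H := Nat.cast_nonneg _
    have h2 : (0:ℝ) ≤ m := Nat.cast_nonneg _
    linarith
  have hc2' : 1 ≤ c2 := by
    have h2 : (0:ℝ) ≤ m := Nat.cast_nonneg _
    linarith
  set K : ℝ := Real.sqrt ((b : ℝ) ^ (6 * m + 414)) with hK
  refine ⟨13 * (c1 * c2) * K, by positivity, ?_⟩
  intro s
  have hpow2 : (2:ℝ) ^ s ≤ (b : ℝ) ^ s := pow_le_pow_left₀ (by norm_num) hb2 s
  have hbs : (1:ℝ) ≤ (b : ℝ) ^ s := one_le_pow₀ hb1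
  have hbs' : (b : ℝ) ^ s ≤ (b : ℝ) ^ (m + 7 * s) := pow_le_pow_right₀ hb1 (by omega)
  have hB1 : (1:ℝ) ≤ (b : ℝ) ^ (m + 7 * s) := one_le_pow₀ hb1
  -- first factor
  have f1 : 10 * 2 ^ s + 1 + Real.sqrt (2 * (b : ℝ) ^ (m + 7 * s)) ≤ 13 * (b : ℝ) ^ (m + 7 * s) := by
    have h1 : Real.sqrt (2 * (b : ℝ) ^ (m + 7 * s)) ≤ 2 * (b : ℝ) ^ (m + 7 * s) := by
      rw [Real.sqrt_le_left (by positivity)]
      nlinarith
    linarith
  -- second factor
  have f2 : (RS b m H s : ℝ) * c2 ≤ c1 * c2 * (b : ℝ) ^ (2 * m + 15 * s) := by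
    have h1 : ((m + 7 * s + 1 : ℕ) : ℝ) ≤ (b : ℝ) ^ (m + 7 * s) := by
      have h2 : m + 7 * s + 1 ≤ 2 ^ (m + 7 * s) := Nat.lt_two_pow_self
      calc ((m + 7 * s + 1 : ℕ) : ℝ) ≤ ((2 ^ (m + 7 * s) : ℕ) : ℝ) := by exact_mod_cast h2
        _ = (2 : ℝ) ^ (m + 7 * s) := by push_cast; rfl
        _ ≤ (b : ℝ) ^ (m + 7 * s) := pow_le_pow_left₀ (by norm_num) hb2 _
    have h3 : ((4 * (2 ^ s * H) + 2 * m + 1 : ℕ) : ℝ) ≤ c1 * (b : ℝ) ^ s := by
      push_cast
      rw [hc1]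
      have h4 : (0:ℝ) ≤ H := Nat.cast_nonneg _
      have h5 : (0:ℝ) ≤ m := Nat.cast_nonneg _
      nlinarith [mul_le_mul_of_nonneg_right hpow2 h4, mul_le_mul_of_nonneg_right hbs h5]
    have h6 : (RS b m H s : ℝ) ≤ c1 * (b : ℝ) ^ (2 * m + 15 * s) := by
      unfold RS
      calc (((m + 7 * s + 1) * b ^ (m + 7 * s) * (4 * (2 ^ s * H) + 2 * m + 1) : ℕ) : ℝ)
          = ((m + 7 * s + 1 : ℕ) : ℝ) * (b : ℝ) ^ (m + 7 * s) *
            ((4 * (2 ^ s * H) + 2 * m + 1 : ℕ) : ℝ) := by push_cast; ring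
        _ ≤ (b : ℝ) ^ (m + 7 * s) * (b : ℝ) ^ (m + 7 * s) * (c1 * (b : ℝ) ^ s) := by
            apply mul_le_mul (mul_le_mul_of_nonneg_right h1 (by positivity)) h3
              (Nat.cast_nonneg _) (by positivity)
        _ = c1 * (b : ℝ) ^ (2 * m + 15 * s) := by ring
    calc (RS b m H s : ℝ) * c2 ≤ c1 * (b : ℝ) ^ (2 * m + 15 * s) * c2 :=
          mul_le_mul_of_nonneg_right h6 (by linarith)
      _ = c1 * c2 * (b : ℝ) ^ (2 * m + 15 * s) := by ring
  have f3 : Real.sqrt (RS b m H s * c2) ≤ c1 * c2 * (b : ℝ) ^ (2 * m + 15 * s) := by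
    rw [Real.sqrt_le_left (by positivity)]
    refine f2.trans ?_
    have h1 : 1 ≤ c1 * c2 * (b : ℝ) ^ (2 * m + 15 * s) := by
      have : (1:ℝ) ≤ (b : ℝ) ^ (2 * m + 15 * s) := one_le_pow₀ hb1
      have h2 : 1 ≤ c1 * c2 := by nlinarith
      nlinarith
    nlinarith
  -- the denominator
  have f4 : (b : ℝ) ^ (3 * m + 23 * s) ≤ K * Real.sqrt ((b : ℝ) ^ (2 ^ s)) := by
    rw [hK, ← Real.sqrt_mul (by positivity)]
    apply Real.le_sqrt_of_sq_le
    rw [← pow_mul, ← pow_add]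
    apply pow_le_pow_right₀ hb1
    have := lin_le_pow s
    omega
  have hden : 0 < Real.sqrt ((b : ℝ) ^ (2 ^ s)) := Real.sqrt_pos.2 (by positivity)
  have hhalf : ((1:ℝ) / 2) ^ s * 2 ^ s = 1 := by
    rw [← mul_pow]
    norm_num
  rw [← mul_div_assoc, div_le_iff₀ hden]
  have key : (10 * 2 ^ s + 1 + Real.sqrt (2 * (b : ℝ) ^ (m + 7 * s))) *
      Real.sqrt (RS b m H s * c2) * 2 ^ s ≤
      13 * (c1 * c2) * K * Real.sqrt ((b : ℝ) ^ (2 ^ s)) := by
    calc (10 * 2 ^ s + 1 + Real.sqrt (2 * (b : ℝ) ^ (m + 7 * s))) *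
        Real.sqrt (RS b m H s * c2) * 2 ^ s
        ≤ (13 * (b : ℝ) ^ (m + 7 * s)) * (c1 * c2 * (b : ℝ) ^ (2 * m + 15 * s)) * (b : ℝ) ^ s := by
          apply mul_le_mul (mul_le_mul f1 f3 (Real.sqrt_nonneg _) (by positivity)) hpow2
            (by positivity) (by positivity)
      _ = 13 * (c1 * c2) * (b : ℝ) ^ (3 * m + 23 * s) := by ring
      _ ≤ 13 * (c1 * c2) * (K * Real.sqrt ((b : ℝ) ^ (2 ^ s))) :=
          mul_le_mul_of_nonneg_left f4 (by positivity)
      _ = 13 * (c1 * c2) * K * Real.sqrt ((b : ℝ) ^ (2 ^ s)) := by ring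
  have h2s : (0:ℝ) < 2 ^ s := by positivity
  calc (10 * 2 ^ s + 1 + Real.sqrt (2 * (b : ℝ) ^ (m + 7 * s))) * Real.sqrt (RS b m H s * c2)
      = ((10 * 2 ^ s + 1 + Real.sqrt (2 * (b : ℝ) ^ (m + 7 * s))) *
        Real.sqrt (RS b m H s * c2) * 2 ^ s) * (1 / 2) ^ s := by
          rw [mul_assoc _ ((2:ℝ) ^ s), mul_comm ((2:ℝ) ^ s), hhalf, mul_one]
    _ ≤ (13 * (c1 * c2) * K * Real.sqrt ((b : ℝ) ^ (2 ^ s))) * (1 / 2) ^ s :=
        mul_le_mul_of_nonneg_right key (by positivity)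
    _ = 13 * (c1 * c2) * K * (1 / 2) ^ s * Real.sqrt ((b : ℝ) ^ (2 ^ s)) := by ring

end Scale

theorem lin_le_pow' (m : ℕ) : ∀ s : ℕ, m + 6 ≤ s → m + 7 * s ≤ 2 * 2 ^ s := by
  intro s hs
  induction s, hs using Nat.le_induction with
  | base =>
    have h : ∀ m : ℕ, m + 7 * (m + 6) ≤ 2 * 2 ^ (m + 6) := by
      intro m
      induction m with
      | zero => norm_num
      | succ m ih =>
        have : 2 * 2 ^ (m + 1 + 6) = 2 * (2 * 2 ^ (m + 6)) := by ring
        omega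
    exact h m
  | succ s hs ih =>
    have : 2 * 2 ^ (s + 1) = 2 * (2 * 2 ^ s) := by ring
    omega

end T6

open T6 in
theorem capacity_of_kstr (b : ℕ) (hb : 2 ≤ b) (m H : ℕ) (hH : 0 < H) (Γ : SimpleGraph Vtx)
    (s₁ : ℕ) (κ : ℕ → ℕ × ℕ → ℕ → Vtx) (h : KStr b m H Γ s₁ κ) :
    ∃ x, ∀ y, Γ.Reachable x y → ∃ C : ℝ, ∀ u : Vtx → ℝ, u.support.Finite →
      ∀ D, EnergyLE Γ u D → u y ^ 2 ≤ C * D := by
  set s₂ : ℕ := max s₁ (m + 6) with hs₂
  have hb0 : 0 < b := by omega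
  refine ⟨κ s₂ (2 * 2 ^ s₂, 0) 0, fun y hy => ?_⟩
  obtain ⟨C₁, hC₁, H₁⟩ := reach_bound Γ hy
  obtain ⟨C₂, hC₂, H₂⟩ := error_bound b m H hb
  -- the points of the first average are connected
  have hreach : ∀ a, a < b ^ (2 ^ s₂) → Γ.Reachable (κ s₂ (2 * 2 ^ s₂, 0) 0) (κ s₂ (2 * 2 ^ s₂, 0) a) := by
    intro a
    induction a with
    | zero => intro _; exact SimpleGraph.Reachable.refl _
    | succ a ih =>
      intro ha
      have hAA := pow_le_two (s := s₂) hb
      have hm := lin_le_pow' m s₂ (le_max_right _ _)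
      have h1 := h.l1 s₂ (le_max_left _ _) (2 * 2 ^ s₂, 0) a
        (dom_zero hb hm (by omega) (by omega)) (dom_zero hb hm (by omega) (by omega))
      have hle : ∀ R : Set Vtx, cut Γ R ≤ Γ := fun R x y hxy => hxy.1
      exact (ih (by omega)).trans (h1.mono (hle _))
  have hex : ∀ a, ∃ C : ℝ, 0 ≤ C ∧ (a < b ^ (2 ^ s₂) → ∀ u : Vtx → ℝ, ∀ D, EnergyLE Γ u D →
      |u (κ s₂ (2 * 2 ^ s₂, 0) 0) - u (κ s₂ (2 * 2 ^ s₂, 0) a)| ≤ C * Real.sqrt D) := by
    intro a
    by_cases ha : a < b ^ (2 ^ s₂)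
    · obtain ⟨C, hC, hC'⟩ := reach_bound Γ (hreach a ha)
      exact ⟨C, hC, fun _ => hC'⟩
    · exact ⟨0, le_rfl, fun h => absurd h ha⟩
  choose Ca hCa0 hCa using hex
  set C₃ : ℝ := ∑ a ∈ Finset.range (b ^ (2 ^ s₂)), Ca a with hC₃
  have hC₃0 : 0 ≤ C₃ := Finset.sum_nonneg fun a _ => hCa0 a
  refine ⟨(C₁ + C₃ + 2 * C₂) ^ 2, fun u hu D hE => ?_⟩
  have hD : 0 ≤ D := by simpa using hE ∅ (by simp)
  have hsD := Real.sqrt_nonneg D
  -- (1) from `y` to `x`
  have e1 := H₁ u D hE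
  -- (2) from `x` to the average
  have e2 : |u (κ s₂ (2 * 2 ^ s₂, 0) 0) - mu b κ u s₂| ≤ C₃ * Real.sqrt D := by
    have h1 : av 1 (fun _ => u (κ s₂ (2 * 2 ^ s₂, 0) 0)) = u (κ s₂ (2 * 2 ^ s₂, 0) 0) := by
      simp [av]
    rw [← h1]
    apply av_close one_pos (by positivity)
    intro i _ j hj
    refine (hCa j hj u D hE).trans (mul_le_mul_of_nonneg_right ?_ hsD)
    exact Finset.single_le_sum (fun a _ => hCa0 a) (Finset.mem_range.2 hj)
  -- (3) the averages
  have hstep : ∀ s, s₂ ≤ s → |mu b κ u s - mu b κ u (s + 1)| ≤ C₂ * Real.sqrt D * (1 / 2) ^ s := by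
    intro s hs
    have hm := lin_le_pow' m s (by omega)
    have hm' := lin_le_pow' m (s + 1) (by omega)
    have h1 := scale_step hb hH h (by omega) hE hm (by
      have : 2 * 2 ^ (s + 1) = 4 * 2 ^ s := by ring
      omega)
    have h2 : qq b m H s D = Real.sqrt (RS b m H s * (5 + 2 * m)) * Real.sqrt D := by
      unfold qq
      rw [Real.sqrt_mul (by positivity)]
    rw [h2] at h1
    calc _ ≤ _ := h1
      _ = (10 * 2 ^ s + 1 + Real.sqrt (2 * (b : ℝ) ^ (m + 7 * s))) *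
          (Real.sqrt (RS b m H s * (5 + 2 * m)) / Real.sqrt ((b : ℝ) ^ (2 ^ s))) * Real.sqrt D := by
          ring
      _ ≤ C₂ * (1 / 2) ^ s * Real.sqrt D := mul_le_mul_of_nonneg_right (H₂ s) hsD
      _ = C₂ * Real.sqrt D * (1 / 2) ^ s := by ring
  have hsum : ∀ N : ℕ, |mu b κ u s₂ - mu b κ u (s₂ + N)| ≤
      2 * C₂ * Real.sqrt D * (1 - (1 / 2) ^ N) := by
    intro N
    induction N with
    | zero => simp
    | succ N ih =>
      have h1 := hstep (s₂ + N) (by omega)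
      have h2 : ((1:ℝ) / 2) ^ (s₂ + N) ≤ (1 / 2) ^ N :=
        pow_le_pow_of_le_one (by norm_num) (by norm_num) (by omega)
      have h3 : C₂ * Real.sqrt D * (1 / 2) ^ (s₂ + N) ≤ C₂ * Real.sqrt D * (1 / 2) ^ N :=
        mul_le_mul_of_nonneg_left h2 (mul_nonneg hC₂ hsD)
      calc |mu b κ u s₂ - mu b κ u (s₂ + (N + 1))|
          ≤ |mu b κ u s₂ - mu b κ u (s₂ + N)| + |mu b κ u (s₂ + N) - mu b κ u (s₂ + N + 1)| :=
            abs_sub_le _ _ _
        _ ≤ 2 * C₂ * Real.sqrt D * (1 - (1 / 2) ^ N) + C₂ * Real.sqrt D * (1 / 2) ^ N :=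
            add_le_add ih (h1.trans h3)
        _ = 2 * C₂ * Real.sqrt D * (1 - (1 / 2) ^ (N + 1)) := by ring
  -- (4) far away the average vanishes
  obtain ⟨N, hN⟩ : ∃ N : ℕ, ∀ z ∈ u.support, z.1.1 ≤ N := by
    classical
    refine ⟨hu.toFinset.sup (fun z => z.1.1), fun z hz => ?_⟩
    exact Finset.le_sup (f := fun z : Vtx => z.1.1) (hu.mem_toFinset.2 hz)
  have hzero : mu b κ u (s₂ + N) = 0 := by
    unfold mu av
    rw [Finset.sum_eq_zero, zero_div]
    intro i hi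
    rw [Finset.mem_range] at hi
    have hAA := pow_le_two (s := s₂ + N) hb
    have hm := lin_le_pow' m (s₂ + N) (by omega)
    obtain ⟨t, ht, _⟩ := h.kp (s₂ + N) (by omega) (2 * 2 ^ (s₂ + N), 0) i
      (dom_zero hb hm (by omega) (by omega))
    by_contra hne
    have h1 := hN _ (Function.mem_support.2 hne)
    rw [ht] at h1
    have h2 : s₂ + N < 2 ^ (s₂ + N) := Nat.lt_two_pow_self
    simp only at h1
    omega
  have e3 : |mu b κ u s₂| ≤ 2 * C₂ * Real.sqrt D := by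
    have h1 := hsum N
    rw [hzero, sub_zero] at h1
    refine h1.trans ?_
    have h2 : (0:ℝ) ≤ (1 / 2) ^ N := by positivity
    have h3 : 0 ≤ 2 * C₂ * Real.sqrt D := by positivity
    nlinarith
  -- conclusion
  have e4 : |u y| ≤ (C₁ + C₃ + 2 * C₂) * Real.sqrt D := by
    have t1 := abs_le.1 e1
    have t2 := abs_le.1 e2
    have t3 := abs_le.1 e3
    rw [abs_le]
    constructor
    · linarith [t1.1, t1.2, t2.1, t2.2, t3.1, t3.2]
    · linarith [t1.1, t1.2, t2.1, t2.2, t3.1, t3.2]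
  calc u y ^ 2 = |u y| ^ 2 := (sq_abs _).symm
    _ ≤ ((C₁ + C₃ + 2 * C₂) * Real.sqrt D) ^ 2 := pow_le_pow_left₀ (abs_nonneg _) e4 2
    _ = (C₁ + C₃ + 2 * C₂) ^ 2 * D := by rw [mul_pow, Real.sq_sqrt hD]

end Pool.Agent.MP_c3c849_pr
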