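import Pool.Agent.MP_c3c849_pr.Moment3

/-!
# MP_c3c849_pr, module T4: renormalisation
-/

open MeasureTheory ProbabilityTheory
open scoped ENNReal

namespace Pool.Agent.MP_c3c849_pr
namespace T4

/-! ### Geometry -/

lemma mem_Desc {b M : ℕ} {v z : ℕ × ℕ} :
    z ∈ Desc b M v ↔ ∃ d ≤ M, z.1 + d = v.1 ∧ z.2 / b ^ d = v.2 := Iff.rfl

lemma Desc_sub {b k M M' : ℕ} {u v : ℕ × ℕ} (hu : u ∈ Desc b k v) (h : M + k ≤ M') :
    Desc b M u ⊆ Desc b M' v := by
  rintro z ⟨d, hd, h1, h2⟩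
  obtain ⟨e, he, h3, h4⟩ := hu
  refine ⟨d + e, by omega, by omega, ?_⟩
  rw [pow_add, ← Nat.div_div_eq_div_mul, h2, h4]

lemma self_mem_Desc (b M : ℕ) (v : ℕ × ℕ) : v ∈ Desc b M v := ⟨0, Nat.zero_le _, by simp, by simp⟩

lemma Desc_finite (b M : ℕ) (v : ℕ × ℕ) (hb : 0 < b) : (Desc b M v).Finite := by
  apply Set.Finite.subset
    ((Finset.range (v.1 + 1) ×ˢ Finset.range (b ^ M * (v.2 + 1))).finite_toSet)
  rintro z ⟨d, hd, h1, h2⟩
  simp only [Finset.coe_product, Set.mem_prod, Finset.mem_coe, Finset.mem_range]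
  refine ⟨by omega, ?_⟩
  have hp : 0 < b ^ d := pow_pos hb d
  have h3 : z.2 < b ^ d * (v.2 + 1) := by
    have := Nat.lt_mul_of_div_lt (show z.2 / b ^ d < v.2 + 1 by omega) hp
    rwa [mul_comm] at this
  refine lt_of_lt_of_le h3 ?_
  apply Nat.mul_le_mul_right
  exact Nat.pow_le_pow_right hb hd

lemma Desc_disjoint {b M M' : ℕ} {u v : ℕ × ℕ} (h1 : u.1 = v.1) (h2 : u.2 ≠ v.2) :
    Disjoint (Desc b M u) (Desc b M' v) := by
  rw [Set.disjoint_left]
  rintro z ⟨d, hd, h3, h4⟩ ⟨e, he, h5, h6⟩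
  have : d = e := by omega
  subst this
  exact h2 (h4.symm.trans h6)

lemma Reg_sub {b k M M' : ℕ} {u v : ℕ × ℕ} {lo hi lo' hi' : ℤ} (hu : u ∈ Desc b k v)
    (h : M + k ≤ M') (h1 : lo' ≤ lo) (h2 : hi ≤ hi') : Reg b M u lo hi ⊆ Reg b M' v lo' hi' := by
  rintro z ⟨hz, h3, h4⟩
  exact ⟨Desc_sub hu h hz, h1.trans h3, h4.trans h2⟩

lemma Reg_finite (b M : ℕ) (v : ℕ × ℕ) (lo hi : ℤ) (hb : 0 < b) : (Reg b M v lo hi).Finite := by
  apply Set.Finite.subset ((Desc_finite b M v hb).prod (Set.finite_Icc lo hi))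
  rintro ⟨z, t⟩ ⟨hz, h3, h4⟩
  exact ⟨hz, h3, h4⟩

lemma within_finite {V : Type*} {R : Set V} (h : R.Finite) : (within R).Finite := by
  apply Set.Finite.subset ((h.prod h).image (fun q : V × V => s(q.1, q.2)))
  intro e he
  induction e using Sym2.ind with
  | _ x y =>
    exact ⟨(x, y), ⟨he x (by simp), he y (by simp)⟩, rfl⟩

lemma within_mono {V : Type*} {R R' : Set V} (h : R ⊆ R') : within R ⊆ within R' :=
  fun _ he x hx => h (he x hx)

lemma within_disjoint {V : Type*} {R R' : Set V} (h : Disjoint R R') :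
    Disjoint (within R) (within R') := by
  rw [Set.disjoint_left]
  intro e he he'
  induction e using Sym2.ind with
  | _ x y => exact (Set.disjoint_left.1 h) (he x (by simp)) (he' x (by simp))

lemma dependsOn_mono {E α : Type*} {f : (E → Bool) → α} {S T : Set E} (h : S ⊆ T)
    (hf : DependsOn f S) : DependsOn f T := fun _ _ hxy => hf (fun i hi => hxy i (h hi))

/-- The `j`-th descendant of depth seven. -/
def wd (b : ℕ) (v : ℕ × ℕ) (j : ℕ) : ℕ × ℕ := (v.1 - 7, b ^ 7 * v.2 + j)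

lemma wd_mem {b : ℕ} (hb : 2 ≤ b) {v : ℕ × ℕ} (hv : 7 ≤ v.1) {j : ℕ} (hj : j < 128) :
    (wd b v j).1 + 7 = v.1 ∧ (wd b v j).2 / b ^ 7 = v.2 := by
  have h7 : 128 ≤ b ^ 7 := by
    calc 128 = 2 ^ 7 := by norm_num
      _ ≤ b ^ 7 := Nat.pow_le_pow_left hb 7
  refine ⟨by simp only [wd]; omega, ?_⟩
  simp only [wd]
  rw [Nat.mul_add_div (by positivity), Nat.div_eq_of_lt (by omega), add_zero]

variable {b : ℕ} {p : unitInterval} {ε : ℝ≥0∞}

/-- Own-bad base windows. -/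
def Ow (sd : Seeds b p ε) (v : ℕ × ℕ) (ω : Cfg Vtx) (i : ℤ) : Prop :=
  ∃ u ∈ Desc b 6 v, ¬ sd.S ω u i

open Classical in
/-- Own-bad base windows in a finite set. -/
noncomputable def OF (sd : Seeds b p ε) (v : ℕ × ℕ) (J : Finset ℤ) (ω : Cfg Vtx) : Finset ℤ :=
  J.filter (fun i => Ow sd v ω i)

lemma mem_OF {sd : Seeds b p ε} {v : ℕ × ℕ} {J : Finset ℤ} {ω : Cfg Vtx} {i : ℤ} :
    i ∈ OF sd v J ω ↔ i ∈ J ∧ Ow sd v ω i := by
  simp only [OF, Finset.mem_filter]

open Classical in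
/-- The bad sets of the renormalisation. -/
noncomputable def BadF (sd : Seeds b p ε) : ℕ → ℕ × ℕ → ℤ → Cfg Vtx → Finset ℤ
  | 0, v, a => fun ω =>
      if (OF sd v (Finset.Ico a (a + 2)) ω).Nonempty then Finset.Ico a (a + 2) else ∅
  | s + 1, v, a => fun ω =>
      let J1 := Finset.Ico a (a + 2 ^ (s + 1))
      let J2 := Finset.Ico (a + 2 ^ (s + 1)) (a + 2 ^ (s + 1) + 2 ^ (s + 1))
      let O := OF sd v (J1 ∪ J2) ω
      if 2 ^ (s + 1) < 10 * (O ∩ J1).card ∨ 2 ^ (s + 1) < 10 * (O ∩ J2).card then J1 ∪ J2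
      else (O ∩ (J1 ∪ J2)) ∪ Iset (2 ^ (s + 1)) (fun j => BadF sd s (wd b v j) a)
        (fun j => BadF sd s (wd b v j) (a + 2 ^ s))
        (fun j => BadF sd s (wd b v j) (a + 2 ^ (s + 1))) (J1 ∪ J2) ω

lemma union_Ico (a : ℤ) (s : ℕ) : Finset.Ico a (a + 2 ^ (s + 1)) ∪
    Finset.Ico (a + 2 ^ (s + 1)) (a + 2 ^ (s + 1) + 2 ^ (s + 1)) = Finset.Ico a (a + 2 ^ (s + 2)) := by
  rw [Finset.Ico_union_Ico_eq_Ico (by simp) (by simp)]
  congr 1
  ring

lemma disj_Ico (a : ℤ) (s : ℕ) : Disjoint (Finset.Ico a (a + 2 ^ (s + 1)))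
    (Finset.Ico (a + 2 ^ (s + 1)) (a + 2 ^ (s + 1) + 2 ^ (s + 1))) := by
  rw [Finset.disjoint_left]
  intro i h1 h2
  rw [Finset.mem_Ico] at h1 h2
  omega

lemma card_Ico_pow (a : ℤ) (s : ℕ) : (Finset.Ico a (a + 2 ^ s)).card = 2 ^ s := by
  rw [Int.card_Ico]
  have : a + 2 ^ s - a = ((2 ^ s : ℕ) : ℤ) := by push_cast; ring
  rw [this, Int.toNat_natCast]

lemma BadF_sub (sd : Seeds b p ε) (s : ℕ) (v : ℕ × ℕ) (a : ℤ) (ω : Cfg Vtx) :
    BadF sd s v a ω ⊆ Finset.Ico a (a + 2 ^ (s + 1)) := by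
  cases s with
  | zero =>
    simp only [BadF]
    split_ifs
    · norm_num
    · simp
  | succ s =>
    simp only [BadF]
    rw [union_Ico]
    split_ifs
    · exact subset_rfl
    · apply Finset.union_subset Finset.inter_subset_right
      intro i hi
      exact (mem_Iset.1 hi).1

/-- The dependency set of a scale `s` bad set. -/
def Sdep (sd : Seeds b p ε) (s : ℕ) (v : ℕ × ℕ) (lo hi : ℤ) : Set (Sym2 Vtx) :=
  within (Reg b (sd.M + 6 + 7 * s) v (lo * sd.W - sd.M) (hi * sd.W + sd.M))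

lemma Sdep_finite (sd : Seeds b p ε) (hb : 2 ≤ b) (s : ℕ) (v : ℕ × ℕ) (lo hi : ℤ) :
    (Sdep sd s v lo hi).Finite := within_finite (Reg_finite _ _ _ _ _ (by omega))

lemma Sdep_mono (sd : Seeds b p ε) {s s' k : ℕ} {u v : ℕ × ℕ} {lo hi lo' hi' : ℤ}
    (hu : u ∈ Desc b k v) (hk : 7 * s + k ≤ 7 * s') (h1 : lo' ≤ lo) (h2 : hi ≤ hi') :
    Sdep sd s u lo hi ⊆ Sdep sd s' v lo' hi' := by
  apply within_mono
  apply Reg_sub hu (by omega)
  · have : lo' * sd.W ≤ lo * sd.W := mul_le_mul_of_nonneg_right h1 (by positivity)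
    linarith
  · have : hi * sd.W ≤ hi' * sd.W := mul_le_mul_of_nonneg_right h2 (by positivity)
    linarith

lemma Ow_dep (sd : Seeds b p ε) {v : ℕ × ℕ} (hv : sd.M + 6 ≤ v.1) (i : ℤ) :
    DependsOn (fun ω => Ow sd v ω i) (Sdep sd 0 v i i) := by
  intro x y h
  show (∃ u ∈ Desc b 6 v, ¬ sd.S x u i) = (∃ u ∈ Desc b 6 v, ¬ sd.S y u i)
  apply propext
  apply exists_congr
  intro u
  apply and_congr_right
  intro hu
  have hu1 : sd.M ≤ u.1 := by
    obtain ⟨d, hd, h1, _⟩ := hu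
    omega
  have h2 := sd.dep u i hu1 (x := x) (y := y) (fun e he => h e ?_)
  · exact not_congr (iff_of_eq h2)
  · exact within_mono (Reg_sub hu (by omega) (by linarith) (by linarith)) he

lemma OF_dep (sd : Seeds b p ε) {v : ℕ × ℕ} (hv : sd.M + 6 ≤ v.1) {J : Finset ℤ} {lo hi : ℤ}
    (hJ : ∀ i ∈ J, lo ≤ i ∧ i ≤ hi) : DependsOn (OF sd v J) (Sdep sd 0 v lo hi) := by
  intro x y h
  ext i
  rw [mem_OF, mem_OF]
  apply and_congr_right
  intro hi
  have := Ow_dep sd hv i (x := x) (y := y) (fun e he => h e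
    (Sdep_mono sd (self_mem_Desc b 0 v) (by omega) (hJ i hi).1 (hJ i hi).2 he))
  exact iff_of_eq this

lemma BadF_dep (sd : Seeds b p ε) (hb : 2 ≤ b) (s : ℕ) : ∀ (v : ℕ × ℕ) (a : ℤ),
    sd.M + 6 + 7 * s ≤ v.1 → DependsOn (BadF sd s v a) (Sdep sd s v a (a + 2 ^ (s + 1))) := by
  induction s with
  | zero =>
    intro v a hv x y h
    have h1 := OF_dep sd (v := v) (by omega) (J := Finset.Ico a (a + 2)) (lo := a) (hi := a + 2)
      (fun i hi => by rw [Finset.mem_Ico] at hi; omega) (x := x) (y := y)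
      (fun e he => h e (by simpa using he))
    simp only [BadF, h1]
  | succ s ih =>
    intro v a hv x y h
    have hpos : (0 : ℤ) < 2 ^ s := by positivity
    have e1 : (2 : ℤ) ^ (s + 1) = 2 * 2 ^ s := by ring
    have e2 : (2 : ℤ) ^ (s + 1 + 1) = 4 * 2 ^ s := by ring
    have h1 : ∀ (J : Finset ℤ), J ⊆ Finset.Ico a (a + 2 ^ (s + 2)) → OF sd v J x = OF sd v J y := by
      intro J hJ
      apply OF_dep sd (v := v) (by omega) (J := J) (lo := a) (hi := a + 2 ^ (s + 2))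
        (fun i hi => by have := hJ hi; rw [Finset.mem_Ico] at this; omega)
      intro e he
      exact h e (Sdep_mono sd (self_mem_Desc b 0 v) (by omega) le_rfl le_rfl he)
    have h2 : ∀ j < 128, ∀ a' : ℤ, a ≤ a' → a' ≤ a + 2 ^ (s + 1) →
        BadF sd s (wd b v j) a' x = BadF sd s (wd b v j) a' y := by
      intro j hj a' ha ha'
      have hw := wd_mem hb (v := v) (by omega) hj
      apply ih (wd b v j) a' (by omega)
      intro e he
      apply h e
      exact Sdep_mono sd (k := 7) ⟨7, le_rfl, hw.1, hw.2⟩ (by omega) ha (by omega) he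
    have h3 : Iset (2 ^ (s + 1)) (fun j => BadF sd s (wd b v j) a)
        (fun j => BadF sd s (wd b v j) (a + 2 ^ s))
        (fun j => BadF sd s (wd b v j) (a + 2 ^ (s + 1))) (Finset.Ico a (a + 2 ^ (s + 2))) x
        = Iset (2 ^ (s + 1)) (fun j => BadF sd s (wd b v j) a)
        (fun j => BadF sd s (wd b v j) (a + 2 ^ s))
        (fun j => BadF sd s (wd b v j) (a + 2 ^ (s + 1))) (Finset.Ico a (a + 2 ^ (s + 2))) y := by
      ext i
      rw [mem_Iset, mem_Iset]
      apply and_congr_right; intro _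
      apply forall_congr'; intro j
      apply imp_congr_right; intro hj
      unfold Uset
      rw [h2 j hj a le_rfl (by omega), h2 j hj (a + 2 ^ s) (by omega) (by omega),
        h2 j hj (a + 2 ^ (s + 1)) (by omega) le_rfl]
    simp only [BadF]
    rw [union_Ico, h1 _ subset_rfl, h3]

/-! ### Probability -/

lemma Ow_prob (sd : Seeds b p (ENNReal.ofReal (1 / (10 ^ 10 * b ^ 6)))) (hb : 2 ≤ b) {v : ℕ × ℕ}
    (hv : sd.M + 6 ≤ v.1) (i : ℤ) :
    perc Vtx p {ω | Ow sd v ω i} ≤ ENNReal.ofReal (1 / 10 ^ 9) := by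
  have hb' : (0 : ℝ) < b := by positivity
  have hsub : {ω | Ow sd v ω i} ⊆ ⋃ q ∈ (Finset.range 7).sigma (fun d => Finset.range (b ^ d)),
      {ω | ¬ sd.S ω (v.1 - q.1, b ^ q.1 * v.2 + q.2) i} := by
    rintro ω ⟨u, ⟨d, hd, h1, h2⟩, hS⟩
    simp only [Set.mem_iUnion]
    refine ⟨⟨d, u.2 % b ^ d⟩, ?_, ?_⟩
    · simp only [Finset.mem_sigma, Finset.mem_range]
      exact ⟨by omega, Nat.mod_lt _ (by positivity)⟩
    · have : u = (v.1 - d, b ^ d * v.2 + u.2 % b ^ d) := by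
        apply Prod.ext
        · simp only; omega
        · simp only
          rw [← h2]
          exact (Nat.div_add_mod _ _).symm
      show ¬ sd.S ω (v.1 - d, b ^ d * v.2 + u.2 % b ^ d) i
      rwa [← this]
  refine (measure_mono hsub).trans ((measure_biUnion_finset_le _ _).trans ?_)
  have hle : ∀ q ∈ (Finset.range 7).sigma (fun d => Finset.range (b ^ d)),
      perc Vtx p {ω | ¬ sd.S ω (v.1 - q.1, b ^ q.1 * v.2 + q.2) i} ≤
        ENNReal.ofReal (1 / (10 ^ 10 * b ^ 6)) := by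
    intro q hq
    rw [Finset.mem_sigma, Finset.mem_range] at hq
    exact sd.prob _ i (by simp only; omega)
  refine (Finset.sum_le_sum hle).trans ?_
  rw [Finset.sum_const, Finset.card_sigma, nsmul_eq_mul]
  have hcard : ∑ d ∈ Finset.range 7, (Finset.range (b ^ d)).card ≤ 7 * b ^ 6 := by
    calc ∑ d ∈ Finset.range 7, (Finset.range (b ^ d)).card
        ≤ ∑ _d ∈ Finset.range 7, b ^ 6 := by
          apply Finset.sum_le_sum
          intro d hd
          rw [Finset.card_range]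
          exact Nat.pow_le_pow_right (by omega) (by have := Finset.mem_range.1 hd; omega)
      _ = 7 * b ^ 6 := by simp
  calc ((∑ d ∈ Finset.range 7, (Finset.range (b ^ d)).card : ℕ) : ℝ≥0∞) *
        ENNReal.ofReal (1 / (10 ^ 10 * b ^ 6))
      ≤ ((7 * b ^ 6 : ℕ) : ℝ≥0∞) * ENNReal.ofReal (1 / (10 ^ 10 * b ^ 6)) := by
        gcongr
    _ = ENNReal.ofReal (7 * b ^ 6 * (1 / (10 ^ 10 * b ^ 6))) := by
        rw [ENNReal.ofReal_mul (by positivity)]
        congr 1
        rw [← ENNReal.ofReal_natCast]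
        congr 1
        push_cast; ring
    _ ≤ ENNReal.ofReal (1 / 10 ^ 9) := by
        apply ENNReal.ofReal_le_ofReal
        have : 7 * (b : ℝ) ^ 6 * (1 / (10 ^ 10 * b ^ 6)) = 7 / 10 ^ 10 := by
          field_simp
        rw [this]; norm_num

/-- The exponential parameter. -/
noncomputable def lam (sd : Seeds b p ε) : ℝ := 1 / (100 * (2 * sd.M + 1))

lemma lam_pos (sd : Seeds b p ε) : 0 < lam sd := by unfold lam; positivity

lemma OF_mom (sd : Seeds b p (ENNReal.ofReal (1 / (10 ^ 10 * b ^ 6)))) (hb : 2 ≤ b) {v : ℕ × ℕ}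
    (hv : sd.M + 6 ≤ v.1) (J F : Finset ℤ) :
    mom (perc Vtx p) (100 * lam sd) (OF sd v J) F ≤
      EE (2 / 10 ^ 9 * (100 * lam sd) * F.card) := by
  have h1 := mom_own (E := Sym2 Vtx) (p := p) (O := Ow sd v) (S := fun i => Sdep sd 0 v i i)
    (fun i => Sdep_finite sd hb _ _ _ _) (fun i => Ow_dep sd hv i) (m := 2 * sd.M + 1)
    (by omega) ?_ (ε := 1 / 10 ^ 9) (by norm_num) (fun i => Ow_prob sd hb hv i) J (OF sd v J)
    (fun ω i => mem_OF) F
  · have e : (1 : ℝ) / ((2 * sd.M + 1 : ℕ) : ℝ) = 100 * lam sd := by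
      unfold lam; push_cast; field_simp
    rw [e] at h1
    refine h1.trans (EE_mono (le_of_eq ?_))
    ring
  · intro i j hij hdvd
    apply within_disjoint
    rw [Set.disjoint_left]
    rintro z ⟨_, h2, h3⟩ ⟨_, h4, h5⟩
    have hW : (1 : ℤ) ≤ sd.W := by exact_mod_cast sd.hW
    obtain ⟨k, hk⟩ := hdvd
    have hk0 : k ≠ 0 := by
      rintro rfl
      apply hij
      linarith
    have hM : (0 : ℤ) ≤ sd.M := by positivity
    have h6 : |i - j| ≥ 2 * sd.M + 1 := by
      rw [hk, abs_mul]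
      have : 1 ≤ |k| := Int.one_le_abs hk0
      have h7 : |((2 * sd.M + 1 : ℕ) : ℤ)| = 2 * sd.M + 1 := by
        rw [abs_of_nonneg (by positivity)]; push_cast; ring
      rw [h7]
      nlinarith
    have h8 : |i * sd.W - j * sd.W| ≥ 2 * sd.M + 1 := by
      rw [← sub_mul, abs_mul, abs_of_nonneg (show (0 : ℤ) ≤ sd.W by positivity)]
      nlinarith
    have h9 : |i * sd.W - j * sd.W| ≤ 2 * sd.M := by
      rw [abs_le]; constructor <;> linarith
    linarith

lemma BadF_mom (sd : Seeds b p (ENNReal.ofReal (1 / (10 ^ 10 * b ^ 6)))) (hb : 2 ≤ b) (s : ℕ) :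
    ∀ (v : ℕ × ℕ) (a : ℤ), sd.M + 6 + 7 * s ≤ v.1 → ∀ F ⊆ Finset.Ico a (a + 2 ^ (s + 1)),
    mom (perc Vtx p) (lam sd) (BadF sd s v a) F ≤ EE (1 / 10 ^ 4 * lam sd * F.card) := by
  induction s with
  | zero =>
    intro v a hv F hF
    classical
    have hl := lam_pos sd
    have hl1 : lam sd ≤ 1 / 100 := by
      unfold lam
      apply one_div_le_one_div_of_le (by norm_num)
      have : (0 : ℝ) ≤ sd.M := by positivity
      linarith
    set A : Set (Cfg Vtx) := {ω | (OF sd v (Finset.Ico a (a + 2)) ω).Nonempty} with hA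
    have hAm : MeasurableSet A := by
      have hdep := OF_dep sd (v := v) (by omega) (J := Finset.Ico a (a + 2)) (lo := a) (hi := a + 2)
        (fun i hi => by rw [Finset.mem_Ico] at hi; omega)
      letI : MeasurableSpace (Finset ℤ) := ⊤
      have hm : Measurable (OF sd v (Finset.Ico a (a + 2))) :=
        measurable_of_dependsOn (Sdep_finite sd hb _ _ _ _) hdep
      exact hm (t := {x | x.Nonempty}) trivial
    have hAP : perc Vtx p A ≤ ENNReal.ofReal (2 / 10 ^ 9) := by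
      have hsub : A ⊆ {ω | Ow sd v ω a} ∪ {ω | Ow sd v ω (a + 1)} := by
        rintro ω ⟨i, hi⟩
        rw [mem_OF, Finset.mem_Ico] at hi
        rcases (show i = a ∨ i = a + 1 by omega) with rfl | rfl
        · exact Or.inl hi.2
        · exact Or.inr hi.2
      calc perc Vtx p A ≤ _ := measure_mono hsub
        _ ≤ _ := measure_union_le _ _
        _ ≤ ENNReal.ofReal (1 / 10 ^ 9) + ENNReal.ofReal (1 / 10 ^ 9) :=
            add_le_add (Ow_prob sd hb (by omega) _) (Ow_prob sd hb (by omega) _)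
        _ = ENNReal.ofReal (2 / 10 ^ 9) := by
            rw [← ENNReal.ofReal_add (by norm_num) (by norm_num)]; congr 1; norm_num
    set f : ℝ := (F.card : ℝ) with hf
    have hf0 : 0 ≤ f := by positivity
    have hf2 : f ≤ 2 := by
      have h2 := Finset.card_le_card hF
      rw [card_Ico_pow] at h2
      have h2' : F.card ≤ 2 := by simpa using h2
      rw [hf]
      exact_mod_cast h2'
    have hpt : ∀ ω, EE (lam sd * ((BadF sd 0 v a ω ∩ F).card : ℝ)) ≤
        1 + A.indicator (fun _ => ENNReal.ofReal (Real.exp (lam sd * f) - 1)) ω := by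
      intro ω
      by_cases hω : ω ∈ A
      · rw [Set.indicator_of_mem hω]
        have h2 : EE (lam sd * ((BadF sd 0 v a ω ∩ F).card : ℝ)) ≤ EE (lam sd * f) := by
          apply EE_mono
          apply mul_le_mul_of_nonneg_left _ hl.le
          rw [hf]
          exact_mod_cast Finset.card_le_card Finset.inter_subset_right
        refine h2.trans (le_of_eq ?_)
        have h4 : 0 ≤ Real.exp (lam sd * f) - 1 := by
          have := Real.add_one_le_exp (lam sd * f)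
          have : 0 ≤ lam sd * f := by positivity
          linarith
        rw [EE, ← ENNReal.ofReal_one, ← ENNReal.ofReal_add zero_le_one h4]
        congr 1; ring
      · rw [Set.indicator_of_notMem hω, add_zero]
        have h5 : BadF sd 0 v a ω = ∅ := by
          simp only [BadF]
          exact if_neg hω
        rw [h5]
        simp [EE_zero]
    unfold mom
    refine (lintegral_mono hpt).trans ?_
    rw [lintegral_add_left measurable_const, lintegral_indicator hAm, lintegral_const,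
      lintegral_const, Measure.restrict_apply_univ, measure_univ, mul_one]
    have hy : lam sd * f ≤ 1 / 50 := by nlinarith
    have hy0 : 0 ≤ lam sd * f := by positivity
    have he : 0 ≤ Real.exp (lam sd * f) - 1 := by
      have := Real.add_one_le_exp (lam sd * f); linarith
    calc 1 + ENNReal.ofReal (Real.exp (lam sd * f) - 1) * perc Vtx p A
        ≤ 1 + ENNReal.ofReal (Real.exp (lam sd * f) - 1) * ENNReal.ofReal (2 / 10 ^ 9) := by
          gcongr
      _ = ENNReal.ofReal (1 + (Real.exp (lam sd * f) - 1) * (2 / 10 ^ 9)) := by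
          rw [← ENNReal.ofReal_mul he, ENNReal.ofReal_add zero_le_one (by positivity),
            ENNReal.ofReal_one]
      _ ≤ EE (1 / 10 ^ 4 * lam sd * f) := by
          apply ENNReal.ofReal_le_ofReal
          have h6 : Real.exp (lam sd * f) - 1 ≤ lam sd * f * 3 := by
            refine exp_sub_one_le.trans (mul_le_mul_of_nonneg_left ?_ hy0)
            have h7 : Real.exp (lam sd * f) ≤ Real.exp 1 := Real.exp_le_exp.2 (by linarith)
            have h8 : Real.exp 1 ≤ 3 := (Real.exp_one_lt_d9.trans (by norm_num)).le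
            linarith
          have h9 := Real.add_one_le_exp (1 / 10 ^ 4 * lam sd * f)
          have h10 : 1 / 10 ^ 4 * lam sd * f = (lam sd * f) / 10 ^ 4 := by ring
          rw [h10] at h9 ⊢
          nlinarith
  | succ s ih =>
    intro v a hv F hF
    have hpos : (0 : ℤ) < 2 ^ s := by positivity
    have e1 : (2 : ℤ) ^ (s + 1) = 2 * 2 ^ s := by ring
    have e2 : (2 : ℤ) ^ (s + 1 + 1) = 4 * 2 ^ s := by ring
    have hw : ∀ j < 128, (wd b v j).1 + 7 = v.1 ∧ (wd b v j).2 / b ^ 7 = v.2 :=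
      fun j hj => wd_mem hb (by omega) hj
    refine mom_step (E := Sym2 Vtx) (p := p) (N := 2 ^ (s + 1)) (by positivity)
      (B0 := fun j => BadF sd s (wd b v j) a) (Bm := fun j => BadF sd s (wd b v j) (a + 2 ^ s))
      (B1 := fun j => BadF sd s (wd b v j) (a + 2 ^ (s + 1)))
      (S := fun j => Sdep sd s (wd b v j) a (a + 2 ^ (s + 1 + 1)))
      (fun j _ => Sdep_finite sd hb _ _ _ _) ?_ ?_ ?_ ?_
      (J1 := Finset.Ico a (a + 2 ^ (s + 1)))
      (Jm := Finset.Ico (a + 2 ^ s) (a + 2 ^ s + 2 ^ (s + 1)))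
      (J2 := Finset.Ico (a + 2 ^ (s + 1)) (a + 2 ^ (s + 1) + 2 ^ (s + 1)))
      (disj_Ico a s) (card_Ico_pow _ _) (card_Ico_pow _ _) (card_Ico_pow _ _)
      (fun j _ ω => BadF_sub sd s _ _ ω) (fun j _ ω => BadF_sub sd s _ _ ω)
      (fun j _ ω => BadF_sub sd s _ _ ω) (lam := lam sd) (δ := 1 / 10 ^ 4) (δ1 := 2 / 10 ^ 9)
      (lam_pos sd) (by norm_num) (by norm_num) (by norm_num) (by norm_num) (by norm_num)
      (fun j hj F hF => ih _ _ (by have := hw j hj; omega) F hF)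
      (fun j hj F hF => ih _ _ (by have := hw j hj; omega) F hF)
      (fun j hj F hF => ih _ _ (by have := hw j hj; omega) F hF)
      (O := OF sd v (Finset.Ico a (a + 2 ^ (s + 1)) ∪
        Finset.Ico (a + 2 ^ (s + 1)) (a + 2 ^ (s + 1) + 2 ^ (s + 1))))
      (SO := Sdep sd 0 v a (a + 2 ^ (s + 1 + 1))) (Sdep_finite sd hb _ _ _ _) ?_
      (fun F _ => OF_mom sd hb (by omega) _ F) (fun ω => ?_) (by rwa [union_Ico])
    · intro i hi j hj hij
      apply within_disjoint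
      rw [Set.disjoint_left]
      rintro z ⟨h1, _⟩ ⟨h2, _⟩
      refine Set.disjoint_left.1 (Desc_disjoint (b := b) (u := wd b v i) (v := wd b v j) rfl ?_)
        h1 h2
      simp only [wd]
      omega
    · intro j hj
      apply dependsOn_mono _ (BadF_dep sd hb s (wd b v j) a (by have := hw j hj; omega))
      exact Sdep_mono sd (self_mem_Desc b 0 _) (by omega) le_rfl (by omega)
    · intro j hj
      apply dependsOn_mono _ (BadF_dep sd hb s (wd b v j) (a + 2 ^ s)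
        (by have := hw j hj; omega))
      exact Sdep_mono sd (self_mem_Desc b 0 _) (by omega) (by omega) (by omega)
    · intro j hj
      apply dependsOn_mono _ (BadF_dep sd hb s (wd b v j) (a + 2 ^ (s + 1))
        (by have := hw j hj; omega))
      exact Sdep_mono sd (self_mem_Desc b 0 _) (by omega) (by omega) (by omega)
    · apply OF_dep sd (by omega)
      intro i hi
      have e3 : (2 : ℤ) ^ (s + 2) = 4 * 2 ^ s := by ring
      rw [union_Ico, Finset.mem_Ico] at hi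
      omega
    · simp only [BadF]

lemma BadF_prob (sd : Seeds b p (ENNReal.ofReal (1 / (10 ^ 10 * b ^ 6)))) (hb : 2 ≤ b) (s : ℕ)
    (v : ℕ × ℕ) (a : ℤ) (hv : sd.M + 6 + 7 * s ≤ v.1) :
    perc Vtx p {ω | 2 ^ (s + 1) < 10 * (BadF sd s v a ω).card} ≤
      ENNReal.ofReal (Real.exp (-(lam sd / 20) * 2 ^ s)) := by
  have hmeas : ∀ t, MeasurableSet (BadF sd s v a ⁻¹' t) := by
    intro t
    letI : MeasurableSpace (Finset ℤ) := ⊤
    exact measurable_of_dependsOn (Sdep_finite sd hb _ _ _ _) (BadF_dep sd hb s v a hv) trivial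
  have h1 := dense_sub (μ := perc Vtx p) hmeas (J := Finset.Ico a (a + 2 ^ (s + 1)))
    (N := 2 ^ (s + 1)) (by positivity) (card_Ico_pow _ _) (fun ω => BadF_sub sd s v a ω)
    (lam_pos sd) (δ := 1 / 10 ^ 4) (by norm_num) (BadF_mom sd hb s v a hv)
  refine h1.trans (ENNReal.ofReal_le_ofReal ?_)
  have hl := lam_pos sd
  have hx : (0 : ℝ) < lam sd * 2 ^ s := by positivity
  have h2 : Real.exp (1 / 10 ^ 4 * (lam sd * ((2 ^ (s + 1) : ℕ) : ℝ)) -
      lam sd * ((2 ^ (s + 1) : ℕ) : ℝ) / 20) ≤ Real.exp (-(lam sd / 20) * 2 ^ s) := by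
    apply Real.exp_le_exp.2
    push_cast
    have e : (2 : ℝ) ^ (s + 1) = 2 * 2 ^ s := by ring
    rw [e]
    nlinarith
  calc 10 * (1 / 10 ^ 4) * Real.exp (1 / 10 ^ 4 * (lam sd * ((2 ^ (s + 1) : ℕ) : ℝ)) -
        lam sd * ((2 ^ (s + 1) : ℕ) : ℝ) / 20)
      ≤ 1 * Real.exp (-(lam sd / 20) * 2 ^ s) :=
        mul_le_mul (by norm_num) h2 (Real.exp_nonneg _) zero_le_one
    _ = _ := one_mul _

/-! ### Linking -/

/-- All seed points of `(v, i)` are connected to all seed points of `(v', i')` inside `R`. -/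
def Lk (sd : Seeds b p ε) (ω : Cfg Vtx) (R : Set Vtx) (v : ℕ × ℕ) (i : ℤ) (v' : ℕ × ℕ) (i' : ℤ) :
    Prop :=
  ∀ t t' : ℤ, i * sd.W ≤ t → t < (i + 1) * sd.W → i' * sd.W ≤ t' → t' < (i' + 1) * sd.W →
    sd.K ω v t → sd.K ω v' t' → (cut (opn (GZ b) ω) R).Reachable (v, t) (v', t')

/-- The site `(v, i)` has a seed point. -/
def Pt (sd : Seeds b p ε) (ω : Cfg Vtx) (v : ℕ × ℕ) (i : ℤ) : Prop :=
  ∃ t : ℤ, i * sd.W ≤ t ∧ t < (i + 1) * sd.W ∧ sd.K ω v t

lemma cut_mono {V : Type*} {Γ : SimpleGraph V} {R R' : Set V} (h : R ⊆ R') :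
    cut Γ R ≤ cut Γ R' := fun _ _ hxy => ⟨hxy.1, h hxy.2.1, h hxy.2.2⟩

lemma Lk.symm {sd : Seeds b p ε} {ω : Cfg Vtx} {R : Set Vtx} {v v' : ℕ × ℕ} {i i' : ℤ}
    (h : Lk sd ω R v i v' i') : Lk sd ω R v' i' v i :=
  fun t t' h1 h2 h3 h4 h5 h6 => (h t' t h3 h4 h1 h2 h6 h5).symm

lemma Lk.mono {sd : Seeds b p ε} {ω : Cfg Vtx} {R R' : Set Vtx} {v v' : ℕ × ℕ} {i i' : ℤ}
    (h : Lk sd ω R v i v' i') (hR : R ⊆ R') : Lk sd ω R' v i v' i' :=
  fun t t' h1 h2 h3 h4 h5 h6 => (h t t' h1 h2 h3 h4 h5 h6).mono (cut_mono hR)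

lemma Lk.trans {sd : Seeds b p ε} {ω : Cfg Vtx} {R : Set Vtx} {v v' v'' : ℕ × ℕ} {i i' i'' : ℤ}
    (h : Lk sd ω R v i v' i') (h' : Lk sd ω R v' i' v'' i'') (hp : Pt sd ω v' i') :
    Lk sd ω R v i v'' i'' := by
  obtain ⟨t0, ht0, ht1, hK⟩ := hp
  exact fun t t' h1 h2 h3 h4 h5 h6 =>
    (h t t0 h1 h2 ht0 ht1 h5 hK).trans (h' t0 t' ht0 ht1 h3 h4 hK h6)

/-- Link along the generations. -/
lemma chain (sd : Seeds b p ε) (hb : 2 ≤ b) {ω : Cfg Vtx} {v : ℕ × ℕ} {i : ℤ}
    (hv : sd.M + 6 ≤ v.1) (hO : ¬ Ow sd v ω i) : ∀ d ≤ 7, ∀ u : ℕ × ℕ, u.1 + d = v.1 →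
    u.2 / b ^ d = v.2 →
    Lk sd ω (Reg b (sd.M + 6) v (i * sd.W - sd.M) (i * sd.W + sd.M)) v i u i := by
  have hW : (0 : ℤ) ≤ sd.W := by positivity
  have hS : ∀ u ∈ Desc b 6 v, sd.S ω u i := by
    intro u hu
    by_contra h
    exact hO ⟨u, hu, h⟩
  intro d
  induction d with
  | zero =>
    intro _ u h1 h2
    have hu : u = v := by
      apply Prod.ext
      · simpa using h1
      · simpa using h2
    subst hu
    intro t t' h3 h4 h5 h6 hK hK'
    have := sd.conn ω u i (by omega) (hS u (self_mem_Desc b 6 u)) u u (Or.inl rfl) (Or.inl rfl)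
      t t' h3 (by nlinarith) h5 (by nlinarith) hK hK'
    exact this.mono (cut_mono (Reg_sub (self_mem_Desc b 0 u) (by omega) le_rfl le_rfl))
  | succ d ih =>
    intro hd u h1 h2
    set u' : ℕ × ℕ := (u.1 + 1, u.2 / b) with hu'
    have h3 : u'.1 + d = v.1 := by simp only [hu']; omega
    have h4 : u'.2 / b ^ d = v.2 := by
      simp only [hu']
      rw [Nat.div_div_eq_div_mul, ← pow_succ']; exact h2
    have hu'D : u' ∈ Desc b 6 v := ⟨d, by omega, h3, h4⟩
    have hpt : Pt sd ω u' i := sd.pt ω u' i (by omega) (hS u' hu'D)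
    refine (ih (by omega) u' h3 h4).trans ?_ hpt
    intro t t' h5 h6 h7 h8 hK hK'
    have hc : u = child b u' (u.2 % b) := by
      apply Prod.ext
      · simp [child, hu']
      · simp only [child, hu']
        exact (Nat.div_add_mod _ _).symm
    have := sd.conn ω u' i (by omega) (hS u' hu'D) u' u (Or.inl rfl)
      (Or.inr ⟨u.2 % b, Nat.mod_lt _ (by omega), hc⟩)
      t t' h5 (by nlinarith) h7 (by nlinarith) hK hK'
    exact this.mono (cut_mono (Reg_sub hu'D (by omega) le_rfl le_rfl))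

lemma exists_avoid {J A B C : Finset ℤ} {N : ℕ} (hN : 0 < N) (hJ : N ≤ J.card)
    (hA : 10 * A.card ≤ 2 * N) (hB : 10 * B.card ≤ 2 * N) (hC : 10 * C.card ≤ 2 * N) :
    ∃ i ∈ J, i ∉ A ∧ i ∉ B ∧ i ∉ C := by
  classical
  by_contra h
  push Not at h
  have hsub : J ⊆ A ∪ B ∪ C := by
    intro i hi
    by_cases h1 : i ∈ A
    · simp [h1]
    · by_cases h2 : i ∈ B
      · simp [h2]
      · simp [h i hi h1 h2]
  have h1 := Finset.card_le_card hsub
  have h2 := Finset.card_union_le (A ∪ B) C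
  have h3 := Finset.card_union_le A B
  omega

/-- The main deterministic statement: good indices are own-good and linked. -/
lemma good_link (sd : Seeds b p ε) (hb : 2 ≤ b) (ω : Cfg Vtx) (s : ℕ) :
    ∀ (v : ℕ × ℕ) (a : ℤ), sd.M + 6 + 7 * s ≤ v.1 →
    (∀ i ∈ Finset.Ico a (a + 2 ^ (s + 1)), i ∉ BadF sd s v a ω → ¬ Ow sd v ω i) ∧
    (∀ i ∈ Finset.Ico a (a + 2 ^ (s + 1)), ∀ i' ∈ Finset.Ico a (a + 2 ^ (s + 1)),
      i ∉ BadF sd s v a ω → i' ∉ BadF sd s v a ω →
      Lk sd ω (Reg b (sd.M + 6 + 7 * s) v (a * sd.W - sd.M) ((a + 2 ^ (s + 1)) * sd.W + sd.M))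
        v i v i') := by
  have hW : (1 : ℤ) ≤ sd.W := by exact_mod_cast sd.hW
  have hMW : (2 * sd.W : ℤ) ≤ sd.M := by exact_mod_cast sd.hM
  have hSof : ∀ {v : ℕ × ℕ} {i : ℤ}, ¬ Ow sd v ω i → sd.S ω v i := by
    intro v i h
    by_contra h'
    exact h ⟨v, self_mem_Desc b 6 v, h'⟩
  induction s with
  | zero =>
    intro v a hv
    have key : ∀ i ∈ Finset.Ico a (a + 2 ^ (0 + 1)), i ∉ BadF sd 0 v a ω → ¬ Ow sd v ω i := by
      intro i hi hi'
      simp only [BadF] at hi'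
      have hi2 : i ∈ Finset.Ico a (a + 2) := by simpa using hi
      split_ifs at hi' with h
      · exact absurd hi2 hi'
      · intro hO
        exact h ⟨i, mem_OF.2 ⟨hi2, hO⟩⟩
    refine ⟨key, ?_⟩
    intro i hi i' hi' hb1 hb2
    have hnone : ∀ k ∈ Finset.Ico a (a + 2 ^ (0 + 1)), ¬ Ow sd v ω k := by
      intro k hk
      apply key k hk
      simp only [BadF] at hb1 ⊢
      have hi2 : i ∈ Finset.Ico a (a + 2) := by simpa using hi
      split_ifs at hb1 ⊢ with h
      · exact absurd hi2 hb1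
      · simp
    have hSa : sd.S ω v a := hSof (hnone a (by simp))
    have e : (a : ℤ) + 2 ^ (0 + 1) = a + 2 := by norm_num
    rw [e] at hi hi' ⊢
    rw [Finset.mem_Ico] at hi hi'
    intro t t' h1 h2 h3 h4 hK hK'
    have := sd.conn ω v a (by omega) hSa v v (Or.inl rfl) (Or.inl rfl)
      t t' (by nlinarith) (by nlinarith) (by nlinarith) (by nlinarith) hK hK'
    refine this.mono (cut_mono (Reg_sub (self_mem_Desc b 0 v) (by omega) le_rfl ?_))
    nlinarith
  | succ s ih =>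
    intro v a hv
    have hpos : (0 : ℤ) < 2 ^ s := by positivity
    have hposn : 0 < 2 ^ s := by positivity
    have e1 : (2 : ℤ) ^ (s + 1) = 2 * 2 ^ s := by ring
    have e1n : 2 ^ (s + 1) = 2 * 2 ^ s := by ring
    have e2 : (2 : ℤ) ^ (s + 1 + 1) = 4 * 2 ^ s := by ring
    have hw : ∀ j < 128, (wd b v j).1 + 7 = v.1 ∧ (wd b v j).2 / b ^ 7 = v.2 :=
      fun j hj => wd_mem hb (by omega) hj
    set N := 2 ^ (s + 1) with hN
    set J1 := Finset.Ico a (a + 2 ^ (s + 1)) with hJ1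
    set J2 := Finset.Ico (a + 2 ^ (s + 1)) (a + 2 ^ (s + 1) + 2 ^ (s + 1)) with hJ2
    set Jm := Finset.Ico (a + 2 ^ s) (a + 2 ^ s + 2 ^ (s + 1)) with hJm
    have hU : J1 ∪ J2 = Finset.Ico a (a + 2 ^ (s + 1 + 1)) := union_Ico a s
    -- unfolding of the bad set
    have hbad : ∀ i ∈ Finset.Ico a (a + 2 ^ (s + 1 + 1)), i ∉ BadF sd (s + 1) v a ω →
        ¬ Ow sd v ω i ∧ 10 * (OF sd v (J1 ∪ J2) ω ∩ J1).card ≤ N ∧
        ∃ j < 128, (10 * (BadF sd s (wd b v j) a ω).card ≤ N ∧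
          10 * (BadF sd s (wd b v j) (a + 2 ^ s) ω).card ≤ N ∧
          10 * (BadF sd s (wd b v j) (a + 2 ^ (s + 1)) ω).card ≤ N) ∧
          i ∉ BadF sd s (wd b v j) a ω ∧ i ∉ BadF sd s (wd b v j) (a + 2 ^ (s + 1)) ω := by
      intro i hi hi'
      simp only [BadF] at hi'
      rw [← hU] at hi
      split_ifs at hi' with h
      · exact absurd hi hi'
      · push Not at h
        rw [Finset.mem_union, not_or] at hi'
        obtain ⟨h1, h2⟩ := hi'
        refine ⟨fun hO => h1 (Finset.mem_inter.2 ⟨mem_OF.2 ⟨hi, hO⟩, hi⟩), h.1, ?_⟩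
        rw [mem_Iset] at h2
        push Not at h2
        obtain ⟨j, hj, h3⟩ := h2 hi
        refine ⟨j, hj, ?_⟩
        simp only [Uset] at h3
        split_ifs at h3 with h4
        · rw [Finset.mem_union, not_or] at h3
          exact ⟨h4, h3⟩
        · exact absurd hi h3
    refine ⟨fun i hi hi' => (hbad i hi hi').1, ?_⟩
    intro i hi i' hi' hb1 hb2
    obtain ⟨hOi, hdense, j, hj, hgj, hj1, hj2⟩ := hbad i hi hb1
    obtain ⟨hOi', -, j', hj', hgj', hj1', hj2'⟩ := hbad i' hi' hb2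
    set R := Reg b (sd.M + 6 + 7 * (s + 1)) v (a * sd.W - sd.M)
      ((a + 2 ^ (s + 1 + 1)) * sd.W + sd.M) with hR
    -- regions of the descendants
    have hRw : ∀ k < 128, ∀ a' : ℤ, a ≤ a' → a' ≤ a + 2 ^ (s + 1) →
        Reg b (sd.M + 6 + 7 * s) (wd b v k) (a' * sd.W - sd.M)
          ((a' + 2 ^ (s + 1)) * sd.W + sd.M) ⊆ R := by
      intro k hk a' h1 h2
      apply Reg_sub (k := 7) ⟨7, le_rfl, (hw k hk).1, (hw k hk).2⟩ (by omega)
      · nlinarith
      · nlinarith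
    have hRv : ∀ k ∈ Finset.Ico a (a + 2 ^ (s + 1 + 1)),
        Reg b (sd.M + 6) v (k * sd.W - sd.M) (k * sd.W + sd.M) ⊆ R := by
      intro k hk
      rw [Finset.mem_Ico] at hk
      apply Reg_sub (self_mem_Desc b 0 v) (by omega)
      · nlinarith
      · nlinarith
    -- links inside a good descendant
    have hin : ∀ k < 128, (10 * (BadF sd s (wd b v k) a ω).card ≤ N ∧
          10 * (BadF sd s (wd b v k) (a + 2 ^ s) ω).card ≤ N ∧
          10 * (BadF sd s (wd b v k) (a + 2 ^ (s + 1)) ω).card ≤ N) →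
        ∀ q ∈ J1, q ∉ BadF sd s (wd b v k) a ω →
        ∀ q' ∈ J2, q' ∉ BadF sd s (wd b v k) (a + 2 ^ (s + 1)) ω →
        Lk sd ω R (wd b v k) q (wd b v k) q' := by
      intro k hk hg q hq hqb q' hq' hqb'
      have hvk : sd.M + 6 + 7 * s ≤ (wd b v k).1 := by have := hw k hk; omega
      obtain ⟨q2, hq2, hq2a, hq2b, -⟩ := exists_avoid (N := 2 ^ s)
        (J := Finset.Ico (a + 2 ^ s) (a + 2 ^ s + 2 ^ s)) (A := BadF sd s (wd b v k) a ω)
        (B := BadF sd s (wd b v k) (a + 2 ^ s) ω) (C := ∅) hposn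
        (by rw [card_Ico_pow]) (by omega) (by omega) (by simp)
      obtain ⟨q3, hq3, hq3a, hq3b, -⟩ := exists_avoid (N := 2 ^ s)
        (J := Finset.Ico (a + 2 ^ (s + 1)) (a + 2 ^ (s + 1) + 2 ^ s))
        (A := BadF sd s (wd b v k) (a + 2 ^ s) ω)
        (B := BadF sd s (wd b v k) (a + 2 ^ (s + 1)) ω) (C := ∅) hposn
        (by rw [card_Ico_pow]) (by omega) (by omega) (by simp)
      rw [Finset.mem_Ico] at hq2 hq3
      have i1 : q2 ∈ J1 := by rw [hJ1, Finset.mem_Ico]; omega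
      have i2 : q2 ∈ Jm := by rw [hJm, Finset.mem_Ico]; omega
      have i3 : q3 ∈ Jm := by rw [hJm, Finset.mem_Ico]; omega
      have i4 : q3 ∈ J2 := by rw [hJ2, Finset.mem_Ico]; omega
      have l1 := ((ih (wd b v k) a hvk).2 q hq q2 i1 hqb hq2a).mono
        (hRw k hk a le_rfl (by omega))
      have l2 := ((ih (wd b v k) (a + 2 ^ s) hvk).2 q2 i2 q3 i3 hq2b hq3a).mono
        (hRw k hk (a + 2 ^ s) (by omega) (by omega))
      have l3 := ((ih (wd b v k) (a + 2 ^ (s + 1)) hvk).2 q3 i4 q' hq' hq3b hqb').mono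
        (hRw k hk (a + 2 ^ (s + 1)) (by omega) le_rfl)
      have p2 : Pt sd ω (wd b v k) q2 :=
        sd.pt ω _ q2 (by omega) (hSof ((ih (wd b v k) a hvk).1 q2 i1 hq2a))
      have p3 : Pt sd ω (wd b v k) q3 :=
        sd.pt ω _ q3 (by omega) (hSof ((ih (wd b v k) (a + 2 ^ s) hvk).1 q3 i3 hq3a))
      exact (l1.trans l2 p2).trans l3 p3
    -- link from `(v, q)`, `q` good for descendant `k`, to `(w_k, q3)` for a good `q3` in `J1`
    have hmain : ∀ q ∈ Finset.Ico a (a + 2 ^ (s + 1 + 1)), ¬ Ow sd v ω q → ∀ k < 128,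
        (10 * (BadF sd s (wd b v k) a ω).card ≤ N ∧
          10 * (BadF sd s (wd b v k) (a + 2 ^ s) ω).card ≤ N ∧
          10 * (BadF sd s (wd b v k) (a + 2 ^ (s + 1)) ω).card ≤ N) →
        q ∉ BadF sd s (wd b v k) a ω → q ∉ BadF sd s (wd b v k) (a + 2 ^ (s + 1)) ω →
        ∀ q3 ∈ J1, ¬ Ow sd v ω q3 → q3 ∉ BadF sd s (wd b v k) a ω → Lk sd ω R v q v q3 := by
      intro q hq hOq k hk hg hqa hqb q3 hq3 hOq3 hq3a
      have hvk : sd.M + 6 + 7 * s ≤ (wd b v k).1 := by have := hw k hk; omega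
      have hq3J : q3 ∈ Finset.Ico a (a + 2 ^ (s + 1 + 1)) := by
        rw [← hU]; exact Finset.mem_union_left _ hq3
      have c1 := (chain sd hb (by omega) hOq 7 le_rfl (wd b v k) (hw k hk).1 (hw k hk).2).mono
        (hRv q hq)
      have c2 := (chain sd hb (by omega) hOq3 7 le_rfl (wd b v k) (hw k hk).1 (hw k hk).2).mono
        (hRv q3 hq3J)
      have pq3 : Pt sd ω (wd b v k) q3 :=
        sd.pt ω _ q3 (by omega) (hSof ((ih (wd b v k) a hvk).1 q3 hq3 hq3a))
      have hq' : q ∈ J1 ∨ q ∈ J2 := by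
        rw [← hU] at hq
        exact Finset.mem_union.1 hq
      rcases hq' with hq1 | hq2
      · have pq : Pt sd ω (wd b v k) q :=
          sd.pt ω _ q (by omega) (hSof ((ih (wd b v k) a hvk).1 q hq1 hqa))
        have l := ((ih (wd b v k) a hvk).2 q hq1 q3 hq3 hqa hq3a).mono
          (hRw k hk a le_rfl (by omega))
        exact (c1.trans l pq).trans c2.symm pq3
      · have pq : Pt sd ω (wd b v k) q :=
          sd.pt ω _ q (by omega) (hSof ((ih (wd b v k) (a + 2 ^ (s + 1)) hvk).1 q hq2 hqb))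
        have l := (hin k hk hg q3 hq3 hq3a q hq2 hqb).symm
        exact (c1.trans l pq).trans c2.symm pq3
    -- a common good index
    obtain ⟨q3, hq3, hq3O, hq3a, hq3b⟩ := exists_avoid (N := N) (J := J1)
      (A := OF sd v (J1 ∪ J2) ω ∩ J1) (B := BadF sd s (wd b v j) a ω)
      (C := BadF sd s (wd b v j') a ω) (by positivity) (by rw [hJ1, card_Ico_pow]) (by omega)
      (by omega) (by omega)
    have hOq3 : ¬ Ow sd v ω q3 := fun h =>
      hq3O (Finset.mem_inter.2 ⟨mem_OF.2 ⟨Finset.mem_union_left _ hq3, h⟩, hq3⟩)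
    have m1 := hmain i hi hOi j hj hgj hj1 hj2 q3 hq3 hOq3 hq3a
    have m2 := hmain i' hi' hOi' j' hj' hgj' hj1' hj2' q3 hq3 hOq3 hq3b
    exact m1.trans m2.symm (sd.pt ω v q3 (by omega) (hSof hOq3))

end T4

open T4 in
/-- Module T4. -/
theorem exists_renorm (b : ℕ) (hb : 2 ≤ b) (p : unitInterval)
    (sd : Seeds b p (ENNReal.ofReal (1 / (10 ^ 10 * b ^ 6)))) : Nonempty (Renorm b p) := by
  refine ⟨{ W := sd.W, M := sd.M, K := sd.K, S := sd.S, hW := sd.hW, hM := sd.hM, pt := sd.pt,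
            conn := sd.conn, c := lam sd / 20, hc := by have := lam_pos sd; positivity,
            Bad := fun ω s v a => (BadF sd s v a ω : Set ℤ), bad_sub := ?_, bad_prob := ?_,
            own := ?_, link := ?_ }⟩
  · intro ω s v a i hi
    have := BadF_sub sd s v a ω (Finset.mem_coe.1 hi)
    rw [Finset.mem_Ico] at this
    exact this
  · intro s v a hv
    simp only [Set.ncard_coe_finset]
    exact BadF_prob sd hb s v a hv
  · intro ω s v a hv i hi hi'
    have h1 := (good_link sd hb ω s v a hv).1 i (Finset.mem_Ico.2 hi)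
      (fun h => hi' (Finset.mem_coe.2 h))
    by_contra h
    exact h1 ⟨v, self_mem_Desc b 6 v, h⟩
  · intro ω s v a hv i hi i' hi' h1 h2
    exact (good_link sd hb ω s v a hv).2 i (Finset.mem_Ico.2 hi) i' (Finset.mem_Ico.2 hi')
      (fun h => h1 (Finset.mem_coe.2 h)) (fun h => h2 (Finset.mem_coe.2 h))

end Pool.Agent.MP_c3c849_pr
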