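import Pool.Agent.MP_c3c849_pr.SeedingCore
import Pool.Agent.MP_c3c849_pr.BurtonKeane
import Pool.Agent.MP_c3c849_pr.Renorm
import Pool.Agent.MP_c3c849_pr.Coarse
import Pool.Agent.MP_c3c849_pr.Energy
import Pool.Agent.MP_c3c849_pr.Criterion

/-!
# MP_c3c849_pr, module T8: assembly
-/

open MeasureTheory ProbabilityTheory
open scoped ENNReal

namespace Pool.Agent.MP_c3c849_pr
namespace T8

lemma pc_nonneg {V : Type*} (G : SimpleGraph V) : 0 ≤ pc G := by
  apply Real.sInf_nonneg
  rintro q ⟨p, rfl, _⟩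
  exact p.2.1

/-- If the cluster of `x` satisfies the capacity inequality then it is infinite. -/
lemma infinite_of_capacity {V : Type*} {Γ : SimpleGraph V} {x : V} {C : ℝ}
    (h : ∀ u : V → ℝ, u.support.Finite → ∀ D, EnergyLE Γ u D → u x ^ 2 ≤ C * D) :
    {y | Γ.Reachable x y}.Infinite := by
  classical
  intro hfin
  set u : V → ℝ := fun y => if Γ.Reachable x y then 1 else 0 with hu
  have h1 : u.support.Finite := by
    apply hfin.subset
    intro y hy
    by_contra hy'
    apply hy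
    simp only [hu]
    exact if_neg hy'
  have h2 : EnergyLE Γ u 0 := by
    intro F hF
    apply le_of_eq
    apply Finset.sum_eq_zero
    intro e he
    have h3 : Γ.Reachable x e.1 ↔ Γ.Reachable x e.2 :=
      ⟨fun h => h.trans (hF e he).reachable, fun h => h.trans (hF e he).reachable.symm⟩
    simp only [hu, h3]
    simp
  have h4 := h u h1 0 h2
  have h5 : u x = 1 := by simp [hu]
  rw [h5] at h4
  norm_num at h4

end T8

open T8 in
/-- The main theorem: for `p > p_c` almost surely every infinite cluster is transient. -/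
theorem main (b : ℕ) (hb : 2 ≤ b) (p : unitInterval) (hp : pc (GZ b) < p) :
    ∀ᵐ ω ∂(perc Vtx p), ∀ x, InfCl (GZ b) ω x → Transient (opn (GZ b) ω) x := by
  have hp0 : 0 < (p : ℝ) := lt_of_le_of_lt (pc_nonneg _) hp
  have hU := unique_cluster b hb p hp0
  have hε : (ENNReal.ofReal (1 / (10 ^ 10 * (b : ℝ) ^ 6))) ≠ 0 := by
    rw [Ne, ENNReal.ofReal_eq_zero, not_le]
    positivity
  obtain ⟨sd⟩ := exists_seeds_of_unique b hb p hp hU hε
  obtain ⟨R⟩ := exists_renorm b hb p sd
  obtain ⟨m, H, hH, hK⟩ := exists_kstr b hb p R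
  filter_upwards [hU, hK] with ω hω hk x hx
  obtain ⟨s₁, κ, hκ⟩ := hk
  obtain ⟨z, hz⟩ := capacity_of_kstr b hb m H hH _ s₁ κ hκ
  have hzinf : InfCl (GZ b) ω z := by
    obtain ⟨C, hC⟩ := hz z (SimpleGraph.Reachable.refl z)
    exact infinite_of_capacity hC
  have hzx := hω z x hzinf hx
  obtain ⟨C, hC⟩ := hz x hzx
  apply transient_of_capacity _ _ x C (fun u hu _ D hD => hC u hu D hD)
  intro y
  exact (T2.nbr_finite hb y).subset (fun w hw => hw.1)

end Pool.Agent.MP_c3c849_pr
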