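import Pool.Agent.MP_c3c849_pr.Toolkit

/-!
# MP_c3c849_pr, module T4a: exponential moments of random finite sets
-/

open MeasureTheory ProbabilityTheory
open scoped ENNReal

namespace Pool.Agent.MP_c3c849_pr
namespace T4

/-- `exp r` as an extended nonnegative real. -/
noncomputable def EE (r : ℝ) : ℝ≥0∞ := ENNReal.ofReal (Real.exp r)

lemma EE_zero : EE 0 = 1 := by simp [EE]

lemma EE_add (a c : ℝ) : EE (a + c) = EE a * EE c := by
  rw [EE, EE, EE, Real.exp_add, ENNReal.ofReal_mul (Real.exp_nonneg _)]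

lemma EE_mono {a c : ℝ} (h : a ≤ c) : EE a ≤ EE c :=
  ENNReal.ofReal_le_ofReal (Real.exp_le_exp.2 h)

lemma EE_rpow (a r : ℝ) : EE a ^ r = EE (a * r) := by
  rw [EE, EE, ENNReal.ofReal_rpow_of_pos (Real.exp_pos _), ← Real.exp_mul]

lemma EE_sum {ι : Type*} (s : Finset ι) (f : ι → ℝ) : EE (∑ i ∈ s, f i) = ∏ i ∈ s, EE (f i) := by
  classical
  induction s using Finset.induction with
  | empty => simp [EE_zero]
  | insert i s hi ih => rw [Finset.sum_insert hi, Finset.prod_insert hi, EE_add, ih]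

lemma EE_ne_top (a : ℝ) : EE a ≠ ⊤ := ENNReal.ofReal_ne_top

lemma one_le_EE {a : ℝ} (h : 0 ≤ a) : 1 ≤ EE a := by
  rw [← EE_zero]; exact EE_mono h

variable {Ω : Type*} [MeasurableSpace Ω]

/-- Exponential moment of the number of points of the random set `X` in `F`. -/
noncomputable def mom (μ : Measure Ω) (θ : ℝ) (X : Ω → Finset ℤ) (F : Finset ℤ) : ℝ≥0∞ :=
  ∫⁻ ω, EE (θ * ((X ω ∩ F).card : ℝ)) ∂μ

lemma measurable_EE_card {X : Ω → Finset ℤ} (hX : ∀ s, MeasurableSet (X ⁻¹' s)) (θ : ℝ)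
    (F : Finset ℤ) : Measurable fun ω => EE (θ * ((X ω ∩ F).card : ℝ)) := by
  intro s _
  exact hX {x | EE (θ * ((x ∩ F).card : ℝ)) ∈ s}

variable {μ : Measure Ω} [IsProbabilityMeasure μ]

/-- Jensen: going to a smaller parameter. -/
lemma mom_jensen {X : Ω → Finset ℤ} (hX : ∀ s, MeasurableSet (X ⁻¹' s)) {θ θ' c : ℝ}
    {F : Finset ℤ} (h0 : 0 ≤ θ') (h1 : θ' ≤ θ) (h : mom μ θ X F ≤ EE (c * θ)) :
    mom μ θ' X F ≤ EE (c * θ') := by
  rcases eq_or_lt_of_le (h0.trans h1) with h2 | h2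
  · have h3 : θ' = 0 := le_antisymm (h1.trans h2.symm.le) h0
    subst h3
    simp [mom, EE_zero]
  · set r : ℝ := θ' / θ with hr
    have hr0 : 0 ≤ r := div_nonneg h0 h2.le
    have hr1 : r ≤ 1 := (div_le_one h2).2 h1
    have hθ : θ * r = θ' := by rw [hr]; field_simp
    have key := ENNReal.lintegral_mul_norm_pow_le (μ := μ)
      (measurable_EE_card hX θ F).aemeasurable (measurable_const (a := (1 : ℝ≥0∞))).aemeasurable
      hr0 (sub_nonneg.2 hr1) (by ring)
    have e1 : mom μ θ' X F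
        = ∫⁻ a, EE (θ * ((X a ∩ F).card : ℝ)) ^ r * (1 : ℝ≥0∞) ^ (1 - r) ∂μ := by
      unfold mom
      congr 1
      ext ω
      rw [EE_rpow, ENNReal.one_rpow, mul_one]
      congr 1
      rw [← hθ]; ring
    rw [e1]
    refine key.trans ?_
    have e2 : (∫⁻ _, (1 : ℝ≥0∞) ∂μ) ^ (1 - r) = 1 := by simp
    rw [e2, mul_one]
    calc (∫⁻ a, EE (θ * ((X a ∩ F).card : ℝ)) ∂μ) ^ r ≤ (EE (c * θ)) ^ r :=
          ENNReal.rpow_le_rpow h hr0
      _ = EE (c * θ') := by rw [EE_rpow, ← hθ]; ring_nf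

/-- Hölder for two random sets. -/
lemma holder_two {X Y : Ω → Finset ℤ} (hX : ∀ s, MeasurableSet (X ⁻¹' s))
    (hY : ∀ s, MeasurableSet (Y ⁻¹' s)) {θ p q A B : ℝ} {F G : Finset ℤ}
    (hp : 0 < p) (hq : 0 < q) (hpq : p⁻¹ + q⁻¹ = 1)
    (h1 : mom μ (p * θ) X F ≤ EE (p * A)) (h2 : mom μ (q * θ) Y G ≤ EE (q * B)) :
    ∫⁻ ω, EE (θ * ((X ω ∩ F).card : ℝ)) * EE (θ * ((Y ω ∩ G).card : ℝ)) ∂μ ≤ EE (A + B) := by
  have key := ENNReal.lintegral_mul_norm_pow_le (μ := μ)
    (measurable_EE_card hX (p * θ) F).aemeasurable (measurable_EE_card hY (q * θ) G).aemeasurable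
    (inv_nonneg.2 hp.le) (inv_nonneg.2 hq.le) hpq
  have e1 : ∀ ω, EE (θ * ((X ω ∩ F).card : ℝ)) * EE (θ * ((Y ω ∩ G).card : ℝ))
      = EE (p * θ * ((X ω ∩ F).card : ℝ)) ^ p⁻¹ * EE (q * θ * ((Y ω ∩ G).card : ℝ)) ^ q⁻¹ := by
    intro ω
    rw [EE_rpow, EE_rpow]
    congr 2 <;> field_simp
  simp_rw [e1]
  refine key.trans ?_
  have h1' : (∫⁻ a, EE (p * θ * ((X a ∩ F).card : ℝ)) ∂μ) ^ p⁻¹ ≤ EE A := by
    refine (ENNReal.rpow_le_rpow h1 (inv_nonneg.2 hp.le)).trans ?_
    rw [EE_rpow]; apply EE_mono; field_simp; rfl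
  have h2' : (∫⁻ a, EE (q * θ * ((Y a ∩ G).card : ℝ)) ∂μ) ^ q⁻¹ ≤ EE B := by
    refine (ENNReal.rpow_le_rpow h2 (inv_nonneg.2 hq.le)).trans ?_
    rw [EE_rpow]; apply EE_mono; field_simp; rfl
  calc _ ≤ EE A * EE B := mul_le_mul' h1' h2'
    _ = EE (A + B) := (EE_add _ _).symm

/-- Elementary: `(e^y - 1) / (e^z - 1) ≤ (y / z) e^(y - z/2)`, multiplied out. -/
lemma exp_ratio {y z P : ℝ} (hy : 0 ≤ y) (hz : 0 < z) 
    (h : 1 + (Real.exp z - 1) * P ≤ Real.exp y) :
    P ≤ y / z * Real.exp (y - z / 2) := by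
  have h1 : Real.exp y - 1 ≤ y * Real.exp y := by
    have := Real.add_one_le_exp (-y)
    have h2 : Real.exp (-y) * Real.exp y = 1 := by rw [← Real.exp_add]; simp
    nlinarith [Real.exp_pos y]
  have h2 : z * Real.exp (z / 2) ≤ Real.exp z - 1 := by
    have h3 : z / 2 ≤ Real.sinh (z / 2) := Real.self_le_sinh_iff.2 (by linarith)
    rw [Real.sinh_eq] at h3
    have h4 : Real.exp (-(z / 2)) * Real.exp (z / 2) = 1 := by rw [← Real.exp_add]; simp
    have h5 : Real.exp (z / 2) * Real.exp (z / 2) = Real.exp z := by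
      rw [← Real.exp_add]; ring_nf
    nlinarith [Real.exp_pos (z / 2)]
  have h6 : 0 < z * Real.exp (z / 2) := by positivity
  have h7 : 0 < Real.exp z - 1 := lt_of_lt_of_le h6 h2
  have h8 : (Real.exp z - 1) * P ≤ y * Real.exp y := by linarith
  have h9 : P ≤ y * Real.exp y / (Real.exp z - 1) := by
    rw [le_div_iff₀ h7]; linarith
  refine h9.trans ?_
  rw [div_le_iff₀ h7]
  have h10 : y / z * Real.exp (y - z / 2) * (z * Real.exp (z / 2)) = y * Real.exp y := by
    have : Real.exp (y - z / 2) * Real.exp (z / 2) = Real.exp y := by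
      rw [← Real.exp_add]; ring_nf
    calc y / z * Real.exp (y - z / 2) * (z * Real.exp (z / 2))
        = y / z * z * (Real.exp (y - z / 2) * Real.exp (z / 2)) := by ring
      _ = y * Real.exp y := by rw [this]; field_simp
  calc y * Real.exp y = y / z * Real.exp (y - z / 2) * (z * Real.exp (z / 2)) := h10.symm
    _ ≤ y / z * Real.exp (y - z / 2) * (Real.exp z - 1) := by
        apply mul_le_mul_of_nonneg_left h2
        positivity

/-- Density bound from an exponential moment. -/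
lemma dense_prob {X : Ω → Finset ℤ} (hX : ∀ s, MeasurableSet (X ⁻¹' s)) {θ c : ℝ}
    {F : Finset ℤ} {N : ℕ} (hN : 0 < N) (hF : F.card = N) (hθ : 0 < θ) (hc : 0 ≤ c)
    (h : mom μ θ X F ≤ EE (c * θ * N)) :
    μ {ω | N < 10 * (X ω ∩ F).card} ≤
      ENNReal.ofReal (10 * c * Real.exp (c * (θ * N) - θ * N / 20)) := by
  have hN' : (0 : ℝ) < N := by exact_mod_cast hN
  set z : ℝ := θ * N / 10 with hz
  have hz0 : 0 < z := by positivity
  set P := μ {ω | N < 10 * (X ω ∩ F).card} with hP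
  have hms : MeasurableSet {ω | N < 10 * (X ω ∩ F).card} := hX {x | N < 10 * (x ∩ F).card}
  have hPt : P ≠ ⊤ := measure_ne_top _ _
  have h1 : 1 + ENNReal.ofReal (Real.exp z - 1) * P ≤ EE (c * θ * N) := by
    refine le_trans ?_ h
    have h2 : (1 : ℝ≥0∞) + ENNReal.ofReal (Real.exp z - 1) * P
        = ∫⁻ ω, (1 + {ω | N < 10 * (X ω ∩ F).card}.indicator
            (fun _ => ENNReal.ofReal (Real.exp z - 1)) ω) ∂μ := by
      rw [lintegral_add_left measurable_const, lintegral_indicator hms]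
      simp [hP]
    rw [h2]
    unfold mom
    apply lintegral_mono
    intro ω
    by_cases hω : N < 10 * (X ω ∩ F).card
    · have e : {ω | N < 10 * (X ω ∩ F).card}.indicator
            (fun _ => ENNReal.ofReal (Real.exp z - 1)) ω = ENNReal.ofReal (Real.exp z - 1) := by
        simp [Set.indicator, hω]
      simp only [e]
      rw [← ENNReal.ofReal_one, ← ENNReal.ofReal_add zero_le_one
        (by have := Real.add_one_le_exp z; linarith)]
      apply ENNReal.ofReal_le_ofReal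
      have : z ≤ θ * ((X ω ∩ F).card : ℝ) := by
        have : (N : ℝ) ≤ 10 * ((X ω ∩ F).card : ℝ) := by exact_mod_cast hω.le
        rw [hz]; nlinarith
      have := Real.exp_le_exp.2 this
      linarith
    · have e : {ω | N < 10 * (X ω ∩ F).card}.indicator
            (fun _ => ENNReal.ofReal (Real.exp z - 1)) ω = 0 := by
        simp [Set.indicator, hω]
      simp only [e, add_zero]
      exact one_le_EE (by positivity)
  have h3 : 1 + (Real.exp z - 1) * P.toReal ≤ Real.exp (c * θ * N) := by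
    have h4 : ENNReal.ofReal (1 + (Real.exp z - 1) * P.toReal) ≤ EE (c * θ * N) := by
      refine le_trans (le_of_eq ?_) h1
      have hz1 : 0 ≤ Real.exp z - 1 := by have := Real.add_one_le_exp z; linarith
      rw [ENNReal.ofReal_add zero_le_one (by positivity), ENNReal.ofReal_mul hz1,
        ENNReal.ofReal_toReal hPt, ENNReal.ofReal_one]
    exact (ENNReal.ofReal_le_ofReal_iff (Real.exp_nonneg _)).1 h4
  have h5 := exp_ratio (y := c * θ * N) (by positivity) hz0 h3
  have h6 : c * θ * N / z * Real.exp (c * θ * N - z / 2)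
      = 10 * c * Real.exp (c * (θ * N) - θ * N / 20) := by
    have : c * θ * N / z = 10 * c := by rw [hz]; field_simp
    rw [this]
    congr 2
    rw [hz]; ring
  rw [← ENNReal.ofReal_toReal hPt]
  apply ENNReal.ofReal_le_ofReal
  rw [← h6]; exact h5

end T4
end Pool.Agent.MP_c3c849_pr
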