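import Pool.Agent.MP_c3c849_pr.Moment

/-!
# MP_c3c849_pr, module T4b: one step of the renormalisation, abstractly
-/

open MeasureTheory ProbabilityTheory
open scoped ENNReal

namespace Pool.Agent.MP_c3c849_pr
namespace T4

variable {E : Type*} {p : unitInterval}

/-- Two independent random sets: the exponential moment of the intersection. -/
lemma mom_inter_indep {X Y : (E → Bool) → Finset ℤ} {S T : Set E} (hS : S.Finite) (hT : T.Finite)
    (hST : Disjoint S T) (hX : DependsOn X S) (hY : DependsOn Y T) {θ c : ℝ} (hθ : 0 ≤ θ)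
    (hc : 0 ≤ c) (hc1 : c ≤ 1) {F : Finset ℤ}
    (h1 : ∀ F' ⊆ F, mom (bern E p) θ X F' ≤ EE (c * θ * F'.card))
    (h2 : mom (bern E p) θ Y F ≤ EE (c * θ * F.card)) :
    mom (bern E p) θ (fun ω => X ω ∩ Y ω) F ≤ EE (c ^ 2 * θ * F.card) := by
  classical
  have hXm : ∀ s, MeasurableSet (X ⁻¹' s) := fun s => by
    letI : MeasurableSpace (Finset ℤ) := ⊤
    exact measurable_of_dependsOn hS hX trivial
  have hYm : ∀ s, MeasurableSet (Y ⁻¹' s) := fun s => by
    letI : MeasurableSpace (Finset ℤ) := ⊤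
    exact measurable_of_dependsOn hT hY trivial
  -- decompose according to the value of `Y ∩ F`
  have e1 : ∀ ω, EE (θ * (((X ω ∩ Y ω) ∩ F).card : ℝ))
      = ∑ F' ∈ F.powerset, (if Y ω ∩ F = F' then 1 else 0) * EE (θ * ((X ω ∩ F').card : ℝ)) := by
    intro ω
    rw [Finset.sum_eq_single (Y ω ∩ F)]
    · simp only [if_true, one_mul, Finset.inter_assoc]
    · intro F' _ hne
      rw [if_neg (fun h => hne h.symm), zero_mul]
    · intro h
      exact absurd (Finset.mem_powerset.2 Finset.inter_subset_right) h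
  have e2 : ∀ F' ∈ F.powerset, ∫⁻ ω, (if Y ω ∩ F = F' then 1 else 0) *
      EE (θ * ((X ω ∩ F').card : ℝ)) ∂(bern E p)
      ≤ ∫⁻ ω, (if Y ω ∩ F = F' then 1 else 0) * EE (c * θ * ((Y ω ∩ F).card : ℝ)) ∂(bern E p) := by
    intro F' hF'
    have hm1 : Measurable fun ω : E → Bool => (if Y ω ∩ F = F' then (1 : ℝ≥0∞) else 0) := by
      intro s _
      exact hYm {y | (if y ∩ F = F' then (1 : ℝ≥0∞) else 0) ∈ s}
    rw [lintegral_mul_indep p hST.symm hm1 (measurable_EE_card hXm θ F')
      (fun x y h => by simp only [hY h]) (fun x y h => by simp only [hX h])]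
    have e3 : ∫⁻ ω, (if Y ω ∩ F = F' then 1 else 0) * EE (c * θ * ((Y ω ∩ F).card : ℝ))
        ∂(bern E p)
        = (∫⁻ ω, (if Y ω ∩ F = F' then 1 else 0) ∂(bern E p)) * EE (c * θ * (F'.card : ℝ)) := by
      rw [← lintegral_mul_const _ hm1]
      congr 1
      ext ω
      split_ifs with h
      · rw [h]
      · simp
    rw [e3]
    exact mul_le_mul' le_rfl (h1 F' (Finset.mem_powerset.1 hF'))
  unfold mom
  simp_rw [e1]
  rw [lintegral_finset_sum' _ (fun F' _ => by
    have hm1 : Measurable fun ω : E → Bool => (if Y ω ∩ F = F' then (1 : ℝ≥0∞) else 0) := by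
      intro s _
      exact hYm {y | (if y ∩ F = F' then (1 : ℝ≥0∞) else 0) ∈ s}
    exact (hm1.mul (measurable_EE_card hXm θ F')).aemeasurable)]
  refine (Finset.sum_le_sum e2).trans ?_
  rw [← lintegral_finset_sum' _ (fun F' _ => by
    have hm1 : Measurable fun ω : E → Bool => (if Y ω ∩ F = F' then (1 : ℝ≥0∞) else 0) := by
      intro s _
      exact hYm {y | (if y ∩ F = F' then (1 : ℝ≥0∞) else 0) ∈ s}
    exact (hm1.mul (measurable_EE_card hYm (c * θ) F)).aemeasurable)]
  have e4 : ∀ ω, ∑ F' ∈ F.powerset, (if Y ω ∩ F = F' then 1 else 0) *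
      EE (c * θ * ((Y ω ∩ F).card : ℝ)) = EE (c * θ * ((Y ω ∩ F).card : ℝ)) := by
    intro ω
    rw [← Finset.sum_mul, Finset.sum_ite_eq, if_pos, one_mul]
    exact Finset.mem_powerset.2 Finset.inter_subset_right
  simp_rw [e4]
  have h3 : mom (bern E p) (c * θ) Y F ≤ EE (c * F.card * (c * θ)) := by
    refine mom_jensen hYm (θ := θ) (by positivity) ?_ ?_
    · nlinarith
    · refine h2.trans (EE_mono ?_)
      exact le_of_eq (by ring)
  refine h3.trans (EE_mono (le_of_eq (by ring)))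

/-- Product of many independent pairs. -/
lemma mom_inter_many {ι : Type*} (s : Finset ι) {k : ℕ} (hk : 0 < k) (hs : s.card = k)
    {Z : ι → (E → Bool) → Finset ℤ} {I : (E → Bool) → Finset ℤ}
    {S : ι → Set E} (hfin : ∀ g ∈ s, (S g).Finite) (hdisj : (s : Set ι).PairwiseDisjoint S)
    (hZ : ∀ g ∈ s, DependsOn (Z g) (S g)) (hI : ∀ ω, ∀ g ∈ s, I ω ⊆ Z g ω)
    {θ c : ℝ} (hθ : 0 ≤ θ) {F : Finset ℤ}
    (h1 : ∀ g ∈ s, mom (bern E p) θ (Z g) F ≤ EE (c * θ * F.card)) :
    mom (bern E p) (k * θ) I F ≤ EE (c * (k * θ) * F.card) := by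
  classical
  have hk' : (0 : ℝ) < k := by exact_mod_cast hk
  have hZm : ∀ g ∈ s, ∀ t, MeasurableSet (Z g ⁻¹' t) := fun g hg t => by
    letI : MeasurableSpace (Finset ℤ) := ⊤
    exact measurable_of_dependsOn (hfin g hg) (hZ g hg) trivial
  have e1 : mom (bern E p) (k * θ) I F
      ≤ ∫⁻ ω, ∏ g ∈ s, EE (θ * ((Z g ω ∩ F).card : ℝ)) ∂(bern E p) := by
    unfold mom
    apply lintegral_mono
    intro ω
    show EE (k * θ * ((I ω ∩ F).card : ℝ)) ≤ ∏ g ∈ s, EE (θ * ((Z g ω ∩ F).card : ℝ))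
    rw [← EE_sum]
    apply EE_mono
    calc (k : ℝ) * θ * ((I ω ∩ F).card : ℝ) = ∑ _g ∈ s, θ * ((I ω ∩ F).card : ℝ) := by
          rw [Finset.sum_const, hs, nsmul_eq_mul]; ring
      _ ≤ ∑ g ∈ s, θ * ((Z g ω ∩ F).card : ℝ) := by
          apply Finset.sum_le_sum
          intro g hg
          apply mul_le_mul_of_nonneg_left _ hθ
          exact_mod_cast Finset.card_le_card (Finset.inter_subset_inter_right (hI ω g hg))
  refine e1.trans ?_
  rw [lintegral_prod_indep p s S hdisj (fun g ω => EE (θ * ((Z g ω ∩ F).card : ℝ)))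
    (fun g hg => measurable_EE_card (hZm g hg) θ F)
    (fun g hg x y h => by simp only [hZ g hg h])]
  calc ∏ g ∈ s, ∫⁻ ω, EE (θ * ((Z g ω ∩ F).card : ℝ)) ∂(bern E p)
      ≤ ∏ _g ∈ s, EE (c * θ * F.card) := Finset.prod_le_prod' h1
    _ = EE (c * (k * θ) * F.card) := by
        rw [← EE_sum, Finset.sum_const, hs, nsmul_eq_mul]
        congr 1; ring

/-- Finite-range dependence along `ℤ`: exponential moment of the set of bad sites. -/
lemma mom_own {O : (E → Bool) → ℤ → Prop} {S : ℤ → Set E} (hfin : ∀ i, (S i).Finite)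
    (hO : ∀ i, DependsOn (fun ω => O ω i) (S i)) {m : ℕ} (hm : 0 < m)
    (hdisj : ∀ i j : ℤ, i ≠ j → (m : ℤ) ∣ i - j → Disjoint (S i) (S j))
    {ε : ℝ} (hε : 0 ≤ ε) (hprob : ∀ i, bern E p {ω | O ω i} ≤ ENNReal.ofReal ε)
    (J : Finset ℤ) (X : (E → Bool) → Finset ℤ) (hX : ∀ ω i, i ∈ X ω ↔ i ∈ J ∧ O ω i)
    (F : Finset ℤ) :
    mom (bern E p) (1 / m) X F ≤ EE (2 * ε * (1 / m) * F.card) := by
  classical
  have hm' : (0 : ℝ) < m := by exact_mod_cast hm
  -- single site
  set g : ℤ → (E → Bool) → ℝ≥0∞ := fun i ω => if i ∈ X ω then EE 1 else 1 with hg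
  have hgdep : ∀ i, DependsOn (g i) (S i) := by
    intro i x y h
    have : (i ∈ X x) = (i ∈ X y) := by
      rw [hX, hX]
      have := hO i h
      simp only at this
      rw [this]
    simp only [hg, this]
  have hgm : ∀ i, Measurable (g i) := fun i => measurable_of_dependsOn (hfin i) (hgdep i)
  have hOm : ∀ i, MeasurableSet {ω | O ω i} := fun i => by
    have : Measurable fun ω : E → Bool => O ω i := measurable_of_dependsOn (hfin i) (hO i)
    exact measurableSet_setOf.2 this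
  have hg1 : ∀ i, ∫⁻ ω, g i ω ∂(bern E p) ≤ EE (2 * ε) := by
    intro i
    have h1 : ∀ ω, g i ω ≤ 1 + {ω | O ω i}.indicator (fun _ => (2 : ℝ≥0∞)) ω := by
      intro ω
      by_cases h : O ω i
      · simp only [Set.indicator, Set.mem_setOf_eq, h, if_true, hg]
        have h2 : EE 1 ≤ 1 + 2 := by
          have h3 : Real.exp 1 ≤ 3 := (Real.exp_one_lt_d9.trans (by norm_num)).le
          calc EE 1 ≤ ENNReal.ofReal 3 := ENNReal.ofReal_le_ofReal h3
            _ = 1 + 2 := by
              rw [show (1 : ℝ≥0∞) + 2 = 3 by norm_num]; simp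
        split_ifs
        · exact h2
        · exact le_self_add
      · have h3 : ¬ i ∈ X ω := fun h4 => h ((hX ω i).1 h4).2
        simp only [hg, if_neg h3]
        exact le_self_add
    calc ∫⁻ ω, g i ω ∂(bern E p)
        ≤ ∫⁻ ω, (1 + {ω | O ω i}.indicator (fun _ => (2 : ℝ≥0∞)) ω) ∂(bern E p) :=
          lintegral_mono h1
      _ = 1 + 2 * bern E p {ω | O ω i} := by
          rw [lintegral_add_left measurable_const, lintegral_indicator (hOm i)]
          simp
      _ ≤ 1 + 2 * ENNReal.ofReal ε := by gcongr; exact hprob i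
      _ ≤ EE (2 * ε) := by
          rw [show (2 : ℝ≥0∞) = ENNReal.ofReal 2 by simp, ← ENNReal.ofReal_mul (by norm_num),
            ← ENNReal.ofReal_one, ← ENNReal.ofReal_add zero_le_one (by positivity)]
          apply ENNReal.ofReal_le_ofReal
          have := Real.add_one_le_exp (2 * ε)
          linarith
  -- residue classes
  set cl : ℕ → Finset ℤ := fun r => F.filter (fun i => (i % m).toNat = r) with hcl
  have hmem : ∀ i : ℤ, (i % m).toNat < m := by
    intro i
    have h0 : 0 ≤ i % m := Int.emod_nonneg _ (by exact_mod_cast hm.ne')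
    have h1 : i % m < m := Int.emod_lt_of_pos _ (by exact_mod_cast hm)
    omega
  have key := ENNReal.lintegral_prod_norm_pow_le (μ := bern E p) (Finset.range m)
    (f := fun r ω => ∏ i ∈ cl r, g i ω)
    (fun r _ => (Finset.measurable_fun_prod _ (fun i _ => hgm i)).aemeasurable)
    (p := fun _ => (1 / m : ℝ)) (by simp; field_simp) (fun _ _ => by positivity)
  have e1 : ∀ ω, EE (1 / m * ((X ω ∩ F).card : ℝ))
      = ∏ r ∈ Finset.range m, (∏ i ∈ cl r, g i ω) ^ (1 / m : ℝ) := by
    intro ω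
    rw [ENNReal.prod_rpow_of_nonneg (by positivity : (0:ℝ) ≤ 1 / m)]
    have h1 : ∏ r ∈ Finset.range m, ∏ i ∈ cl r, g i ω = ∏ i ∈ F, g i ω := by
      rw [hcl]
      exact Finset.prod_fiberwise_of_maps_to (fun i _ => Finset.mem_range.2 (hmem i)) _
    rw [h1]
    have h2 : ∏ i ∈ F, g i ω = EE ((X ω ∩ F).card : ℝ) := by
      have h3 : ∀ i ∈ F, g i ω = EE (if i ∈ X ω then 1 else 0) := by
        intro i _
        simp only [hg]
        split_ifs
        · rfl
        · exact EE_zero.symm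
      rw [Finset.prod_congr rfl h3, ← EE_sum]
      congr 1
      rw [Finset.sum_ite_mem]
      simp [Finset.inter_comm]
    rw [h2, EE_rpow]
    congr 1; ring
  unfold mom
  simp_rw [e1]
  refine key.trans ?_
  have e2 : ∀ r ∈ Finset.range m, (∫⁻ ω, ∏ i ∈ cl r, g i ω ∂(bern E p)) ^ (1 / m : ℝ)
      ≤ EE (2 * ε * (1 / m) * (cl r).card) := by
    intro r _
    have hd : ((cl r : Finset ℤ) : Set ℤ).PairwiseDisjoint S := by
      intro i hi j hj hij
      apply hdisj i j hij
      have h1 : (i % m).toNat = r := (Finset.mem_filter.1 hi).2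
      have h2 : (j % m).toNat = r := (Finset.mem_filter.1 hj).2
      have h0 : 0 ≤ i % m := Int.emod_nonneg _ (by exact_mod_cast hm.ne')
      have h0' : 0 ≤ j % m := Int.emod_nonneg _ (by exact_mod_cast hm.ne')
      have h3 : i % m = j % m := by omega
      exact (Int.emod_eq_emod_iff_emod_sub_eq_zero.1 h3) |> Int.dvd_of_emod_eq_zero
    rw [lintegral_prod_indep p (cl r) S hd g (fun i _ => hgm i) (fun i _ => hgdep i)]
    calc (∏ i ∈ cl r, ∫⁻ ω, g i ω ∂(bern E p)) ^ (1 / m : ℝ)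
        ≤ (∏ _i ∈ cl r, EE (2 * ε)) ^ (1 / m : ℝ) := by
          apply ENNReal.rpow_le_rpow _ (by positivity)
          exact Finset.prod_le_prod' (fun i _ => hg1 i)
      _ = EE (2 * ε * (1 / m) * (cl r).card) := by
          rw [← EE_sum, EE_rpow, Finset.sum_const, nsmul_eq_mul]
          congr 1; ring
  refine (Finset.prod_le_prod' e2).trans ?_
  rw [← EE_sum, ← Finset.mul_sum]
  apply EE_mono
  apply le_of_eq
  congr 1
  have : ∑ r ∈ Finset.range m, (cl r).card = F.card := by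
    rw [hcl]
    exact (Finset.card_eq_sum_card_fiberwise (fun i _ => Finset.mem_coe.2 (Finset.mem_range.2 (hmem i)))).symm
  exact_mod_cast this

end T4
end Pool.Agent.MP_c3c849_pr
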