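import Pool.Agent.MP_c3c849_pr.Moment2

/-!
# MP_c3c849_pr, module T4c: the abstract recursion step
-/

open MeasureTheory ProbabilityTheory
open scoped ENNReal

namespace Pool.Agent.MP_c3c849_pr
namespace T4

lemma exp_sub_one_le {y : ℝ} : Real.exp y - 1 ≤ y * Real.exp y := by
  have := Real.add_one_le_exp (-y)
  have h2 : Real.exp (-y) * Real.exp y = 1 := by rw [← Real.exp_add]; simp
  nlinarith [Real.exp_pos y]

section
variable {Ω : Type*} [MeasurableSpace Ω] {μ : Measure Ω} [IsProbabilityMeasure μ]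

/-- The bad set of one descendant. -/
noncomputable def Uset (N : ℕ) (B0 Bm B1 : Ω → Finset ℤ) (J : Finset ℤ) (ω : Ω) : Finset ℤ :=
  if 10 * (B0 ω).card ≤ N ∧ 10 * (Bm ω).card ≤ N ∧ 10 * (B1 ω).card ≤ N then B0 ω ∪ B1 ω else J

lemma dense_sub {B : Ω → Finset ℤ} (hB : ∀ s, MeasurableSet (B ⁻¹' s)) {J : Finset ℤ} {N : ℕ}
    (hN : 0 < N) (hJ : J.card = N) (hsub : ∀ ω, B ω ⊆ J) {lam δ : ℝ} (hlam : 0 < lam)
    (hδ : 0 ≤ δ) (h : ∀ F ⊆ J, mom μ lam B F ≤ EE (δ * lam * F.card)) :
    μ {ω | N < 10 * (B ω).card} ≤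
      ENNReal.ofReal (10 * δ * Real.exp (δ * (lam * N) - lam * N / 20)) := by
  have h1 := dense_prob (μ := μ) hB hN hJ hlam hδ (by
    have := h J subset_rfl
    rwa [hJ] at this)
  have h2 : ∀ ω, B ω ∩ J = B ω := fun ω => Finset.inter_eq_left.2 (hsub ω)
  simpa only [h2] using h1

lemma mom_U {N : ℕ} (hN : 0 < N) {B0 Bm B1 : Ω → Finset ℤ}
    (h0m : ∀ s, MeasurableSet (B0 ⁻¹' s)) (hmm : ∀ s, MeasurableSet (Bm ⁻¹' s))
    (h1m : ∀ s, MeasurableSet (B1 ⁻¹' s)) {J1 Jm J2 : Finset ℤ} (hJ : Disjoint J1 J2)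
    (hJ1 : J1.card = N) (hJm : Jm.card = N) (hJ2 : J2.card = N)
    (s0 : ∀ ω, B0 ω ⊆ J1) (sm : ∀ ω, Bm ω ⊆ Jm) (s1 : ∀ ω, B1 ω ⊆ J2)
    {lam δ : ℝ} (hlam : 0 < lam) (hδ : 0 ≤ δ) (hδ1 : δ ≤ 1 / 100)
    (h0 : ∀ F ⊆ J1, mom μ lam B0 F ≤ EE (δ * lam * F.card))
    (hm : ∀ F ⊆ Jm, mom μ lam Bm F ≤ EE (δ * lam * F.card))
    (h1 : ∀ F ⊆ J2, mom μ lam B1 F ≤ EE (δ * lam * F.card))
    {θ : ℝ} (hθ : 0 ≤ θ) (hθ1 : θ ≤ lam / 50) {F : Finset ℤ} (hF : F ⊆ J1 ∪ J2) :
    mom μ θ (Uset N B0 Bm B1 (J1 ∪ J2)) F ≤ EE (31 * δ * θ * F.card) := by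
  classical
  have hN' : (0 : ℝ) < N := by exact_mod_cast hN
  set x : ℝ := lam * N with hx
  have hx0 : 0 < x := by positivity
  set P : ℝ≥0∞ := ENNReal.ofReal (10 * δ * Real.exp (δ * x - x / 20)) with hP
  set ng : Set Ω := {ω | N < 10 * (B0 ω).card} ∪ {ω | N < 10 * (Bm ω).card} ∪
    {ω | N < 10 * (B1 ω).card} with hng
  have hngm : MeasurableSet ng :=
    ((h0m {s | N < 10 * s.card}).union (hmm {s | N < 10 * s.card})).union
      (h1m {s | N < 10 * s.card})
  have hngP : μ ng ≤ ENNReal.ofReal (30 * δ * Real.exp (δ * x - x / 20)) := by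
    calc μ ng ≤ μ {ω | N < 10 * (B0 ω).card} + μ {ω | N < 10 * (Bm ω).card} +
          μ {ω | N < 10 * (B1 ω).card} :=
          (measure_union_le _ _).trans (add_le_add (measure_union_le _ _) le_rfl)
      _ ≤ P + P + P := by
          gcongr
          · exact dense_sub h0m hN hJ1 s0 hlam hδ h0
          · exact dense_sub hmm hN hJm sm hlam hδ hm
          · exact dense_sub h1m hN hJ2 s1 hlam hδ h1
      _ = ENNReal.ofReal (30 * δ * Real.exp (δ * x - x / 20)) := by
          rw [hP, ← ENNReal.ofReal_add (by positivity) (by positivity),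
            ← ENNReal.ofReal_add (by positivity) (by positivity)]
          congr 1; ring
  -- pointwise bound
  have hFc : ((F ∩ J1).card : ℝ) + ((F ∩ J2).card : ℝ) = F.card := by
    have h2 : (F ∩ J1) ∪ (F ∩ J2) = F := by
      rw [← Finset.inter_union_distrib_left]; exact Finset.inter_eq_left.2 hF
    have h3 : Disjoint (F ∩ J1) (F ∩ J2) :=
      Finset.disjoint_of_subset_left Finset.inter_subset_right
        (Finset.disjoint_of_subset_right Finset.inter_subset_right hJ)
    have h4 := Finset.card_union_of_disjoint h3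
    rw [h2] at h4
    exact_mod_cast h4.symm
  have hpt : ∀ ω, EE (θ * ((Uset N B0 Bm B1 (J1 ∪ J2) ω ∩ F).card : ℝ))
      ≤ EE (θ * ((B0 ω ∩ (F ∩ J1)).card : ℝ)) * EE (θ * ((B1 ω ∩ (F ∩ J2)).card : ℝ))
        + ng.indicator (fun _ => ENNReal.ofReal (Real.exp (θ * F.card) - 1)) ω := by
    intro ω
    by_cases hω : ω ∈ ng
    · rw [Set.indicator_of_mem hω]
      have h2 : EE (θ * ((Uset N B0 Bm B1 (J1 ∪ J2) ω ∩ F).card : ℝ)) ≤ EE (θ * F.card) := by
        apply EE_mono
        apply mul_le_mul_of_nonneg_left _ hθ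
        exact_mod_cast Finset.card_le_card Finset.inter_subset_right
      refine h2.trans ?_
      have h3 : EE (θ * F.card) = 1 + ENNReal.ofReal (Real.exp (θ * F.card) - 1) := by
        have h4 : 0 ≤ Real.exp (θ * F.card) - 1 := by
          have := Real.add_one_le_exp (θ * F.card)
          have : 0 ≤ θ * F.card := by positivity
          linarith
        rw [EE, ← ENNReal.ofReal_one, ← ENNReal.ofReal_add zero_le_one h4]
        congr 1; ring
      rw [h3]
      gcongr
      calc (1 : ℝ≥0∞) = 1 * 1 := (one_mul _).symm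
        _ ≤ _ := mul_le_mul' (one_le_EE (by positivity)) (one_le_EE (by positivity))
    · rw [Set.indicator_of_notMem hω, add_zero, ← EE_add]
      have hg : 10 * (B0 ω).card ≤ N ∧ 10 * (Bm ω).card ≤ N ∧ 10 * (B1 ω).card ≤ N := by
        simp only [hng, Set.mem_union, Set.mem_setOf_eq, not_or, not_lt] at hω
        exact ⟨hω.1.1, hω.1.2, hω.2⟩
      apply EE_mono
      rw [Uset, if_pos hg, ← mul_add]
      apply mul_le_mul_of_nonneg_left _ hθ
      have h2 : (B0 ω ∪ B1 ω) ∩ F ⊆ (B0 ω ∩ (F ∩ J1)) ∪ (B1 ω ∩ (F ∩ J2)) := by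
        intro i hi
        rw [Finset.mem_inter, Finset.mem_union] at hi
        rw [Finset.mem_union, Finset.mem_inter, Finset.mem_inter, Finset.mem_inter,
          Finset.mem_inter]
        rcases hi with ⟨h | h, h'⟩
        · exact Or.inl ⟨h, h', s0 ω h⟩
        · exact Or.inr ⟨h, h', s1 ω h⟩
      have h3 := (Finset.card_le_card h2).trans (Finset.card_union_le _ _)
      exact_mod_cast h3
  have hhold : ∫⁻ ω, EE (θ * ((B0 ω ∩ (F ∩ J1)).card : ℝ)) *
      EE (θ * ((B1 ω ∩ (F ∩ J2)).card : ℝ)) ∂μ ≤ EE (δ * θ * F.card) := by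
    have h2 := holder_two (μ := μ) h0m h1m (θ := θ) (p := 2) (q := 2)
      (A := δ * θ * (F ∩ J1).card) (B := δ * θ * (F ∩ J2).card)
      (F := F ∩ J1) (G := F ∩ J2) (by norm_num) (by norm_num) (by norm_num) ?_ ?_
    · refine h2.trans (EE_mono ?_)
      rw [← hFc]; apply le_of_eq; ring
    · have h3 := mom_jensen (μ := μ) h0m (θ := lam) (θ' := 2 * θ) (c := δ * (F ∩ J1).card)
        (F := F ∩ J1) (by positivity) (by linarith)
        ((h0 _ Finset.inter_subset_right).trans (EE_mono (le_of_eq (by ring))))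
      exact h3.trans (EE_mono (le_of_eq (by ring)))
    · have h3 := mom_jensen (μ := μ) h1m (θ := lam) (θ' := 2 * θ) (c := δ * (F ∩ J2).card)
        (F := F ∩ J2) (by positivity) (by linarith)
        ((h1 _ Finset.inter_subset_right).trans (EE_mono (le_of_eq (by ring))))
      exact h3.trans (EE_mono (le_of_eq (by ring)))
  have htot : mom μ θ (Uset N B0 Bm B1 (J1 ∪ J2)) F ≤ EE (δ * θ * F.card) +
      ENNReal.ofReal (Real.exp (θ * F.card) - 1) *
        ENNReal.ofReal (30 * δ * Real.exp (δ * x - x / 20)) := by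
    unfold mom
    refine (lintegral_mono hpt).trans ?_
    rw [lintegral_add_right _ (measurable_const.indicator hngm), lintegral_indicator hngm,
      lintegral_const, Measure.restrict_apply_univ]
    gcongr
  refine htot.trans ?_
  -- real inequality
  set f : ℝ := (F.card : ℝ) with hf
  have hf0 : 0 ≤ f := by positivity
  have hf2 : f ≤ 2 * N := by
    have h2 := Finset.card_le_card hF
    rw [Finset.card_union_of_disjoint hJ, hJ1, hJ2] at h2
    have : (F.card : ℝ) ≤ (N + N : ℕ) := by exact_mod_cast h2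
    push_cast at this; linarith
  have hy : θ * f ≤ x / 25 := by
    calc θ * f ≤ lam / 50 * (2 * N) := mul_le_mul hθ1 hf2 hf0 (by positivity)
      _ = x / 25 := by rw [hx]; ring
  have hy0 : 0 ≤ θ * f := by positivity
  have he : 0 ≤ Real.exp (θ * f) - 1 := by
    have := Real.add_one_le_exp (θ * f); linarith
  rw [← ENNReal.ofReal_mul he, EE, EE, ← ENNReal.ofReal_add (Real.exp_nonneg _) (by positivity)]
  apply ENNReal.ofReal_le_ofReal
  have h4 : (Real.exp (θ * f) - 1) * (30 * δ * Real.exp (δ * x - x / 20)) ≤ 30 * δ * (θ * f) := by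
    have h5 : Real.exp (θ * f) - 1 ≤ θ * f * Real.exp (x / 25) :=
      exp_sub_one_le.trans (mul_le_mul_of_nonneg_left (Real.exp_le_exp.2 hy) hy0)
    have h6 : Real.exp (x / 25) * Real.exp (δ * x - x / 20) ≤ 1 := by
      rw [← Real.exp_add]
      apply Real.exp_le_one_iff.2
      nlinarith
    calc (Real.exp (θ * f) - 1) * (30 * δ * Real.exp (δ * x - x / 20))
        ≤ (θ * f * Real.exp (x / 25)) * (30 * δ * Real.exp (δ * x - x / 20)) :=
          mul_le_mul_of_nonneg_right h5 (by positivity)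
      _ = 30 * δ * (θ * f) * (Real.exp (x / 25) * Real.exp (δ * x - x / 20)) := by ring
      _ ≤ 30 * δ * (θ * f) * 1 := mul_le_mul_of_nonneg_left h6 (by positivity)
      _ = _ := mul_one _
  set a : ℝ := δ * θ * f with ha
  have ha0 : 0 ≤ a := by positivity
  have h7 : Real.exp (31 * δ * θ * f) = Real.exp a * Real.exp (30 * a) := by
    rw [← Real.exp_add]; congr 1; rw [ha]; ring
  rw [h7]
  have h8 : 1 + 30 * a ≤ Real.exp (30 * a) := by
    have := Real.add_one_le_exp (30 * a); linarith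
  have h9 : 1 ≤ Real.exp a := Real.one_le_exp ha0
  calc Real.exp a + (Real.exp (θ * f) - 1) * (30 * δ * Real.exp (δ * x - x / 20))
      ≤ Real.exp a + 30 * a := by
        have : 30 * δ * (θ * f) = 30 * a := by rw [ha]; ring
        linarith
    _ ≤ Real.exp a * (1 + 30 * a) := by nlinarith
    _ ≤ Real.exp a * Real.exp (30 * a) := mul_le_mul_of_nonneg_left h8 (by positivity)

end

variable {E : Type*} {p : unitInterval}

/-- The points bad for all 128 descendants. -/
noncomputable def Iset (N : ℕ) (B0 Bm B1 : ℕ → (E → Bool) → Finset ℤ) (J : Finset ℤ)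
    (ω : E → Bool) : Finset ℤ :=
  open Classical in J.filter (fun i => ∀ j < 128, i ∈ Uset N (B0 j) (Bm j) (B1 j) J ω)

lemma mem_Iset {N : ℕ} {B0 Bm B1 : ℕ → (E → Bool) → Finset ℤ} {J : Finset ℤ} {ω : E → Bool}
    {i : ℤ} : i ∈ Iset N B0 Bm B1 J ω ↔
      i ∈ J ∧ ∀ j < 128, i ∈ Uset N (B0 j) (Bm j) (B1 j) J ω := by
  simp only [Iset, Finset.mem_filter]

/-- The abstract recursion step. -/
lemma mom_step {N : ℕ} (hN : 0 < N) {B0 Bm B1 : ℕ → (E → Bool) → Finset ℤ}
    {S : ℕ → Set E} (hfin : ∀ j < 128, (S j).Finite)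
    (hdisj : ∀ i < 128, ∀ j < 128, i ≠ j → Disjoint (S i) (S j))
    (d0 : ∀ j < 128, DependsOn (B0 j) (S j)) (dm : ∀ j < 128, DependsOn (Bm j) (S j))
    (d1 : ∀ j < 128, DependsOn (B1 j) (S j))
    {J1 Jm J2 : Finset ℤ} (hJ : Disjoint J1 J2)
    (hJ1 : J1.card = N) (hJm : Jm.card = N) (hJ2 : J2.card = N)
    (s0 : ∀ j < 128, ∀ ω, B0 j ω ⊆ J1) (sm : ∀ j < 128, ∀ ω, Bm j ω ⊆ Jm)
    (s1 : ∀ j < 128, ∀ ω, B1 j ω ⊆ J2)
    {lam δ δ1 : ℝ} (hlam : 0 < lam) (hδ : 0 ≤ δ) (hδ' : δ ≤ 1 / 100) (hδ1 : 0 ≤ δ1)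
    (hδ1' : δ1 ≤ 1 / 100) (hcond : 21 * δ1 + (31 * δ) ^ 2 ≤ δ)
    (h0 : ∀ j < 128, ∀ F ⊆ J1, mom (bern E p) lam (B0 j) F ≤ EE (δ * lam * F.card))
    (hm : ∀ j < 128, ∀ F ⊆ Jm, mom (bern E p) lam (Bm j) F ≤ EE (δ * lam * F.card))
    (h1 : ∀ j < 128, ∀ F ⊆ J2, mom (bern E p) lam (B1 j) F ≤ EE (δ * lam * F.card))
    {O : (E → Bool) → Finset ℤ} {SO : Set E} (hSO : SO.Finite) (dO : DependsOn O SO)
    (hO : ∀ F ⊆ J1 ∪ J2, mom (bern E p) (100 * lam) O F ≤ EE (δ1 * (100 * lam) * F.card))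
    {Bad : (E → Bool) → Finset ℤ}
    (hBad : ∀ ω, Bad ω = if N < 10 * (O ω ∩ J1).card ∨ N < 10 * (O ω ∩ J2).card then J1 ∪ J2
      else (O ω ∩ (J1 ∪ J2)) ∪ Iset N B0 Bm B1 (J1 ∪ J2) ω)
    {F : Finset ℤ} (hF : F ⊆ J1 ∪ J2) :
    mom (bern E p) lam Bad F ≤ EE (δ * lam * F.card) := by
  classical
  have hN' : (0 : ℝ) < N := by exact_mod_cast hN
  have meas : ∀ {X : (E → Bool) → Finset ℤ} {T : Set E}, T.Finite → DependsOn X T →
      ∀ s, MeasurableSet (X ⁻¹' s) := by
    intro X T hT hX s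
    letI : MeasurableSpace (Finset ℤ) := ⊤
    exact measurable_of_dependsOn hT hX trivial
  set J := J1 ∪ J2 with hJdef
  set U : ℕ → (E → Bool) → Finset ℤ := fun j => Uset N (B0 j) (Bm j) (B1 j) J with hU
  have dU : ∀ j < 128, DependsOn (U j) (S j) := by
    intro j hj x y h
    simp only [hU, Uset, d0 j hj h, dm j hj h, d1 j hj h]
  set θ : ℝ := 100 / 99 * lam / 64 with hθ
  have hθ0 : 0 ≤ θ := by positivity
  have hθ1 : θ ≤ lam / 50 := by rw [hθ]; linarith
  have hU1 : ∀ j < 128, ∀ F' ⊆ J, mom (bern E p) θ (U j) F' ≤ EE (31 * δ * θ * F'.card) := by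
    intro j hj F' hF'
    exact mom_U hN (meas (hfin j hj) (d0 j hj)) (meas (hfin j hj) (dm j hj))
      (meas (hfin j hj) (d1 j hj)) hJ hJ1 hJm hJ2 (s0 j hj) (sm j hj) (s1 j hj) hlam hδ hδ'
      (h0 j hj) (hm j hj) (h1 j hj) hθ0 hθ1 hF'
  set I : (E → Bool) → Finset ℤ := Iset N B0 Bm B1 J with hI
  have hIm : ∀ s, MeasurableSet (I ⁻¹' s) := by
    apply meas (T := ⋃ j ∈ Finset.range 128, S j)
    · exact (Finset.finite_toSet _).biUnion (fun j hj => hfin j (Finset.mem_range.1 hj))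
    · intro x y h
      ext i
      simp only [hI, mem_Iset]
      apply and_congr_right; intro _
      apply forall_congr'; intro j
      apply imp_congr_right; intro hj
      have : Uset N (B0 j) (Bm j) (B1 j) J x = Uset N (B0 j) (Bm j) (B1 j) J y :=
        dU j hj (fun e he => h e (by
          simp only [Set.mem_iUnion]; exact ⟨j, Finset.mem_range.2 hj, he⟩))
      rw [this]
  have hIb : mom (bern E p) (100 / 99 * lam) I F ≤ EE ((31 * δ) ^ 2 * (100 / 99 * lam) * F.card) := by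
    have h2 := mom_inter_many (E := E) (p := p) (Finset.range 64) (k := 64) (by norm_num)
      (Finset.card_range 64) (Z := fun g ω => U (2 * g) ω ∩ U (2 * g + 1) ω) (I := I)
      (S := fun g => S (2 * g) ∪ S (2 * g + 1)) ?_ ?_ ?_ ?_ (θ := θ) (c := (31 * δ) ^ 2) hθ0
      (F := F) ?_
    · have e : ((64 : ℕ) : ℝ) * θ = 100 / 99 * lam := by rw [hθ]; push_cast; ring
      rw [e] at h2
      exact h2
    · intro g hg
      have := Finset.mem_range.1 hg
      exact (hfin _ (by omega)).union (hfin _ (by omega))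
    · intro g hg g' hg' hne
      have h3 := Finset.mem_range.1 (Finset.mem_coe.1 hg)
      have h4 := Finset.mem_range.1 (Finset.mem_coe.1 hg')
      show Disjoint (S (2 * g) ∪ S (2 * g + 1)) (S (2 * g') ∪ S (2 * g' + 1))
      rw [Set.disjoint_union_left, Set.disjoint_union_right, Set.disjoint_union_right]
      refine ⟨⟨?_, ?_⟩, ?_, ?_⟩ <;> apply hdisj <;> omega
    · intro g hg x y h
      have h3 := Finset.mem_range.1 hg
      simp only
      rw [dU (2 * g) (by omega) (fun e he => h e (Or.inl he)),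
        dU (2 * g + 1) (by omega) (fun e he => h e (Or.inr he))]
    · intro ω g hg i hi
      have h3 := Finset.mem_range.1 hg
      have h4 := (mem_Iset.1 hi).2
      exact Finset.mem_inter.2 ⟨h4 _ (by omega), h4 _ (by omega)⟩
    · intro g hg
      have h3 := Finset.mem_range.1 hg
      exact mom_inter_indep (hfin (2 * g) (by omega)) (hfin (2 * g + 1) (by omega))
        (hdisj _ (by omega) _ (by omega) (by omega)) (dU _ (by omega)) (dU _ (by omega)) hθ0
        (by positivity) (by linarith)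
        (fun F' hF' => hU1 _ (by omega) F' (hF'.trans hF)) (hU1 _ (by omega) F hF)
  have hOm := meas hSO dO
  have hhold := holder_two (μ := bern E p) hOm hIm (θ := lam) (p := 100) (q := 100 / 99)
    (A := δ1 * lam * F.card) (B := (31 * δ) ^ 2 * lam * F.card) (F := F) (G := F)
    (by norm_num) (by norm_num) (by norm_num)
    ((hO F hF).trans (EE_mono (le_of_eq (by ring))))
    (hIb.trans (EE_mono (le_of_eq (by ring))))
  -- the own part is dense with small probability
  set x : ℝ := lam * N with hx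
  have hx0 : 0 < x := by positivity
  set dn : Set (E → Bool) := {ω | N < 10 * (O ω ∩ J1).card} ∪ {ω | N < 10 * (O ω ∩ J2).card}
    with hdn
  have hdnm : MeasurableSet dn :=
    (hOm {s | N < 10 * (s ∩ J1).card}).union (hOm {s | N < 10 * (s ∩ J2).card})
  have hdnP : bern E p dn ≤ ENNReal.ofReal (20 * δ1 * Real.exp (100 * δ1 * x - 5 * x)) := by
    have h2 := dense_prob (μ := bern E p) hOm hN hJ1 (θ := 100 * lam) (by positivity) hδ1
      ((hO J1 Finset.subset_union_left).trans (EE_mono (le_of_eq (by rw [hJ1]))))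
    have h3 := dense_prob (μ := bern E p) hOm hN hJ2 (θ := 100 * lam) (by positivity) hδ1
      ((hO J2 Finset.subset_union_right).trans (EE_mono (le_of_eq (by rw [hJ2]))))
    calc bern E p dn ≤ _ := measure_union_le _ _
      _ ≤ _ := add_le_add h2 h3
      _ = ENNReal.ofReal (20 * δ1 * Real.exp (100 * δ1 * x - 5 * x)) := by
          rw [← ENNReal.ofReal_add (by positivity) (by positivity)]
          congr 1
          have : δ1 * (100 * lam * N) - 100 * lam * N / 20 = 100 * δ1 * x - 5 * x := by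
            rw [hx]; ring
          rw [this]; ring
  have hpt : ∀ ω, EE (lam * ((Bad ω ∩ F).card : ℝ))
      ≤ EE (lam * ((O ω ∩ F).card : ℝ)) * EE (lam * ((I ω ∩ F).card : ℝ))
        + dn.indicator (fun _ => ENNReal.ofReal (Real.exp (lam * F.card) - 1)) ω := by
    intro ω
    by_cases hω : ω ∈ dn
    · rw [Set.indicator_of_mem hω]
      have h2 : EE (lam * ((Bad ω ∩ F).card : ℝ)) ≤ EE (lam * F.card) := by
        apply EE_mono
        apply mul_le_mul_of_nonneg_left _ hlam.le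
        exact_mod_cast Finset.card_le_card Finset.inter_subset_right
      refine h2.trans ?_
      have h3 : EE (lam * F.card) = 1 + ENNReal.ofReal (Real.exp (lam * F.card) - 1) := by
        have h4 : 0 ≤ Real.exp (lam * F.card) - 1 := by
          have := Real.add_one_le_exp (lam * F.card)
          have : 0 ≤ lam * F.card := by positivity
          linarith
        rw [EE, ← ENNReal.ofReal_one, ← ENNReal.ofReal_add zero_le_one h4]
        congr 1; ring
      rw [h3]
      gcongr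
      calc (1 : ℝ≥0∞) = 1 * 1 := (one_mul _).symm
        _ ≤ _ := mul_le_mul' (one_le_EE (by positivity)) (one_le_EE (by positivity))
    · rw [Set.indicator_of_notMem hω, add_zero, ← EE_add]
      have hg : ¬ (N < 10 * (O ω ∩ J1).card ∨ N < 10 * (O ω ∩ J2).card) := hω
      apply EE_mono
      rw [hBad, if_neg hg, ← mul_add]
      apply mul_le_mul_of_nonneg_left _ hlam.le
      have h2 : ((O ω ∩ J) ∪ I ω) ∩ F ⊆ (O ω ∩ F) ∪ (I ω ∩ F) := by
        intro i hi
        rw [Finset.mem_inter, Finset.mem_union, Finset.mem_inter] at hi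
        rw [Finset.mem_union, Finset.mem_inter, Finset.mem_inter]
        rcases hi with ⟨⟨h, _⟩ | h, h'⟩
        · exact Or.inl ⟨h, h'⟩
        · exact Or.inr ⟨h, h'⟩
      have h3 := (Finset.card_le_card h2).trans (Finset.card_union_le _ _)
      exact_mod_cast h3
  have htot : mom (bern E p) lam Bad F ≤ EE (δ1 * lam * F.card + (31 * δ) ^ 2 * lam * F.card) +
      ENNReal.ofReal (Real.exp (lam * F.card) - 1) *
        ENNReal.ofReal (20 * δ1 * Real.exp (100 * δ1 * x - 5 * x)) := by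
    unfold mom
    refine (lintegral_mono hpt).trans ?_
    rw [lintegral_add_right _ (measurable_const.indicator hdnm), lintegral_indicator hdnm,
      lintegral_const, Measure.restrict_apply_univ]
    gcongr
  refine htot.trans ?_
  set f : ℝ := (F.card : ℝ) with hf
  have hf0 : 0 ≤ f := by positivity
  have hf2 : f ≤ 2 * N := by
    have h2 := Finset.card_le_card hF
    rw [hJdef, Finset.card_union_of_disjoint hJ, hJ1, hJ2] at h2
    have : (F.card : ℝ) ≤ (N + N : ℕ) := by exact_mod_cast h2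
    push_cast at this; linarith
  set y : ℝ := lam * f with hy
  have hy2 : y ≤ 2 * x := by
    rw [hy, hx]; nlinarith
  have hy0 : 0 ≤ y := by positivity
  have he : 0 ≤ Real.exp y - 1 := by
    have := Real.add_one_le_exp y; linarith
  rw [← ENNReal.ofReal_mul he, EE, EE, ← ENNReal.ofReal_add (Real.exp_nonneg _) (by positivity)]
  apply ENNReal.ofReal_le_ofReal
  have h4 : (Real.exp y - 1) * (20 * δ1 * Real.exp (100 * δ1 * x - 5 * x)) ≤ 20 * δ1 * y := by
    have h5 : Real.exp y - 1 ≤ y * Real.exp (2 * x) :=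
      exp_sub_one_le.trans (mul_le_mul_of_nonneg_left (Real.exp_le_exp.2 hy2) hy0)
    have h6 : Real.exp (2 * x) * Real.exp (100 * δ1 * x - 5 * x) ≤ 1 := by
      rw [← Real.exp_add]
      apply Real.exp_le_one_iff.2
      nlinarith
    calc (Real.exp y - 1) * (20 * δ1 * Real.exp (100 * δ1 * x - 5 * x))
        ≤ (y * Real.exp (2 * x)) * (20 * δ1 * Real.exp (100 * δ1 * x - 5 * x)) :=
          mul_le_mul_of_nonneg_right h5 (by positivity)
      _ = 20 * δ1 * y * (Real.exp (2 * x) * Real.exp (100 * δ1 * x - 5 * x)) := by ring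
      _ ≤ 20 * δ1 * y * 1 := mul_le_mul_of_nonneg_left h6 (by positivity)
      _ = _ := mul_one _
  set a : ℝ := δ1 * lam * f + (31 * δ) ^ 2 * lam * f with ha
  have ha0 : 0 ≤ a := by positivity
  have h8 : 1 + 20 * δ1 * y ≤ Real.exp (20 * δ1 * y) := by
    have := Real.add_one_le_exp (20 * δ1 * y); linarith
  have h9 : 1 ≤ Real.exp a := Real.one_le_exp ha0
  calc Real.exp a + (Real.exp y - 1) * (20 * δ1 * Real.exp (100 * δ1 * x - 5 * x))
      ≤ Real.exp a + 20 * δ1 * y := by linarith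
    _ ≤ Real.exp a * (1 + 20 * δ1 * y) := by
        have : 0 ≤ 20 * δ1 * y := by positivity
        nlinarith
    _ ≤ Real.exp a * Real.exp (20 * δ1 * y) := mul_le_mul_of_nonneg_left h8 (by positivity)
    _ = Real.exp (a + 20 * δ1 * y) := (Real.exp_add _ _).symm
    _ ≤ Real.exp (δ * lam * f) := by
        apply Real.exp_le_exp.2
        have : a + 20 * δ1 * y = (21 * δ1 + (31 * δ) ^ 2) * y := by rw [ha, hy]; ring
        rw [this]
        have : δ * lam * f = δ * y := by rw [hy]; ring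
        rw [this]
        exact mul_le_mul_of_nonneg_right hcond hy0

end T4
end Pool.Agent.MP_c3c849_pr
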