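import Pool.Agent.MP_c3c849_pr.Toolkit
import Pool.Agent.MP_c3c849_pr.Measurable
import Pool.Agent.MP_c3c849_pr.ZeroOne

/-!
# MP_c3c849_pr, module T3: seeds

The main theorem `exists_seeds_of_unique` takes the uniqueness of the infinite cluster (module T2)
as a hypothesis.
-/

open MeasureTheory ProbabilityTheory
open scoped ENNReal

namespace Pool.Agent.MP_c3c849_pr

namespace T3

/-- Pull back a configuration along a map of vertices. -/
def pull {V V' : Type*} (φ : V → V') (ω : Cfg V') : Cfg V := fun e => ω (Sym2.map φ e)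

theorem pull_pull {V V' V'' : Type*} (φ : V → V') (ψ : V' → V'') (ω : Cfg V'') :
    pull φ (pull ψ ω) = pull (ψ ∘ φ) ω := by
  funext e
  simp [pull, Sym2.map_map]

theorem measurable_pull {V V' : Type*} (φ : V → V') :
    Measurable (pull φ : Cfg V' → Cfg V) :=
  measurable_pi_lambda _ (fun _ => measurable_pi_apply _)

theorem map_pull {V V' : Type*} (p : unitInterval) {φ : V → V'} (hφ : Function.Injective φ) :
    (perc V' p).map (pull φ) = perc V p :=
  bern_reindex p (Sym2.map φ) (Sym2.map.injective hφ)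

theorem perc_pull {V V' : Type*} (p : unitInterval) {φ : V → V'} (hφ : Function.Injective φ)
    {A : Set (Cfg V)} (hA : MeasurableSet A) :
    perc V' p {ω | pull φ ω ∈ A} = perc V p A := by
  rw [← map_pull p hφ, Measure.map_apply (measurable_pull φ) hA]
  rfl

theorem ae_pull {V V' : Type*} (p : unitInterval) {φ : V → V'} (hφ : Function.Injective φ)
    {P : Cfg V → Prop} (h : ∀ᵐ ω ∂(perc V p), P ω) : ∀ᵐ ω ∂(perc V' p), P (pull φ ω) := by
  rw [← map_pull p hφ] at h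
  exact ae_of_ae_map (measurable_pull φ).aemeasurable h

/-- The map `(z, t) ↦ (g z, t + s)`. -/
def L (g : ℕ × ℕ → ℕ × ℕ) (s : ℤ) : Vtx → Vtx := fun z => (g z.1, z.2 + s)

theorem L_comp (g g' : ℕ × ℕ → ℕ × ℕ) (s s' : ℤ) : L g' s' ∘ L g s = L (g' ∘ g) (s + s') := by
  funext z
  simp [L, add_assoc]

theorem pull_L (g g' : ℕ × ℕ → ℕ × ℕ) (s s' : ℤ) (ω : Cfg Vtx) :
    pull (L g s) (pull (L g' s') ω) = pull (L (g' ∘ g) (s + s')) ω := by
  rw [pull_pull, L_comp]

theorem L_inj {g : ℕ × ℕ → ℕ × ℕ} (hg : Function.Injective g) (s : ℤ) :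
    Function.Injective (L g s) := by
  intro x y h
  simp only [L, Prod.mk.injEq, add_left_inj] at h
  exact Prod.ext (hg h.1) h.2

theorem reach_push {V V' : Type*} {G : SimpleGraph V} {G' : SimpleGraph V'} {φ : V → V'}
    (hφ : ∀ x y, G.Adj x y → G'.Adj (φ x) (φ y)) {ω : Cfg V'} {x y : V}
    (h : (opn G (pull φ ω)).Reachable x y) : (opn G' ω).Reachable (φ x) (φ y) := by
  let f : opn G (pull φ ω) →g opn G' ω :=
    { toFun := φ
      map_rel' := by
        intro a c hac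
        refine ⟨hφ _ _ hac.1, ?_⟩
        have := hac.2
        simpa [pull] using this }
  exact h.map f

theorem inf_push {V V' : Type*} {G : SimpleGraph V} {G' : SimpleGraph V'} {φ : V → V'}
    (hφ : ∀ x y, G.Adj x y → G'.Adj (φ x) (φ y)) (hinj : Function.Injective φ)
    {ω : Cfg V'} {x : V} (h : InfCl G (pull φ ω) x) : InfCl G' ω (φ x) := by
  unfold InfCl at *
  refine (h.image (f := φ) hinj.injOn).mono ?_
  rintro _ ⟨y, hy, rfl⟩
  exact reach_push hφ hy

theorem inf_of_reach {V : Type*} {G : SimpleGraph V} {ω : Cfg V} {x y : V}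
    (h : (opn G ω).Reachable x y) (hy : InfCl G ω y) : InfCl G ω x := by
  unfold InfCl at *
  exact hy.mono (fun z hz => h.trans hz)

theorem measurableSet_opn_adj {V : Type*} (G : SimpleGraph V) (x y : V) :
    MeasurableSet {ω : Cfg V | (opn G ω).Adj x y} := by
  by_cases h : G.Adj x y
  · have : {ω : Cfg V | (opn G ω).Adj x y} = (fun ω : Cfg V => ω s(x, y)) ⁻¹' {true} := by
      ext ω
      simp [opn, h]
    rw [this]
    exact measurable_pi_apply _ (MeasurableSet.singleton _)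
  · have : {ω : Cfg V | (opn G ω).Adj x y} = ∅ := by
      ext ω
      simp [opn, h]
    rw [this]
    exact MeasurableSet.empty

theorem measurableSet_infCl {V : Type*} [Countable V] (G : SimpleGraph V) (x : V) :
    MeasurableSet {ω : Cfg V | InfCl G ω x} :=
  measurableSet_infinite (measurableSet_opn_adj G) x

theorem measurableSet_infCl_pull {V V' : Type*} [Countable V] (G : SimpleGraph V) (φ : V → V')
    (x : V) : MeasurableSet {ω : Cfg V' | InfCl G (pull φ ω) x} :=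
  measurable_pull φ (measurableSet_infCl G x)

/-! ### The tree `T+` -/

/-- number of digits -/
def len (b x : ℕ) : ℕ := (Nat.digits b x).length

theorem len_zero (b : ℕ) : len b 0 = 0 := by simp [len]

theorem len_pos {b x : ℕ} (hb : 2 ≤ b) (hx : 0 < x) : len b x = len b (x / b) + 1 := by
  unfold len
  rw [Nat.digits_def' (by omega) hx]
  simp

theorem lt_pow_len {b : ℕ} (hb : 2 ≤ b) (x : ℕ) : x < b ^ len b x :=
  Nat.lt_base_pow_length_digits (by omega)

/-- depth -/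
def dep (b : ℕ) (z : ℕ × ℕ) : ℕ := z.1 + 2 * len b z.2

/-- The copy of the canopy below `u`. -/
def io (b : ℕ) (u z : ℕ × ℕ) : ℕ × ℕ := (u.1 + dep b z, u.2 * b ^ dep b z + z.2)

/-- The copy of the canopy through the child `c`. -/
def ioc (b c : ℕ) (z : ℕ × ℕ) : ℕ × ℕ :=
  (dep b z, (if dep b z = 0 then 0 else c * b ^ (dep b z - 1)) + z.2)

/-- `σ (j, x) = (j + 1, x)`. -/
def sg (z : ℕ × ℕ) : ℕ × ℕ := (z.1 + 1, z.2)

/-- The `b`-ary forest. -/
def TP (b : ℕ) : SimpleGraph (ℕ × ℕ) where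
  Adj x y := (y.1 = x.1 + 1 ∧ y.2 / b = x.2) ∨ (x.1 = y.1 + 1 ∧ x.2 / b = y.2)
  symm := ⟨fun _ _ h => Or.symm h⟩
  loopless := ⟨fun x h => by rcases h with ⟨h, _⟩ | ⟨h, _⟩ <;> omega⟩

/-- The forest times `ℤ`. -/
def TZ (b : ℕ) : SimpleGraph Vtx := SimpleGraph.boxProd (TP b) ZLine

theorem io_zero (b : ℕ) (u : ℕ × ℕ) : io b u (0, 0) = u := by
  simp [io, dep, len_zero]

theorem ioc_zero (b c : ℕ) : ioc b c (0, 0) = (0, 0) := by
  simp [ioc, dep, len_zero]

theorem ioc_one (b c : ℕ) : ioc b c (1, 0) = (1, c) := by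
  simp [ioc, dep, len_zero]

theorem ioc_sg (b c : ℕ) (z : ℕ × ℕ) : ioc b c (sg z) = io b (1, c) z := by
  have h : dep b (sg z) = dep b z + 1 := by simp only [dep, sg]; omega
  have h' : (sg z).2 = z.2 := rfl
  unfold ioc io
  rw [h, h', if_neg (by omega), Nat.add_sub_cancel]
  exact Prod.ext (by simp only; omega) rfl

theorem ioc_zero_eq (b : ℕ) : ioc b 0 = io b (0, 0) := by
  funext z
  simp [ioc, io]

theorem io_inj {b : ℕ} (u : ℕ × ℕ) : Function.Injective (io b u) := by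
  rintro ⟨j, x⟩ ⟨j', x'⟩ h
  simp only [io, Prod.mk.injEq] at h
  obtain ⟨h1, h2⟩ := h
  have h3 : dep b (j, x) = dep b (j', x') := by omega
  rw [h3] at h2
  have h4 : x = x' := by omega
  subst h4
  simp only [dep] at h3
  have : j = j' := by omega
  rw [this]

theorem ioc_inj {b : ℕ} (c : ℕ) : Function.Injective (ioc b c) := by
  rintro ⟨j, x⟩ ⟨j', x'⟩ h
  simp only [ioc, Prod.mk.injEq] at h
  obtain ⟨h1, h2⟩ := h
  rw [h1] at h2
  have h4 : x = x' := by omega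
  subst h4
  simp only [dep] at h1
  have : j = j' := by omega
  rw [this]

theorem sg_inj : Function.Injective sg := by
  rintro ⟨j, x⟩ ⟨j', x'⟩ h
  simp only [sg, Prod.mk.injEq] at h
  have : j = j' := by omega
  rw [this, h.2]

/-- A map respecting the parent relation is a homomorphism into `T+`. -/
theorem hom_TP {b : ℕ} {g : ℕ × ℕ → ℕ × ℕ}
    (h : ∀ j x, (TP b).Adj (g (j, x)) (g (j + 1, x / b))) (x y : ℕ × ℕ)
    (hxy : (Canopy b).Adj x y) : (TP b).Adj (g x) (g y) := by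
  obtain ⟨j, x⟩ := x
  obtain ⟨j', x'⟩ := y
  rcases hxy with ⟨h1, h2⟩ | ⟨h1, h2⟩
  · simp only at h1 h2
    subst h1 h2
    exact h j x
  · simp only at h1 h2
    subst h1 h2
    exact (h j' x').symm

theorem L_hom {T T' : SimpleGraph (ℕ × ℕ)} {g : ℕ × ℕ → ℕ × ℕ}
    (h : ∀ x y, T.Adj x y → T'.Adj (g x) (g y)) (s : ℤ) (x y : Vtx)
    (hxy : (SimpleGraph.boxProd T ZLine).Adj x y) :
    (SimpleGraph.boxProd T' ZLine).Adj (L g s x) (L g s y) := by
  rw [SimpleGraph.boxProd_adj] at hxy ⊢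
  rcases hxy with ⟨h1, h2⟩ | ⟨h1, h2⟩
  · left
    exact ⟨h _ _ h1, by simp [L, h2]⟩
  · right
    refine ⟨?_, by simp [L, h2]⟩
    rcases h1 with h1 | h1
    · left; simp only [L]; omega
    · right; simp only [L]; omega

theorem io_adj {b : ℕ} (hb : 2 ≤ b) (u : ℕ × ℕ) (j x : ℕ) :
    (TP b).Adj (io b u (j, x)) (io b u (j + 1, x / b)) := by
  have hb0 : 0 < b := by omega
  rcases Nat.eq_zero_or_pos x with hx | hx
  · subst hx
    left
    simp only [io, dep, Nat.zero_div, len_zero]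
    refine ⟨by omega, ?_⟩
    have : u.2 * b ^ (j + 1 + 2 * 0) + 0 = b * (u.2 * b ^ j) := by ring
    rw [this, Nat.mul_div_cancel_left _ hb0]
    simp
  · right
    have h1 := len_pos hb hx
    have h2 : dep b (j, x) = dep b (j + 1, x / b) + 1 := by
      simp only [dep]; omega
    simp only [io, h2]
    refine ⟨by omega, ?_⟩
    have : u.2 * b ^ (dep b (j + 1, x / b) + 1) + x =
      b * (u.2 * b ^ (dep b (j + 1, x / b))) + x := by ring
    rw [this, Nat.mul_add_div hb0]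

theorem ioc_adj {b : ℕ} (hb : 2 ≤ b) {c : ℕ} (hc : c < b) (j x : ℕ) :
    (TP b).Adj (ioc b c (j, x)) (ioc b c (j + 1, x / b)) := by
  have hb0 : 0 < b := by omega
  rcases Nat.eq_zero_or_pos x with hx | hx
  · subst hx
    left
    unfold ioc
    simp only [dep, Nat.zero_div, len_zero]
    refine ⟨trivial, ?_⟩
    rcases Nat.eq_zero_or_pos j with hj | hj
    · subst hj
      simp [Nat.div_eq_of_lt hc]
    · have e1 : ¬ (j + 1 + 2 * 0 = 0) := by omega
      have e2 : ¬ (j + 2 * 0 = 0) := by omega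
      rw [if_neg e1, if_neg e2]
      obtain ⟨i, rfl⟩ : ∃ i, j = i + 1 := ⟨j - 1, by omega⟩
      have e3 : i + 1 + 1 + 2 * 0 - 1 = i + 1 := by omega
      have e4 : i + 1 + 2 * 0 - 1 = i := by omega
      rw [e3, e4]
      have : c * b ^ (i + 1) + 0 = b * (c * b ^ i) := by ring
      rw [this, Nat.mul_div_cancel_left _ hb0]
      simp
  · right
    have h1 := len_pos hb hx
    have h2 : dep b (j, x) = dep b (j + 1, x / b) + 1 := by
      simp only [dep]; omega
    have h3 : 0 < dep b (j + 1, x / b) := by simp only [dep]; omega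
    unfold ioc
    simp only [h2]
    refine ⟨trivial, ?_⟩
    rw [if_neg (by omega), if_neg (by omega)]
    obtain ⟨i, hi⟩ : ∃ i, dep b (j + 1, x / b) = i + 1 := ⟨dep b (j + 1, x / b) - 1, by omega⟩
    rw [hi]
    simp only [Nat.add_sub_cancel]
    have : c * b ^ (i + 1) + x = b * (c * b ^ i) + x := by ring
    rw [this, Nat.mul_add_div hb0]

theorem sg_hom {b : ℕ} (x y : ℕ × ℕ) (hxy : (Canopy b).Adj x y) :
    (Canopy b).Adj (sg x) (sg y) := by
  rcases hxy with ⟨h1, h2⟩ | ⟨h1, h2⟩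
  · left; simp only [sg]; omega
  · right; simp only [sg]; omega

/-! ### Connectivity of the canopy tree times `ℤ` -/

theorem canopy_reach_zero (b : ℕ) (n : ℕ) : (Canopy b).Reachable (0, 0) (n, 0) := by
  induction n with
  | zero => exact SimpleGraph.Reachable.refl _
  | succ n ih =>
    refine ih.trans (SimpleGraph.Adj.reachable ?_)
    left
    simp

theorem canopy_reach {b : ℕ} (hb : 2 ≤ b) : ∀ k n m : ℕ, m < b ^ k →
    (Canopy b).Reachable (0, 0) (n, m) := by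
  intro k
  induction k with
  | zero =>
    intro n m hm
    have : m = 0 := by simpa using hm
    subst this
    exact canopy_reach_zero b n
  | succ k ih =>
    intro n m hm
    have h1 : m / b < b ^ k := by
      rw [Nat.div_lt_iff_lt_mul (by omega)]
      rwa [pow_succ] at hm
    refine (ih (n + 1) (m / b) h1).trans (SimpleGraph.Adj.reachable ?_)
    right
    simp

theorem zline_reach (t : ℤ) : ZLine.Reachable 0 t := by
  induction t using Int.induction_on with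
  | zero => exact SimpleGraph.Reachable.refl _
  | succ n ih => exact ih.trans (SimpleGraph.Adj.reachable (Or.inl rfl))
  | pred n ih =>
    refine ih.trans (SimpleGraph.Adj.reachable (Or.inr ?_))
    ring

theorem GZ_reach {b : ℕ} (hb : 2 ≤ b) (x : Vtx) : (GZ b).Reachable ((0, 0), 0) x := by
  obtain ⟨⟨n, m⟩, t⟩ := x
  have h1 : (Canopy b).Reachable (0, 0) (n, m) := canopy_reach hb (len b m) n m (lt_pow_len hb m)
  have h2 := zline_reach t
  let f : Canopy b →g GZ b :=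
    { toFun := fun z => (z, 0)
      map_rel' := by
        intro a c hac
        exact SimpleGraph.boxProd_adj.2 (Or.inl ⟨hac, rfl⟩) }
  let g : ZLine →g GZ b :=
    { toFun := fun s => ((n, m), s)
      map_rel' := by
        intro a c hac
        exact SimpleGraph.boxProd_adj.2 (Or.inr ⟨hac, rfl⟩) }
  exact (h1.map f).trans (h2.map g)

/-! ### `p_c` and the density of the infinite clusters -/

/-- the base point -/
abbrev o : Vtx := ((0, 0), 0)

theorem perc_one_open {V : Type*} [Countable V] :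
    ∀ᵐ ω ∂(perc V 1), ∀ e, ω e = true := by
  classical
  rw [ae_all_iff]
  intro e
  have hA : MeasurableSet {ω : Cfg V | ω e = true} := by
    have h0 : MeasurableSet ((fun ω : Cfg V => ω e) ⁻¹' {true}) :=
      measurable_pi_apply e (MeasurableSet.singleton true)
    exact h0
  have h := force_le (E := Sym2 V) 1 {e} hA
  have h2 : {ω : Cfg V | force {e} ω ∈ {ω : Cfg V | ω e = true}} = Set.univ := by
    ext ω
    simp [force]
  rw [h2] at h
  simp only [Set.Icc.coe_one, ENNReal.ofReal_one, one_pow, one_mul, measure_univ] at h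
  have h3 : bern (Sym2 V) 1 {ω : Cfg V | ω e = true} = 1 := le_antisymm prob_le_one h
  exact (mem_ae_iff_prob_eq_one hA).2 h3

theorem pc_set_nonempty {b : ℕ} (hb : 2 ≤ b) :
    {q : ℝ | ∃ p : unitInterval, (p : ℝ) = q ∧ ∀ᵐ ω ∂(perc Vtx p), ∃ x, InfCl (GZ b) ω x}.Nonempty := by
  refine ⟨1, 1, rfl, ?_⟩
  filter_upwards [perc_one_open] with ω hω
  refine ⟨o, ?_⟩
  have h1 : opn (GZ b) ω = GZ b := by
    ext x y
    simp [opn, hω]
  unfold InfCl
  rw [h1]
  have h2 : {y | (GZ b).Reachable o y} = Set.univ := by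
    ext y
    simp [GZ_reach hb y]
  rw [h2]
  exact Set.infinite_univ

theorem opn_mono {V : Type*} {G : SimpleGraph V} {ω ω' : Cfg V}
    (h : ∀ e, ω e = true → ω' e = true) : opn G ω ≤ opn G ω' := by
  intro x y hxy
  exact ⟨hxy.1, h _ hxy.2⟩

theorem infCl_mono {V : Type*} {G : SimpleGraph V} {ω ω' : Cfg V}
    (h : ∀ e, ω e = true → ω' e = true) {x : V} (hx : InfCl G ω x) : InfCl G ω' x := by
  unfold InfCl at *
  exact hx.mono (fun y hy => SimpleGraph.Reachable.mono (opn_mono h) hy)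

theorem le_force {E : Type*} [DecidableEq E] (F : Finset E) (ω : E → Bool) :
    ∀ e, ω e = true → force F ω e = true := by
  intro e he
  unfold force
  split_ifs
  · rfl
  · exact he

theorem ae_exists_inf {b : ℕ} (hb : 2 ≤ b) {p : unitInterval} (hp : pc (GZ b) < p) :
    ∀ᵐ ω ∂(perc Vtx p), ∃ x, InfCl (GZ b) ω x := by
  obtain ⟨q, ⟨p', hq, hp'⟩, hlt⟩ := exists_lt_of_csInf_lt (pc_set_nonempty hb) hp
  have hle : p' ≤ p := by
    have : (p' : ℝ) ≤ p := by rw [hq]; exact hlt.le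
    exact this
  have hA : MeasurableSet {ω : Cfg Vtx | ∃ x, InfCl (GZ b) ω x} := by
    have : {ω : Cfg Vtx | ∃ x, InfCl (GZ b) ω x} = ⋃ x, {ω | InfCl (GZ b) ω x} := by
      ext ω; simp
    rw [this]
    exact MeasurableSet.iUnion (fun x => measurableSet_infCl _ x)
  have h1 : perc Vtx p' {ω : Cfg Vtx | ∃ x, InfCl (GZ b) ω x} = 1 :=
    (mem_ae_iff_prob_eq_one hA).1 hp'
  have h2 := bern_mono (E := Sym2 Vtx) hle hA (by
    rintro ω ω' h ⟨x, hx⟩
    exact ⟨x, infCl_mono h hx⟩)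
  have h3 : perc Vtx p {ω : Cfg Vtx | ∃ x, InfCl (GZ b) ω x} = 1 := by
    refine le_antisymm prob_le_one ?_
    rw [← h1]
    exact h2
  exact (mem_ae_iff_prob_eq_one hA).2 h3

theorem exists_force {V : Type*} [DecidableEq V] {G : SimpleGraph V} {x y : V}
    (h : G.Reachable x y) : ∃ F : Finset (Sym2 V), ∀ ω, (opn G (force F ω)).Reachable x y := by
  obtain ⟨w⟩ := h
  induction w with
  | nil => exact ⟨∅, fun ω => SimpleGraph.Reachable.refl _⟩
  | @cons u v w huv q ih =>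
    obtain ⟨F, hF⟩ := ih
    refine ⟨insert s(u, v) F, fun ω => ?_⟩
    have h1 : (opn G (force (insert s(u, v) F) ω)).Adj u v := ⟨huv, by simp [force]⟩
    refine h1.reachable.trans (SimpleGraph.Reachable.mono (opn_mono ?_) (hF ω))
    intro e he
    unfold force at he ⊢
    by_cases hee : e ∈ F
    · rw [if_pos (Finset.mem_insert_of_mem hee)]
    · rw [if_neg hee] at he
      split_ifs
      · rfl
      · exact he

theorem pos_of_pc {b : ℕ} {p : unitInterval} (hp : pc (GZ b) < p) : 0 < (p : ℝ) := by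
  refine lt_of_le_of_lt ?_ hp
  unfold pc
  refine Real.sInf_nonneg ?_
  rintro q ⟨p', rfl, _⟩
  exact p'.2.1

theorem force_pos {E : Type*} [DecidableEq E] {p : unitInterval} (hp : 0 < (p : ℝ)) (F : Finset E)
    {A B : Set (E → Bool)} (hA : MeasurableSet A) (hAB : ∀ ω ∈ B, force F ω ∈ A)
    (hB : bern E p B ≠ 0) : bern E p A ≠ 0 := by
  intro h
  have h1 := force_le p F hA
  rw [h, nonpos_iff_eq_zero, mul_eq_zero] at h1
  rcases h1 with h1 | h1
  · have : ENNReal.ofReal (p : ℝ) ≠ 0 := by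
      simp [hp]
    exact this (eq_zero_of_pow_eq_zero h1)
  · refine hB (measure_mono_null ?_ h1)
    intro ω hω
    exact hAB ω hω

theorem theta_pos {b : ℕ} (hb : 2 ≤ b) {p : unitInterval} (hp : pc (GZ b) < p) :
    perc Vtx p {ω | InfCl (GZ b) ω o} ≠ 0 := by
  classical
  have h1 := ae_exists_inf hb hp
  have h2 : ∃ x, perc Vtx p {ω | InfCl (GZ b) ω x} ≠ 0 := by
    by_contra hcon
    push Not at hcon
    have h3 : perc Vtx p (⋃ x, {ω | InfCl (GZ b) ω x}) = 0 := measure_iUnion_null hcon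
    have h4 : ∀ᵐ ω ∂(perc Vtx p), ¬ ∃ x, InfCl (GZ b) ω x := by
      rw [ae_iff]
      refine measure_mono_null ?_ h3
      intro ω hω
      simpa using hω
    have h5 : ∀ᵐ ω ∂(perc Vtx p), False := by
      filter_upwards [h1, h4] with ω h6 h7
      exact h7 h6
    rw [ae_iff] at h5
    simp at h5
  obtain ⟨x, hx⟩ := h2
  obtain ⟨F, hF⟩ := exists_force (GZ_reach hb x)
  refine force_pos (pos_of_pc hp) F (measurableSet_infCl _ _) ?_ hx
  intro ω hω
  exact inf_of_reach (hF ω) (infCl_mono (le_force F ω) hω)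

/-! ### Copies of the canopy -/

theorem io_hom {b : ℕ} (hb : 2 ≤ b) (u : ℕ × ℕ) (s : ℤ) (x y : Vtx) (h : (GZ b).Adj x y) :
    (TZ b).Adj (L (io b u) s x) (L (io b u) s y) :=
  L_hom (hom_TP (io_adj hb u)) s x y h

theorem ioc_hom {b : ℕ} (hb : 2 ≤ b) {c : ℕ} (hc : c < b) (s : ℤ) (x y : Vtx)
    (h : (GZ b).Adj x y) : (TZ b).Adj (L (ioc b c) s x) (L (ioc b c) s y) :=
  L_hom (hom_TP (ioc_adj hb hc)) s x y h

/-- In the copy `g` of the canopy the column point of height `t` is in an infinite cluster. -/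
def Kinf (b : ℕ) (g : ℕ × ℕ → ℕ × ℕ) (ω : Cfg Vtx) (t : ℤ) : Prop :=
  InfCl (GZ b) (pull (L g t) ω) o

theorem measurableSet_Kinf (b : ℕ) (g : ℕ × ℕ → ℕ × ℕ) (t : ℤ) :
    MeasurableSet {ω | Kinf b g ω t} :=
  measurableSet_infCl_pull _ _ _

theorem perc_Kinf {b : ℕ} {p : unitInterval} {g : ℕ × ℕ → ℕ × ℕ} (hg : Function.Injective g)
    (t : ℤ) : perc Vtx p {ω | Kinf b g ω t} = perc Vtx p {ω | InfCl (GZ b) ω o} :=
  perc_pull p (L_inj hg t) (measurableSet_infCl _ _)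

theorem shift_eq (ω : Cfg Vtx) : (fun e => ω (Sym2.map shiftZ e)) = pull (L id 1) ω := rfl

theorem Kinf_shift (b : ℕ) (g : ℕ × ℕ → ℕ × ℕ) (ω : Cfg Vtx) (s t : ℤ) :
    Kinf b g (pull (L id s) ω) t ↔ Kinf b g ω (t + s) := by
  unfold Kinf
  rw [pull_L, Function.id_comp]

theorem Kinf_dep (b : ℕ) (g : ℕ × ℕ → ℕ × ℕ) (t : ℤ) :
    DependsOn (fun ω => ω ∈ {ω | Kinf b g ω t}) (Set.range (Sym2.map (L g t))) := by
  intro ω ω' h
  have : pull (L g t) ω = pull (L g t) ω' := by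
    funext e
    exact h _ ⟨e, rfl⟩
  simp only [Kinf, this, Set.mem_ofPred_eq]

theorem ioc_disj {b c : ℕ} (hb : 2 ≤ b) (hc : 1 ≤ c) (z z' : ℕ × ℕ) :
    io b (1, 0) z ≠ io b (1, c) z' := by
  intro h
  simp only [io, Prod.mk.injEq] at h
  obtain ⟨h1, h2⟩ := h
  have h3 : dep b z = dep b z' := by omega
  rw [← h3] at h2
  have h4 : z.2 < b ^ dep b z :=
    lt_of_lt_of_le (lt_pow_len hb z.2) (Nat.pow_le_pow_right (by omega) (by simp only [dep]; omega))
  have h5 : b ^ dep b z ≤ c * b ^ dep b z := Nat.le_mul_of_pos_left _ (by omega)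
  omega

theorem io_range_disj {b c : ℕ} (hb : 2 ≤ b) (hc : 1 ≤ c) : Disjoint
    (Set.range (Sym2.map (L (io b (1, 0)) 0))) (Set.range (Sym2.map (L (io b (1, c)) 0))) := by
  rw [Set.disjoint_left]
  rintro _ ⟨e, rfl⟩ ⟨e', he⟩
  induction e using Sym2.ind with
  | _ x y =>
  induction e' using Sym2.ind with
  | _ x' y' =>
  simp only [Sym2.map_mk, Sym2.eq_iff] at he
  rcases he with ⟨h, _⟩ | ⟨h, _⟩
  · exact ioc_disj hb hc _ _ (congrArg Prod.fst h).symm
  · exact ioc_disj hb hc _ _ (congrArg Prod.fst h).symm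

theorem ioc_comp_sg (b c : ℕ) : ioc b c ∘ sg = io b (1, c) := by
  funext z
  exact ioc_sg b c z

/-- from the child to the copy through the child -/
theorem Kinf_child {b : ℕ} {c : ℕ} {ω : Cfg Vtx} {t : ℤ} (h : Kinf b (io b (1, c)) ω t) :
    InfCl (GZ b) (pull (L (ioc b c) t) ω) ((1, 0), 0) := by
  unfold Kinf at h
  have h1 : pull (L (io b (1, c)) t) ω = pull (L sg 0) (pull (L (ioc b c) t) ω) := by
    rw [pull_L, ioc_comp_sg, zero_add]
  rw [h1] at h
  have h2 := inf_push (G' := GZ b) (fun x y hxy => L_hom (T := Canopy b) (T' := Canopy b) sg_hom 0 x y hxy) (L_inj sg_inj 0) h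
  simpa [L, sg] using h2

theorem common_pos {b : ℕ} (hb : 2 ≤ b) {p : unitInterval} (hp : pc (GZ b) < p) {c : ℕ}
    (hc : 1 ≤ c) (hcb : c < b) :
    perc Vtx p {ω | ∃ t : ℤ, Kinf b (ioc b 0) ω t ∧ Kinf b (ioc b c) ω t} ≠ 0 := by
  classical
  have hA : MeasurableSet {ω | ∃ t : ℤ, Kinf b (ioc b 0) ω t ∧ Kinf b (ioc b c) ω t} := by
    have : {ω | ∃ t : ℤ, Kinf b (ioc b 0) ω t ∧ Kinf b (ioc b c) ω t} =
        ⋃ t : ℤ, {ω | Kinf b (ioc b 0) ω t} ∩ {ω | Kinf b (ioc b c) ω t} := by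
      ext ω; simp
    rw [this]
    exact MeasurableSet.iUnion
      (fun t => (measurableSet_Kinf _ _ _).inter (measurableSet_Kinf _ _ _))
  let F : Finset (Sym2 Vtx) := {s(((0, 0), 0), ((1, 0), 0)), s(((0, 0), 0), ((1, c), 0))}
  have hB : perc Vtx p ({ω | Kinf b (io b (1, 0)) ω 0} ∩ {ω | Kinf b (io b (1, c)) ω 0}) ≠ 0 := by
    rw [T1.measure_inter_indep p (io_range_disj hb hc) (measurableSet_Kinf _ _ _)
      (measurableSet_Kinf _ _ _) (Kinf_dep _ _ _) (Kinf_dep _ _ _)]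
    have h1 := theta_pos hb hp
    rw [perc_Kinf (io_inj _), perc_Kinf (io_inj _)]
    exact mul_ne_zero h1 h1
  refine force_pos (pos_of_pc hp) F hA ?_ hB
  rintro ω ⟨h1, h2⟩
  have key : ∀ d, d < b → s(((0, 0), 0), ((1, d), 0)) ∈ F → Kinf b (io b (1, d)) ω 0 →
      Kinf b (ioc b d) (force F ω) 0 := by
    intro d hd hdF h
    have h3 : Kinf b (io b (1, d)) (force F ω) 0 :=
      infCl_mono (fun e he => le_force F ω _ he) h
    have h4 := Kinf_child h3
    refine inf_of_reach (SimpleGraph.Adj.reachable ?_) h4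
    refine ⟨SimpleGraph.boxProd_adj.2 (Or.inl ⟨Or.inl (by simp), rfl⟩), ?_⟩
    have h5 : Sym2.map (L (ioc b d) 0) s(o, ((1, 0), 0)) = s(((0, 0), 0), ((1, d), 0)) := by
      simp [L, ioc_zero, ioc_one]
    unfold pull
    rw [h5]
    unfold force
    rw [if_pos hdF]
  exact ⟨0, key 0 (by omega) (by simp [F]) h1, key c hcb (by simp [F]) h2⟩

theorem common_ae {b : ℕ} (hb : 2 ≤ b) {p : unitInterval} (hp : pc (GZ b) < p) {c : ℕ}
    (hc : 1 ≤ c) (hcb : c < b) :
    ∀ᵐ ω ∂(perc Vtx p), ∃ t : ℤ, Kinf b (ioc b 0) ω t ∧ Kinf b (ioc b c) ω t := by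
  have hA : MeasurableSet {ω | ∃ t : ℤ, Kinf b (ioc b 0) ω t ∧ Kinf b (ioc b c) ω t} := by
    have : {ω | ∃ t : ℤ, Kinf b (ioc b 0) ω t ∧ Kinf b (ioc b c) ω t} =
        ⋃ t : ℤ, {ω | Kinf b (ioc b 0) ω t} ∩ {ω | Kinf b (ioc b c) ω t} := by
      ext ω; simp
    rw [this]
    exact MeasurableSet.iUnion
      (fun t => (measurableSet_Kinf _ _ _).inter (measurableSet_Kinf _ _ _))
  have h01 := zero_one_shift (U := ℕ × ℕ) p hA (by
    intro ω
    rw [shift_eq]
    simp only [Set.mem_ofPred_eq, Kinf_shift]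
    constructor
    · rintro ⟨t, ht⟩
      exact ⟨t + 1, ht⟩
    · rintro ⟨t, ht⟩
      exact ⟨t - 1, by simpa using ht⟩)
  rcases h01 with h | h
  · exact absurd h (common_pos hb hp hc hcb)
  · exact (mem_ae_iff_prob_eq_one hA).2 h

theorem unique_copy {b : ℕ} {p : unitInterval}
    (hUC : ∀ᵐ ω ∂(perc Vtx p), ∀ x y, InfCl (GZ b) ω x → InfCl (GZ b) ω y →
      (opn (GZ b) ω).Reachable x y)
    {g : ℕ × ℕ → ℕ × ℕ} (hg : Function.Injective g) :
    ∀ᵐ ω ∂(perc Vtx p), ∀ x y, InfCl (GZ b) (pull (L g 0) ω) x → InfCl (GZ b) (pull (L g 0) ω) y →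
      (opn (GZ b) (pull (L g 0) ω)).Reachable x y :=
  ae_pull p (L_inj hg 0) hUC

theorem Kinf_at {b : ℕ} {g : ℕ × ℕ → ℕ × ℕ} {ω : Cfg Vtx} {t : ℤ} {z : ℕ × ℕ}
    (h : InfCl (GZ b) (pull (L g t) ω) (z, 0)) : InfCl (GZ b) (pull (L g 0) ω) (z, t) := by
  have h1 : pull (L g t) ω = pull (L id t) (pull (L g 0) ω) := by
    rw [pull_L, Function.comp_id, add_zero]
  rw [h1] at h
  have h2 := inf_push (G' := GZ b)
    (fun x y hxy => L_hom (T := Canopy b) (T' := Canopy b) (g := id) (fun _ _ h => h) t x y hxy)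
    (L_inj Function.injective_id t) h
  simpa [L] using h2

/-- the set of `u`: the root and its children -/
def Us (b : ℕ) : Set (ℕ × ℕ) := {u | u = (0, 0) ∨ ∃ c < b, u = (1, c)}

theorem all_connected {b : ℕ} (hb : 2 ≤ b) {p : unitInterval} (hp : pc (GZ b) < p)
    (hUC : ∀ᵐ ω ∂(perc Vtx p), ∀ x y, InfCl (GZ b) ω x → InfCl (GZ b) ω y →
      (opn (GZ b) ω).Reachable x y) :
    ∀ᵐ ω ∂(perc Vtx p), ∀ u ∈ Us b, ∀ u' ∈ Us b, ∀ t t' : ℤ, Kinf b (io b u) ω t →
      Kinf b (io b u') ω t' → (opn (TZ b) ω).Reachable (u, t) (u', t') := by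
  have hU : ∀ᵐ ω ∂(perc Vtx p), ∀ c : ℕ, ∀ x y, InfCl (GZ b) (pull (L (ioc b c) 0) ω) x →
      InfCl (GZ b) (pull (L (ioc b c) 0) ω) y →
      (opn (GZ b) (pull (L (ioc b c) 0) ω)).Reachable x y := by
    rw [ae_all_iff]
    exact fun c => unique_copy hUC (ioc_inj c)
  have hC : ∀ᵐ ω ∂(perc Vtx p), ∀ c : ℕ, 1 ≤ c → c < b →
      ∃ t : ℤ, Kinf b (ioc b 0) ω t ∧ Kinf b (ioc b c) ω t := by
    rw [ae_all_iff]
    intro c
    by_cases h : 1 ≤ c ∧ c < b
    · filter_upwards [common_ae hb hp h.1 h.2] with ω hω _ _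
      exact hω
    · exact Filter.Eventually.of_forall (fun ω h1 h2 => absurd ⟨h1, h2⟩ h)
  filter_upwards [hU, hC] with ω hU hC
  obtain ⟨t₁, ht₁, -⟩ := hC 1 le_rfl (by omega)
  -- every point is connected to `((0, 0), t₁)`
  have key : ∀ u ∈ Us b, ∀ t : ℤ, Kinf b (io b u) ω t →
      (opn (TZ b) ω).Reachable (u, t) ((0, 0), t₁) := by
    intro u hu t ht
    -- a copy `c < b` in which `(u, t)` is an infinite point
    have h1 : ∃ c < b, ∃ z, L (ioc b c) 0 z = (u, t) ∧ InfCl (GZ b) (pull (L (ioc b c) 0) ω) z := by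
      rcases hu with rfl | ⟨c, hc, rfl⟩
      · refine ⟨0, by omega, ((0, 0), t), ?_, ?_⟩
        · simp [L, ioc_zero]
        · rw [← ioc_zero_eq] at ht
          exact Kinf_at ht
      · refine ⟨c, hc, ((1, 0), t), ?_, ?_⟩
        · simp [L, ioc_one]
        · exact Kinf_at (Kinf_child ht)
    obtain ⟨c, hc, z, hz, hzi⟩ := h1
    -- a common column point
    have h2 : ∃ t₂ : ℤ, Kinf b (ioc b 0) ω t₂ ∧ Kinf b (ioc b c) ω t₂ := by
      rcases Nat.eq_zero_or_pos c with h | h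
      · subst h
        exact ⟨t₁, ht₁, ht₁⟩
      · exact hC c h hc
    obtain ⟨t₂, h3, h4⟩ := h2
    have h5 := reach_push (ioc_hom hb hc 0) (hU c z ((0, 0), t₂) hzi (Kinf_at h4))
    have h6 := reach_push (ioc_hom hb (show 0 < b by omega) 0)
      (hU 0 ((0, 0), t₂) ((0, 0), t₁) (Kinf_at h3) (Kinf_at ht₁))
    rw [hz] at h5
    simp only [L, ioc_zero, add_zero] at h5 h6
    exact h5.trans h6
  intro u hu u' hu' t t' ht ht'
  exact (key u hu t ht).trans (key u' hu' t' ht').symm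

/-! ### Local events -/

/-- The norm on the canopy tree times `ℤ` seen from the leaf `v_0`. -/
def nrm (b : ℕ) (z : Vtx) : ℕ := max (z.1.1 + len b z.1.2) z.2.natAbs

/-- Balls of the norm. -/
def Bx (b r : ℕ) : Set Vtx := {z | nrm b z ≤ r}

/-- The local version of the event that the cluster of the base point is infinite. -/
def K0 (b r : ℕ) (ω : Cfg Vtx) : Prop :=
  ∃ z, nrm b z = r ∧ (cut (opn (GZ b) ω) (Bx b r)).Reachable o z

/-- `K0` seen from a point of a copy. -/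
def Kr (b r : ℕ) (g : ℕ × ℕ → ℕ × ℕ) (ω : Cfg Vtx) (t : ℤ) : Prop := K0 b r (pull (L g t) ω)

theorem nrm_o (b : ℕ) : nrm b o = 0 := by simp [nrm, len_zero]

theorem nrm_adj {b : ℕ} (hb : 2 ≤ b) {x y : Vtx} (h : (GZ b).Adj x y) :
    nrm b y ≤ nrm b x + 1 := by
  obtain ⟨⟨j, m⟩, s⟩ := x
  obtain ⟨⟨j', m'⟩, s'⟩ := y
  rcases SimpleGraph.boxProd_adj.1 h with ⟨h1, h2⟩ | ⟨h1, h2⟩
  · simp only at h1 h2
    subst h2
    unfold nrm
    rcases h1 with ⟨h3, h4⟩ | ⟨h3, h4⟩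
    · simp only at h3 h4 ⊢
      subst h3 h4
      rcases Nat.eq_zero_or_pos m with hm | hm
      · subst hm
        simp only [Nat.zero_div, len_zero]
        omega
      · have := len_pos hb hm
        omega
    · simp only at h3 h4 ⊢
      subst h3 h4
      rcases Nat.eq_zero_or_pos m' with hm | hm
      · subst hm
        simp only [Nat.zero_div, len_zero]
        omega
      · have := len_pos hb hm
        omega
  · simp only at h1 h2
    unfold nrm
    simp only [Prod.mk.injEq] at h2 ⊢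
    obtain ⟨h3, h4⟩ := h2
    subst h3 h4
    rcases h1 with h1 | h1
    · omega
    · omega

theorem finite_Bx {b : ℕ} (hb : 2 ≤ b) (r : ℕ) : (Bx b r).Finite := by
  refine Set.Finite.subset (s := ((Finset.range (r + 1) ×ˢ Finset.range (b ^ r)) ×ˢ
    Finset.Icc (-(r : ℤ)) r : Finset Vtx)) (Finset.finite_toSet _) ?_
  rintro ⟨⟨j, m⟩, s⟩ hz
  simp only [Bx, nrm, Set.mem_ofPred_eq] at hz
  have h1 : m < b ^ r := lt_of_lt_of_le (lt_pow_len hb m)
    (Nat.pow_le_pow_right (by omega) (by omega))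
  simp only [Finset.coe_product, Set.mem_prod, Finset.mem_coe, Finset.mem_range, Finset.mem_Icc]
  omega

/-- If the cluster of `o` contains a point of norm at least `r`, then `K0 b r` occurs. -/
theorem K0_of_reach {b : ℕ} (hb : 2 ≤ b) {ω : Cfg Vtx} {z : Vtx} {r : ℕ}
    (h : (opn (GZ b) ω).Reachable o z) (hz : r ≤ nrm b z) : K0 b r ω := by
  have key : ∀ {x z : Vtx} (w : (opn (GZ b) ω).Walk x z),
      x ∈ Bx b r → (cut (opn (GZ b) ω) (Bx b r)).Reachable o x → r ≤ nrm b z → K0 b r ω := by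
    intro x z w
    induction w with
    | nil =>
      intro h1 h2 h3
      exact ⟨_, le_antisymm h1 h3, h2⟩
    | @cons u v w huv q ih =>
      intro h1 h2 h3
      by_cases h4 : nrm b u = r
      · exact ⟨u, h4, h2⟩
      · have h5 : nrm b u < r := lt_of_le_of_ne h1 h4
        have h6 := nrm_adj hb huv.1
        have h7 : v ∈ Bx b r := by
          simp only [Bx, Set.mem_ofPred_eq]
          omega
        refine ih h7 (h2.trans (SimpleGraph.Adj.reachable ?_)) h3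
        exact ⟨huv, h1, h7⟩
  obtain ⟨w⟩ := h
  exact key w (by simp [Bx, nrm_o]) (SimpleGraph.Reachable.refl _) hz

theorem K0_of_inf {b : ℕ} (hb : 2 ≤ b) {ω : Cfg Vtx} (h : InfCl (GZ b) ω o) (r : ℕ) :
    K0 b r ω := by
  obtain ⟨z, hz, hz2⟩ := h.exists_notMem_finite (finite_Bx hb r)
  exact K0_of_reach hb hz (by
    simp only [Bx, Set.mem_ofPred_eq] at hz2
    omega)

theorem reach_of_cut {V : Type*} {Γ : SimpleGraph V} {R : Set V} {x y : V}
    (h : (cut Γ R).Reachable x y) : Γ.Reachable x y :=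
  SimpleGraph.Reachable.mono (fun x y (hxy : (cut Γ R).Adj x y) => hxy.1) h

theorem not_K0_of_fin {b : ℕ} {ω : Cfg Vtx} (h : ¬ InfCl (GZ b) ω o) :
    ∃ r₀, ∀ r ≥ r₀, ¬ K0 b r ω := by
  unfold InfCl at h
  rw [Set.not_infinite] at h
  obtain ⟨M, hM⟩ := (h.image (nrm b)).bddAbove
  refine ⟨M + 1, fun r hr ⟨z, hz, hzr⟩ => ?_⟩
  have h1 : nrm b z ≤ M := hM ⟨z, reach_of_cut hzr, rfl⟩
  omega

theorem cut_congr {V : Type*} (G : SimpleGraph V) {ω ω' : Cfg V} {R : Set V}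
    (h : ∀ e ∈ within R, ω e = ω' e) : cut (opn G ω) R = cut (opn G ω') R := by
  ext x y
  constructor
  · rintro ⟨⟨h1, h2⟩, h3, h4⟩
    refine ⟨⟨h1, ?_⟩, h3, h4⟩
    rw [← h s(x, y) (by
      intro z hz
      rcases Sym2.mem_iff.1 hz with rfl | rfl
      · exact h3
      · exact h4)]
    exact h2
  · rintro ⟨⟨h1, h2⟩, h3, h4⟩
    refine ⟨⟨h1, ?_⟩, h3, h4⟩
    rw [h s(x, y) (by
      intro z hz
      rcases Sym2.mem_iff.1 hz with rfl | rfl
      · exact h3
      · exact h4)]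
    exact h2

theorem K0_congr {b r : ℕ} {ω ω' : Cfg Vtx} (h : ∀ e ∈ within (Bx b r), ω e = ω' e) :
    K0 b r ω ↔ K0 b r ω' := by
  unfold K0
  rw [cut_congr (GZ b) h]

theorem measurableSet_cut {V : Type*} [Countable V] (G : SimpleGraph V) (R : Set V) (x y : V) :
    MeasurableSet {ω : Cfg V | (cut (opn G ω) R).Reachable x y} := by
  refine measurableSet_reachable (Γ := fun ω => cut (opn G ω) R) ?_ x y
  intro x y
  by_cases h : x ∈ R ∧ y ∈ R
  · have : {ω : Cfg V | (cut (opn G ω) R).Adj x y} = {ω : Cfg V | (opn G ω).Adj x y} := by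
      ext ω
      simp [cut, h.1, h.2]
    rw [this]
    exact measurableSet_opn_adj G x y
  · have : {ω : Cfg V | (cut (opn G ω) R).Adj x y} = ∅ := by
      ext ω
      simp only [cut, Set.mem_ofPred_eq, Set.mem_empty_iff_false, iff_false]
      tauto
    rw [this]
    exact MeasurableSet.empty

theorem measurableSet_K0 (b r : ℕ) : MeasurableSet {ω | K0 b r ω} := by
  have : {ω | K0 b r ω} = ⋃ z, ⋃ (_ : nrm b z = r),
      {ω | (cut (opn (GZ b) ω) (Bx b r)).Reachable o z} := by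
    ext ω
    simp [K0]
  rw [this]
  exact MeasurableSet.iUnion (fun z => MeasurableSet.iUnion (fun _ => measurableSet_cut _ _ _ _))

theorem measurableSet_Kr (b r : ℕ) (g : ℕ × ℕ → ℕ × ℕ) (t : ℤ) :
    MeasurableSet {ω | Kr b r g ω t} :=
  measurable_pull _ (measurableSet_K0 b r)

/-- The finite boxes of `T+ × ℤ`. -/
def BM (b M : ℕ) : Set Vtx := {z | z.1.1 ≤ M ∧ z.1.2 < b ^ z.1.1 ∧ z.2.natAbs ≤ M}

theorem good_adj {b : ℕ} (hb : 2 ≤ b) {x y : Vtx} (h : (TZ b).Adj x y)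
    (hx : x.1.2 < b ^ x.1.1) : y.1.2 < b ^ y.1.1 := by
  obtain ⟨⟨j, m⟩, s⟩ := x
  obtain ⟨⟨j', m'⟩, s'⟩ := y
  simp only at hx ⊢
  rcases SimpleGraph.boxProd_adj.1 h with ⟨h1, h2⟩ | ⟨h1, h2⟩
  · rcases h1 with ⟨h3, h4⟩ | ⟨h3, h4⟩
    · simp only at h3 h4
      subst h3
      rw [← h4, Nat.div_lt_iff_lt_mul (by omega)] at hx
      rwa [pow_succ]
    · simp only at h3 h4
      subst h3
      rw [← h4, Nat.div_lt_iff_lt_mul (by omega)]
      rwa [pow_succ] at hx
  · simp only [Prod.mk.injEq] at h2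
    obtain ⟨h3, h4⟩ := h2
    subst h3 h4
    exact hx

theorem reach_BM {b : ℕ} (hb : 2 ≤ b) {ω : Cfg Vtx} {x y : Vtx}
    (h : (opn (TZ b) ω).Reachable x y) (hx : x.1.2 < b ^ x.1.1) :
    ∃ M₀, ∀ M ≥ M₀, (cut (opn (TZ b) ω) (BM b M)).Reachable x y := by
  obtain ⟨w⟩ := h
  induction w with
  | nil => exact ⟨0, fun M _ => SimpleGraph.Reachable.refl _⟩
  | @cons u v w huv q ih =>
    have hv := good_adj hb huv.1 hx
    obtain ⟨M₀, h0⟩ := ih hv
    refine ⟨M₀ + (u.1.1 + u.2.natAbs + v.1.1 + v.2.natAbs), fun M hM => ?_⟩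
    refine (SimpleGraph.Adj.reachable ?_).trans (h0 M (by omega))
    refine ⟨huv, ⟨by omega, hx, by omega⟩, ⟨by omega, hv, by omega⟩⟩

/-! ### Choice of the scales -/

theorem tendsto_zero_of_eventually {Ω : Type*} [MeasurableSpace Ω] {μ : Measure Ω}
    [IsFiniteMeasure μ] {E : ℕ → Set Ω} (hE : ∀ n, MeasurableSet (E n))
    (h : ∀ᵐ ω ∂μ, ∀ᶠ n in Filter.atTop, ω ∉ E n) :
    Filter.Tendsto (fun n => μ (E n)) Filter.atTop (nhds 0) := by
  have := tendsto_measure_of_ae_tendsto_indicator_of_isFiniteMeasure (μ := μ) (A := ∅)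
    Filter.atTop MeasurableSet.empty hE (by
      filter_upwards [h] with ω hω
      filter_upwards [hω] with n hn
      simp [hn])
  simpa using this

/-- The set of the root and its children as a finite set. -/
def UF (b : ℕ) : Finset (ℕ × ℕ) := insert (0, 0) ((Finset.range b).image (fun c => (1, c)))

theorem mem_UF {b : ℕ} {u : ℕ × ℕ} : u ∈ UF b ↔ u ∈ Us b := by
  simp only [UF, Us, Finset.mem_insert, Finset.mem_image, Finset.mem_range, Set.mem_ofPred_eq]
  constructor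
  · rintro (h | ⟨c, h1, h2⟩)
    · exact Or.inl h
    · exact Or.inr ⟨c, h1, h2.symm⟩
  · rintro (h | ⟨c, h1, h2⟩)
    · exact Or.inl h
    · exact Or.inr ⟨c, h1, h2.symm⟩

theorem Us_good {b : ℕ} {u : ℕ × ℕ} (hu : u ∈ Us b) : u.2 < b ^ u.1 := by
  rcases hu with rfl | ⟨c, hc, rfl⟩
  · simp
  · simpa using hc

theorem exists_W {b : ℕ} (hb : 2 ≤ b) {p : unitInterval} (hp : pc (GZ b) < p) {δ : ℝ≥0∞}
    (hδ : δ ≠ 0) : ∃ W : ℕ, 0 < W ∧
      perc Vtx p {ω | ∀ t : ℤ, 0 ≤ t → t < W → ¬ Kinf b (io b (0, 0)) ω t} ≤ δ := by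
  let E : ℕ → Set (Cfg Vtx) := fun n =>
    {ω | ∀ t : ℤ, -n ≤ t → t < n → ¬ Kinf b (io b (0, 0)) ω t}
  have hE : ∀ n, MeasurableSet (E n) := by
    intro n
    have : E n = ⋂ t : ℤ, ⋂ (_ : -n ≤ t), ⋂ (_ : t < n), {ω | Kinf b (io b (0, 0)) ω t}ᶜ := by
      ext ω
      simp [E]
    rw [this]
    exact MeasurableSet.iInter (fun t => MeasurableSet.iInter (fun _ =>
      MeasurableSet.iInter (fun _ => (measurableSet_Kinf _ _ _).compl)))
  have h1 : ∀ᵐ ω ∂(perc Vtx p), ∀ᶠ n in Filter.atTop, ω ∉ E n := by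
    filter_upwards [common_ae hb hp le_rfl (show 1 < b by omega)] with ω hω
    obtain ⟨t, ht, -⟩ := hω
    rw [ioc_zero_eq] at ht
    filter_upwards [Filter.eventually_ge_atTop (t.natAbs + 1)] with n hn
    intro hmem
    exact hmem t (by omega) (by omega) ht
  have h2 := tendsto_zero_of_eventually hE h1
  have h3 := (tendsto_order.1 h2).2 δ (pos_iff_ne_zero.2 hδ)
  obtain ⟨n, hn1, hn2⟩ := (h3.and (Filter.eventually_ge_atTop 1)).exists
  refine ⟨2 * n, by omega, ?_⟩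
  have h4 := perc_pull p (L_inj Function.injective_id (n : ℤ)) (hE n)
  have h5 : {ω : Cfg Vtx | pull (L id (n : ℤ)) ω ∈ E n} =
      {ω | ∀ t : ℤ, 0 ≤ t → t < (2 * n : ℕ) → ¬ Kinf b (io b (0, 0)) ω t} := by
    ext ω
    simp only [E, Set.mem_ofPred_eq, Kinf_shift]
    constructor
    · intro h t h6 h7
      have := h (t - n) (by omega) (by push_cast at h7; omega)
      simpa using this
    · intro h t h6 h7
      exact h (t + n) (by omega) (by push_cast; omega)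
  rw [← h5, h4]
  exact hn1.le

theorem exists_r {b : ℕ} {p : unitInterval} (W : ℕ) {δ : ℝ≥0∞} (hδ : δ ≠ 0) :
    ∃ r : ℕ, perc Vtx p {ω | ∃ u ∈ Us b, ∃ t : ℤ, 0 ≤ t ∧ t < 2 * W ∧
      Kr b r (io b u) ω t ∧ ¬ Kinf b (io b u) ω t} ≤ δ := by
  let E : ℕ → Set (Cfg Vtx) := fun r => ⋃ u ∈ UF b, ⋃ t ∈ Finset.Ico (0 : ℤ) (2 * W),
    ({ω | Kr b r (io b u) ω t} \ {ω | Kinf b (io b u) ω t})
  have hE : ∀ n, MeasurableSet (E n) := fun n =>
    Finset.measurableSet_biUnion _ (fun u _ => Finset.measurableSet_biUnion _ (fun t _ =>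
      (measurableSet_Kr _ _ _ _).diff (measurableSet_Kinf _ _ _)))
  have h1 : ∀ ω, ∀ᶠ n in Filter.atTop, ω ∉ E n := by
    intro ω
    have h2 : ∀ u ∈ UF b, ∀ᶠ n in Filter.atTop, ∀ t ∈ Finset.Ico (0 : ℤ) (2 * W),
        ¬ (Kr b n (io b u) ω t ∧ ¬ Kinf b (io b u) ω t) := by
      intro u _
      rw [Filter.eventually_all_finset]
      intro t _
      by_cases h : Kinf b (io b u) ω t
      · exact Filter.Eventually.of_forall (fun n hn => hn.2 h)
      · obtain ⟨r₀, hr⟩ := not_K0_of_fin h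
        filter_upwards [Filter.eventually_ge_atTop r₀] with n hn h3
        exact hr n hn h3.1
    have h3 := (Filter.eventually_all_finset (UF b)).2 h2
    filter_upwards [h3] with n hn hmem
    simp only [E, Set.mem_iUnion] at hmem
    obtain ⟨u, hu, t, ht, h4⟩ := hmem
    exact hn u hu t ht h4
  have h2 := tendsto_zero_of_eventually (μ := perc Vtx p) hE (ae_of_all _ h1)
  have h3 := (tendsto_order.1 h2).2 δ (pos_iff_ne_zero.2 hδ)
  obtain ⟨n, hn⟩ := h3.exists
  refine ⟨n, le_trans (measure_mono ?_) hn.le⟩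
  rintro ω ⟨u, hu, t, h4, h5, h6⟩
  simp only [E, Set.mem_iUnion]
  exact ⟨u, mem_UF.2 hu, t, Finset.mem_Ico.2 ⟨h4, h5⟩, h6⟩

theorem exists_M {b : ℕ} (hb : 2 ≤ b) {p : unitInterval} (hp : pc (GZ b) < p)
    (hUC : ∀ᵐ ω ∂(perc Vtx p), ∀ x y, InfCl (GZ b) ω x → InfCl (GZ b) ω y →
      (opn (GZ b) ω).Reachable x y) (W M₁ : ℕ)
    {δ : ℝ≥0∞} (hδ : δ ≠ 0) :
    ∃ M ≥ M₁, perc Vtx p {ω | ∃ u ∈ Us b, ∃ u' ∈ Us b, ∃ t : ℤ, 0 ≤ t ∧ t < 2 * W ∧
      ∃ t' : ℤ, 0 ≤ t' ∧ t' < 2 * W ∧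
      Kinf b (io b u) ω t ∧ Kinf b (io b u') ω t' ∧
      ¬ (cut (opn (TZ b) ω) (BM b M)).Reachable (u, t) (u', t')} ≤ δ := by
  let E : ℕ → Set (Cfg Vtx) := fun M => ⋃ u ∈ UF b, ⋃ u' ∈ UF b,
    ⋃ t ∈ Finset.Ico (0 : ℤ) (2 * W), ⋃ t' ∈ Finset.Ico (0 : ℤ) (2 * W),
    (({ω | Kinf b (io b u) ω t} ∩ {ω | Kinf b (io b u') ω t'}) \
      {ω | (cut (opn (TZ b) ω) (BM b M)).Reachable (u, t) (u', t')})
  have hE : ∀ n, MeasurableSet (E n) := fun n =>
    Finset.measurableSet_biUnion _ (fun u _ => Finset.measurableSet_biUnion _ (fun u' _ =>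
    Finset.measurableSet_biUnion _ (fun t _ => Finset.measurableSet_biUnion _ (fun t' _ =>
      ((measurableSet_Kinf _ _ _).inter (measurableSet_Kinf _ _ _)).diff
        (measurableSet_cut _ _ _ _)))))
  have h1 : ∀ᵐ ω ∂(perc Vtx p), ∀ᶠ n in Filter.atTop, ω ∉ E n := by
    filter_upwards [all_connected hb hp hUC] with ω hω
    have h2 : ∀ u ∈ UF b, ∀ᶠ n in Filter.atTop, ∀ u' ∈ UF b, ∀ t ∈ Finset.Ico (0 : ℤ) (2 * W),
        ∀ t' ∈ Finset.Ico (0 : ℤ) (2 * W),
        ¬ (Kinf b (io b u) ω t ∧ Kinf b (io b u') ω t' ∧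
        ¬ (cut (opn (TZ b) ω) (BM b n)).Reachable (u, t) (u', t')) := by
      intro u hu
      rw [Filter.eventually_all_finset]
      intro u' hu'
      rw [Filter.eventually_all_finset]
      intro t _
      rw [Filter.eventually_all_finset]
      intro t' _
      by_cases h : Kinf b (io b u) ω t ∧ Kinf b (io b u') ω t'
      · have h3 := hω u (mem_UF.1 hu) u' (mem_UF.1 hu') t t' h.1 h.2
        obtain ⟨M₀, hM⟩ := reach_BM hb h3 (Us_good (mem_UF.1 hu))
        filter_upwards [Filter.eventually_ge_atTop M₀] with n hn h4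
        exact h4.2.2 (hM n hn)
      · exact Filter.Eventually.of_forall (fun n hn => h ⟨hn.1, hn.2.1⟩)
    have h3 := (Filter.eventually_all_finset (UF b)).2 h2
    filter_upwards [h3] with n hn hmem
    simp only [E, Set.mem_iUnion] at hmem
    obtain ⟨u, hu, u', hu', t, ht, t', ht', h4⟩ := hmem
    exact hn u hu u' hu' t ht t' ht' ⟨h4.1.1, h4.1.2, h4.2⟩
  have h2 := tendsto_zero_of_eventually (μ := perc Vtx p) hE h1
  have h3 := (tendsto_order.1 h2).2 δ (pos_iff_ne_zero.2 hδ)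
  obtain ⟨n, hn, hn2⟩ := (h3.and (Filter.eventually_ge_atTop M₁)).exists
  refine ⟨n, hn2, le_trans (measure_mono ?_) hn.le⟩
  rintro ω ⟨u, hu, u', hu', t, h4, h5, t', h6, h7, h8, h9, h10⟩
  simp only [E, Set.mem_iUnion]
  exact ⟨u, mem_UF.2 hu, u', mem_UF.2 hu', t, Finset.mem_Ico.2 ⟨h4, h5⟩,
    t', Finset.mem_Ico.2 ⟨h6, h7⟩, ⟨h8, h9⟩, h10⟩

/-! ### Transfer to the canopy -/

/-- The map from `T+` to the canopy placing the root at `v`. -/
def ph (b : ℕ) (v z : ℕ × ℕ) : ℕ × ℕ := (v.1 - z.1, v.2 * b ^ z.1 + z.2)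

theorem ph_child (b : ℕ) (v : ℕ × ℕ) (c : ℕ) :
    ph b (child b v c) ∘ io b (0, 0) = ph b v ∘ io b (1, c) := by
  funext z
  simp only [Function.comp, ph, io, child, zero_mul, zero_add]
  refine Prod.ext (by simp only; omega) ?_
  simp only
  ring

theorem ph_root (b : ℕ) (v : ℕ × ℕ) : ph b v (0, 0) = v := by
  simp [ph]

theorem ph_one (b : ℕ) (v : ℕ × ℕ) (c : ℕ) : ph b v (1, c) = child b v c := by
  simp [ph, child, mul_comm]

/-- The seed at the root. -/
def S0 (b W r M : ℕ) (η : Cfg Vtx) : Prop :=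
  (∃ t : ℤ, 0 ≤ t ∧ t < W ∧ Kr b r (io b (0, 0)) η t) ∧
  ∀ u ∈ Us b, ∀ u' ∈ Us b, ∀ t t' : ℤ, 0 ≤ t → t < 2 * W → 0 ≤ t' → t' < 2 * W →
    Kr b r (io b u) η t → Kr b r (io b u') η t' →
    (cut (opn (TZ b) η) (BM b M)).Reachable (u, t) (u', t')

theorem measurableSet_S0 (b W r M : ℕ) : MeasurableSet {η | S0 b W r M η} := by
  have h1 : {η | S0 b W r M η} =
      (⋃ t : ℤ, ⋃ (_ : 0 ≤ t), ⋃ (_ : t < W), {η | Kr b r (io b (0, 0)) η t}) ∩
      (⋂ u : ℕ × ℕ, ⋂ (_ : u ∈ Us b), ⋂ u' : ℕ × ℕ, ⋂ (_ : u' ∈ Us b),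
        ⋂ t : ℤ, ⋂ t' : ℤ, ⋂ (_ : 0 ≤ t), ⋂ (_ : t < 2 * W), ⋂ (_ : 0 ≤ t'), ⋂ (_ : t' < 2 * W),
        ({η | Kr b r (io b u) η t}ᶜ ∪ ({η | Kr b r (io b u') η t'}ᶜ ∪
        {η | (cut (opn (TZ b) η) (BM b M)).Reachable (u, t) (u', t')}))) := by
    ext η
    simp only [S0, Set.mem_ofPred_eq, Set.mem_inter_iff, Set.mem_iUnion, Set.mem_iInter,
      exists_prop, Set.mem_union, Set.mem_compl_iff]
    refine and_congr Iff.rfl ?_
    refine forall_congr' fun u => forall_congr' fun hu => forall_congr' fun u' =>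
      forall_congr' fun hu' => forall_congr' fun t => forall_congr' fun t' =>
      forall_congr' fun h1 => forall_congr' fun h2 => forall_congr' fun h3 =>
      forall_congr' fun h4 => ?_
    tauto
  rw [h1]
  refine MeasurableSet.inter ?_ ?_
  · exact MeasurableSet.iUnion fun t => MeasurableSet.iUnion fun _ => MeasurableSet.iUnion fun _ =>
      measurableSet_Kr _ _ _ _
  · exact MeasurableSet.iInter fun u => MeasurableSet.iInter fun _ => MeasurableSet.iInter fun u' =>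
      MeasurableSet.iInter fun _ => MeasurableSet.iInter fun t => MeasurableSet.iInter fun t' =>
      MeasurableSet.iInter fun _ => MeasurableSet.iInter fun _ => MeasurableSet.iInter fun _ =>
      MeasurableSet.iInter fun _ => ((measurableSet_Kr _ _ _ _).compl).union
        (((measurableSet_Kr _ _ _ _).compl).union (measurableSet_cut _ _ _ _))

theorem perc_S0 {b : ℕ} (hb : 2 ≤ b) {p : unitInterval} (hp : pc (GZ b) < p)
    (hUC : ∀ᵐ ω ∂(perc Vtx p), ∀ x y, InfCl (GZ b) ω x → InfCl (GZ b) ω y →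
      (opn (GZ b) ω).Reachable x y) {ε : ℝ≥0∞}
    (hε : ε ≠ 0) : ∃ W r M : ℕ, 0 < W ∧ 2 * W + 2 * r + 1 ≤ M ∧
      perc Vtx p {η | ¬ S0 b W r M η} ≤ ε := by
  have hδ : ε / 3 ≠ 0 := by
    intro h
    rw [ENNReal.div_eq_zero_iff] at h
    rcases h with h | h
    · exact hε h
    · exact absurd h (by simp)
  obtain ⟨W, hW, h1⟩ := exists_W hb hp hδ
  obtain ⟨r, h2⟩ := exists_r (b := b) (p := p) W hδ
  obtain ⟨M, hM, h3⟩ := exists_M hb hp hUC W (2 * W + 2 * r + 1) hδ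
  refine ⟨W, r, M, hW, hM, ?_⟩
  rw [← ENNReal.add_thirds ε]
  refine le_trans (measure_mono ?_) (le_trans (measure_union_le _ _)
    (add_le_add (le_trans (measure_union_le _ _) (add_le_add h1 h2)) h3))
  intro η hη
  by_contra hcon
  simp only [Set.mem_union, Set.mem_ofPred_eq, not_or] at hcon
  obtain ⟨⟨h4, h5⟩, h6⟩ := hcon
  refine hη ⟨?_, ?_⟩
  · push Not at h4
    obtain ⟨t, h7, h8, h9⟩ := h4
    exact ⟨t, h7, h8, K0_of_inf hb h9 r⟩
  · intro u hu u' hu' t t' h7 h8 h9 h10 h11 h12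
    by_contra h13
    have h14 : Kinf b (io b u) η t := by
      by_contra h15
      exact h5 ⟨u, hu, t, h7, h8, h11, h15⟩
    have h16 : Kinf b (io b u') η t' := by
      by_contra h15
      exact h5 ⟨u', hu', t', h9, h10, h12, h15⟩
    exact h6 ⟨u, hu, u', hu', t, h7, h8, t', h9, h10, h14, h16, h13⟩

/-- `S0` depends only on the pairs in the box. -/
theorem S0_congr {b W r M : ℕ} (hb : 2 ≤ b) (hM : 2 * W + 2 * r + 1 ≤ M) {η η' : Cfg Vtx}
    (h : ∀ e ∈ within (BM b M), η e = η' e) : S0 b W r M η ↔ S0 b W r M η' := by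
  have h1 : cut (opn (TZ b) η) (BM b M) = cut (opn (TZ b) η') (BM b M) := cut_congr _ h
  have h2 : ∀ u ∈ Us b, ∀ t : ℤ, 0 ≤ t → t < 2 * W →
      (Kr b r (io b u) η t ↔ Kr b r (io b u) η' t) := by
    intro u hu t ht ht2
    refine K0_congr ?_
    intro e he
    refine h _ ?_
    intro z hz
    rw [Sym2.mem_map] at hz
    obtain ⟨a, ha, rfl⟩ := hz
    have h3 := he a ha
    obtain ⟨⟨j, m⟩, s⟩ := a
    simp only [Bx, nrm, Set.mem_ofPred_eq] at h3
    have h4 : m < b ^ dep b (j, m) :=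
      lt_of_lt_of_le (lt_pow_len hb m) (Nat.pow_le_pow_right (by omega) (by simp only [dep]; omega))
    have h5 : dep b (j, m) ≤ 2 * r := by simp only [dep]; omega
    simp only [BM, L, io, Set.mem_ofPred_eq]
    refine ⟨?_, ?_, by omega⟩
    · rcases hu with rfl | ⟨c, hc, rfl⟩
      · simp only; omega
      · simp only; omega
    · rcases hu with rfl | ⟨c, hc, rfl⟩
      · simpa using h4
      · simp only
        calc c * b ^ dep b (j, m) + m < c * b ^ dep b (j, m) + b ^ dep b (j, m) := by omega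
          _ = (c + 1) * b ^ dep b (j, m) := by ring
          _ ≤ b * b ^ dep b (j, m) := Nat.mul_le_mul_right _ (by omega)
          _ = b ^ (1 + dep b (j, m)) := by ring
  have h00 : (0, 0) ∈ Us b := Or.inl rfl
  unfold S0
  rw [h1]
  refine and_congr ?_ ?_
  · refine exists_congr fun t => ?_
    constructor
    · rintro ⟨h3, h4, h5⟩
      exact ⟨h3, h4, (h2 _ h00 t h3 (by omega)).1 h5⟩
    · rintro ⟨h3, h4, h5⟩
      exact ⟨h3, h4, (h2 _ h00 t h3 (by omega)).2 h5⟩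
  · refine forall_congr' fun u => forall_congr' fun hu => forall_congr' fun u' =>
      forall_congr' fun hu' => forall_congr' fun t => forall_congr' fun t' =>
      forall_congr' fun h3 => forall_congr' fun h4 => forall_congr' fun h5 =>
      forall_congr' fun h6 => ?_
    rw [h2 u hu t h3 h4, h2 u' hu' t' h5 h6]

theorem ph_mem {b M : ℕ} (hb : 2 ≤ b) {v : ℕ × ℕ} (hv : M ≤ v.1) (s : ℤ) {z : Vtx}
    (hz : z ∈ BM b M) : L (ph b v) s z ∈ Reg b M v (s - M) (s + M) := by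
  obtain ⟨h1, h2, h3⟩ := hz
  refine ⟨⟨z.1.1, h1, ?_, ?_⟩, ?_, ?_⟩
  · simp only [L, ph]; omega
  · simp only [L, ph]
    rw [mul_comm, Nat.mul_add_div (by positivity), Nat.div_eq_of_lt h2, add_zero]
  · simp only [L]; omega
  · simp only [L]; omega

theorem ph_adj {b M : ℕ} (hb : 2 ≤ b) {v : ℕ × ℕ} (hv : M ≤ v.1) {s : ℤ} {x y : Vtx}
    (hx : x ∈ BM b M) (hy : y ∈ BM b M) (h : (TZ b).Adj x y) :
    (GZ b).Adj (L (ph b v) s x) (L (ph b v) s y) := by
  obtain ⟨h1, -, -⟩ := hx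
  obtain ⟨h2, -, -⟩ := hy
  have hb0 : 0 < b := by omega
  have key : ∀ d m m' : ℕ, d + 1 ≤ M → m' / b = m →
      (Canopy b).Adj (ph b v (d, m)) (ph b v (d + 1, m')) := by
    intro d m m' hd hm
    right
    simp only [ph]
    refine ⟨by omega, ?_⟩
    have : v.2 * b ^ (d + 1) + m' = b * (v.2 * b ^ d) + m' := by ring
    rw [this, Nat.mul_add_div hb0, hm]
  obtain ⟨⟨j, m⟩, t⟩ := x
  obtain ⟨⟨j', m'⟩, t'⟩ := y
  simp only at h1 h2
  refine SimpleGraph.boxProd_adj.2 ?_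
  rcases SimpleGraph.boxProd_adj.1 h with ⟨h3, h4⟩ | ⟨h3, h4⟩
  · left
    simp only at h4
    refine ⟨?_, by simp only [L]; omega⟩
    simp only [L]
    rcases h3 with ⟨h5, h6⟩ | ⟨h5, h6⟩
    · simp only at h5 h6
      subst h5
      exact key _ _ _ h2 h6
    · simp only at h5 h6
      subst h5
      exact (key _ _ _ h1 h6).symm
  · right
    simp only [Prod.mk.injEq] at h4
    obtain ⟨h5, h6⟩ := h4
    subst h5 h6
    refine ⟨?_, rfl⟩
    simp only [L]
    rcases h3 with h3 | h3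
    · left; omega
    · right; omega

theorem ph_reach {b M : ℕ} (hb : 2 ≤ b) {v : ℕ × ℕ} (hv : M ≤ v.1) {s : ℤ} {ω : Cfg Vtx}
    {x y : Vtx} (h : (cut (opn (TZ b) (pull (L (ph b v) s) ω)) (BM b M)).Reachable x y) :
    (cut (opn (GZ b) ω) (Reg b M v (s - M) (s + M))).Reachable
      (L (ph b v) s x) (L (ph b v) s y) := by
  let f : cut (opn (TZ b) (pull (L (ph b v) s) ω)) (BM b M) →g
      cut (opn (GZ b) ω) (Reg b M v (s - M) (s + M)) :=
    { toFun := L (ph b v) s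
      map_rel' := by
        rintro a c ⟨⟨h1, h2⟩, h3, h4⟩
        refine ⟨⟨ph_adj hb hv h3 h4 h1, ?_⟩, ph_mem hb hv s h3, ph_mem hb hv s h4⟩
        simpa [pull] using h2 }
  exact h.map f

theorem ph_injOn {b M : ℕ} {v : ℕ × ℕ} (hv : M ≤ v.1) (s : ℤ) :
    Set.InjOn (L (ph b v) s) (BM b M) := by
  rintro ⟨⟨j, m⟩, t⟩ ⟨h1, -, -⟩ ⟨⟨j', m'⟩, t'⟩ ⟨h2, -, -⟩ h
  simp only [L, ph, Prod.mk.injEq] at h h1 h2
  obtain ⟨⟨h3, h4⟩, h5⟩ := h
  have h6 : j = j' := by omega
  subst h6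
  have h7 : m = m' := by omega
  have h8 : t = t' := by omega
  rw [h7, h8]

theorem sym2_injOn {V V' : Type*} {φ : V → V'} {R : Set V} (h : Set.InjOn φ R) :
    Set.InjOn (Sym2.map φ) (within R) := by
  intro e he e' he' hee
  induction e using Sym2.ind with
  | _ x y =>
  induction e' using Sym2.ind with
  | _ x' y' =>
  have hx : x ∈ R := he x (Sym2.mem_mk_left _ _)
  have hy : y ∈ R := he y (Sym2.mem_mk_right _ _)
  have hx' : x' ∈ R := he' x' (Sym2.mem_mk_left _ _)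
  have hy' : y' ∈ R := he' y' (Sym2.mem_mk_right _ _)
  simp only [Sym2.map_mk, Sym2.eq_iff] at hee
  rw [Sym2.eq_iff]
  rcases hee with ⟨h1, h2⟩ | ⟨h1, h2⟩
  · exact Or.inl ⟨h hx hx' h1, h hy hy' h2⟩
  · exact Or.inr ⟨h hx hy' h1, h hy hx' h2⟩

end T3

open T3

theorem exists_seeds_of_unique (b : ℕ) (hb : 2 ≤ b) (p : unitInterval) (hp : pc (GZ b) < p)
    (hUC : ∀ᵐ ω ∂(perc Vtx p), ∀ x y, InfCl (GZ b) ω x → InfCl (GZ b) ω y →
      (opn (GZ b) ω).Reachable x y)
    {ε : ℝ≥0∞} (hε : ε ≠ 0) : Nonempty (Seeds b p ε) := by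
  obtain ⟨W, r, M, hW, hM, hprob⟩ := perc_S0 hb hp hUC hε
  have hK : ∀ (ω : Cfg Vtx) (v : ℕ × ℕ) (s t : ℤ),
      Kr b r (io b (0, 0)) (pull (L (ph b v) s) ω) t ↔
        K0 b r (pull (L (ph b v ∘ io b (0, 0)) (t + s)) ω) := by
    intro ω v s t
    unfold Kr
    rw [pull_L]
  have hKc : ∀ (ω : Cfg Vtx) (v : ℕ × ℕ) (s t : ℤ) (c : ℕ),
      Kr b r (io b (1, c)) (pull (L (ph b v) s) ω) t ↔
        K0 b r (pull (L (ph b (child b v c) ∘ io b (0, 0)) (t + s)) ω) := by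
    intro ω v s t c
    unfold Kr
    rw [pull_L, ph_child]
  refine ⟨{
    W := W
    M := M
    K := fun ω v t => K0 b r (pull (L (ph b v ∘ io b (0, 0)) t) ω)
    S := fun ω v i => S0 b W r M (pull (L (ph b v) (i * W)) ω)
    hW := hW
    hM := by omega
    prob := ?_
    dep := ?_
    pt := ?_
    conn := ?_ }⟩
  · intro v i hv
    have h1 := bern_reindex_on (E' := Sym2 Vtx) p (Sym2.map (L (ph b v) (i * W)))
      (within (BM b M)) (sym2_injOn (ph_injOn hv _)) (A := {η | ¬ S0 b W r M η})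
      (measurableSet_S0 b W r M).compl (by
        intro η η' h
        have := S0_congr hb hM h
        simp only [Set.mem_ofPred_eq, this])
    exact h1.trans_le hprob
  · intro v i hv ω ω' h
    have : S0 b W r M (pull (L (ph b v) (i * W)) ω) ↔
        S0 b W r M (pull (L (ph b v) (i * W)) ω') := by
      refine S0_congr hb hM ?_
      intro e he
      refine h _ ?_
      intro z hz
      rw [Sym2.mem_map] at hz
      obtain ⟨a, ha, rfl⟩ := hz
      exact ph_mem hb hv _ (he a ha)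
    exact propext this
  · rintro ω v i hv ⟨⟨t, h1, h2, h3⟩, -⟩
    refine ⟨t + i * W, by omega, ?_, (hK ω v _ t).1 h3⟩
    have : (i + 1) * (W : ℤ) = i * W + W := by ring
    rw [this]
    omega
  · rintro ω v i hv ⟨-, h⟩ u u' hu hu' t t' h1 h2 h3 h4 hKu hKu'
    have e1 : (i + 2) * (W : ℤ) = i * W + 2 * W := by ring
    rw [e1] at h2 h4
    have key : ∀ w : ℕ × ℕ, (w = v ∨ ∃ c < b, w = child b v c) → ∀ t : ℤ,
        K0 b r (pull (L (ph b w ∘ io b (0, 0)) t) ω) →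
        ∃ w₀ ∈ Us b, Kr b r (io b w₀) (pull (L (ph b v) (i * W)) ω) (t - i * W) ∧
          L (ph b v) (i * W) (w₀, t - i * W) = (w, t) := by
      rintro w (rfl | ⟨c, hc, rfl⟩) t ht
      · refine ⟨(0, 0), Or.inl rfl, (hK _ _ _ _).2 ?_, ?_⟩
        · rw [sub_add_cancel]; exact ht
        · simp [L, ph_root]
      · refine ⟨(1, c), Or.inr ⟨c, hc, rfl⟩, (hKc _ _ _ _ _).2 ?_, ?_⟩
        · rw [sub_add_cancel]; exact ht
        · simp [L, ph_one]
    obtain ⟨w, hw, hw1, hw2⟩ := key u hu t hKu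
    obtain ⟨w', hw', hw1', hw2'⟩ := key u' hu' t' hKu'
    have h5 := h w hw w' hw' (t - i * W) (t' - i * W) (by omega) (by omega) (by omega) (by omega)
      hw1 hw1'
    have h6 := ph_reach hb hv h5
    rw [hw2, hw2'] at h6
    exact h6

end Pool.Agent.MP_c3c849_pr
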