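import Pool.Agent.MP_c3c849_pr.Defs2

/-!
# MP_c3c849_pr, module T1a: toolkit for the product Bernoulli measure
-/

open MeasureTheory ProbabilityTheory
open scoped ENNReal

namespace Pool.Agent.MP_c3c849_pr

namespace T1

theorem measurable_mix {E : Type*} (S : Set E) [DecidablePred (· ∈ S)] :
    Measurable (fun (q : (E → Bool) × (E → Bool)) e => if e ∈ S then q.1 e else q.2 e) := by
  refine measurable_pi_lambda _ fun e => ?_
  by_cases he : e ∈ S
  · simp only [he, if_true]; fun_prop
  · simp only [he, if_false]; fun_prop

theorem measurable_reindex {E E' : Type*} (φ : E → E') :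
    Measurable (fun (ω : E' → Bool) e => ω (φ e)) :=
  measurable_pi_lambda _ fun _ => measurable_pi_apply _

theorem bern_pi {E : Type*} (p : unitInterval) (s : Finset E) (t : E → Set Bool) :
    bern E p (Set.pi s t) = ∏ i ∈ s, ber p (t i) := by
  unfold bern
  exact Measure.infinitePi_pi _ (fun i _ => trivial)

theorem measurableSet_boolpi {E : Type*} (s : Finset E) (t : E → Set Bool) :
    MeasurableSet (Set.pi (s : Set E) t) :=
  .pi s.countable_toSet fun _ _ => trivial

end T1

open T1

theorem bern_mix {E : Type*} (p : unitInterval) (S : Set E) [DecidablePred (· ∈ S)] :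
    ((bern E p).prod (bern E p)).map (fun q e => if e ∈ S then q.1 e else q.2 e) = bern E p := by
  refine Measure.eq_infinitePi _ fun s t ht => ?_
  rw [Measure.map_apply (measurable_mix S) (measurableSet_boolpi s t)]
  have : (fun (q : (E → Bool) × (E → Bool)) e => if e ∈ S then q.1 e else q.2 e) ⁻¹'
      ((s : Set E).pi t) =
      (Set.pi ((s.filter (· ∈ S) : Finset E) : Set E) t) ×ˢ
        (Set.pi ((s.filter (fun e => ¬ e ∈ S) : Finset E) : Set E) t) := by
    ext ⟨a, c⟩
    simp only [Set.mem_preimage, Set.mem_pi, Finset.mem_coe, Set.mem_prod, Finset.mem_filter]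
    constructor
    · intro h
      refine ⟨fun i hi => ?_, fun i hi => ?_⟩
      · have := h i hi.1
        rwa [if_pos hi.2] at this
      · have := h i hi.1
        rwa [if_neg hi.2] at this
    · rintro ⟨h1, h2⟩ i hi
      by_cases his : i ∈ S
      · rw [if_pos his]; exact h1 i ⟨hi, his⟩
      · rw [if_neg his]; exact h2 i ⟨hi, his⟩
  rw [this, Measure.prod_prod, bern_pi, bern_pi, Finset.prod_filter_mul_prod_filter_not]

theorem bern_reindex {E E' : Type*} (p : unitInterval) (φ : E → E') (hφ : Function.Injective φ) :
    (bern E' p).map (fun ω e => ω (φ e)) = bern E p := by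
  refine Measure.eq_infinitePi _ fun s t ht => ?_
  rw [Measure.map_apply (measurable_reindex φ) (measurableSet_boolpi s t)]
  have : (fun (ω : E' → Bool) e => ω (φ e)) ⁻¹' ((s : Set E).pi t) =
      Set.pi ((s.map ⟨φ, hφ⟩ : Finset E') : Set E') (Function.extend φ t (fun _ => Set.univ)) := by
    ext ω
    simp only [Set.mem_preimage, Set.mem_pi, Finset.mem_coe, Finset.mem_map,
      Function.Embedding.coeFn_mk, forall_exists_index, and_imp, forall_apply_eq_imp_iff₂]
    constructor
    · intro h i hi
      rw [hφ.extend_apply]
      exact h i hi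
    · intro h i hi
      have := h i hi
      rwa [hφ.extend_apply] at this
  rw [this, bern_pi, Finset.prod_map]
  refine Finset.prod_congr rfl fun i _ => ?_
  rw [Function.Embedding.coeFn_mk, hφ.extend_apply]

theorem bern_reindex_on {E E' : Type*} (p : unitInterval) (φ : E → E') (S : Set E)
    (hφ : Set.InjOn φ S) {A : Set (E → Bool)} (hA : MeasurableSet A)
    (hdep : DependsOn (fun ω => ω ∈ A) S) :
    bern E' p {ω | (fun e => ω (φ e)) ∈ A} = bern E p A := by
  classical
  let φ' : E → E' ⊕ E := fun e => if e ∈ S then Sum.inl (φ e) else Sum.inr e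
  have hφ' : Function.Injective φ' := by
    intro a c h
    by_cases ha : a ∈ S <;> by_cases hc : c ∈ S
    · simp only [φ', ha, hc, if_true, Sum.inl.injEq] at h
      exact hφ ha hc h
    · simp [φ', ha, hc] at h
    · simp [φ', ha, hc] at h
    · simpa [φ', ha, hc] using h
  rw [← bern_reindex p φ' hφ', Measure.map_apply (measurable_reindex φ') hA,
    ← bern_reindex p (Sum.inl : E' → E' ⊕ E) Sum.inl_injective,
    Measure.map_apply (measurable_reindex _)]
  · congr 1
    ext ω
    simp only [Set.mem_preimage, Set.mem_ofPred_eq]
    have : (fun e => ω (Sum.inl (φ e))) ∈ A ↔ (fun e => ω (φ' e)) ∈ A := by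
      refine iff_of_eq (hdep fun e he => ?_)
      simp [φ', he]
    exact this
  · exact (measurable_reindex φ) hA

theorem lintegral_mul_indep {E : Type*} (p : unitInterval) {S T : Set E} (hST : Disjoint S T)
    {f g : (E → Bool) → ℝ≥0∞} (hf : Measurable f) (hg : Measurable g)
    (hfS : DependsOn f S) (hgT : DependsOn g T) :
    ∫⁻ ω, f ω * g ω ∂(bern E p) = (∫⁻ ω, f ω ∂(bern E p)) * ∫⁻ ω, g ω ∂(bern E p) := by
  classical
  conv_lhs => rw [← bern_mix p S]
  rw [lintegral_map (f := fun ω => f ω * g ω) (hf.mul hg) (measurable_mix S),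
    ← lintegral_prod_mul hf.aemeasurable hg.aemeasurable]
  refine lintegral_congr fun q => ?_
  congr 1
  · exact hfS fun e he => if_pos he
  · exact hgT fun e he => if_neg (Set.disjoint_right.mp hST he)

theorem lintegral_prod_indep {E ι : Type*} (p : unitInterval) (s : Finset ι) (S : ι → Set E)
    (hS : (s : Set ι).PairwiseDisjoint S) (f : ι → (E → Bool) → ℝ≥0∞)
    (hf : ∀ i ∈ s, Measurable (f i)) (hfS : ∀ i ∈ s, DependsOn (f i) (S i)) :
    ∫⁻ ω, ∏ i ∈ s, f i ω ∂(bern E p) = ∏ i ∈ s, ∫⁻ ω, f i ω ∂(bern E p) := by
  classical
  induction s using Finset.induction_on with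
  | empty => simp
  | insert a s ha ih =>
    have hS' : (s : Set ι).PairwiseDisjoint S :=
      hS.subset (by simp)
    have hf' : ∀ i ∈ s, Measurable (f i) := fun i hi => hf i (Finset.mem_insert_of_mem hi)
    have hfS' : ∀ i ∈ s, DependsOn (f i) (S i) := fun i hi => hfS i (Finset.mem_insert_of_mem hi)
    simp only [Finset.prod_insert ha]
    rw [← ih hS' hf' hfS']
    refine lintegral_mul_indep p (S := S a) (T := ⋃ i ∈ s, S i) ?_
      (hf a (Finset.mem_insert_self a s)) (Finset.measurable_prod s hf')
      (hfS a (Finset.mem_insert_self a s)) ?_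
    · rw [Set.disjoint_iUnion₂_right]
      intro i hi
      exact hS (Finset.mem_coe.mpr (Finset.mem_insert_self a s))
        (Finset.mem_coe.mpr (Finset.mem_insert_of_mem hi)) (by rintro rfl; exact ha hi)
    · intro x y hxy
      refine Finset.prod_congr rfl fun i hi => ?_
      exact hfS' i hi fun e he => hxy e (Set.mem_biUnion hi he)

theorem measurable_of_dependsOn {E α : Type*} [MeasurableSpace α] {S : Set E} (hS : S.Finite)
    {f : (E → Bool) → α} (h : DependsOn f S) : Measurable f := by
  classical
  have : Finite S := hS
  let r : (E → Bool) → (S → Bool) := fun ω e => ω e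
  let g : (S → Bool) → α := fun x => f (fun e => if he : e ∈ S then x ⟨e, he⟩ else false)
  have hr : Measurable r := measurable_pi_lambda _ fun e => measurable_pi_apply _
  have hg : Measurable g := measurable_of_finite g
  have : f = g ∘ r := by
    ext1 ω
    refine h fun e he => ?_
    simp [r, he]
  rw [this]
  exact hg.comp hr

namespace T1

/-- Independence of two events that depend on disjoint sets of coordinates. -/
theorem measure_inter_indep {E : Type*} (p : unitInterval) {S T : Set E} (hST : Disjoint S T)
    {A B : Set (E → Bool)} (hA : MeasurableSet A) (hB : MeasurableSet B)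
    (hAS : DependsOn (fun ω => ω ∈ A) S) (hBT : DependsOn (fun ω => ω ∈ B) T) :
    bern E p (A ∩ B) = bern E p A * bern E p B := by
  have h := lintegral_mul_indep p hST (f := A.indicator 1) (g := B.indicator 1)
    (measurable_one.indicator hA) (measurable_one.indicator hB) ?_ ?_
  · rw [lintegral_indicator_one hA, lintegral_indicator_one hB] at h
    rw [← h, ← lintegral_indicator_one (hA.inter hB)]
    refine lintegral_congr fun ω => ?_
    by_cases h1 : ω ∈ A <;> by_cases h2 : ω ∈ B <;> simp [h1, h2]
  · intro x y hxy
    have := iff_of_eq (hAS hxy)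
    by_cases h1 : x ∈ A
    · simp [h1, this.mp h1]
    · have h2 : y ∉ A := fun h => h1 (this.mpr h)
      simp [h1, h2]
  · intro x y hxy
    have := iff_of_eq (hBT hxy)
    by_cases h1 : x ∈ B
    · simp [h1, this.mp h1]
    · have h2 : y ∉ B := fun h => h1 (this.mpr h)
      simp [h1, h2]

theorem measurable_force {E : Type*} [DecidableEq E] (F : Finset E) :
    Measurable (force F : (E → Bool) → (E → Bool)) := by
  refine measurable_pi_lambda _ fun e => ?_
  by_cases he : e ∈ F
  · simp only [force, he, if_true]; exact measurable_const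
  · simp only [force, he, if_false]; exact measurable_pi_apply _

theorem ber_true (p : unitInterval) : ber p {true} = ENNReal.ofReal (p : ℝ) := by
  simp [ber]

theorem bern_open {E : Type*} (p : unitInterval) (F : Finset E) :
    bern E p {ω | ∀ e ∈ F, ω e = true} = ENNReal.ofReal (p : ℝ) ^ F.card := by
  have : {ω : E → Bool | ∀ e ∈ F, ω e = true} = Set.pi (F : Set E) (fun _ => {true}) := by
    ext ω; simp [Set.mem_pi]
  rw [this, bern_pi]
  simp [ber_true]

theorem ber_eq_map (p : unitInterval) :
    (volume : Measure unitInterval).map (fun x => decide (x ≤ p)) = ber p := by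
  have hm : Measurable (fun x : unitInterval => decide (x ≤ p)) :=
    measurable_to_bool (by
      have : (fun x : unitInterval => decide (x ≤ p)) ⁻¹' {true} = Set.Iic p := by
        ext x; simp
      rw [this]; exact measurableSet_Iic)
  refine Measure.ext_of_singleton fun a => ?_
  rw [Measure.map_apply hm trivial]
  cases a
  · have : (fun x : unitInterval => decide (x ≤ p)) ⁻¹' {false} = Set.Ioi p := by
      ext x; simp
    rw [this, unitInterval.volume_Ioi]
    simp [ber]
  · have : (fun x : unitInterval => decide (x ≤ p)) ⁻¹' {true} = Set.Iic p := by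
      ext x; simp
    rw [this, unitInterval.volume_Iic]
    simp [ber]

theorem measurable_decide_le (p : unitInterval) :
    Measurable (fun x : unitInterval => decide (x ≤ p)) :=
  measurable_to_bool (by
    have : (fun x : unitInterval => decide (x ≤ p)) ⁻¹' {true} = Set.Iic p := by
      ext x; simp
    rw [this]; exact measurableSet_Iic)

theorem bern_eq_map (E : Type*) (p : unitInterval) :
    (Measure.infinitePi (fun _ : E => (volume : Measure unitInterval))).map
      (fun x e => decide (x e ≤ p)) = bern E p := by
  have h := Measure.infinitePi_map_pi (ι := E) (X := fun _ => unitInterval)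
    (fun _ : E => (volume : Measure unitInterval))
    (Y := fun _ => Bool) (f := fun _ x => decide (x ≤ p)) (fun _ => measurable_decide_le p)
  rw [h]
  unfold bern
  simp only [ber_eq_map]

end T1

theorem force_le {E : Type*} [DecidableEq E] (p : unitInterval) (F : Finset E)
    {A : Set (E → Bool)} (hA : MeasurableSet A) :
    ENNReal.ofReal (p : ℝ) ^ F.card * bern E p {ω | force F ω ∈ A} ≤ bern E p A := by
  have hO : MeasurableSet {ω : E → Bool | ∀ e ∈ F, ω e = true} := by
    have : {ω : E → Bool | ∀ e ∈ F, ω e = true} = Set.pi (F : Set E) (fun _ => {true}) := by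
      ext ω; simp [Set.mem_pi]
    rw [this]; exact measurableSet_boolpi _ _
  have h := measure_inter_indep p (S := (F : Set E)) (T := (F : Set E)ᶜ)
    disjoint_compl_right hO (measurable_force F hA) ?_ ?_
  · rw [bern_open] at h
    change _ * bern E p (force F ⁻¹' A) ≤ _
    rw [← h]
    refine measure_mono ?_
    rintro ω ⟨h1, h2⟩
    have : force F ω = ω := by
      funext e
      by_cases he : e ∈ F
      · simp [force, he, h1 e he]
      · simp [force, he]
    rwa [Set.mem_preimage, this] at h2
  · intro x y hxy
    simp only [Set.mem_ofPred_eq, eq_iff_iff]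
    refine forall₂_congr fun e he => ?_
    rw [hxy e (Finset.mem_coe.mpr he)]
  · intro x y hxy
    have : force F x = force F y := by
      funext e
      by_cases he : e ∈ F
      · simp [force, he]
      · simp only [force, he, if_false]
        exact hxy e (by simpa using he)
    simp only [Set.mem_preimage, this]

theorem bern_mono {E : Type*} {p q : unitInterval} (h : p ≤ q) {A : Set (E → Bool)}
    (hA : MeasurableSet A)
    (hinc : ∀ ω ω' : E → Bool, (∀ e, ω e = true → ω' e = true) → ω ∈ A → ω' ∈ A) :
    bern E p A ≤ bern E q A := by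
  have hm : ∀ r : unitInterval, Measurable
      (fun (x : E → unitInterval) e => decide (x e ≤ r)) := fun r =>
    measurable_pi_lambda _ fun e => (measurable_decide_le r).comp (measurable_pi_apply e)
  rw [← bern_eq_map E p, ← bern_eq_map E q, Measure.map_apply (hm p) hA,
    Measure.map_apply (hm q) hA]
  refine measure_mono fun x hx => ?_
  refine hinc _ _ (fun e he => ?_) hx
  simp only [decide_eq_true_eq] at he ⊢
  exact he.trans h

end Pool.Agent.MP_c3c849_pr
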